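import Pool.Agent.Lib.MP_e34d70_pr.Defs

open MeasureTheory Filter ProbabilityTheory
open scoped NNReal ENNReal Topology

namespace Pool.Agent.SkewBM

universe u

variable {Ω : Type u} {mΩ : MeasurableSpace Ω} {P : Measure Ω} {B : ℝ≥0 → Ω → ℝ}

theorem indep_past (hB : IsBrownianReal B P) {s t : ℝ≥0} (hst : s ≤ t) :
    Indep (MeasurableSpace.comap (fun ω => B t ω - B s ω) inferInstance)
      (⨆ u ≤ s, MeasurableSpace.comap (B u) inferInstance) P := by
  have h := hB.indepFun_shift s
  rw [IndepFun_iff_Indep] at h
  refine indep_of_indep_of_le_left (indep_of_indep_of_le_right h ?_) ?_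
  · refine iSup₂_le (fun u hu => ?_)
    have e : B u = (fun x : Set.Iic s → ℝ => x ⟨u, hu⟩) ∘ (fun ω (t : Set.Iic s) => B t ω) := rfl
    rw [e, ← MeasurableSpace.comap_comp]
    exact MeasurableSpace.comap_mono (measurable_pi_apply _).comap_le
  · have e : (fun ω => B t ω - B s ω)
        = (fun x : ℝ≥0 → ℝ => x (t - s)) ∘ (fun ω t => B (s + t) ω - B s ω) := by
      ext ω; simp [add_tsub_cancel_of_le hst]
    rw [e, ← MeasurableSpace.comap_comp]
    exact MeasurableSpace.comap_mono (measurable_pi_apply _).comap_le

theorem indep_null {m₁ m₂ : MeasurableSpace Ω} (h : Indep m₁ m₂ P) :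
    Indep m₁ (m₂ ⊔ MeasurableSpace.generateFrom {A | P A = 0}) P := by
  rw [Indep_iff] at h ⊢
  intro S A hS hA
  have hle : m₂ ⊔ MeasurableSpace.generateFrom {A | P A = 0}
      ≤ eventuallyMeasurableSpace m₂ (ae P) := by
    refine sup_le (le_eventuallyMeasurableSpace) (MeasurableSpace.generateFrom_le ?_)
    intro A hA
    exact ⟨∅, MeasurableSet.empty, ae_eq_empty.mpr hA⟩
  obtain ⟨A', hA', hAA⟩ := hle A hA
  have h2 : (S ∩ A : Set Ω) =ᵐ[P] (S ∩ A' : Set Ω) := (ae_eq_refl S).inter hAA
  rw [measure_congr h2, measure_congr hAA]
  exact h S A' hS hA'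

section

variable [P.IsComplete]

theorem brownianFiltration_apply (hm : ∀ t, Measurable (B t)) (s : ℝ≥0) :
    brownianFiltration P B hm s = ⨅ j > s, ((⨆ u ≤ j, MeasurableSpace.comap (B u) inferInstance) ⊔
        MeasurableSpace.generateFrom {A | P A = 0}) := by
  unfold brownianFiltration
  rw [Filtration.rightCont_eq]

theorem bf_usual (hm : ∀ t, Measurable (B t)) : UsualConditions (brownianFiltration P B hm) P where
  rightCont := by unfold brownianFiltration; infer_instance
  null A hA := by
    rw [brownianFiltration_apply]
    have h : (⨅ j > (0:ℝ≥0), ((⨆ u ≤ j, MeasurableSpace.comap (B u) inferInstance) ⊔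
        MeasurableSpace.generateFrom {A | P A = 0})) ≥ MeasurableSpace.generateFrom {A | P A = 0} :=
      le_iInf₂ (fun j _ => le_sup_right)
    exact h A (MeasurableSpace.measurableSet_generateFrom hA)

theorem bf_adapted (hm : ∀ t, Measurable (B t)) : StronglyAdapted (brownianFiltration P B hm) B := by
  intro t
  have h : MeasurableSpace.comap (B t) inferInstance ≤ brownianFiltration P B hm t := by
    rw [brownianFiltration_apply]
    refine le_iInf₂ (fun j hj => le_sup_of_le_left ?_)
    exact le_iSup₂_of_le t (le_of_lt hj) le_rfl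
  exact (measurable_iff_comap_le.mpr h).stronglyMeasurable

end

variable [IsProbabilityMeasure P] [P.IsComplete]

theorem bf_indep (hm : ∀ t, Measurable (B t)) (hB : IsBrownianReal B P) {s t : ℝ≥0} (hst : s ≤ t) :
    Indep (MeasurableSpace.comap (fun ω => B t ω - B s ω) inferInstance)
      (brownianFiltration P B hm s) P := by
  rcases eq_or_lt_of_le hst with rfl | hlt
  · have e : (fun ω => B s ω - B s ω) = fun _ : Ω => (0:ℝ) := by ext; simp
    rw [e, MeasurableSpace.comap_const]
    exact indep_bot_left _
  rw [Indep_iff]
  rintro S A ⟨U, hU, rfl⟩ hA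
  have hAm : MeasurableSet A := (brownianFiltration P B hm).le s A hA
  -- times decreasing to `s`
  have hδ : (0:ℝ≥0) < t - s := tsub_pos_of_lt hlt
  set v : ℕ → ℝ≥0 := fun n => s + (t - s) / (n+1) with hv
  have hv1 : ∀ n, s < v n := fun n => by
    simp only [hv]
    exact lt_add_of_pos_right _ (by positivity)
  have hv2 : ∀ n, v n ≤ t := fun n => by
    simp only [hv]
    calc s + (t - s) / (n+1) ≤ s + (t - s) := by
          gcongr
          exact div_le_self zero_le (by simp)
      _ = t := add_tsub_cancel_of_le hst
  have hvlim : Tendsto v atTop (𝓝 s) := by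
    have h1 : Tendsto (fun n : ℕ => (t - s) / ((n:ℝ≥0)+1)) atTop (𝓝 0) := by
      rw [← NNReal.tendsto_coe]
      push_cast
      refine Tendsto.div_atTop tendsto_const_nhds ?_
      exact tendsto_atTop_add_const_right _ _ tendsto_natCast_atTop_atTop
    simpa using h1.const_add s
  have hInd : ∀ n, Indep (MeasurableSpace.comap (fun ω => B t ω - B (v n) ω) inferInstance)
      (brownianFiltration P B hm s) P := by
    intro n
    refine indep_of_indep_of_le_right (indep_null (indep_past hB (hv2 n))) ?_
    rw [brownianFiltration_apply]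
    exact iInf₂_le (v n) (hv1 n)
  -- the two finite measures
  have hΔ : ∀ r, Measurable (fun ω => B t ω - B r ω) := fun r => (hm t).sub (hm r)
  set D : Ω → ℝ := fun ω => B t ω - B s ω with hD
  have hDm : Measurable D := hΔ s
  have hkey : (P.restrict A).map D = (P A) • P.map D := by
    have : IsFiniteMeasure ((P A) • P.map D) := by
      refine ⟨?_⟩
      rw [Measure.smul_apply, Measure.map_apply hDm MeasurableSet.univ]
      exact ENNReal.mul_lt_top (measure_lt_top _ _) (measure_lt_top _ _)
    refine ext_of_forall_integral_eq_of_IsFiniteMeasure (fun g => ?_)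
    rw [integral_map hDm.aemeasurable g.continuous.aestronglyMeasurable, integral_smul_measure,
      integral_map hDm.aemeasurable g.continuous.aestronglyMeasurable]
    have hL : Tendsto (fun n => ∫ ω, g (B t ω - B (v n) ω) ∂(P.restrict A)) atTop
        (𝓝 (∫ ω, g (D ω) ∂(P.restrict A))) := by
      refine tendsto_integral_of_dominated_convergence (fun _ => ‖g‖) (fun n => ?_)
        (integrable_const _) (fun n => ae_of_all _ fun ω => g.norm_coe_le_norm _) ?_
      · exact (g.continuous.measurable.comp (hΔ (v n))).aestronglyMeasurable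
      · refine ae_restrict_of_ae ?_
        filter_upwards [hB.cont] with ω hω
        exact (g.continuous.tendsto _).comp (((hω.tendsto s).comp hvlim).const_sub (B t ω))
    have hR : Tendsto (fun n => ∫ ω, g (B t ω - B (v n) ω) ∂P) atTop
        (𝓝 (∫ ω, g (D ω) ∂P)) := by
      refine tendsto_integral_of_dominated_convergence (fun _ => ‖g‖) (fun n => ?_)
        (integrable_const _) (fun n => ae_of_all _ fun ω => g.norm_coe_le_norm _) ?_
      · exact (g.continuous.measurable.comp (hΔ (v n))).aestronglyMeasurable
      · filter_upwards [hB.cont] with ω hω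
        exact (g.continuous.tendsto _).comp (((hω.tendsto s).comp hvlim).const_sub (B t ω))
    have hLR : ∀ n, ∫ ω, g (B t ω - B (v n) ω) ∂(P.restrict A)
        = (P A).toReal • ∫ ω, g (B t ω - B (v n) ω) ∂P := by
      intro n
      have h1 : IndepFun (A.indicator (fun _ => (1:ℝ))) (fun ω => g (B t ω - B (v n) ω)) P := by
        rw [IndepFun_iff_Indep]
        refine indep_of_indep_of_le_left ?_
          (m₁ := brownianFiltration P B hm s) ?_
        · refine indep_of_indep_of_le_right (hInd n).symm ?_
          have e : (fun ω => g (B t ω - B (v n) ω)) = g ∘ (fun ω => B t ω - B (v n) ω) := rfl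
          rw [e, ← MeasurableSpace.comap_comp]
          exact MeasurableSpace.comap_mono g.continuous.measurable.comap_le
        · have h2 : Measurable[brownianFiltration P B hm s] (A.indicator (fun _ => (1:ℝ))) :=
            measurable_const.indicator hA
          exact h2.comap_le
      have h3 := h1.integral_fun_mul_eq_mul_integral
        (measurable_const.indicator hAm).aestronglyMeasurable
        (g.continuous.measurable.comp (hΔ (v n))).aestronglyMeasurable
      rw [integral_indicator hAm] at h3
      simp only [integral_const, smul_eq_mul, mul_one, measureReal_restrict_apply_univ] at h3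
      rw [smul_eq_mul]
      have h4 : ∫ ω, g (B t ω - B (v n) ω) ∂(P.restrict A)
          = ∫ ω, A.indicator (fun _ => (1:ℝ)) ω * g (B t ω - B (v n) ω) ∂P := by
        rw [← integral_indicator hAm]
        refine integral_congr_ae (ae_of_all _ fun ω => ?_)
        by_cases hω : ω ∈ A
        · simp [hω]
        · simp [hω]
      rw [h4, h3]
      rfl
    refine tendsto_nhds_unique hL ?_
    simp_rw [hLR]
    exact hR.const_smul _
  have h5 := congrArg (fun μ => μ U) hkey
  rw [Measure.map_apply hDm hU, Measure.smul_apply, Measure.map_apply hDm hU,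
    Measure.restrict_apply (hDm hU), smul_eq_mul] at h5
  rw [h5, mul_comm]

/-- `B` is a Brownian motion relative to its augmented filtration -/
theorem bf_fbm (hm : ∀ t, Measurable (B t)) (hB : IsBrownianReal B P) :
    IsFBM (brownianFiltration P B hm) P B where
  isBrownian := hB
  adapted := bf_adapted hm
  indep _ _ hst := bf_indep hm hB hst

end Pool.Agent.SkewBM
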