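import Pool.Agent.Lib.MP_e34d70_pr.Mart

open MeasureTheory Filter ProbabilityTheory
open scoped NNReal ENNReal Topology

namespace Pool.Agent.SkewBM

/-! ### moments of the centered Gaussian law -/

theorem g_memLp (v : ℝ≥0) (p : ℝ≥0∞) (hp : p ≠ ∞) : MemLp (fun x : ℝ => x) p (gaussianReal 0 v) :=
  memLp_id_gaussianReal' p hp

theorem g_int_pow (v : ℝ≥0) (k : ℕ) : Integrable (fun x : ℝ => x ^ k) (gaussianReal 0 v) := by
  have h := (g_memLp v k (by simp)).integrable_norm_pow'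
  refine h.mono' (by fun_prop) (ae_of_all _ fun x => ?_)
  rw [norm_pow]

theorem g_id (v : ℝ≥0) : ∫ x, x ∂(gaussianReal 0 v) = 0 := integral_id_gaussianReal

theorem g_sq (v : ℝ≥0) : ∫ x, x^2 ∂(gaussianReal 0 v) = v := by
  have h := variance_fun_id_gaussianReal (μ := 0) (v := v)
  rw [variance_eq_sub (g_memLp v 2 (by simp))] at h
  simp only [Pi.pow_apply, integral_id_gaussianReal] at h
  simpa using h

/-- the fourth moment of the standard Gaussian law -/
noncomputable def C4 : ℝ := ∫ x, x^4 ∂(gaussianReal 0 1)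

theorem C4_nonneg : 0 ≤ C4 := integral_nonneg (fun x => by positivity)

theorem g_scale (v : ℝ≥0) : gaussianReal 0 v = (gaussianReal 0 1).map (fun x => Real.sqrt v * x) := by
  have := gaussianReal_map_const_mul (μ := 0) (v := 1) (Real.sqrt v)
  rw [this]
  congr 1
  · simp
  · rw [← NNReal.coe_inj]
    simp

theorem g_four (v : ℝ≥0) : ∫ x, x^4 ∂(gaussianReal 0 v) = C4 * v^2 := by
  rw [g_scale v, integral_map (by fun_prop) (by fun_prop)]
  simp_rw [mul_pow]
  rw [integral_const_mul, C4]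
  have : (Real.sqrt v)^4 = (v:ℝ)^2 := by
    have h := Real.sq_sqrt (NNReal.coe_nonneg v)
    calc (Real.sqrt v)^4 = ((Real.sqrt v)^2)^2 := by ring
      _ = _ := by rw [h]
  rw [this]; ring

theorem g_cos (v : ℝ≥0) (u : ℝ) :
    ∫ x, Real.cos (u * x) ∂(gaussianReal 0 v) = Real.exp (-(u^2 * v / 2)) := by
  have h := charFun_gaussianReal (μ := 0) (v := v) u
  rw [charFun_apply_real] at h
  have hre := congrArg Complex.re h
  have hint : Integrable (fun x : ℝ => Complex.exp (u * x * Complex.I)) (gaussianReal 0 v) := by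
    refine (integrable_const (1:ℝ)).mono' (by fun_prop) (ae_of_all _ fun x => ?_)
    have : (u * x * Complex.I : ℂ) = ((u * x : ℝ) : ℂ) * Complex.I := by push_cast; ring
    rw [this, Complex.norm_exp_ofReal_mul_I]
  have h2 : (∫ x : ℝ, Complex.exp (u * x * Complex.I) ∂(gaussianReal 0 v)).re
      = ∫ x : ℝ, (Complex.exp (u * x * Complex.I)).re ∂(gaussianReal 0 v) := by
    exact (integral_re hint).symm
  rw [h2] at hre
  have h3 : ∀ x : ℝ, (Complex.exp (u * x * Complex.I)).re = Real.cos (u * x) := by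
    intro x
    have : (u * x * Complex.I : ℂ) = ((u * x : ℝ) : ℂ) * Complex.I := by push_cast; ring
    rw [this, Complex.exp_ofReal_mul_I_re]
  simp_rw [h3] at hre
  rw [hre]
  have h4 : (u * (0:ℝ) * Complex.I - v * u^2/2 : ℂ) = ((-(u^2 * v/2) : ℝ) : ℂ) := by
    push_cast; ring
  rw [h4, Complex.exp_ofReal_re]

theorem g_sin (v : ℝ≥0) (u : ℝ) :
    ∫ x, Real.sin (u * x) ∂(gaussianReal 0 v) = 0 := by
  have h : (gaussianReal 0 v).map (fun x => -x) = gaussianReal 0 v := by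
    rw [gaussianReal_map_neg]; simp
  have h2 : ∫ x, Real.sin (u * x) ∂(gaussianReal 0 v)
      = - ∫ x, Real.sin (u * x) ∂(gaussianReal 0 v) := by
    conv_lhs => rw [← h, integral_map (by fun_prop) (by fun_prop)]
    rw [← integral_neg]
    congr 1
    ext x
    rw [← Real.sin_neg]
    congr 1; ring
  linarith

theorem g_ball (v : ℝ≥0) (hv : v ≠ 0) (r : ℝ) (hr : 0 ≤ r) :
    (gaussianReal 0 v).real {x | |x| ≤ r} ≤ 2 * r / Real.sqrt v := by
  have hset : {x : ℝ | |x| ≤ r} = Set.Icc (-r) r := by ext x; simp [abs_le]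
  rw [hset, Measure.real, gaussianReal_apply_eq_integral _ hv,
    ENNReal.toReal_ofReal (integral_nonneg fun x => gaussianPDFReal_nonneg _ _ _)]
  have hvpos : (0:ℝ) < v := by positivity
  have hb : ∀ x, gaussianPDFReal 0 v x ≤ 1 / Real.sqrt v := by
    intro x
    rw [gaussianPDFReal_def]
    simp only [sub_zero]
    have h1 : Real.exp (-x^2 / (2 * v)) ≤ 1 := by
      rw [Real.exp_le_one_iff]
      exact div_nonpos_of_nonpos_of_nonneg (by nlinarith [sq_nonneg x]) (by positivity)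
    have h2 : (Real.sqrt (2 * Real.pi * v))⁻¹ ≤ 1 / Real.sqrt v := by
      rw [one_div]
      refine inv_anti₀ (Real.sqrt_pos.mpr hvpos) (Real.sqrt_le_sqrt ?_)
      nlinarith [Real.pi_gt_three]
    calc (Real.sqrt (2 * Real.pi * v))⁻¹ * Real.exp (-x^2 / (2 * v))
        ≤ (Real.sqrt (2 * Real.pi * v))⁻¹ * 1 := by gcongr
      _ ≤ _ := by linarith
  calc ∫ x in Set.Icc (-r) r, gaussianPDFReal 0 v x
      ≤ ∫ x in Set.Icc (-r) r, 1 / Real.sqrt v := by
        refine setIntegral_mono_on (integrable_gaussianPDFReal 0 v).integrableOn ?_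
          measurableSet_Icc (fun x _ => hb x)
        exact integrableOn_const (by simp)
    _ = 2 * r / Real.sqrt v := by
        rw [setIntegral_const, Real.volume_real_Icc_of_le (by linarith)]
        simp only [smul_eq_mul]
        ring

/-! ### Brownian motion relative to a filtration -/

variable {Ω : Type*} {mΩ : MeasurableSpace Ω} {P : Measure Ω} {𝓕 : Filtration ℝ≥0 mΩ}

/-- Brownian motion with respect to a filtration, in a functional form. -/
structure BMW (𝓕 : Filtration ℝ≥0 mΩ) (P : Measure Ω) (B : ℝ≥0 → Ω → ℝ) : Prop where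
  adapted : ∀ t, Measurable[𝓕 t] (B t)
  cont : ∀ ω, Continuous (fun t => B t ω)
  zero : ∀ ω, B 0 ω = 0
  law : ∀ s t, s ≤ t → P.map (fun ω => B t ω - B s ω) = gaussianReal 0 (t - s)
  indep : ∀ s t, s ≤ t → ∀ ξ : Ω → ℝ, Measurable[𝓕 s] ξ → (∀ ω, |ξ ω| ≤ 1) →
    ∀ g : ℝ → ℝ, Measurable g → Integrable g (gaussianReal 0 (t - s)) →
    ∫ ω, ξ ω * g (B t ω - B s ω) ∂P = (∫ ω, ξ ω ∂P) * ∫ x, g x ∂(gaussianReal 0 (t - s))

namespace BMW

variable {B : ℝ≥0 → Ω → ℝ}

theorem meas (h : BMW 𝓕 P B) (t : ℝ≥0) : Measurable (B t) := (h.adapted t).mono (𝓕.le t) le_rfl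

theorem meas_sub (h : BMW 𝓕 P B) (s t : ℝ≥0) : Measurable (fun ω => B t ω - B s ω) :=
  (h.meas t).sub (h.meas s)

theorem integral_comp (h : BMW 𝓕 P B) {s t : ℝ≥0} (hst : s ≤ t) {g : ℝ → ℝ} (hg : Measurable g) :
    ∫ ω, g (B t ω - B s ω) ∂P = ∫ x, g x ∂(gaussianReal 0 (t - s)) := by
  rw [← h.law s t hst, integral_map (h.meas_sub s t).aemeasurable hg.aestronglyMeasurable]

theorem integrable_comp (h : BMW 𝓕 P B) {s t : ℝ≥0} (hst : s ≤ t) {g : ℝ → ℝ}
    (hg : Integrable g (gaussianReal 0 (t - s))) :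
    Integrable (fun ω => g (B t ω - B s ω)) P := by
  rw [← h.law s t hst] at hg
  exact hg.comp_measurable (h.meas_sub s t)

theorem memLp_sub (h : BMW 𝓕 P B) {s t : ℝ≥0} (hst : s ≤ t) :
    MemLp (fun ω => B t ω - B s ω) 2 P := by
  rw [memLp_two_iff_integrable_sq (h.meas_sub s t).aestronglyMeasurable]
  exact h.integrable_comp hst (g_int_pow (t-s) 2)

theorem sq (h : BMW 𝓕 P B) {s t : ℝ≥0} (hst : s ≤ t) :
    ∫ ω, (B t ω - B s ω)^2 ∂P = (t:ℝ) - s := by
  rw [h.integral_comp hst (g := fun x => x^2) (by fun_prop), g_sq, NNReal.coe_sub hst]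

theorem four (h : BMW 𝓕 P B) {s t : ℝ≥0} (hst : s ≤ t) :
    ∫ ω, (B t ω - B s ω)^4 ∂P = C4 * ((t:ℝ) - s)^2 := by
  rw [h.integral_comp hst (g := fun x => x^4) (by fun_prop), g_four, NNReal.coe_sub hst]

theorem toMart (h : BMW 𝓕 P B) : Mart 𝓕 P B where
  adapted := h.adapted
  cont := h.cont
  zero := h.zero
  memLp t := by
    have := h.memLp_sub (s := 0) (t := t) zero_le
    simpa [h.zero] using this
  orth s t hst ξ hξ hb := by
    rw [h.indep s t hst ξ hξ hb (fun x => x) measurable_id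
      (memLp_one_iff_integrable.mp (g_memLp (t - s) 1 (by simp))), g_id, mul_zero]

theorem inc (h : BMW 𝓕 P B) {s t : ℝ≥0} (hst : s ≤ t) :
    MInc (𝓕 s) P (fun ω => B t ω - B s ω) ((t:ℝ) - s) := by
  rw [← h.sq hst]; exact h.toMart.inc hst

theorem sqinc [IsProbabilityMeasure P] (h : BMW 𝓕 P B) {s t : ℝ≥0} (hst : s ≤ t) :
    MInc (𝓕 s) P (fun ω => (B t ω - B s ω)^2 - ((t:ℝ) - s)) (C4 * ((t:ℝ) - s)^2) := by
  have hcoe : ((t - s : ℝ≥0) : ℝ) = (t:ℝ) - s := NNReal.coe_sub hst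
  have hm : Measurable (fun ω => (B t ω - B s ω)^2 - ((t:ℝ) - s)) :=
    ((h.meas_sub s t).pow_const 2).sub_const _
  have i4 : Integrable (fun ω => (B t ω - B s ω)^4) P :=
    h.integrable_comp hst (g_int_pow (t-s) 4)
  have i2 : Integrable (fun ω => (B t ω - B s ω)^2) P :=
    h.integrable_comp hst (g_int_pow (t-s) 2)
  have e : ∀ ω, ((B t ω - B s ω)^2 - ((t:ℝ) - s))^2
      = (B t ω - B s ω)^4 - (2 * ((t:ℝ) - s)) * (B t ω - B s ω)^2 + ((t:ℝ) - s)^2 :=
    fun ω => by ring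
  have i5 : Integrable (fun ω => (B t ω - B s ω)^4
      - (2 * ((t:ℝ) - s)) * (B t ω - B s ω)^2) P := i4.sub (i2.const_mul _)
  refine ⟨?_, ?_, ?_⟩
  · rw [memLp_two_iff_integrable_sq hm.aestronglyMeasurable]
    simp_rw [e]
    exact i5.add (integrable_const _)
  · simp_rw [e]
    rw [integral_add i5 (integrable_const _), integral_sub i4 (i2.const_mul _),
      integral_const_mul, h.sq hst, h.four hst]
    simp only [integral_const, probReal_univ, smul_eq_mul, one_mul]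
    nlinarith [sq_nonneg ((t:ℝ) - s)]
  · intro ξ hξ hb
    have := h.indep s t hst ξ hξ hb (fun x => x^2 - ((t:ℝ) - s)) (by fun_prop)
      ((g_int_pow (t-s) 2).sub (integrable_const _))
    rw [this, integral_sub (g_int_pow (t-s) 2) (integrable_const _), g_sq, hcoe]
    simp

/-- conditional second moment -/
theorem mul_sq [IsProbabilityMeasure P] (h : BMW 𝓕 P B) {s t : ℝ≥0} (hst : s ≤ t) {ξ : Ω → ℝ}
    {C : ℝ} (hξ : Measurable[𝓕 s] ξ) (hb : ∀ ω, |ξ ω| ≤ C) :
    ∫ ω, ξ ω * (B t ω - B s ω)^2 ∂P = (∫ ω, ξ ω ∂P) * ((t:ℝ) - s) := by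
  have hC : 0 ≤ C ∨ IsEmpty Ω := by
    rcases isEmpty_or_nonempty Ω with h1 | h1
    · exact Or.inr h1
    · obtain ⟨ω⟩ := h1
      exact Or.inl ((abs_nonneg _).trans (hb ω))
  rcases hC with hC | hC
  · have h1 := h.indep s t hst (fun ω => ξ ω / (C+1)) (hξ.div_const _) (fun ω => ?_)
      (fun x => x^2) (by fun_prop) (g_int_pow (t-s) 2)
    · rw [g_sq, NNReal.coe_sub hst] at h1
      have hC1 : C + 1 ≠ 0 := by positivity
      have e1 : ∀ ω, ξ ω * (B t ω - B s ω)^2 = (C+1) * (ξ ω / (C+1) * (B t ω - B s ω)^2) := by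
        intro ω; field_simp
      simp_rw [e1]
      rw [integral_const_mul, h1, integral_div]
      field_simp
    · rw [abs_div, abs_of_pos (by positivity : 0 < C + 1), div_le_one (by positivity)]
      linarith [hb ω]
  · have : P = 0 := Measure.eq_zero_of_isEmpty P
    subst this
    simp

end BMW

end Pool.Agent.SkewBM
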