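import Mathlib

open MeasureTheory Filter ProbabilityTheory
open scoped NNReal ENNReal Topology

namespace Pool.Agent.SkewBM

variable {Ω : Type*} {𝓖 : MeasurableSpace Ω} {mΩ : MeasurableSpace Ω} {P : Measure Ω}

/-- Convergence to zero in measure of a sequence of real functions. -/
def TZ (P : Measure Ω) (f : ℕ → Ω → ℝ) : Prop :=
  ∀ ε : ℝ, 0 < ε → Tendsto (fun n => P {ω | ε ≤ |f n ω|}) atTop (𝓝 0)

theorem tz_iff {f : ℕ → Ω → ℝ} : TZ P f ↔ TendstoInMeasure P f atTop (fun _ => (0 : ℝ)) := by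
  rw [tendstoInMeasure_iff_norm]
  simp [TZ]

theorem tim_iff {f : ℕ → Ω → ℝ} {g : Ω → ℝ} :
    TendstoInMeasure P f atTop g ↔ TZ P (fun n ω => f n ω - g ω) := by
  rw [tendstoInMeasure_iff_norm]
  simp [TZ]

theorem TZ.add {f g : ℕ → Ω → ℝ} (hf : TZ P f) (hg : TZ P g) :
    TZ P (fun n ω => f n ω + g n ω) := by
  intro ε hε
  have h1 := (hf (ε/2) (by positivity)).add (hg (ε/2) (by positivity))
  rw [add_zero] at h1
  refine tendsto_of_tendsto_of_tendsto_of_le_of_le tendsto_const_nhds h1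
    (fun _ => zero_le) (fun n => ?_)
  refine le_trans (measure_mono ?_) (measure_union_le _ _)
  intro ω hω
  simp only [Set.mem_ofPred_eq, Set.mem_union] at hω ⊢
  by_contra hcon
  push Not at hcon
  have := abs_add_le (f n ω) (g n ω)
  linarith [hcon.1, hcon.2]

theorem TZ.mono {f g : ℕ → Ω → ℝ} (hg : TZ P g) (h : ∀ n, ∀ᵐ ω ∂P, |f n ω| ≤ |g n ω|) :
    TZ P f := by
  intro ε hε
  refine tendsto_of_tendsto_of_tendsto_of_le_of_le tendsto_const_nhds (hg ε hε)
    (fun _ => zero_le) (fun n => ?_)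
  refine measure_mono_ae ?_
  filter_upwards [h n] with ω h1 h2
  exact le_trans h2 h1

theorem TZ.neg {f : ℕ → Ω → ℝ} (hf : TZ P f) : TZ P (fun n ω => - f n ω) :=
  hf.mono (fun n => ae_of_all _ fun ω => by simp)

theorem TZ.sub {f g : ℕ → Ω → ℝ} (hf : TZ P f) (hg : TZ P g) :
    TZ P (fun n ω => f n ω - g n ω) := by
  simpa [sub_eq_add_neg] using hf.add hg.neg

theorem TZ.const_mul {f : ℕ → Ω → ℝ} (c : ℝ) (hf : TZ P f) : TZ P (fun n ω => c * f n ω) := by
  intro ε hε
  by_cases hc : c = 0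
  · subst hc
    simp only [zero_mul, abs_zero]
    have : {ω : Ω | ε ≤ 0} = ∅ := by
      ext ω; simp only [Set.mem_ofPred_eq, Set.mem_empty_iff_false, iff_false]; linarith
    simp [this]
  · have hc' : 0 < |c| := abs_pos.mpr hc
    refine (hf (ε / |c|) (by positivity)).congr (fun n => ?_)
    congr 1
    ext ω
    simp only [Set.mem_ofPred_eq, abs_mul]
    rw [div_le_iff₀ hc', mul_comm]

theorem TZ.congr {f g : ℕ → Ω → ℝ} (hg : TZ P g) (h : ∀ n, ∀ᵐ ω ∂P, f n ω = g n ω) : TZ P f :=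
  hg.mono (fun n => by filter_upwards [h n] with ω hω; rw [hω])

theorem TZ.of_tendsto_ae [IsFiniteMeasure P] {f : ℕ → Ω → ℝ}
    (hf : ∀ n, AEStronglyMeasurable (f n) P)
    (h : ∀ᵐ ω ∂P, Tendsto (fun n => f n ω) atTop (𝓝 0)) : TZ P f :=
  tz_iff.mpr (tendstoInMeasure_of_tendsto_ae hf h)

theorem TZ.of_integral {f : ℕ → Ω → ℝ} (hf : ∀ n, Integrable (f n) P)
    (h : Tendsto (fun n => ∫ ω, |f n ω| ∂P) atTop (𝓝 0)) : TZ P f := by
  rw [tz_iff]
  refine tendstoInMeasure_of_tendsto_eLpNorm (p := 1) one_ne_zero (fun n => (hf n).1)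
    aestronglyMeasurable_const ?_
  have : ∀ n, eLpNorm (f n - fun _ => (0:ℝ)) 1 P = ENNReal.ofReal (∫ ω, |f n ω| ∂P) := by
    intro n
    rw [eLpNorm_one_eq_lintegral_enorm, ← ofReal_integral_norm_eq_lintegral_enorm]
    · simp
    · exact (hf n).sub (integrable_zero _ _ _)
  simp_rw [this]
  rw [← ENNReal.ofReal_zero]
  exact ENNReal.tendsto_ofReal h

theorem abs_le_add_div (x ε K : ℝ) (hε : 0 < ε) (hK : 0 < K) :
    |x| ≤ ε + K * (if ε ≤ |x| then 1 else 0) + x ^ 2 / K := by
  have h2 : 0 ≤ x ^ 2 / K := by positivity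
  by_cases h : ε ≤ |x|
  · simp only [h, if_true, mul_one]
    by_cases h3 : |x| ≤ K
    · linarith
    · push Not at h3
      have : |x| ≤ x ^ 2 / K := by
        rw [le_div_iff₀ hK, ← sq_abs]
        nlinarith [abs_nonneg x]
      linarith
  · simp only [h, if_false, mul_zero, add_zero]
    push Not at h
    linarith

/-- bounded in `L²` and converging to zero in measure implies convergence in `L¹`. -/
theorem TZ.integral_abs [IsProbabilityMeasure P] {f : ℕ → Ω → ℝ} (hf : TZ P f)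
    (hm : ∀ n, MemLp (f n) 2 P) {C : ℝ} (hC : ∀ n, ∫ ω, (f n ω) ^ 2 ∂P ≤ C) :
    Tendsto (fun n => ∫ ω, |f n ω| ∂P) atTop (𝓝 0) := by
  have hC0 : 0 ≤ C := le_trans (integral_nonneg (fun ω => sq_nonneg _)) (hC 0)
  have key : ∀ ε K : ℝ, 0 < ε → 0 < K → ∀ n,
      ∫ ω, |f n ω| ∂P ≤ ε + K * P.real {ω | ε ≤ |f n ω|} + C / K := by
    intro ε K hε hK n
    have hint : Integrable (f n) P := (hm n).integrable (by norm_num)
    have hsq : Integrable (fun ω => (f n ω)^2) P := (hm n).integrable_sq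
    have hset : NullMeasurableSet {ω | ε ≤ |f n ω|} P :=
      nullMeasurableSet_le aemeasurable_const hint.1.aemeasurable.abs
    have hind : Integrable (fun ω => (if ε ≤ |f n ω| then (1:ℝ) else 0)) P := by
      have : (fun ω => (if ε ≤ |f n ω| then (1:ℝ) else 0))
          = Set.indicator {ω | ε ≤ |f n ω|} (fun _ => (1:ℝ)) := by
        ext ω; simp [Set.indicator]
      rw [this]
      exact (integrable_const (1:ℝ)).indicator₀ hset
    have hindval : ∫ ω, (if ε ≤ |f n ω| then (1:ℝ) else 0) ∂P = P.real {ω | ε ≤ |f n ω|} := by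
      have : (fun ω => (if ε ≤ |f n ω| then (1:ℝ) else 0))
          = Set.indicator {ω | ε ≤ |f n ω|} (fun _ => (1:ℝ)) := by
        ext ω; simp [Set.indicator]
      rw [this, integral_indicator₀ hset]
      simp
    calc ∫ ω, |f n ω| ∂P
        ≤ ∫ ω, (ε + K * (if ε ≤ |f n ω| then 1 else 0) + (f n ω)^2 / K) ∂P := by
          refine integral_mono hint.abs ?_ (fun ω => abs_le_add_div _ ε K hε hK)
          exact ((integrable_const ε).add (hind.const_mul K)).add (hsq.div_const K)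
      _ = ε + K * P.real {ω | ε ≤ |f n ω|} + (∫ ω, (f n ω)^2 ∂P) / K := by
          have e1 := integral_add (μ := P)
            (f := fun ω => ε + K * (if ε ≤ |f n ω| then (1:ℝ) else 0))
            (g := fun ω => (f n ω)^2 / K)
            ((integrable_const ε).add (hind.const_mul K)) (hsq.div_const K)
          have e2 := integral_add (μ := P) (f := fun ω => ε)
            (g := fun ω => K * (if ε ≤ |f n ω| then (1:ℝ) else 0))
            (integrable_const ε) (hind.const_mul K)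
          rw [e1, e2, integral_const_mul, integral_div, hindval]
          simp
      _ ≤ _ := by gcongr; exact hC n
  rw [Metric.tendsto_atTop]
  intro η hη
  obtain ⟨K, hK, hCK⟩ : ∃ K : ℝ, 0 < K ∧ C / K < η / 3 := by
    refine ⟨3 * (C + 1) / η, by positivity, ?_⟩
    rw [div_lt_iff₀ (by positivity)]
    have : η / 3 * (3 * (C + 1) / η) = C + 1 := by field_simp
    linarith
  have h1 : Tendsto (fun n => K * P.real {ω | η/4 ≤ |f n ω|}) atTop (𝓝 0) := by
    have := hf (η/4) (by positivity)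
    have h2 : Tendsto (fun n => P.real {ω | η/4 ≤ |f n ω|}) atTop (𝓝 0) := by
      have h3 := (ENNReal.tendsto_toReal (ENNReal.zero_ne_top)).comp this
      exact h3
    simpa using h2.const_mul K
  have h3 := h1.eventually (gt_mem_nhds (show (0:ℝ) < η/4 by positivity))
  obtain ⟨N, hN⟩ := eventually_atTop.mp h3
  refine ⟨N, fun n hn => ?_⟩
  have h4 := key (η/4) K (by positivity) hK n
  have h5 := hN n hn
  rw [Real.dist_eq, sub_zero, abs_of_nonneg (integral_nonneg (fun ω => abs_nonneg _))]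
  linarith

theorem TZ.of_sq [IsProbabilityMeasure P] {f : ℕ → Ω → ℝ} (hm : ∀ n, MemLp (f n) 2 P)
    (h : Tendsto (fun n => ∫ ω, (f n ω) ^ 2 ∂P) atTop (𝓝 0)) : TZ P f := by
  have h1 : TZ P (fun n ω => (f n ω)^2) := by
    refine TZ.of_integral (fun n => (hm n).integrable_sq) ?_
    refine h.congr (fun n => ?_)
    congr 1
    ext ω
    exact (abs_of_nonneg (sq_nonneg (f n ω))).symm
  intro ε hε
  have h2 := h1 (ε^2) (by positivity)
  refine h2.congr (fun n => ?_)
  congr 1
  ext ω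
  simp only [Set.mem_ofPred_eq, abs_pow, sq_abs]
  rw [← sq_abs (f n ω)]
  constructor
  · intro h; exact (sq_le_sq₀ hε.le (abs_nonneg _)).mp h
  · intro h; gcongr

/-- `D` is square integrable with second moment at most `c`, and orthogonal to every
bounded `𝓖`-measurable function. -/
structure MInc {Ω : Type*} (𝓖 : MeasurableSpace Ω) {mΩ : MeasurableSpace Ω} (P : Measure Ω)
    (D : Ω → ℝ) (c : ℝ) : Prop where
  memLp : MemLp D 2 P
  sq_le : ∫ ω, (D ω) ^ 2 ∂P ≤ c
  orth : ∀ ξ : Ω → ℝ, Measurable[𝓖] ξ → (∀ ω, |ξ ω| ≤ 1) → ∫ ω, ξ ω * D ω ∂P = 0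

theorem integrable_mul_bdd [IsFiniteMeasure P] {ξ D : Ω → ℝ} (hξ : AEStronglyMeasurable ξ P)
    {C : ℝ} (hb : ∀ ω, |ξ ω| ≤ C) (hD : Integrable D P) : Integrable (fun ω => ξ ω * D ω) P :=
  hD.bdd_mul hξ (ae_of_all _ (fun ω => by simpa using hb ω))

/-- closure of `MInc` under convergence in measure. -/
theorem MInc.of_tim [IsProbabilityMeasure P] (h𝓖 : 𝓖 ≤ mΩ)
    {D : ℕ → Ω → ℝ} {c : ℕ → ℝ} {D' : Ω → ℝ} {c' : ℝ}
    (h : ∀ n, MInc 𝓖 P (D n) (c n)) (hc : Tendsto c atTop (𝓝 c'))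
    (hD : TZ P (fun n ω => D n ω - D' ω)) : MInc 𝓖 P D' c' := by
  have hD2 : TendstoInMeasure P D atTop D' := tim_iff.mpr hD
  have hmeas : AEStronglyMeasurable D' P := hD2.aestronglyMeasurable (fun n => (h n).memLp.1)
  obtain ⟨ns, hns, hae⟩ := hD2.exists_seq_tendsto_ae
  have hsqval : ∀ n, ∫⁻ ω, ENNReal.ofReal ((D n ω)^2) ∂P = ENNReal.ofReal (∫ ω, (D n ω)^2 ∂P) :=
    fun n => (ofReal_integral_eq_lintegral_ofReal (h n).memLp.integrable_sq
      (ae_of_all _ fun ω => sq_nonneg _)).symm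
  have hfatou : ∫⁻ ω, ENNReal.ofReal ((D' ω)^2) ∂P ≤ ENNReal.ofReal c' := by
    calc ∫⁻ ω, ENNReal.ofReal ((D' ω)^2) ∂P
        = ∫⁻ ω, liminf (fun k => ENNReal.ofReal ((D (ns k) ω)^2)) atTop ∂P := by
          refine lintegral_congr_ae ?_
          filter_upwards [hae] with ω hω
          exact (Tendsto.liminf_eq (ENNReal.tendsto_ofReal (hω.pow 2))).symm
      _ ≤ liminf (fun k => ∫⁻ ω, ENNReal.ofReal ((D (ns k) ω)^2) ∂P) atTop := by
          refine lintegral_liminf_le' (fun k => ?_)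
          exact ((h (ns k)).memLp.1.aemeasurable.pow_const 2).ennreal_ofReal
      _ ≤ liminf (fun k => ENNReal.ofReal (c (ns k))) atTop := by
          refine liminf_le_liminf (Eventually.of_forall fun k => ?_)
          simp only [hsqval]
          exact ENNReal.ofReal_le_ofReal (h (ns k)).sq_le
      _ = ENNReal.ofReal c' :=
          Tendsto.liminf_eq (ENNReal.tendsto_ofReal (hc.comp hns.tendsto_atTop))
  have hc'0 : 0 ≤ c' := ge_of_tendsto' hc (fun n =>
    le_trans (integral_nonneg (fun ω => sq_nonneg _)) (h n).sq_le)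
  have hsqint : Integrable (fun ω => (D' ω)^2) P := by
    refine ⟨hmeas.pow 2, ?_⟩
    rw [hasFiniteIntegral_iff_ofReal (ae_of_all _ fun ω => sq_nonneg _)]
    exact lt_of_le_of_lt hfatou ENNReal.ofReal_lt_top
  have hmem : MemLp D' 2 P := (memLp_two_iff_integrable_sq hmeas).mpr hsqint
  have hsq : ∫ ω, (D' ω)^2 ∂P ≤ c' := by
    rw [integral_eq_lintegral_of_nonneg_ae (ae_of_all _ fun ω => sq_nonneg _) hsqint.1]
    exact ENNReal.toReal_le_of_le_ofReal hc'0 hfatou
  refine ⟨hmem, hsq, ?_⟩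
  intro ξ hξ hb
  -- bounded sequence of constants
  obtain ⟨M, hM⟩ := hc.bddAbove_range
  have hMb : ∀ n, c n ≤ M := fun n => hM ⟨n, rfl⟩
  have hL1 : Tendsto (fun n => ∫ ω, |D n ω - D' ω| ∂P) atTop (𝓝 0) := by
    refine hD.integral_abs (fun n => (h n).memLp.sub hmem) (C := 2 * M + 2 * c') (fun n => ?_)
    have h1 : ∫ ω, (D n ω - D' ω)^2 ∂P ≤ ∫ ω, (2 * (D n ω)^2 + 2 * (D' ω)^2) ∂P := by
      refine integral_mono ((h n).memLp.sub hmem).integrable_sq
        (((h n).memLp.integrable_sq.const_mul 2).add (hsqint.const_mul 2)) (fun ω => ?_)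
      simp only
      nlinarith [sq_nonneg (D n ω + D' ω)]
    rw [integral_add ((h n).memLp.integrable_sq.const_mul 2) (hsqint.const_mul 2),
      integral_const_mul, integral_const_mul] at h1
    have h2 := (h n).sq_le
    have h3 := hMb n
    linarith
  have hξm : AEStronglyMeasurable ξ P := ((hξ.mono h𝓖 le_rfl).aestronglyMeasurable)
  have hzero : ∀ n, |∫ ω, ξ ω * D' ω ∂P| ≤ ∫ ω, |D n ω - D' ω| ∂P := by
    intro n
    have hi1 : Integrable (D n) P := (h n).memLp.integrable (by norm_num)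
    have hi2 : Integrable D' P := hmem.integrable (by norm_num)
    have e1 : ∫ ω, ξ ω * D' ω ∂P = ∫ ω, ξ ω * (D' ω - D n ω) ∂P := by
      have := (h n).orth ξ hξ hb
      have e2 : ∀ ω, ξ ω * (D' ω - D n ω) = ξ ω * D' ω - ξ ω * D n ω := fun ω => by ring
      simp_rw [e2]
      rw [integral_sub (integrable_mul_bdd hξm hb hi2) (integrable_mul_bdd hξm hb hi1), this]
      ring
    rw [e1]
    refine le_trans (abs_integral_le_integral_abs) ?_
    refine integral_mono (integrable_mul_bdd hξm hb (hi2.sub hi1)).abs (hi1.sub hi2).abs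
      (fun ω => ?_)
    simp only
    rw [abs_mul, abs_sub_comm]
    have := mul_le_mul_of_nonneg_right (hb ω) (abs_nonneg (D n ω - D' ω))
    simpa using this
  have := ge_of_tendsto' hL1 hzero
  exact abs_nonpos_iff.mp this

theorem MInc.congr {D D' : Ω → ℝ} {c : ℝ}
    (h : MInc 𝓖 P D c) (hD : D =ᵐ[P] D') : MInc 𝓖 P D' c := by
  refine ⟨(memLp_congr_ae hD).mp h.memLp, ?_, ?_⟩
  · rw [← integral_congr_ae (f := fun ω => (D ω)^2)]
    · exact h.sq_le
    · filter_upwards [hD] with ω hω; rw [hω]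
  · intro ξ hξ hb
    rw [← integral_congr_ae (f := fun ω => ξ ω * D ω)]
    · exact h.orth ξ hξ hb
    · filter_upwards [hD] with ω hω; rw [hω]

/-- orthogonality extends to all square integrable test functions. -/
theorem MInc.orth_sq [IsProbabilityMeasure P] (h𝓖 : 𝓖 ≤ mΩ)
    {D : Ω → ℝ} {c : ℝ}
    (h : MInc 𝓖 P D c) {ξ : Ω → ℝ} (hξ : Measurable[𝓖] ξ) (hξ2 : MemLp ξ 2 P) :
    ∫ ω, ξ ω * D ω ∂P = 0 := by
  have hint : Integrable (fun ω => ξ ω * D ω) P := hξ2.integrable_mul h.memLp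
  set ξn : ℕ → Ω → ℝ := fun n ω => max (-(n:ℝ)) (min (ξ ω) n) with hξn
  have hlim : Tendsto (fun n => ∫ ω, ξn n ω * D ω ∂P) atTop (𝓝 (∫ ω, ξ ω * D ω ∂P)) := by
    refine tendsto_integral_of_dominated_convergence (fun ω => |ξ ω * D ω|) (fun n => ?_)
      hint.abs (fun n => ?_) ?_
    · refine AEStronglyMeasurable.mul ?_ h.memLp.1
      exact ((measurable_const.max (hξ.min measurable_const)).mono h𝓖 le_rfl).aestronglyMeasurable
    · refine ae_of_all _ (fun ω => ?_)
      rw [Real.norm_eq_abs, abs_mul, abs_mul]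
      refine mul_le_mul_of_nonneg_right ?_ (abs_nonneg _)
      have hn : (0:ℝ) ≤ n := Nat.cast_nonneg n
      rw [abs_le]
      constructor
      · rcases le_total (ξ ω) n with h1 | h1
        · simp only [hξn, min_eq_left h1]
          exact le_trans (neg_abs_le _) (le_max_right _ _)
        · simp only [hξn, min_eq_right h1]
          have : (0:ℝ) ≤ max (-(n:ℝ)) n := le_max_of_le_right hn
          linarith [abs_nonneg (ξ ω)]
      · refine max_le ?_ ((min_le_left _ _).trans (le_abs_self _))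
        linarith [abs_nonneg (ξ ω)]
    · refine ae_of_all _ (fun ω => ?_)
      refine Tendsto.mul_const _ ?_
      refine tendsto_const_nhds.congr' ?_
      obtain ⟨N, hN⟩ := exists_nat_ge |ξ ω|
      filter_upwards [eventually_ge_atTop N] with n hn
      have h1 : |ξ ω| ≤ n := hN.trans (by exact_mod_cast hn)
      have h2 := abs_le.mp h1
      simp only [hξn]
      rw [min_eq_left h2.2, max_eq_right h2.1]
  have hz : ∀ n, ∫ ω, ξn n ω * D ω ∂P = 0 := by
    intro n
    have hn : (0:ℝ) ≤ n := Nat.cast_nonneg n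
    have h1 := h.orth (fun ω => ξn n ω / (n+1)) ?_ ?_
    · have e : ∀ ω, ξn n ω * D ω = (n+1) * (ξn n ω / (n+1) * D ω) := by
        intro ω
        have : (n:ℝ)+1 ≠ 0 := by positivity
        field_simp
      simp_rw [e]
      rw [integral_const_mul, h1, mul_zero]
    · exact (measurable_const.max (hξ.min measurable_const)).div_const _
    · intro ω
      rw [abs_div, abs_of_pos (show (0:ℝ) < n + 1 by positivity), div_le_one (by positivity)]
      rw [abs_le]
      constructor
      · refine le_trans ?_ (le_max_left _ _); linarith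
      · refine max_le (by linarith) ((min_le_right _ _).trans (by linarith))
  simp_rw [hz] at hlim
  exact (tendsto_nhds_unique tendsto_const_nhds hlim).symm

end Pool.Agent.SkewBM
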