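import Pool.Agent.Lib.MP_e34d70_pr.Euler

open MeasureTheory Filter ProbabilityTheory
open scoped NNReal ENNReal Topology

namespace Pool.Agent.SkewBM

variable {Ω : Type*} {mΩ : MeasurableSpace Ω} {P : Measure Ω} {𝓕 : Filtration ℝ≥0 mΩ}
variable {B : ℝ≥0 → Ω → ℝ} {φ : ℝ → ℝ} {x₀ : ℝ}

theorem lip_measurable (hφ : ∀ x y, |φ x - φ y| ≤ |x - y|) : Continuous φ := by
  have : LipschitzWith 1 φ := by
    refine LipschitzWith.of_dist_le_mul (fun x y => ?_)
    rw [Real.dist_eq, Real.dist_eq]
    simpa using hφ x y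
  exact this.continuous

theorem eul_meas (hB : BMW 𝓕 P B) (hφm : Measurable φ) (n i : ℕ) :
    Measurable[𝓕 (tt n i)] (fun ω => ek φ x₀ (fun s => B s ω) n i) ∧
    Measurable[𝓕 (tt n i)] (fun ω => ea φ x₀ (fun s => B s ω) n i) := by
  induction i with
  | zero =>
    constructor
    · simp only [ek, eul]; exact measurable_const
    · simp only [ea, eul]; exact measurable_const
  | succ i ih =>
    obtain ⟨ih1, ih2⟩ := ih
    have hmono := 𝓕.mono (tt_mono n (Nat.le_succ i))
    have ih1' := ih1.mono hmono le_rfl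
    have ih2' := ih2.mono hmono le_rfl
    have hb1 : Measurable[𝓕 (tt n (i+1))] (B (tt n i)) := (hB.adapted _).mono hmono le_rfl
    have hb2 : Measurable[𝓕 (tt n (i+1))] (B (tt n (i+1))) := hB.adapted _
    have hk : Measurable[𝓕 (tt n (i+1))] (fun ω => ek φ x₀ (fun s => B s ω) n (i+1)) := by
      have e : (fun ω => ek φ x₀ (fun s => B s ω) n (i+1)) = fun ω =>
          ek φ x₀ (fun s => B s ω) n i +
          sg (B (tt n i) ω + φ (ea φ x₀ (fun s => B s ω) n i)) * (B (tt n (i+1)) ω - B (tt n i) ω) := by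
        ext ω; simp only [ek, ea, eul]
      rw [e]
      exact ih1'.add ((sg_measurable.comp (hb1.add (hφm.comp ih2'))).mul (hb2.sub hb1))
    refine ⟨hk, ?_⟩
    have e : (fun ω => ea φ x₀ (fun s => B s ω) n (i+1)) = fun ω =>
        max (ea φ x₀ (fun s => B s ω) n i) (-x₀ - ek φ x₀ (fun s => B s ω) n (i+1)) := by
      ext ω; simp only [ek, ea, eul]
    rw [e]
    exact ih2'.max (measurable_const.sub hk)

theorem hh_meas (hB : BMW 𝓕 P B) (hφm : Measurable φ) (n i : ℕ) :
    Measurable[𝓕 (tt n i)] (fun ω => hh φ x₀ (fun s => B s ω) n i) :=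
  sg_measurable.comp ((hB.adapted _).add (hφm.comp (eul_meas hB hφm n i).2))

theorem hh_abs (b : ℝ≥0 → ℝ) (n i : ℕ) : |hh φ x₀ b n i| = 1 := sg_abs _

theorem clip_id (b : ℝ≥0 → ℝ) {s t p q : ℝ≥0} (hst : s ≤ t) (hpq : p ≤ q) :
    (b (min t q) - b (min t p)) - (b (min s q) - b (min s p))
      = b (max s (min t q)) - b (max s (min t p)) := by
  rcases le_total q s with h1 | h1
  · have h2 := h1.trans hst
    have h3 := hpq.trans h1
    have h4 := hpq.trans h2
    rw [min_eq_right h2, min_eq_right h4, min_eq_right h1, min_eq_right h3, max_eq_left h1,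
      max_eq_left h3]
    ring
  · rcases le_total p s with h2 | h2
    · have h4 := h2.trans hst
      rw [min_eq_right h4, min_eq_left h1, min_eq_right h2, max_eq_left h2,
        max_eq_right (le_min hst h1)]
      ring
    · rw [min_eq_left h1, min_eq_left h2, max_eq_right (le_min hst h1),
        max_eq_right (le_min hst h2)]
      ring

theorem KE_sub (n : ℕ) (b : ℝ≥0 → ℝ) {s t : ℝ≥0} (hst : s ≤ t) {N : ℕ} (hN : t ≤ tt n N) :
    KE φ x₀ b n t - KE φ x₀ b n s = ∑ i ∈ Finset.range N,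
      (if tt n i ≤ t then hh φ x₀ b n i else 0) *
        (b (max s (min t (tt n (i+1)))) - b (max s (min t (tt n i)))) := by
  rw [KE_eq_KS φ x₀ b n hN, KE_eq_KS φ x₀ b n (hst.trans hN)]
  unfold KS
  rw [← Finset.sum_sub_distrib]
  refine Finset.sum_congr rfl (fun i _ => ?_)
  have hpq := tt_mono n (Nat.le_succ i)
  rw [← mul_sub, clip_id b hst hpq]
  by_cases h : tt n i ≤ t
  · rw [if_pos h]
  · rw [if_neg h]
    push Not at h
    have h2 : t ≤ tt n (i+1) := h.le.trans hpq
    rw [min_eq_left h.le, min_eq_left h2, sub_self, mul_zero, mul_zero]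

theorem KE_inc [IsProbabilityMeasure P] (hB : BMW 𝓕 P B) (hφm : Measurable φ) (n : ℕ)
    {s t : ℝ≥0} (hst : s ≤ t) :
    MInc (𝓕 s) P (fun ω => KE φ x₀ (fun u => B u ω) n t - KE φ x₀ (fun u => B u ω) n s)
      ((t:ℝ) - s) := by
  set N := ⌊t * 2^n⌋₊ + 1 with hNdef
  have hN : t ≤ tt n N := (lt_tt_floor n t).le
  set u : ℕ → ℝ≥0 := fun i => max s (min t (tt n i)) with hu
  have humono : Monotone u := by
    intro i j hij
    exact max_le_max le_rfl (min_le_min le_rfl (tt_mono n hij))
  have hu0 : u 0 = s := by simp [hu, tt_zero]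
  have huN : u N = t := by simp only [hu]; rw [min_eq_left hN, max_eq_right hst]
  have hHm : ∀ i, Measurable[𝓕 (u i)]
      (fun ω => if tt n i ≤ t then hh φ x₀ (fun u => B u ω) n i else 0) := by
    intro i
    by_cases h : tt n i ≤ t
    · simp only [h, if_true]
      refine (hh_meas hB hφm n i).mono (𝓕.mono ?_) le_rfl
      simp only [hu]; rw [min_eq_right h]; exact le_max_right _ _
    · simp only [h, if_false]; exact measurable_const
  have hHb : ∀ i ω, |if tt n i ≤ t then hh φ x₀ (fun u => B u ω) n i else 0| ≤ 1 := by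
    intro i ω
    split_ifs
    · exact (hh_abs _ _ _).le
    · simp
  have h1 := hB.toMart.gsum humono hHm hHb N
  rw [hu0, huN] at h1
  have e : ∀ ω, ∑ i ∈ Finset.range N, (if tt n i ≤ t then hh φ x₀ (fun u => B u ω) n i else 0) *
      (B (u (i+1)) ω - B (u i) ω)
      = KE φ x₀ (fun u => B u ω) n t - KE φ x₀ (fun u => B u ω) n s :=
    fun ω => (KE_sub n (fun u => B u ω) hst hN).symm
  simp_rw [e] at h1
  refine h1.mono_c ?_
  rw [← hB.toMart.sq_sub hst, hB.sq hst]
  simp

theorem KE_mart [IsProbabilityMeasure P] (hB : BMW 𝓕 P B) (hφm : Measurable φ) (n : ℕ) :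
    Mart 𝓕 P (fun t ω => KE φ x₀ (fun u => B u ω) n t) where
  adapted t := by
    unfold KE KS
    refine Finset.measurable_sum _ (fun i hi => ?_)
    have hi' := Finset.mem_range.mp hi
    have hti : tt n i ≤ t := (tt_mono n (show i ≤ ⌊t * 2^n⌋₊ by omega)).trans (tt_floor_le n t)
    refine ((hh_meas hB hφm n i).mono (𝓕.mono hti) le_rfl).mul ?_
    exact ((hB.adapted _).mono (𝓕.mono (min_le_left _ _)) le_rfl).sub
      ((hB.adapted _).mono (𝓕.mono (min_le_left _ _)) le_rfl)
  cont ω := continuous_KE φ x₀ n (hB.cont ω)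
  zero ω := KE_zero φ x₀ _ n
  memLp t := by
    have h := (KE_inc (x₀ := x₀) hB hφm n (s := 0) (t := t) zero_le).memLp
    simpa [KE_zero] using h
  orth s t hst := (KE_inc hB hφm n hst).orth

theorem KE_sq [IsProbabilityMeasure P] (hB : BMW 𝓕 P B) (hφm : Measurable φ) (n : ℕ) (t : ℝ≥0) :
    ∫ ω, (KE φ x₀ (fun u => B u ω) n t)^2 ∂P ≤ t := by
  have h := (KE_inc (x₀ := x₀) hB hφm n (s := 0) (t := t) zero_le).sq_le
  simpa [KE_zero] using h

theorem cos_sg (x v y : ℝ) : Real.cos (v * (sg x * y)) = Real.cos (v * y) := by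
  unfold sg; split_ifs
  · rw [one_mul]
  · rw [neg_one_mul, mul_neg, Real.cos_neg]

theorem sin_sg (x v y : ℝ) : Real.sin (v * (sg x * y)) = sg x * Real.sin (v * y) := by
  unfold sg; split_ifs
  · rw [one_mul, one_mul]
  · rw [neg_one_mul, mul_neg, Real.sin_neg, neg_one_mul]

/-- the Euler martingale has Gaussian marginals on the grid (cosine transform). -/
theorem KE_cos [IsProbabilityMeasure P] (hB : BMW 𝓕 P B) (hφm : Measurable φ) (n : ℕ) (v : ℝ)
    (i : ℕ) :
    ∫ ω, Real.cos (v * KE φ x₀ (fun u => B u ω) n (tt n i)) ∂P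
      = (Real.exp (-(v^2 * (1/2^n) / 2)))^i := by
  simp_rw [KE_grid]
  induction i with
  | zero => simp [ek, eul]
  | succ i ih =>
    have hle : tt n i ≤ tt n (i+1) := tt_mono n (Nat.le_succ i)
    have hdiff : ((tt n (i+1) - tt n i : ℝ≥0) : ℝ) = 1/2^n := by
      rw [tt_succ, add_tsub_cancel_left]; push_cast; ring
    have hkm := (eul_meas (x₀ := x₀) hB hφm n i).1
    have hhm := hh_meas (x₀ := x₀) hB hφm n i
    have hc1 : Measurable[𝓕 (tt n i)] (fun ω => Real.cos (v * ek φ x₀ (fun u => B u ω) n i)) :=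
      Real.measurable_cos.comp (hkm.const_mul v)
    have hs1 : Measurable[𝓕 (tt n i)] (fun ω => Real.sin (v * ek φ x₀ (fun u => B u ω) n i)
        * hh φ x₀ (fun u => B u ω) n i) :=
      (Real.measurable_sin.comp (hkm.const_mul v)).mul hhm
    have e : ∀ ω, Real.cos (v * ek φ x₀ (fun u => B u ω) n (i+1))
        = Real.cos (v * ek φ x₀ (fun u => B u ω) n i) *
            Real.cos (v * (B (tt n (i+1)) ω - B (tt n i) ω))
          - (Real.sin (v * ek φ x₀ (fun u => B u ω) n i) * hh φ x₀ (fun u => B u ω) n i)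
            * Real.sin (v * (B (tt n (i+1)) ω - B (tt n i) ω)) := by
      intro ω
      rw [ek_succ, mul_add, Real.cos_add]
      unfold hh
      rw [cos_sg, sin_sg]
      ring
    simp_rw [e]
    have hcosint : Integrable (fun x => Real.cos (v * x)) (gaussianReal 0 (tt n (i+1) - tt n i)) := by
      refine (integrable_const (1:ℝ)).mono' (by fun_prop) (ae_of_all _ fun x => ?_)
      rw [Real.norm_eq_abs]; exact Real.abs_cos_le_one _
    have hsinint : Integrable (fun x => Real.sin (v * x)) (gaussianReal 0 (tt n (i+1) - tt n i)) := by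
      refine (integrable_const (1:ℝ)).mono' (by fun_prop) (ae_of_all _ fun x => ?_)
      rw [Real.norm_eq_abs]; exact Real.abs_sin_le_one _
    have h1 := hB.indep _ _ hle _ hc1 (fun ω => Real.abs_cos_le_one _)
      (fun x => Real.cos (v * x)) (by fun_prop) hcosint
    have h2 := hB.indep _ _ hle _ hs1 (fun ω => by
        rw [abs_mul, hh_abs, mul_one]; exact Real.abs_sin_le_one _)
      (fun x => Real.sin (v * x)) (by fun_prop) hsinint
    rw [g_cos, hdiff, ih] at h1
    rw [g_sin, mul_zero] at h2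
    have hΩ1 : Measurable (fun ω => Real.cos (v * ek φ x₀ (fun u => B u ω) n i)) :=
      hc1.mono (𝓕.le _) le_rfl
    have hΩ2 : Measurable (fun ω => Real.sin (v * ek φ x₀ (fun u => B u ω) n i)
        * hh φ x₀ (fun u => B u ω) n i) := hs1.mono (𝓕.le _) le_rfl
    have hΔ := hB.meas_sub (tt n i) (tt n (i+1))
    have i1 : Integrable (fun ω => Real.cos (v * ek φ x₀ (fun u => B u ω) n i) *
            Real.cos (v * (B (tt n (i+1)) ω - B (tt n i) ω))) P := by
      refine (integrable_const (1:ℝ)).mono'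
        (hΩ1.mul (Real.measurable_cos.comp (hΔ.const_mul v))).aestronglyMeasurable
        (ae_of_all _ fun ω => ?_)
      rw [Real.norm_eq_abs, abs_mul]
      exact mul_le_one₀ (Real.abs_cos_le_one _) (abs_nonneg _) (Real.abs_cos_le_one _)
    have i2 : Integrable (fun ω => (Real.sin (v * ek φ x₀ (fun u => B u ω) n i)
        * hh φ x₀ (fun u => B u ω) n i) *
            Real.sin (v * (B (tt n (i+1)) ω - B (tt n i) ω))) P := by
      refine (integrable_const (1:ℝ)).mono'
        (hΩ2.mul (Real.measurable_sin.comp (hΔ.const_mul v))).aestronglyMeasurable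
        (ae_of_all _ fun ω => ?_)
      rw [Real.norm_eq_abs, abs_mul, abs_mul, hh_abs, mul_one]
      exact mul_le_one₀ (Real.abs_sin_le_one _) (abs_nonneg _) (Real.abs_sin_le_one _)
    rw [integral_sub i1 i2, h1, h2, sub_zero]
    exact (pow_succ _ i).symm

/-- the event that the mesh oscillation of `B` is not small -/
def badE (B : ℝ≥0 → Ω → ℝ) (o : ℝ) (T : ℝ≥0) (n : ℕ) : Set Ω :=
  ⋃ i ∈ Finset.range (⌊T * 2^n⌋₊ + 1),
    {ω | o < supOn (fun s => |B (tt n i + s) ω - B (tt n i) ω|) (1/2^n)}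

theorem badE_meas (hB : BMW 𝓕 P B) (o : ℝ) (T : ℝ≥0) (n : ℕ) : MeasurableSet (badE B o T n) := by
  refine Finset.measurableSet_biUnion _ (fun i _ => ?_)
  refine measurableSet_lt measurable_const ?_
  refine measurable_supOn (K := fun s ω => |B (tt n i + s) ω - B (tt n i) ω|)
    (fun s _ => ?_) (fun ω => ?_)
  · exact ((hB.meas _).sub (hB.meas _)).abs
  · exact (((hB.cont ω).comp (continuous_const.add continuous_id)).sub continuous_const).abs

theorem badE_osc (hB : BMW 𝓕 P B) {o : ℝ} {T : ℝ≥0} {n : ℕ} {ω : Ω} (hω : ω ∉ badE B o T n) :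
    ∀ i : ℕ, i ≤ ⌊T * 2^n⌋₊ → ∀ s, tt n i ≤ s → s ≤ tt n (i+1) → |B s ω - B (tt n i) ω| ≤ o := by
  intro i hi s h1 h2
  simp only [badE, Set.mem_iUnion, Set.mem_ofPred_eq, not_exists, not_lt] at hω
  have h3 := hω i (Finset.mem_range.mpr (by omega))
  have hs : s = tt n i + (s - tt n i) := (add_tsub_cancel_of_le h1).symm
  have hs2 : s - tt n i ≤ 1/2^n := by
    rw [tsub_le_iff_left, ← tt_succ]; exact h2
  have h4 := le_supOn (f := fun s => |B (tt n i + s) ω - B (tt n i) ω|)
    (((hB.cont ω).comp (continuous_const.add continuous_id)).sub continuous_const).abs hs2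
  rw [← hs] at h4
  exact h4.trans h3

theorem badE_eventually (hB : BMW 𝓕 P B) {o : ℝ} (ho : 0 < o) (T : ℝ≥0) (ω : Ω) :
    ∀ᶠ n in atTop, ω ∉ badE B o T n := by
  obtain ⟨δ, hδ, hd⟩ := exists_delta (hB.cont ω) (T+1) ho
  filter_upwards [eventually_mesh 1 hδ, eventually_mesh 1 (show (0:ℝ≥0) < 1 from one_pos)]
    with n hn1 hn2
  simp only [badE, Set.mem_iUnion, Set.mem_ofPred_eq, not_exists, not_lt]
  intro i hi
  have hi' := Finset.mem_range.mp hi
  refine supOn_le (fun s hs => ?_)
  have h1 : tt n i ≤ T := (tt_mono n (show i ≤ ⌊T*2^n⌋₊ by omega)).trans (tt_floor_le n T)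
  refine (hd _ ?_ _ ?_ ?_ ?_).le
  · exact add_le_add h1 (hs.trans hn2)
  · exact h1.trans le_self_add
  · exact add_le_add le_rfl (hs.trans hn1)
  · exact le_self_add.trans le_self_add

theorem badE_tendsto [IsProbabilityMeasure P] (hB : BMW 𝓕 P B) {o : ℝ} (ho : 0 < o) (T : ℝ≥0) :
    Tendsto (fun n => P.real (badE B o T n)) atTop (𝓝 0) := by
  have h1 : TZ P (fun n ω => (badE B o T n).indicator (fun _ => (1:ℝ)) ω) := by
    refine TZ.of_tendsto_ae (fun n => ?_) (ae_of_all _ fun ω => ?_)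
    · exact (measurable_const.indicator (badE_meas hB o T n)).aestronglyMeasurable
    · refine tendsto_const_nhds.congr' ?_
      filter_upwards [badE_eventually hB ho T ω] with n hn
      rw [Set.indicator_of_notMem hn]
  have h2 := h1 1 one_pos
  have h3 : ∀ n, {ω | (1:ℝ) ≤ |(badE B o T n).indicator (fun _ => (1:ℝ)) ω|} = badE B o T n := by
    intro n
    ext ω
    simp only [Set.mem_ofPred_eq]
    by_cases h : ω ∈ badE B o T n
    · simp [h]
    · rw [Set.indicator_of_notMem h]
      simp only [abs_zero, h, iff_false, not_le]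
      exact one_pos
  simp_rw [h3] at h2
  have h4 := (ENNReal.tendsto_toReal ENNReal.zero_ne_top).comp h2
  exact h4

/-- The limit of the Euler scheme. -/
theorem euler_limit [IsProbabilityMeasure P] (hnull : ∀ A : Set Ω, P A = 0 → MeasurableSet[𝓕 0] A)
    (hB : BMW 𝓕 P B) (hφ : ∀ x y, |φ x - φ y| ≤ |x - y|) :
    ∃ K : ℝ≥0 → Ω → ℝ, Mart 𝓕 P K ∧ (∀ t, ∫ ω, (K t ω)^2 ∂P ≤ t) ∧
      (∀ m : ℕ, (m:ℝ) ≤ ∫ ω, (K m ω)^2 ∂P) ∧
      ∀ᵐ ω ∂P, ∀ t, |B t ω + φ (sk |φ 0| (fun u => K u ω) t)|
        = |φ 0| + K t ω + sk |φ 0| (fun u => K u ω) t := by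
  have hφc := lip_measurable hφ
  have hφm := hφc.measurable
  set x₀ := |φ 0| with hx
  have hx0 : 0 ≤ x₀ := abs_nonneg _
  set KK : ℕ → ℝ≥0 → Ω → ℝ := fun n t ω => KE φ x₀ (fun u => B u ω) n t with hKK
  have hK : ∀ n, Mart 𝓕 P (KK n) := fun n => KE_mart hB hφm n
  have hKsq : ∀ n t, ∫ ω, (KK n t ω)^2 ∂P ≤ t := fun n t => KE_sq hB hφm n t
  -- Cauchy property
  have hcau : ∀ T : ℝ≥0, ∀ ε : ℝ, 0 < ε → ∀ᶠ N in atTop, ∀ n ≥ N, ∀ m ≥ N,
      ∫ ω, |KK n T ω - KK m T ω| ∂P ≤ ε := by
    intro T ε hε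
    obtain ⟨γ, hγ, p, hp, hmain⟩ := lemmaA_eps T hε
    have ho : 0 < γ / 6 := by positivity
    have h1 := (badE_tendsto hB ho T).eventually (gt_mem_nhds (show (0:ℝ) < p / 2 by positivity))
    obtain ⟨N, hN⟩ := eventually_atTop.mp h1
    filter_upwards [eventually_ge_atTop N] with M hM n hn m hm
    refine hmain (hK m) (hK n) hφ hx0 (hKsq m T) (hKsq n T)
      (A := badE B (γ/6) T n ∪ badE B (γ/6) T m)
      ((badE_meas hB _ _ _).union (badE_meas hB _ _ _)) ?_ (B := B) (ae_of_all _ fun ω hω => ?_)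
    · refine (measureReal_union_le _ _).trans ?_
      have h2 := hN n (hM.trans hn)
      have h3 := hN m (hM.trans hm)
      linarith
    · have h4 : ω ∉ badE B (γ/6) T n := fun h => hω (Or.inl h)
      have h5 : ω ∉ badE B (γ/6) T m := fun h => hω (Or.inr h)
      have e : 6 * (γ/6) = γ := by ring
      have d1 := KE_defect n hφ hx (hB.cont ω) (hB.zero ω) ho.le T (badE_osc hB h4)
      have d2 := KE_defect m hφ hx (hB.cont ω) (hB.zero ω) ho.le T (badE_osc hB h5)
      rw [e] at d1 d2
      exact ⟨d2, d1⟩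
  obtain ⟨K, hKm, ns, hns, hLU⟩ := uc hnull hK hcau (fun T => ⟨T, fun n => hKsq n T⟩)
  refine ⟨K, hKm, fun t => ?_, fun m => ?_, ?_⟩
  · -- second moment upper bound
    have h1 : MInc (𝓕 0) P (fun ω => K t ω) t := by
      refine MInc.of_tim (𝓕.le 0) (D := fun k ω => KK (ns k) t ω) (c := fun _ => (t:ℝ))
        (fun k => ?_) tendsto_const_nhds ?_
      · have h2 := (hK (ns k)).inc (s := 0) (t := t) zero_le
        simp only [(hK (ns k)).zero, sub_zero] at h2
        exact h2.mono_c (hKsq _ t)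
      · refine TZ.of_tendsto_ae (fun k => ?_) ?_
        · exact (((hK (ns k)).meas t).sub (hKm.meas t)).aestronglyMeasurable
        · filter_upwards [hLU] with ω hω
          have := (hω.tendsto t).sub_const (K t ω)
          simpa using this
    exact h1.sq_le
  · -- lower bound at integer times
    have hcos : ∀ v : ℝ, ∫ ω, Real.cos (v * K m ω) ∂P = Real.exp (-(v^2 * m / 2)) := by
      intro v
      have h1 : Tendsto (fun k => ∫ ω, Real.cos (v * KK (ns k) m ω) ∂P) atTop
          (𝓝 (∫ ω, Real.cos (v * K m ω) ∂P)) := by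
        refine tendsto_integral_of_dominated_convergence (fun _ => (1:ℝ)) (fun k => ?_)
          (integrable_const _) (fun k => ?_) ?_
        · exact (Real.measurable_cos.comp (((hK (ns k)).meas _).const_mul v)).aestronglyMeasurable
        · exact ae_of_all _ fun ω => by rw [Real.norm_eq_abs]; exact Real.abs_cos_le_one _
        · filter_upwards [hLU] with ω hω
          exact (Real.continuous_cos.tendsto _).comp ((hω.tendsto m).const_mul v)
      have h2 : ∀ k, ∫ ω, Real.cos (v * KK (ns k) m ω) ∂P = Real.exp (-(v^2 * m / 2)) := by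
        intro k
        have h3 := KE_cos (x₀ := x₀) hB hφm (ns k) v (m * 2^(ns k))
        have h4 : tt (ns k) (m * 2^(ns k)) = m := by
          unfold tt; push_cast; field_simp
        rw [h4] at h3
        rw [h3, ← Real.exp_nat_mul]
        congr 1
        push_cast
        field_simp
      simp_rw [h2] at h1
      exact (tendsto_nhds_unique tendsto_const_nhds h1).symm
    have hbd : ∀ v : ℝ, 0 < v → (m:ℝ) - v^2 * m^2 / 4 ≤ ∫ ω, (K m ω)^2 ∂P := by
      intro v hv
      have h1 : ∫ ω, (1 - Real.cos (v * K m ω)) ∂P ≤ ∫ ω, v^2 * (K m ω)^2 / 2 ∂P := by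
        refine integral_mono ((integrable_const 1).sub ?_)
          (((hKm.memLp m).integrable_sq.const_mul _).div_const 2) (fun ω => ?_)
        · refine (integrable_const (1:ℝ)).mono'
            (Real.measurable_cos.comp ((hKm.meas m).const_mul v)).aestronglyMeasurable
            (ae_of_all _ fun ω => ?_)
          rw [Real.norm_eq_abs]; exact Real.abs_cos_le_one _
        · have := Real.one_sub_sq_div_two_le_cos (x := v * K m ω)
          simp only
          nlinarith
      have h2 : ∫ ω, (1 - Real.cos (v * K m ω)) ∂P = 1 - Real.exp (-(v^2 * m / 2)) := by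
        rw [integral_sub (integrable_const 1), hcos v]
        · simp
        · refine (integrable_const (1:ℝ)).mono'
            (Real.measurable_cos.comp ((hKm.meas m).const_mul v)).aestronglyMeasurable
            (ae_of_all _ fun ω => ?_)
          rw [Real.norm_eq_abs]; exact Real.abs_cos_le_one _
      rw [h2, integral_div, integral_const_mul] at h1
      have h3 : Real.exp (-(v^2 * m / 2)) ≤ 1 - (v^2 * m/2) + (v^2 * m/2)^2/2 := by
        have hy : 0 ≤ v^2 * (m:ℝ)/2 := by positivity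
        set y := v^2 * (m:ℝ)/2
        have h4 := Real.quadratic_le_exp_of_nonneg hy
        rw [Real.exp_neg]
        rw [inv_le_comm₀ (Real.exp_pos y) (by nlinarith [sq_nonneg (y - 1)])]
        refine le_trans ?_ h4
        rw [inv_le_iff_one_le_mul₀ (by nlinarith [sq_nonneg (y - 1)])]
        nlinarith [sq_nonneg (y^2), sq_nonneg y, mul_nonneg hy hy]
      have h5 : v^2 * ∫ ω, (K m ω)^2 ∂P ≥ v^2 * (m - v^2 * m^2/4) := by nlinarith
      exact le_of_mul_le_mul_left h5 (by positivity)
    have hlim : Tendsto (fun v : ℝ => (m:ℝ) - v^2 * m^2/4) (𝓝[>] 0) (𝓝 ((m:ℝ) - 0^2 * m^2/4)) := by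
      refine Tendsto.mono_left ?_ nhdsWithin_le_nhds
      exact Continuous.tendsto (by fun_prop) 0
    have h6 := le_of_tendsto hlim (by
      filter_upwards [self_mem_nhdsWithin] with v hv using hbd v hv)
    simpa using h6
  · -- the limit equation
    filter_upwards [hLU] with ω hω
    intro t
    have hKc : Continuous (fun u => K u ω) := hKm.cont ω
    have hsk : Tendsto (fun k => sk x₀ (fun u => KK (ns k) u ω) t) atTop
        (𝓝 (sk x₀ (fun u => K u ω) t)) := by
      rw [Metric.tendsto_atTop]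
      intro ε hε
      obtain ⟨N, hN⟩ := eventually_atTop.mp (hω t (ε/2) (by positivity))
      refine ⟨N, fun k hk => ?_⟩
      rw [Real.dist_eq]
      refine lt_of_le_of_lt (abs_sk_sub_le ((hK (ns k)).cont ω) hKc (hN k hk)) (by linarith)
    have hlim : Tendsto (fun k => |(|B t ω + φ (sk x₀ (fun u => KK (ns k) u ω) t)|)
        - (x₀ + KK (ns k) t ω + sk x₀ (fun u => KK (ns k) u ω) t)|) atTop
        (𝓝 (|(|B t ω + φ (sk x₀ (fun u => K u ω) t)|)
        - (x₀ + K t ω + sk x₀ (fun u => K u ω) t)|)) := by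
      refine Tendsto.abs (Tendsto.sub (Tendsto.abs (Tendsto.const_add _ ?_)) ?_)
      · exact (hφc.tendsto _).comp hsk
      · exact ((hω.tendsto t).const_add x₀).add hsk
    have hzero : |(|B t ω + φ (sk x₀ (fun u => K u ω) t)|)
        - (x₀ + K t ω + sk x₀ (fun u => K u ω) t)| ≤ 0 := by
      refine le_of_forall_pos_le_add (fun ε hε => ?_)
      rw [zero_add]
      have ho : 0 < ε / 6 := by positivity
      refine le_of_tendsto hlim ?_
      filter_upwards [hns.tendsto_atTop.eventually (badE_eventually hB ho t ω)] with k hk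
      have d := KE_defect (ns k) hφ hx (hB.cont ω) (hB.zero ω) ho.le t (badE_osc hB hk) t le_rfl
      have e : 6 * (ε/6) = ε := by ring
      rw [e] at d
      exact d
    have := abs_nonpos_iff.mp hzero
    linarith

end Pool.Agent.SkewBM
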