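import Pool.Agent.Lib.MP_e34d70_pr.Tanaka
import Pool.Agent.Lib.MP_e34d70_pr.EulerM

open MeasureTheory Filter ProbabilityTheory
open scoped NNReal ENNReal Topology

namespace Pool.Agent.SkewBM

section det

/-- pathwise consequences of Tanaka's formula -/
theorem path_tanaka {x k : ℝ≥0 → ℝ} (hx : Continuous x) {ns : ℕ → ℕ} (hns : StrictMono ns)
    (hLU : LU (fun j t => KF (parA (ns j)).FF (parA (ns j)).psi x t) k) :
    (∀ t, Tendsto (fun j => (1/2) * tint (fun u => (parA (ns j)).psi (x u)) 0 t) atTop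
      (𝓝 (|x t| - |x 0| - k t))) ∧
    Monotone (fun t => |x t| - |x 0| - k t) ∧
    (∀ s t, s ≤ t → (∀ u, s ≤ u → u ≤ t → x u ≠ 0) →
      |x t| - |x 0| - k t = |x s| - |x 0| - k s) := by
  have hb : Tendsto (fun j => bA (ns j)) atTop (𝓝 0) := bA_tendsto.comp hns.tendsto_atTop
  have hF : ∀ t, Tendsto (fun j => (parA (ns j)).FF (x t)) atTop (𝓝 |x t|) := by
    intro t
    have h1 : Tendsto (fun j => |x t| - bA (ns j)) atTop (𝓝 (|x t| - 0)) := hb.const_sub _
    rw [sub_zero] at h1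
    exact tendsto_of_tendsto_of_tendsto_of_le_of_le h1 tendsto_const_nhds
      (fun j => (parA (ns j)).le_FF (x t)) (fun j => (parA (ns j)).FF_le (x t))
  have hlim : ∀ t, Tendsto (fun j => (1/2) * tint (fun u => (parA (ns j)).psi (x u)) 0 t) atTop
      (𝓝 (|x t| - |x 0| - k t)) := by
    intro t
    have h1 := ((hF t).sub (hF 0)).sub (hLU.tendsto t)
    refine h1.congr (fun j => ?_)
    unfold KF
    ring
  have hmono : Monotone (fun t => |x t| - |x 0| - k t) := by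
    intro s t hst
    refine le_of_tendsto_of_tendsto' (hlim s) (hlim t) (fun j => ?_)
    have hc : Continuous (fun u => (parA (ns j)).psi (x u)) := (parA (ns j)).psi_cont.comp hx
    rw [← tint_add hc 0 s t]
    have := tint_nonneg (g := fun u => (parA (ns j)).psi (x u)) hst
      (fun u => (parA (ns j)).psi_nonneg _)
    linarith
  refine ⟨hlim, hmono, ?_⟩
  intro s t hst hne
  -- positive lower bound on `[s,t]`
  have hcomp : IsCompact (Set.Icc s t) := isCompact_Icc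
  obtain ⟨v, hv, hvmin⟩ := hcomp.exists_isMinOn ⟨s, le_rfl, hst⟩ (hx.abs.continuousOn)
  have hpos : 0 < |x v| := abs_pos.mpr (hne v hv.1 hv.2)
  have h1 : ∀ᶠ j in atTop, bA (ns j) < |x v| := hb.eventually (gt_mem_nhds hpos)
  refine tendsto_nhds_unique (hlim t) ((hlim s).congr' ?_)
  filter_upwards [h1] with j hj
  have hc : Continuous (fun u => (parA (ns j)).psi (x u)) := (parA (ns j)).psi_cont.comp hx
  rw [← tint_add hc 0 s t]
  have h2 : |tint (fun u => (parA (ns j)).psi (x u)) s t| ≤ 0 * ((t:ℝ) - s) := by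
    refine abs_tint_le hst (fun u hu1 hu2 => ?_)
    have h3 : |x v| ≤ |x u| := hvmin (show u ∈ Set.Icc s t from ⟨hu1, hu2⟩)
    have h4 : (parA (ns j)).psi (x u) = 0 :=
      (parA (ns j)).psi_of_ge (le_trans (le_of_lt hj) h3)
    rw [h4]; simp
  rw [zero_mul] at h2
  rw [abs_nonpos_iff.mp h2]
  ring

end det

variable {Ω : Type*} {mΩ : MeasurableSpace Ω} {P : Measure Ω} {𝓕 : Filtration ℝ≥0 mΩ}

/-- two continuous paths that agree at all dyadic-type (countable dense) times agree. -/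
theorem ae_all_of_cont {Y Z : ℝ≥0 → Ω → ℝ} (hY : ∀ ω, Continuous (fun t => Y t ω))
    (hZ : ∀ ω, Continuous (fun t => Z t ω)) (h : ∀ t, ∀ᵐ ω ∂P, Y t ω = Z t ω) :
    ∀ᵐ ω ∂P, ∀ t, Y t ω = Z t ω := by
  obtain ⟨s, hs, hd⟩ := TopologicalSpace.exists_countable_dense ℝ≥0
  have h1 : ∀ᵐ ω ∂P, ∀ t ∈ s, Y t ω = Z t ω := (ae_ball_iff hs).mpr (fun t _ => h t)
  filter_upwards [h1] with ω hω t
  have := Continuous.ext_on hd (hY ω) (hZ ω) (fun t ht => hω t ht)
  exact congrFun this t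

/-- a continuous martingale of square integrable variation vanishes -/
theorem bvm [IsProbabilityMeasure P] {Y α β : ℝ≥0 → Ω → ℝ} (hY : Mart 𝓕 P Y)
    (hdec : ∀ᵐ ω ∂P, (∀ t, Y t ω = α t ω - β t ω) ∧ Monotone (fun t => α t ω) ∧
      Monotone (fun t => β t ω) ∧ α 0 ω = 0 ∧ β 0 ω = 0)
    (h2 : ∀ T, MemLp (fun ω => α T ω + β T ω) 2 P) : ∀ᵐ ω ∂P, ∀ t, Y t ω = 0 := by
  refine ae_all_of_cont hY.cont (fun ω => continuous_const) (fun T => ?_)
  have hnn : ∀ n ω, 0 ≤ ∑ i ∈ Finset.range (2^n), (Y (gr 0 T n (i+1)) ω - Y (gr 0 T n i) ω)^2 :=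
    fun n ω => Finset.sum_nonneg (fun i _ => sq_nonneg _)
  have hlim : Tendsto (fun n => ∫ ω, ∑ i ∈ Finset.range (2^n),
      (Y (gr 0 T n (i+1)) ω - Y (gr 0 T n i) ω)^2 ∂P) atTop (𝓝 (∫ _, (0:ℝ) ∂P)) := by
    have hpath : ∀ᵐ ω ∂P, ∀ n, ∀ i < 2^n, |Y (gr 0 T n (i+1)) ω - Y (gr 0 T n i) ω|
        ≤ (α (gr 0 T n (i+1)) ω + β (gr 0 T n (i+1)) ω)
          - (α (gr 0 T n i) ω + β (gr 0 T n i) ω) := by
      filter_upwards [hdec] with ω ⟨h3, h4, h5, h6, h7⟩ n i _
      have h8 := h4 (gr_mono 0 T n (Nat.le_succ i))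
      have h9 := h5 (gr_mono 0 T n (Nat.le_succ i))
      simp only [Nat.succ_eq_add_one] at h8 h9
      rw [h3, h3, abs_le]
      constructor <;> linarith
    have hvar : ∀ᵐ ω ∂P, ∀ n, ∑ i ∈ Finset.range (2^n),
        |Y (gr 0 T n (i+1)) ω - Y (gr 0 T n i) ω| ≤ α T ω + β T ω := by
      filter_upwards [hpath, hdec] with ω h3 ⟨_, _, _, h6, h7⟩ n
      refine (Finset.sum_le_sum (fun i hi => h3 n i (Finset.mem_range.mp hi))).trans ?_
      rw [Finset.sum_range_sub (fun i => α (gr 0 T n i) ω + β (gr 0 T n i) ω), gr_end, gr_zero,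
        h6, h7]
      simp
    refine tendsto_integral_of_dominated_convergence (fun ω => (α T ω + β T ω)^2) (fun n => ?_)
      (h2 T).integrable_sq (fun n => ?_) ?_
    · exact (Finset.measurable_sum _ (fun i _ =>
        ((hY.meas _).sub (hY.meas _)).pow_const 2)).aestronglyMeasurable
    · filter_upwards [hvar] with ω h3
      rw [Real.norm_eq_abs, abs_of_nonneg (hnn n ω)]
      have h4 : ∀ i ∈ Finset.range (2^n), (Y (gr 0 T n (i+1)) ω - Y (gr 0 T n i) ω)^2
          ≤ |Y (gr 0 T n (i+1)) ω - Y (gr 0 T n i) ω| * (α T ω + β T ω) := by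
        intro i hi
        rw [← sq_abs, sq]
        refine mul_le_mul_of_nonneg_left ?_ (abs_nonneg _)
        exact (Finset.single_le_sum (f := fun i => |Y (gr 0 T n (i+1)) ω - Y (gr 0 T n i) ω|)
          (fun i _ => abs_nonneg _) hi).trans (h3 n)
      refine (Finset.sum_le_sum h4).trans ?_
      rw [← Finset.sum_mul, sq]
      have h5 := h3 n
      have h6 : 0 ≤ ∑ i ∈ Finset.range (2^n), |Y (gr 0 T n (i+1)) ω - Y (gr 0 T n i) ω| :=
        Finset.sum_nonneg (fun i _ => abs_nonneg _)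
      exact mul_le_mul_of_nonneg_right h5 (h6.trans h5)
    · filter_upwards [hvar] with ω h3
      have hM : 0 ≤ α T ω + β T ω :=
        (Finset.sum_nonneg (fun i _ => abs_nonneg _)).trans (h3 0)
      rw [Metric.tendsto_atTop]
      intro ε hε
      have hη : 0 < ε / (α T ω + β T ω + 1) := by positivity
      obtain ⟨N, hN⟩ := eventually_atTop.mp (eventually_osc (hY.cont ω) 0 T hη)
      refine ⟨N, fun n hn => ?_⟩
      rw [Real.dist_eq, sub_zero, abs_of_nonneg (hnn n ω)]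
      have h4 : ∀ i ∈ Finset.range (2^n), (Y (gr 0 T n (i+1)) ω - Y (gr 0 T n i) ω)^2
          ≤ (ε / (α T ω + β T ω + 1)) * |Y (gr 0 T n (i+1)) ω - Y (gr 0 T n i) ω| := by
        intro i hi
        rw [← sq_abs, sq]
        refine mul_le_mul_of_nonneg_right ?_ (abs_nonneg _)
        exact (hN n hn i (Finset.mem_range.mp hi) _ _ (gr_mono 0 T n (Nat.le_succ i)) le_rfl le_rfl
          (gr_mono 0 T n (Nat.le_succ i))).le
      refine lt_of_le_of_lt (Finset.sum_le_sum h4) ?_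
      rw [← Finset.mul_sum]
      refine lt_of_le_of_lt (mul_le_mul_of_nonneg_left (h3 n) hη.le) ?_
      rw [div_mul_eq_mul_div, div_lt_iff₀ (by positivity)]
      nlinarith
  have hconst : ∀ n, ∫ ω, ∑ i ∈ Finset.range (2^n),
      (Y (gr 0 T n (i+1)) ω - Y (gr 0 T n i) ω)^2 ∂P = ∫ ω, (Y T ω)^2 ∂P := by
    intro n
    rw [hY.sum_sq (gr_mono 0 T n) (2^n), gr_end, gr_zero]
    simp [hY.zero]
  simp_rw [hconst] at hlim
  have h0 := tendsto_nhds_unique tendsto_const_nhds hlim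
  simp only [integral_zero] at h0
  rw [integral_eq_zero_iff_of_nonneg (fun ω => sq_nonneg _) (hY.memLp T).integrable_sq] at h0
  filter_upwards [h0] with ω hω
  exact pow_eq_zero_iff (two_ne_zero) |>.mp hω

end Pool.Agent.SkewBM
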