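import Mathlib

/-!
Definitions for the equation `X_t = B_t + φ (L_t)`, where `L` is the symmetric local time of `X`
at `0`.
-/

open MeasureTheory Filter ProbabilityTheory
open scoped NNReal ENNReal Topology

namespace Pool.Agent.SkewBM

universe u

/-- The usual conditions: the filtration is right-continuous and its time-zero `σ`-algebra
contains all null sets (in particular the measure is complete). -/
structure UsualConditions {Ω : Type u} {m : MeasurableSpace Ω} (𝓕 : Filtration ℝ≥0 m)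
    (P : Measure Ω) : Prop where
  rightCont : Filtration.IsRightContinuous 𝓕
  null : ∀ A : Set Ω, P A = 0 → MeasurableSet[𝓕 0] A

/-- `B` is a standard Brownian motion relative to the filtration `𝓕`. -/
structure IsFBM {Ω : Type u} {m : MeasurableSpace Ω} (𝓕 : Filtration ℝ≥0 m)
    (P : Measure Ω) (B : ℝ≥0 → Ω → ℝ) : Prop where
  isBrownian : IsBrownianReal B P
  adapted : StronglyAdapted 𝓕 B
  indep : ∀ s t : ℝ≥0, s ≤ t →
    Indep (MeasurableSpace.comap (fun ω => B t ω - B s ω) inferInstance) (𝓕 s) P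

/-- `X` is a continuous semimartingale: `X = M + A` with `M` a continuous local martingale and
`A` a continuous adapted process of locally bounded variation. -/
def IsContSemimartingale {Ω : Type u} {m : MeasurableSpace Ω} (𝓕 : Filtration ℝ≥0 m)
    (P : Measure Ω) (X : ℝ≥0 → Ω → ℝ) : Prop :=
  ∃ M A : ℝ≥0 → Ω → ℝ,
    Locally (fun Y : ℝ≥0 → Ω → ℝ => Martingale Y 𝓕 P) 𝓕 M P ∧
    (∀ᵐ ω ∂P, Continuous fun t => M t ω) ∧
    StronglyAdapted 𝓕 A ∧
    (∀ᵐ ω ∂P, (Continuous fun t => A t ω) ∧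
      LocallyBoundedVariationOn (fun t => A t ω) Set.univ) ∧
    ∀ᵐ ω ∂P, ∀ t, X t ω = M t ω + A t ω

/-- `Q` is the quadratic variation `⟨X⟩` of `X`: it has continuous nondecreasing paths started
at `0`, and `Q t` is the limit in probability of the sums of the squared increments of `X` along
the dyadic partitions of `[0, t]`. -/
structure IsQuadVar {Ω : Type u} {m : MeasurableSpace Ω} (P : Measure Ω)
    (X Q : ℝ≥0 → Ω → ℝ) : Prop where
  path : ∀ᵐ ω ∂P, (Continuous fun t => Q t ω) ∧ (Monotone fun t => Q t ω) ∧ Q 0 ω = 0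
  lim : ∀ t : ℝ≥0, TendstoInMeasure P
    (fun (n : ℕ) ω => ∑ k ∈ Finset.range ⌈t * 2 ^ n⌉₊,
      (X (min t (((k : ℝ≥0) + 1) / 2 ^ n)) ω - X (min t ((k : ℝ≥0) / 2 ^ n)) ω) ^ 2)
    atTop (Q t)

/-- `L` is the symmetric local time of `X` at `0`, where `Q = ⟨X⟩`: almost surely, for all `t`,
`L_t` is the limit as `ε ↓ 0` of `(2 ε)⁻¹ ∫_0^t 1_{|X_s| < ε} d⟨X⟩_s`. Here `d⟨X⟩_s` is the
measure `μ` on `[0, ∞)` with `μ [0, t] = ⟨X⟩_t` for all `t`. -/
def IsLocalTime {Ω : Type u} {m : MeasurableSpace Ω} (P : Measure Ω)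
    (X Q : ℝ≥0 → Ω → ℝ) (L : ℝ≥0 → Ω → ℝ≥0) : Prop :=
  ∀ᵐ ω ∂P, ∃ μ : Measure ℝ≥0, (∀ t, μ (Set.Iic t) = ENNReal.ofReal (Q t ω)) ∧
    ∀ t, Tendsto (fun ε : ℝ => (μ (Set.Iic t ∩ {s | |X s ω| < ε})).toReal / (2 * ε))
      (𝓝[>] 0) (𝓝 (L t ω : ℝ))

/-- `X` is a solution of `X_t = B_t + φ (L^X_t (0))` relative to the filtration `𝓕`. -/
structure IsSolution {Ω : Type u} {m : MeasurableSpace Ω} (𝓕 : Filtration ℝ≥0 m)
    (P : Measure Ω) (B : ℝ≥0 → Ω → ℝ) (φ : ℝ≥0 → ℝ) (X : ℝ≥0 → Ω → ℝ) : Prop where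
  adapted : StronglyAdapted 𝓕 X
  cont : ∀ᵐ ω ∂P, Continuous fun t => X t ω
  semimartingale : IsContSemimartingale 𝓕 P X
  eqn : ∃ (Q : ℝ≥0 → Ω → ℝ) (L : ℝ≥0 → Ω → ℝ≥0), IsQuadVar P X Q ∧ IsLocalTime P X Q L ∧
    ∀ᵐ ω ∂P, ∀ t, X t ω = B t ω + φ (L t ω)

/-- The usual augmentation of the filtration generated by `B`. -/
noncomputable def brownianFiltration {Ω : Type u} {m : MeasurableSpace Ω} (P : Measure Ω)
    [P.IsComplete] (B : ℝ≥0 → Ω → ℝ) (hB : ∀ t, Measurable (B t)) : Filtration ℝ≥0 m :=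
  Filtration.rightCont
    { seq := fun t => (⨆ s ≤ t, MeasurableSpace.comap (B s) inferInstance) ⊔
        MeasurableSpace.generateFrom {A | P A = 0}
      mono' := fun _ _ hst => sup_le_sup_right (biSup_mono fun _ h => h.trans hst) _
      le' := fun _ => sup_le (iSup₂_le fun s _ => (hB s).comap_le)
        (MeasurableSpace.generateFrom_le fun _ hA => measurableSet_of_null hA) }

/-- There is a strong solution, that is, a solution relative to the augmented filtration of the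
driving Brownian motion. -/
def HasStrongSolution {Ω : Type u} {m : MeasurableSpace Ω} (P : Measure Ω)
    [P.IsComplete] (B : ℝ≥0 → Ω → ℝ) (hB : ∀ t, Measurable (B t)) (φ : ℝ≥0 → ℝ) : Prop :=
  ∃ X : ℝ≥0 → Ω → ℝ, IsSolution (brownianFiltration P B hB) P B φ X

/-- Pathwise uniqueness: two solutions driven by the same Brownian motion, on any probability
space and relative to possibly different filtrations, are indistinguishable. -/
def PathwiseUnique (φ : ℝ≥0 → ℝ) : Prop :=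
  ∀ (Ω : Type u) (m : MeasurableSpace Ω) (P : Measure Ω) (𝓕 𝓖 : Filtration ℝ≥0 m)
    (B X Y : ℝ≥0 → Ω → ℝ), IsProbabilityMeasure P →
    UsualConditions 𝓕 P → UsualConditions 𝓖 P → IsFBM 𝓕 P B → IsFBM 𝓖 P B →
    IsSolution 𝓕 P B φ X → IsSolution 𝓖 P B φ Y → ∀ᵐ ω ∂P, ∀ t, X t ω = Y t ω

/-- The equation has some solution: there are a probability space, a filtration satisfying the
usual conditions, a Brownian motion relative to it and a solution driven by it. -/
def HasSolution (φ : ℝ≥0 → ℝ) : Prop :=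
  ∃ (Ω : Type u) (m : MeasurableSpace Ω) (P : Measure Ω) (𝓕 : Filtration ℝ≥0 m)
    (B X : ℝ≥0 → Ω → ℝ), IsProbabilityMeasure P ∧ UsualConditions 𝓕 P ∧ IsFBM 𝓕 P B ∧
    IsSolution 𝓕 P B φ X

end Pool.Agent.SkewBM
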