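import Pool.Agent.Lib.MP_e34d70_pr.LemmaB
import Pool.Agent.Lib.MP_e34d70_pr.BM

open MeasureTheory Filter ProbabilityTheory
open scoped NNReal ENNReal Topology

namespace Pool.Agent.SkewBM

/-- sign with value one at zero -/
noncomputable def sg (x : ℝ) : ℝ := if 0 ≤ x then 1 else -1

theorem sg_abs (x : ℝ) : |sg x| = 1 := by unfold sg; split_ifs <;> simp
theorem sg_sq (x : ℝ) : (sg x)^2 = 1 := by unfold sg; split_ifs <;> norm_num
theorem sg_mul (x : ℝ) : sg x * x = |x| := by
  unfold sg; split_ifs with h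
  · rw [abs_of_nonneg h, one_mul]
  · rw [abs_of_neg (not_le.mp h)]; ring
theorem sg_measurable : Measurable sg :=
  Measurable.ite measurableSet_Ici measurable_const measurable_const

section det

/-- the Euler scheme: the pair (martingale part, reflection part) -/
noncomputable def eul (φ : ℝ → ℝ) (x₀ : ℝ) (b : ℕ → ℝ) : ℕ → ℝ × ℝ
  | 0 => (0, 0)
  | i+1 => ((eul φ x₀ b i).1 + sg (b i + φ (eul φ x₀ b i).2) * (b (i+1) - b i),
      max (eul φ x₀ b i).2
        (-x₀ - ((eul φ x₀ b i).1 + sg (b i + φ (eul φ x₀ b i).2) * (b (i+1) - b i))))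

variable {φ : ℝ → ℝ} {x₀ : ℝ} {b : ℕ → ℝ}

theorem eul_a_nonneg (i : ℕ) : 0 ≤ (eul φ x₀ b i).2 := by
  induction i with
  | zero => simp [eul]
  | succ i ih => simp only [eul]; exact ih.trans (le_max_left _ _)

theorem eul_a_mono : Monotone (fun i => (eul φ x₀ b i).2) := by
  refine monotone_nat_of_le_succ (fun i => ?_)
  simp only [eul]; exact le_max_left _ _

theorem eul_R_nonneg (hx : 0 ≤ x₀) (i : ℕ) : 0 ≤ x₀ + (eul φ x₀ b i).1 + (eul φ x₀ b i).2 := by
  cases i with
  | zero => simp [eul, hx]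
  | succ i =>
    simp only [eul]
    have := le_max_right (eul φ x₀ b i).2
      (-x₀ - ((eul φ x₀ b i).1 + sg (b i + φ (eul φ x₀ b i).2) * (b (i+1) - b i)))
    linarith

theorem eul_le_a {i j : ℕ} (hj : j ≤ i) (hx : 0 ≤ x₀) :
    -x₀ - (eul φ x₀ b j).1 ≤ (eul φ x₀ b i).2 := by
  have h1 := eul_R_nonneg (φ := φ) (b := b) hx j
  have h2 : (eul φ x₀ b j).2 ≤ (eul φ x₀ b i).2 := eul_a_mono hj
  linarith

/-- the basic deterministic estimate for the Euler scheme -/
theorem eul_inv (hφ : ∀ x y, |φ x - φ y| ≤ |x - y|) (hx : x₀ = |φ 0|) (hb : b 0 = 0) {o : ℝ}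
    (ho : 0 ≤ o) (i : ℕ) (h : ∀ j < i, |b (j+1) - b j| ≤ o) :
    x₀ + (eul φ x₀ b i).1 + (eul φ x₀ b i).2 - |b i + φ (eul φ x₀ b i).2| ≤ 0 ∧
    -(2 * o) ≤ x₀ + (eul φ x₀ b i).1 + (eul φ x₀ b i).2 - |b i + φ (eul φ x₀ b i).2| := by
  induction i with
  | zero =>
    simp only [eul, hb, hx, zero_add, add_zero, sub_self, le_refl, true_and]
    linarith
  | succ i ih =>
    obtain ⟨ih1, ih2⟩ := ih (fun j hj => h j (by omega))
    have hR := eul_R_nonneg (φ := φ) (b := b) (x₀ := x₀) (by rw [hx]; exact abs_nonneg _) i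
    have hΔ := h i (Nat.lt_succ_self i)
    set k := (eul φ x₀ b i).1
    set a := (eul φ x₀ b i).2
    set X := b i + φ a with hX
    set Δ := b (i+1) - b i with hΔdef
    set H := sg X with hH
    have hHabs : |H| = 1 := sg_abs X
    have hHX : H * X = |X| := sg_mul X
    have hHΔ : |H * Δ| ≤ o := by rw [abs_mul, hHabs, one_mul]; exact hΔ
    have hHΔ' := abs_le.mp hHΔ
    have e1 : (eul φ x₀ b (i+1)).1 = k + H * Δ := by simp only [eul]; rfl
    have e2 : (eul φ x₀ b (i+1)).2 = max a (-x₀ - (k + H * Δ)) := by simp only [eul]; rfl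
    have hbi : b (i+1) = b i + Δ := by rw [hΔdef]; ring
    rw [e1, e2]
    rcases le_total (-x₀ - (k + H * Δ)) a with hc | hc
    · -- no reflection
      rw [max_eq_left hc]
      have e3 : b (i+1) + φ a = X + Δ := by rw [hbi, hX]; ring
      rw [e3]
      have e4 : H * (X + Δ) = |X| + H * Δ := by rw [mul_add, hHX]
      have e5 : |H * (X + Δ)| = |X + Δ| := by rw [abs_mul, hHabs, one_mul]
      have h6 : |X| + H * Δ ≤ |X + Δ| := by rw [← e4, ← e5]; exact le_abs_self _
      refine ⟨by linarith, ?_⟩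
      rcases le_total 0 (|X| + H * Δ) with h7 | h7
      · have h8 : |X + Δ| = |X| + H * Δ := by rw [← e5, e4, abs_of_nonneg h7]
        rw [h8]; linarith
      · have h8 : |X + Δ| = -(|X| + H * Δ) := by rw [← e5, e4, abs_of_nonpos h7]
        have h9 := abs_nonneg X
        rw [h8]
        linarith [hHΔ'.1]
    · rw [max_eq_right hc]
      set a' := -x₀ - (k + H * Δ) with ha'
      have e0 : x₀ + (k + H * Δ) + a' = 0 := by rw [ha']; ring
      rw [e0]
      have hda : 0 ≤ a' - a := by linarith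
      refine ⟨by linarith [abs_nonneg (b (i+1) + φ a')], ?_⟩
      -- bound on the new position
      have h1 : |b (i+1) + φ a'| ≤ |X + Δ| + (a' - a) := by
        have e3 : b (i+1) + φ a' = (X + Δ) + (φ a' - φ a) := by rw [hbi, hX]; ring
        rw [e3]
        refine (abs_add_le _ _).trans ?_
        have := hφ a' a
        rw [abs_of_nonneg hda] at this
        linarith
      have e4 : H * (X + Δ) = |X| + H * Δ := by rw [mul_add, hHX]
      have e5 : |H * (X + Δ)| = |X + Δ| := by rw [abs_mul, hHabs, one_mul]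
      have h2 : a' - a ≤ o := by rw [ha']; linarith [hHΔ'.1]
      have h3 : |X + Δ| ≤ max (2 * o - (a' - a)) (a' - a) := by
        rw [← e5, e4, abs_le]
        have h9 := abs_nonneg X
        have h10 : |X| + H * Δ = (|X| - (x₀ + k + a)) - (a' - a) := by rw [ha']; ring
        constructor
        · have := le_max_right (2 * o - (a' - a)) (a' - a)
          rw [h10]; linarith
        · refine le_trans ?_ (le_max_left _ _)
          rw [h10]; linarith
      have h4 : |X + Δ| + (a' - a) ≤ 2 * o := by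
        rcases max_cases (2 * o - (a' - a)) (a' - a) with ⟨h5, -⟩ | ⟨h5, -⟩
        · rw [h5] at h3; linarith
        · rw [h5] at h3; linarith
      linarith

end det

/-- grid points -/
noncomputable def tt (n i : ℕ) : ℝ≥0 := (i:ℝ≥0) / 2^n

theorem tt_mono (n : ℕ) : Monotone (tt n) := by
  intro i j hij; unfold tt; gcongr

theorem tt_zero (n : ℕ) : tt n 0 = 0 := by simp [tt]

theorem tt_succ (n i : ℕ) : tt n (i+1) = tt n i + 1/2^n := by
  unfold tt; push_cast; ring

theorem tt_floor_le (n : ℕ) (t : ℝ≥0) : tt n ⌊t * 2^n⌋₊ ≤ t := by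
  unfold tt
  have h2 : (0:ℝ≥0) < 2^n := by positivity
  rw [div_le_iff₀ h2]
  exact Nat.floor_le zero_le

theorem lt_tt_floor (n : ℕ) (t : ℝ≥0) : t < tt n (⌊t * 2^n⌋₊ + 1) := by
  unfold tt
  have h2 : (0:ℝ≥0) < 2^n := by positivity
  rw [lt_div_iff₀ h2]
  push_cast
  exact Nat.lt_floor_add_one _

section path

variable (φ : ℝ → ℝ) (x₀ : ℝ) (b : ℝ≥0 → ℝ) (n : ℕ)

noncomputable def ek (i : ℕ) : ℝ := (eul φ x₀ (fun j => b (tt n j)) i).1
noncomputable def ea (i : ℕ) : ℝ := (eul φ x₀ (fun j => b (tt n j)) i).2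
noncomputable def hh (i : ℕ) : ℝ := sg (b (tt n i) + φ (ea φ x₀ b n i))

/-- continuous interpolation of the Euler scheme -/
noncomputable def KS (N : ℕ) (t : ℝ≥0) : ℝ :=
  ∑ i ∈ Finset.range N, hh φ x₀ b n i * (b (min t (tt n (i+1))) - b (min t (tt n i)))

noncomputable def KE (t : ℝ≥0) : ℝ := KS φ x₀ b n (⌊t * 2^n⌋₊ + 1) t

theorem ek_succ (i : ℕ) : ek φ x₀ b n (i+1)
    = ek φ x₀ b n i + hh φ x₀ b n i * (b (tt n (i+1)) - b (tt n i)) := by
  simp only [ek, hh, ea, eul]

theorem KS_ext {t : ℝ≥0} {N : ℕ} (hN : t ≤ tt n N) (M : ℕ) :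
    KS φ x₀ b n (N + M) t = KS φ x₀ b n N t := by
  induction M with
  | zero => rfl
  | succ M ih =>
    rw [← add_assoc, ← ih]
    unfold KS
    rw [Finset.sum_range_succ]
    have h1 : t ≤ tt n (N + M) := hN.trans (tt_mono n (Nat.le_add_right N M))
    have h2 : t ≤ tt n (N + M + 1) := h1.trans (tt_mono n (Nat.le_succ _))
    rw [min_eq_left h1, min_eq_left h2, sub_self, mul_zero, add_zero]

theorem KE_eq_KS {t : ℝ≥0} {N : ℕ} (hN : t ≤ tt n N) : KE φ x₀ b n t = KS φ x₀ b n N t := by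
  unfold KE
  rcases le_total (⌊t * 2^n⌋₊ + 1) N with h | h
  · obtain ⟨M, rfl⟩ := Nat.exists_eq_add_of_le h
    exact (KS_ext φ x₀ b n (lt_tt_floor n t).le M).symm
  · obtain ⟨M, hM⟩ := Nat.exists_eq_add_of_le h
    rw [hM]
    exact KS_ext φ x₀ b n hN M

theorem KS_grid (i : ℕ) : KS φ x₀ b n i (tt n i) = ek φ x₀ b n i := by
  have key : ∀ m ≤ i, KS φ x₀ b n m (tt n i) = ek φ x₀ b n m := by
    intro m
    induction m with
    | zero => intro _; simp [KS, ek, eul]
    | succ m ih =>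
      intro hm
      have h1 := ih (by omega)
      unfold KS at h1 ⊢
      rw [Finset.sum_range_succ, h1, ek_succ, min_eq_right (tt_mono n hm),
        min_eq_right (tt_mono n (show m ≤ i by omega))]
  exact key i le_rfl

theorem KE_grid (i : ℕ) : KE φ x₀ b n (tt n i) = ek φ x₀ b n i := by
  rw [KE_eq_KS φ x₀ b n (N := i) le_rfl, KS_grid]

theorem KE_cell {t : ℝ≥0} {i : ℕ} (h1 : tt n i ≤ t) (h2 : t ≤ tt n (i+1)) :
    KE φ x₀ b n t = ek φ x₀ b n i + hh φ x₀ b n i * (b t - b (tt n i)) := by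
  rw [KE_eq_KS φ x₀ b n (N := i+1) h2]
  unfold KS
  rw [Finset.sum_range_succ, min_eq_left h2, min_eq_right h1, ← KS_grid]
  congr 1
  unfold KS
  refine Finset.sum_congr rfl (fun j hj => ?_)
  have hj' := Finset.mem_range.mp hj
  rw [min_eq_right ((tt_mono n (show j + 1 ≤ i by omega)).trans h1),
    min_eq_right ((tt_mono n (show j ≤ i by omega)).trans h1),
    min_eq_right (tt_mono n (show j + 1 ≤ i by omega)),
    min_eq_right (tt_mono n (show j ≤ i by omega))]

theorem KE_zero : KE φ x₀ b n 0 = 0 := by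
  have := KE_grid φ x₀ b n 0
  rw [tt_zero] at this
  rw [this]; simp [ek, eul]

variable {b}

theorem continuous_KS (hb : Continuous b) (N : ℕ) : Continuous (fun t => KS φ x₀ b n N t) := by
  unfold KS
  refine continuous_finsetSum _ (fun i _ => Continuous.const_mul ?_ _)
  exact (hb.comp (continuous_id.min continuous_const)).sub
    (hb.comp (continuous_id.min continuous_const))

theorem continuous_KE (hb : Continuous b) : Continuous (fun t => KE φ x₀ b n t) := by
  rw [continuous_iff_continuousAt]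
  intro t
  have h1 := (continuous_KS φ x₀ n hb (⌊t * 2^n⌋₊ + 1)).continuousAt (x := t)
  refine h1.congr ?_
  filter_upwards [Iio_mem_nhds (lt_tt_floor n t)] with s hs
  exact (KE_eq_KS φ x₀ b n (le_of_lt hs)).symm

/-- defect estimate for the interpolated Euler scheme -/
theorem KE_defect {φ : ℝ → ℝ} {x₀ : ℝ} (hφ : ∀ x y, |φ x - φ y| ≤ |x - y|) (hx : x₀ = |φ 0|)
    (hb : Continuous b) (hb0 : b 0 = 0) {o : ℝ} (ho : 0 ≤ o) (T : ℝ≥0)
    (hosc : ∀ i : ℕ, i ≤ ⌊T * 2^n⌋₊ → ∀ s, tt n i ≤ s → s ≤ tt n (i+1) → |b s - b (tt n i)| ≤ o) :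
    Defect φ x₀ b (fun t => KE φ x₀ b n t) T (6 * o) := by
  intro u hu
  have hx0 : 0 ≤ x₀ := by rw [hx]; exact abs_nonneg _
  set i := ⌊u * 2^n⌋₊ with hi
  have hiT : i ≤ ⌊T * 2^n⌋₊ := Nat.floor_mono (by gcongr)
  have hui : tt n i ≤ u := tt_floor_le n u
  have hui' : u ≤ tt n (i+1) := (lt_tt_floor n u).le
  have hKc : Continuous (fun t => KE φ x₀ b n t) := continuous_KE φ x₀ n hb
  have hcell : ∀ j ≤ i, ∀ s, tt n j ≤ s → s ≤ tt n (j+1) →
      |KE φ x₀ b n s - ek φ x₀ b n j| ≤ o := by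
    intro j hj s hs1 hs2
    rw [KE_cell φ x₀ b n hs1 hs2, add_sub_cancel_left, abs_mul]
    unfold hh
    rw [sg_abs, one_mul]
    exact hosc j (hj.trans hiT) s hs1 hs2
  have hKu := hcell i le_rfl u hui hui'
  -- compare the running maxima
  have ha1 : ea φ x₀ b n i ≤ sk x₀ (fun t => KE φ x₀ b n t) u := by
    have key : ∀ j ≤ i, ea φ x₀ b n j ≤ sk x₀ (fun t => KE φ x₀ b n t) u := by
      intro j
      induction j with
      | zero => intro _; simp only [ea, eul]; exact sk_nonneg hKc u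
      | succ j ih =>
        intro hj
        have h1 := ih (by omega)
        have h2 : ea φ x₀ b n (j+1) = max (ea φ x₀ b n j) (-x₀ - ek φ x₀ b n (j+1)) := by
          simp only [ea, ek, eul]
        rw [h2]
        refine max_le h1 ?_
        rw [← KE_grid]
        exact le_sk hKc ((tt_mono n hj).trans hui)
    exact key i le_rfl
  have ha2 : sk x₀ (fun t => KE φ x₀ b n t) u ≤ ea φ x₀ b n i + o := by
    refine sk_le (by have := eul_a_nonneg (φ := φ) (x₀ := x₀) (b := fun j => b (tt n j)) i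
                     unfold ea; linarith) (fun s hs => ?_)
    have hj : ⌊s * 2^n⌋₊ ≤ i := Nat.floor_mono (by gcongr)
    have h1 := hcell _ hj s (tt_floor_le n s) (lt_tt_floor n s).le
    have h2 := eul_le_a (φ := φ) (x₀ := x₀) (b := fun j => b (tt n j)) hj hx0
    have h3 := abs_le.mp h1
    unfold ek at h3
    unfold ea
    linarith [h3.1, h3.2]
  obtain ⟨h5, h6⟩ := eul_inv (b := fun j => b (tt n j)) hφ hx (by simp only [tt_zero]; exact hb0)
    ho i (fun j hj => hosc j (by omega) _ (tt_mono n (Nat.le_succ j)) le_rfl)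
  have h5' : x₀ + ek φ x₀ b n i + ea φ x₀ b n i - |b (tt n i) + φ (ea φ x₀ b n i)| ≤ 0 := h5
  have h6' : -(2*o) ≤ x₀ + ek φ x₀ b n i + ea φ x₀ b n i
    - |b (tt n i) + φ (ea φ x₀ b n i)| := h6
  have h7 := hosc i hiT u hui hui'
  have h8 : |(|b u + φ (sk x₀ (fun t => KE φ x₀ b n t) u)| -
      |b (tt n i) + φ (ea φ x₀ b n i)|)| ≤ o + o := by
    refine (abs_abs_sub_abs_le _ _).trans ?_
    have e : b u + φ (sk x₀ (fun t => KE φ x₀ b n t) u) - (b (tt n i) + φ (ea φ x₀ b n i))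
        = (b u - b (tt n i)) + (φ (sk x₀ (fun t => KE φ x₀ b n t) u) - φ (ea φ x₀ b n i)) := by
      ring
    rw [e]
    refine (abs_add_le _ _).trans (add_le_add h7 ?_)
    refine (hφ _ _).trans ?_
    rw [abs_of_nonneg (by linarith)]
    linarith
  have h9 := abs_le.mp h8
  have h10 := abs_le.mp hKu
  rw [abs_le]
  constructor <;> linarith [h9.1, h9.2, h10.1, h10.2]

end path

end Pool.Agent.SkewBM
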