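import Pool.Agent.Lib.MP_e34d70_pr.Leb

open MeasureTheory Filter ProbabilityTheory
open scoped NNReal ENNReal Topology

namespace Pool.Agent.SkewBM

variable {Ω : Type*} {mΩ : MeasurableSpace Ω} {P : Measure Ω} {𝓕 : Filtration ℝ≥0 mΩ}
variable {B K X : ℝ≥0 → Ω → ℝ} {φ : ℝ → ℝ}

theorem bc [IsProbabilityMeasure P] {A : ℕ → Set Ω} {C : ℝ}
    (h : ∀ k : ℕ, P.real (A k) ≤ C / ((k:ℝ)+1)^2) : ∀ᵐ ω ∂P, ∀ᶠ k in atTop, ω ∉ A k := by
  have hC : 0 ≤ C := by
    have := (measureReal_nonneg).trans (h 0)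
    simpa using this
  have hs : Summable (fun k : ℕ => C / ((k:ℝ)+1)^2) := by
    have h1 : Summable (fun k : ℕ => 1 / ((k:ℝ))^2) :=
      Real.summable_one_div_nat_pow.mpr (by norm_num)
    have h2 := (summable_nat_add_iff 1).mpr h1
    have h3 := h2.mul_left C
    refine h3.congr (fun k => ?_)
    push_cast; ring
  refine ae_eventually_notMem ?_
  refine ne_top_of_le_ne_top (b := ∑' k : ℕ, ENNReal.ofReal (C / ((k:ℝ)+1)^2)) ?_
    (ENNReal.tsum_le_tsum (fun k => ?_))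
  · rw [← ENNReal.ofReal_tsum_of_nonneg (fun k => by positivity) hs]
    exact ENNReal.ofReal_ne_top
  · rw [← ENNReal.ofReal_toReal (measure_ne_top P (A k))]
    exact ENNReal.ofReal_le_ofReal (h k)

theorem sqrt_bB (k : ℕ) : Real.sqrt (bB k) = 1 / ((k:ℝ)+1)^3 := by
  have e : bB k = (1 / ((k:ℝ)+1)^3)^2 := by unfold bB; rw [div_pow, one_pow, ← pow_mul]
  rw [e, Real.sqrt_sq (by positivity)]

theorem bB_small (k : ℕ) : bB (k+2) * ((k:ℝ)+1) ≤ 1 / ((k:ℝ)+1)^2 := by
  unfold bB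
  push_cast
  have h0 : (0:ℝ) ≤ k := Nat.cast_nonneg k
  rw [div_mul_eq_mul_div, one_mul, div_le_div_iff₀ (by positivity) (by positivity), one_mul]
  have h1 : ((k:ℝ)+1) * ((k:ℝ)+1)^2 = ((k:ℝ)+1)^3 := by ring
  rw [h1]
  calc ((k:ℝ)+1)^3 ≤ ((k:ℝ)+2+1)^3 := by gcongr; linarith
    _ ≤ ((k:ℝ)+2+1)^6 := pow_le_pow_right₀ (by linarith) (by norm_num)

theorem ESol.localTime [IsProbabilityMeasure P] (h : ESol 𝓕 P B φ K X)
    (hnull : ∀ A : Set Ω, P A = 0 → MeasurableSet[𝓕 0] A)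
    (hB : BMW 𝓕 P B) (hφ : ∀ x y, |φ x - φ y| ≤ |x - y|) :
    ∀ᵐ ω ∂P, ∀ t, Tendsto (fun ε => occ mu0 (fun s => X s ω) t ε / (2 * ε)) (𝓝[>] 0)
      (𝓝 (sk |φ 0| (fun u => K u ω) t)) := by
  obtain ⟨hcc, ns, hns, hLU⟩ := h.ident hnull hB hφ
  have hXa := h.xmeas hB hφ
  have hXm : ∀ t, Measurable (X t) := fun t => (hXa t).mono (𝓕.le t) le_rfl
  have hXc := h.xcont hB hφ
  have hXint : ∀ t, Integrable (fun ω => |X t ω|) P := fun t =>
    (h.xabs2 t).integrable (by norm_num)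
  have hnear : ∀ (p : Par) (m : ℕ), m - cc P X p m ≤ 6 * p.b * ∫ ω, |X m ω| ∂P := by
    intro p m
    have := near_zero hB hXa hXc h.az p m (hXint m) (hXint 0) (hcc m)
    simpa using this
  have hE : ∀ m : ℕ, 0 ≤ ∫ ω, |X m ω| ∂P := fun m => integral_nonneg (fun ω => abs_nonneg _)
  -- first family of events
  have hev1 : ∀ m : ℕ, ∀ᵐ ω ∂P, ∀ᶠ k : ℕ in atTop, supOn (fun s =>
      |K s ω - KF (parB k).FF (parB k).psi (fun u => X u ω) s|) m ≤ 1 / ((k:ℝ)+1) := by
    intro m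
    have h1 := bc (P := P) (A := fun k => {ω | 1 / ((k:ℝ)+1) < supOn (fun s =>
      |K s ω - KF (parB k).FF (parB k).psi (fun u => X u ω) s|) m})
      (C := Real.sqrt (6 * ∫ ω, |X m ω| ∂P)) (fun k => ?_)
    · filter_upwards [h1] with ω hω
      filter_upwards [hω] with k hk
      simpa using hk
    · have hM := h.hK.sub (kf_mart hB hXa hXc h.az (parB k).tf)
      have h2 := hM.doob (m:ℝ≥0) (lam := 1/((k:ℝ)+1)) (by positivity)
      have h3 := integral_abs_le_sqrt (hM.memLp m)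
      have h4 := h.kdist hB hφ hns hLU (parB k) m (hcc m)
      have h5 : ((m:ℝ≥0):ℝ) - cc P X (parB k) m ≤ 6 * bB k * ∫ ω, |X m ω| ∂P := by
        have := hnear (parB k) m
        simpa [parB] using this
      have h6 : Real.sqrt (∫ ω, (K m ω - KF (parB k).FF (parB k).psi (fun u => X u ω) m)^2 ∂P)
          ≤ Real.sqrt (6 * ∫ ω, |X m ω| ∂P) * (1 / ((k:ℝ)+1)^3) := by
        rw [← sqrt_bB, ← Real.sqrt_mul (by have := hE m; positivity)]
        refine Real.sqrt_le_sqrt ?_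
        linarith
      have h7 := h2.trans (h3.trans h6)
      have hk : (0:ℝ) < (k:ℝ)+1 := by positivity
      have h8 : 0 < 1 / ((k:ℝ)+1) := by positivity
      refine le_of_mul_le_mul_left (h7.trans (le_of_eq ?_)) h8
      field_simp
  -- second family of events
  have hev2 : ∀ m : ℕ, ∀ᵐ ω ∂P, ∀ᶠ k : ℕ in atTop,
      tint (fun u => 1 - ((parQ k).Fp (X u ω))^2) 0 m ≤ bB (k+2) / ((k:ℝ)+1) := by
    intro m
    have h1 := bc (P := P) (A := fun k => {ω | bB (k+2) / ((k:ℝ)+1)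
      < tint (fun u => 1 - ((parQ k).Fp (X u ω))^2) 0 m})
      (C := 9 * ∫ ω, |X m ω| ∂P) (fun k => ?_)
    · filter_upwards [h1] with ω hω
      filter_upwards [hω] with k hk
      simpa using hk
    · obtain ⟨i1, e1⟩ := one_sub_fp_int (P := P) (X := X) (parQ k) hXm hXc m
      have h2 := mul_meas_ge_le_integral_of_nonneg (μ := P)
        (f := fun ω => tint (fun u => 1 - ((parQ k).Fp (X u ω))^2) 0 m)
        (ae_of_all _ fun ω => tint_nonneg zero_le
          (fun u => by have := (parQ k).Fp_sq_le (X u ω); linarith)) i1 (bB (k+2) / ((k:ℝ)+1))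
      rw [e1] at h2
      have h3 : ((m:ℝ≥0):ℝ) - cc P X (parQ k) m ≤ 6 * (6 * rB k) * ∫ ω, |X m ω| ∂P := by
        have := hnear (parQ k) m
        simpa [parQ] using this
      have hb := bB_pos (k+2)
      have hk : (0:ℝ) < (k:ℝ)+1 := by positivity
      have h4 : P.real {ω | bB (k+2) / ((k:ℝ)+1)
          < tint (fun u => 1 - ((parQ k).Fp (X u ω))^2) 0 m}
          ≤ P.real {ω | bB (k+2) / ((k:ℝ)+1)
          ≤ tint (fun u => 1 - ((parQ k).Fp (X u ω))^2) 0 m} :=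
        measureReal_mono (Set.ofPred_subset_ofPred.mpr (fun ω hω => le_of_lt hω))
      have h5 : bB (k+2) / ((k:ℝ)+1) * P.real {ω | bB (k+2) / ((k:ℝ)+1)
          ≤ tint (fun u => 1 - ((parQ k).Fp (X u ω))^2) 0 m}
          ≤ 9 * (bB (k+2))^2 * ∫ ω, |X m ω| ∂P := by
        refine h2.trans (h3.trans (le_of_eq ?_))
        unfold rB; ring
      have h6 : P.real {ω | bB (k+2) / ((k:ℝ)+1)
          ≤ tint (fun u => 1 - ((parQ k).Fp (X u ω))^2) 0 m}
          ≤ 9 * (∫ ω, |X m ω| ∂P) * (bB (k+2) * ((k:ℝ)+1)) := by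
        have h7 : 0 < bB (k+2) / ((k:ℝ)+1) := by positivity
        refine le_of_mul_le_mul_left (h5.trans (le_of_eq ?_)) h7
        field_simp
      refine h4.trans (h6.trans ?_)
      have h8 := bB_small k
      have h9 := hE m
      calc 9 * (∫ ω, |X m ω| ∂P) * (bB (k+2) * ((k:ℝ)+1))
          ≤ 9 * (∫ ω, |X m ω| ∂P) * (1 / ((k:ℝ)+1)^2) := by gcongr
        _ = _ := by ring
  have hall : ∀ᵐ ω ∂P, ∀ m : ℕ, (∀ᶠ k : ℕ in atTop, supOn (fun s =>
      |K s ω - KF (parB k).FF (parB k).psi (fun u => X u ω) s|) m ≤ 1 / ((k:ℝ)+1)) ∧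
      (∀ᶠ k : ℕ in atTop,
      tint (fun u => 1 - ((parQ k).Fp (X u ω))^2) 0 m ≤ bB (k+2) / ((k:ℝ)+1)) := by
    rw [ae_all_iff]
    intro m
    filter_upwards [hev1 m, hev2 m] with ω h1 h2 using ⟨h1, h2⟩
  filter_upwards [hall, h.habs] with ω hω habs t
  obtain ⟨m, hm⟩ := exists_nat_ge t
  obtain ⟨h1, h2⟩ := hω m
  refine path_local (hXc ω) t ?_ ?_
  · -- convergence along the slow family
    have hKF : Tendsto (fun k => KF (parB k).FF (parB k).psi (fun u => X u ω) t) atTop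
        (𝓝 (K t ω)) := by
      have h3 : Tendsto (fun k : ℕ => 1 / ((k:ℝ)+1)) atTop (𝓝 0) :=
        tendsto_one_div_add_atTop_nhds_zero_nat
      rw [tendsto_iff_dist_tendsto_zero]
      refine squeeze_zero' (Eventually.of_forall fun k => dist_nonneg) ?_ h3
      filter_upwards [h1] with k hk
      rw [Real.dist_eq, abs_sub_comm]
      have hc : Continuous (fun s =>
          |K s ω - KF (parB k).FF (parB k).psi (fun u => X u ω) s|) :=
        ((h.hK.cont ω).sub ((kf_mart hB hXa hXc h.az (parB k).tf).cont ω)).abs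
      exact (le_supOn hc hm).trans hk
    have hF : ∀ t, Tendsto (fun k => (parB k).FF (X t ω)) atTop (𝓝 |X t ω|) := by
      intro t
      have h3 : Tendsto (fun k => |X t ω| - bB k) atTop (𝓝 (|X t ω| - 0)) :=
        bB_tendsto.const_sub _
      rw [sub_zero] at h3
      exact tendsto_of_tendsto_of_tendsto_of_le_of_le h3 tendsto_const_nhds
        (fun j => (parB j).le_FF (X t ω)) (fun j => (parB j).FF_le (X t ω))
    have h4 := ((hF t).sub (hF 0)).sub hKF
    have e : |X t ω| - |X 0 ω| - K t ω = sk |φ 0| (fun u => K u ω) t := by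
      rw [habs t, h.x_zero hB]; ring
    rw [e] at h4
    refine h4.congr (fun k => ?_)
    unfold KF
    ring
  · filter_upwards [h2] with k hk
    refine le_trans ?_ hk
    have hc : Continuous (fun u => 1 - ((parQ k).Fp (X u ω))^2) :=
      continuous_const.sub (((parQ k).Fp_cont.comp (hXc ω)).pow 2)
    rw [← tint_add hc 0 t m]
    have := tint_nonneg (g := fun u => 1 - ((parQ k).Fp (X u ω))^2) hm
      (fun u => by have := (parQ k).Fp_sq_le (X u ω); linarith)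
    linarith

end Pool.Agent.SkewBM
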