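import Pool.Agent.Lib.MP_e34d70_pr.Uniq
import Pool.Agent.Lib.MP_e34d70_pr.LocalT
import Pool.Agent.Lib.MP_e34d70_pr.BFilt

open MeasureTheory Filter ProbabilityTheory
open scoped NNReal ENNReal Topology

namespace Pool.Agent.SkewBM

universe u

/-- perturbation of the quadratic sums by a path of bounded variation -/
theorem SQ_pert {b a l : ℝ≥0 → ℝ} (hb : Continuous b) (ha : Continuous a)
    (hal : ∀ s t, s ≤ t → |a t - a s| ≤ l t - l s) (t : ℝ≥0) :
    Tendsto (fun n => SQ (fun s => b s + a s) t n - SQ b t n) atTop (𝓝 0) := by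
  have hl0 : 0 ≤ l t - l 0 := (abs_nonneg _).trans (hal 0 t zero_le)
  rw [Metric.tendsto_atTop]
  intro ε hε
  set η : ℝ := ε / (4 * (l t - l 0 + 1)) with hη
  have hden : 0 < 4 * (l t - l 0 + 1) := by positivity
  have hη0 : 0 < η := div_pos hε hden
  obtain ⟨δ₁, hδ₁, hd₁⟩ := exists_delta hb t hη0
  obtain ⟨δ₂, hδ₂, hd₂⟩ := exists_delta ha t hη0
  obtain ⟨N, hN⟩ := eventually_atTop.mp (eventually_mesh 1 (lt_min hδ₁ hδ₂))
  refine ⟨N, fun n hn => ?_⟩
  rw [Real.dist_eq, sub_zero]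
  set M := ⌈t * 2^n⌉₊ with hM
  set v : ℕ → ℝ≥0 := fun k => min t (tt n k) with hv
  have hvm : Monotone v := fun i j hij => min_le_min le_rfl (tt_mono n hij)
  have hvt : ∀ k, v k ≤ t := fun k => min_le_left _ _
  have hstep : ∀ k, v (k+1) ≤ v k + 1/2^n := by
    intro k
    simp only [hv]
    rw [tt_succ, ← min_add_add_right]
    exact min_le_min le_self_add le_rfl
  have hmesh := hN n hn
  have e : SQ (fun s => b s + a s) t n - SQ b t n = ∑ k ∈ Finset.range M,
      (a (v (k+1)) - a (v k)) * (2 * (b (v (k+1)) - b (v k)) + (a (v (k+1)) - a (v k))) := by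
    unfold SQ
    rw [← Finset.sum_sub_distrib]
    refine Finset.sum_congr rfl (fun k _ => ?_)
    simp only [hv]
    ring
  rw [e]
  have hterm : ∀ k ∈ Finset.range M,
      |(a (v (k+1)) - a (v k)) * (2 * (b (v (k+1)) - b (v k)) + (a (v (k+1)) - a (v k)))|
      ≤ 3 * η * (l (v (k+1)) - l (v k)) := by
    intro k _
    have hle : v k ≤ v (k+1) := hvm (Nat.le_succ k)
    have h1 := hal _ _ hle
    have hc1 : v (k+1) ≤ v k + δ₁ := (hstep k).trans (by
      gcongr; exact hmesh.trans (min_le_left _ _))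
    have hc2 : v (k+1) ≤ v k + δ₂ := (hstep k).trans (by
      gcongr; exact hmesh.trans (min_le_right _ _))
    have h2 := (hd₁ _ (hvt _) _ (hvt _) hc1 (hle.trans le_self_add)).le
    have h3 := (hd₂ _ (hvt _) _ (hvt _) hc2 (hle.trans le_self_add)).le
    rw [abs_mul, mul_comm]
    refine mul_le_mul ?_ h1 (abs_nonneg _) (by positivity)
    refine (abs_add_le _ _).trans ?_
    rw [abs_mul, abs_of_pos (two_pos)]
    linarith
  refine lt_of_le_of_lt ((Finset.abs_sum_le_sum_abs _ _).trans (Finset.sum_le_sum hterm)) ?_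
  rw [← Finset.mul_sum, Finset.sum_range_sub (fun k => l (v k))]
  have hvM : v M = t := min_eq_left (tt_ceil t n)
  have hv0 : v 0 = 0 := by simp [hv, tt_zero]
  rw [hvM, hv0, hη]
  rw [mul_div_assoc', div_mul_eq_mul_div, div_lt_iff₀ hden]
  nlinarith

section

variable {Ω : Type u} {mΩ : MeasurableSpace Ω} {P : Measure Ω} {𝓕 : Filtration ℝ≥0 mΩ}
variable {B K X : ℝ≥0 → Ω → ℝ}

theorem Mart.martingale [IsProbabilityMeasure P] (h : Mart 𝓕 P K) : Martingale K 𝓕 P := by
  refine ⟨fun t => (h.adapted t).stronglyMeasurable, fun i j hij => ?_⟩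
  have hi : Integrable (K i) P := (h.memLp i).integrable (by norm_num)
  have hj : Integrable (K j) P := (h.memLp j).integrable (by norm_num)
  refine (ae_eq_condExp_of_forall_setIntegral_eq (𝓕.le i) hj
    (fun s _ _ => hi.integrableOn) (fun s hs _ => ?_)
    (h.adapted i).stronglyMeasurable.aestronglyMeasurable).symm
  have hsm : MeasurableSet s := 𝓕.le i s hs
  have h1 := h.orth i j hij (s.indicator fun _ => (1:ℝ)) (measurable_const.indicator hs)
    (fun ω => by by_cases hω : ω ∈ s <;> simp [hω])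
  have h2 : ∫ ω in s, (K j ω - K i ω) ∂P = 0 := by
    rw [← h1, ← integral_indicator hsm]
    refine integral_congr_ae (ae_of_all _ fun ω => ?_)
    by_cases hω : ω ∈ s
    · simp [hω]
    · simp [hω]
  rw [integral_sub hj.integrableOn hi.integrableOn] at h2
  linarith

theorem bv_comp {φ : ℝ → ℝ} (hφ : ∀ x y, |φ x - φ y| ≤ |x - y|) {l : ℝ≥0 → ℝ} (hl : Monotone l) :
    LocallyBoundedVariationOn (fun t => φ (l t)) Set.univ := by
  have h1 : LipschitzWith 1 φ := LipschitzWith.of_dist_le_mul (fun x y => by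
    rw [Real.dist_eq, Real.dist_eq, NNReal.coe_one, one_mul]; exact hφ x y)
  exact h1.comp_locallyBoundedVariationOn ((hl.monotoneOn Set.univ).locallyBoundedVariationOn)

/-- an exact solution is a solution of the equation -/
theorem ESol.isSolution [IsProbabilityMeasure P] (hU : UsualConditions 𝓕 P)
    (hB : IsBrownianReal B P)
    {ψ : ℝ≥0 → ℝ} (hψ : ∀ s t : ℝ≥0, |ψ s - ψ t| ≤ |(s:ℝ) - t|)
    (h : ESol 𝓕 P (cB B) (fun x => ψ x.toNNReal) K X) (hb : BMW 𝓕 P (cB B)) :
    IsSolution 𝓕 P B ψ X := by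
  have hφ := lip_ext hψ
  set φ : ℝ → ℝ := fun x => ψ x.toNNReal with hφdef
  have hφc := lip_measurable hφ
  set l : ℝ≥0 → Ω → ℝ := fun t ω => sk |φ 0| (fun u => K u ω) t with hl
  have hlm : ∀ ω, Monotone (fun t => l t ω) := fun ω s t hst => sk_mono (h.hK.cont ω) hst
  have hlc : ∀ ω, Continuous (fun t => l t ω) := fun ω => continuous_sk (h.hK.cont ω)
  have hl0 : ∀ t ω, 0 ≤ l t ω := fun t ω => sk_nonneg (h.hK.cont ω) t
  have hAa : ∀ t, Measurable[𝓕 t] (fun ω => φ (l t ω)) := fun t =>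
    hφc.measurable.comp (measurable_sk (fun s hs => h.hK.meas_le hs) h.hK.cont)
  refine {
    adapted := fun t => (h.xmeas hb hφ t).stronglyMeasurable
    cont := ae_of_all _ (fun ω => h.xcont hb hφ ω)
    semimartingale := ?_
    eqn := ?_ }
  · refine ⟨cB B, fun t ω => φ (l t ω), Locally.of_prop hb.toMart.martingale,
      ae_of_all _ hb.cont, fun t => (hAa t).stronglyMeasurable,
      ae_of_all _ (fun ω => ⟨hφc.comp (hlc ω), bv_comp hφ (hlm ω)⟩),
      ae_of_all _ (fun ω t => h.hX t ω)⟩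
  · refine ⟨fun t _ => t, fun t ω => (l t ω).toNNReal, ?_, ?_, ?_⟩
    · refine ⟨ae_of_all _ fun ω => ⟨NNReal.continuous_coe, fun s t hst => hst, rfl⟩, fun t => ?_⟩
      rw [tim_iff]
      have h1 : TZ P (fun n ω => SQ (fun s => cB B s ω + φ (l s ω)) t n
          - SQ (fun s => cB B s ω) t n) := by
        refine TZ.of_tendsto_ae (fun n => ?_) (ae_of_all _ fun ω => ?_)
        · have hm : ∀ t, Measurable (fun ω => φ (l t ω)) := fun t =>
            (hAa t).mono (𝓕.le t) le_rfl
          refine Measurable.aestronglyMeasurable ?_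
          unfold SQ
          refine Measurable.sub ?_ ?_
          · exact Finset.measurable_sum _ (fun k _ =>
              (((hb.meas _).add (hm _)).sub ((hb.meas _).add (hm _))).pow_const 2)
          · exact Finset.measurable_sum _ (fun k _ =>
              ((hb.meas _).sub (hb.meas _)).pow_const 2)
        · refine SQ_pert (l := fun t => l t ω) (hb.cont ω) (hφc.comp (hlc ω))
            (fun s t hst => ?_) t
          refine (hφ _ _).trans ?_
          rw [abs_of_nonneg (sub_nonneg.mpr (hlm ω hst))]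
      have h2 := h1.add (qv_bm hb t)
      refine h2.congr (fun n => ae_of_all _ fun ω => ?_)
      rw [SQ_eq (fun s => X s ω) t n]
      have e : (fun s => X s ω) = fun s => cB B s ω + φ (l s ω) := by
        ext s; exact h.hX s ω
      rw [e]
      ring
    · filter_upwards [h.localTime hU.null hb hφ] with ω hω
      refine ⟨mu0, fun t => mu0_Iic t, fun t => ?_⟩
      have h1 := hω t
      rw [Real.coe_toNNReal _ (hl0 t ω)]
      exact h1
    · filter_upwards [cB_ae hB] with ω hω t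
      rw [h.hX t ω, hω t]

end

/-- existence -/
theorem exists_strong {Ω : Type u} {mΩ : MeasurableSpace Ω} {P : Measure Ω}
    [IsProbabilityMeasure P] [P.IsComplete] {B : ℝ≥0 → Ω → ℝ} (hm : ∀ t, Measurable (B t))
    (hB : IsBrownianReal B P) {ψ : ℝ≥0 → ℝ} (hψ : ∀ s t : ℝ≥0, |ψ s - ψ t| ≤ |(s:ℝ) - t|) :
    HasStrongSolution P B hm ψ := by
  have hU := bf_usual (P := P) hm
  have hb := bmw_of hU.null (bf_fbm hm hB)
  have hφ := lip_ext hψ
  obtain ⟨K, h1, h2, h3, h4⟩ := euler_limit (φ := fun x => ψ x.toNNReal) hU.null hb hφ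
  set X : ℝ≥0 → Ω → ℝ := fun t ω => cB B t ω
    + ψ (sk |ψ (0:ℝ).toNNReal| (fun u => K u ω) t).toNNReal with hX
  have hE : ESol (brownianFiltration P B hm) P (cB B) (fun x => ψ x.toNNReal) K X :=
    { hK := h1, hup := h2, hlow := h3, hX := fun t ω => rfl, habs := h4 }
  exact ⟨X, hE.isSolution hU hB hψ hb⟩

/-- the characterisation -/
theorem main {Ω : Type u} {mΩ : MeasurableSpace Ω} (P : Measure Ω)
    [IsProbabilityMeasure P] [P.IsComplete] (B : ℝ≥0 → Ω → ℝ) (hm : ∀ t, Measurable (B t))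
    (hB : IsBrownianReal B P) (ψ : ℝ≥0 → ℝ) :
    List.TFAE [HasStrongSolution P B hm ψ ∧ PathwiseUnique.{u} ψ, HasSolution.{u} ψ,
      ∀ s t : ℝ≥0, |ψ s - ψ t| ≤ |(s:ℝ) - t|] := by
  tfae_have 1 → 2 := by
    rintro ⟨⟨X, hX⟩, -⟩
    exact ⟨Ω, mΩ, P, _, B, X, inferInstance, bf_usual hm, bf_fbm hm hB, hX⟩
  tfae_have 2 → 3 := by
    rintro ⟨Ω', m', P', 𝓕, B', X, hP, hU, hB', hX⟩ s t
    exact lip_of_solution hU hB' hX s t
  tfae_have 3 → 1 := fun h => ⟨exists_strong hm hB h, pathwiseUnique h⟩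
  tfae_finish

end Pool.Agent.SkewBM
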