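import Pool.Agent.Lib.MP_e34d70_pr.Bvm

open MeasureTheory Filter ProbabilityTheory
open scoped NNReal ENNReal Topology

namespace Pool.Agent.SkewBM

variable {Ω : Type*} {mΩ : MeasurableSpace Ω} {P : Measure Ω} {𝓕 : Filtration ℝ≥0 mΩ}
variable {B K X : ℝ≥0 → Ω → ℝ} {φ : ℝ → ℝ}

/-- an exact solution together with its reflected representation -/
structure ESol (𝓕 : Filtration ℝ≥0 mΩ) (P : Measure Ω) (B : ℝ≥0 → Ω → ℝ) (φ : ℝ → ℝ)
    (K X : ℝ≥0 → Ω → ℝ) : Prop where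
  hK : Mart 𝓕 P K
  hup : ∀ t, ∫ ω, (K t ω)^2 ∂P ≤ t
  hlow : ∀ m : ℕ, (m:ℝ) ≤ ∫ ω, (K m ω)^2 ∂P
  hX : ∀ t ω, X t ω = B t ω + φ (sk |φ 0| (fun u => K u ω) t)
  habs : ∀ᵐ ω ∂P, ∀ t, |X t ω| = |φ 0| + K t ω + sk |φ 0| (fun u => K u ω) t

namespace ESol

variable (h : ESol 𝓕 P B φ K X)
include h

theorem xmeas (hB : BMW 𝓕 P B) (hφ : ∀ x y, |φ x - φ y| ≤ |x - y|) (t : ℝ≥0) :
    Measurable[𝓕 t] (X t) := by
  have e : X t = fun ω => B t ω + φ (sk |φ 0| (fun u => K u ω) t) := by ext ω; exact h.hX t ω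
  rw [e]
  exact (hB.adapted t).add ((lip_measurable hφ).measurable.comp
    (measurable_sk (fun s hs => h.hK.meas_le hs) h.hK.cont))

theorem xcont (hB : BMW 𝓕 P B) (hφ : ∀ x y, |φ x - φ y| ≤ |x - y|) (ω : Ω) :
    Continuous (fun t => X t ω) := by
  have e : (fun t => X t ω) = fun t => B t ω + φ (sk |φ 0| (fun u => K u ω) t) := by
    ext t; exact h.hX t ω
  rw [e]
  exact (hB.cont ω).add ((lip_measurable hφ).comp (continuous_sk (h.hK.cont ω)))

theorem x_zero (hB : BMW 𝓕 P B) (ω : Ω) : X 0 ω = φ 0 := by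
  rw [h.hX, hB.zero, sk_zero (abs_nonneg _) (h.hK.zero ω), zero_add]

theorem az : AZ P X B := by
  filter_upwards [h.habs] with ω hω s t hst hne
  have h1 := sk_flat (x₀ := |φ 0|) (h.hK.cont ω) hst (fun u hu1 hu2 => by
    rw [← hω u]; exact abs_ne_zero.mpr (hne u hu1 hu2))
  rw [h.hX, h.hX, h1]
  ring

/-- identification of the Tanaka martingale -/
theorem ident [IsProbabilityMeasure P] (hnull : ∀ A : Set Ω, P A = 0 → MeasurableSet[𝓕 0] A)
    (hB : BMW 𝓕 P B) (hφ : ∀ x y, |φ x - φ y| ≤ |x - y|) :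
    (∀ m : ℕ, Tendsto (fun k => cc P X (parA k) m) atTop (𝓝 m)) ∧
    ∃ ns : ℕ → ℕ, StrictMono ns ∧ ∀ᵐ ω ∂P,
        LU (fun k t => KF (parA (ns k)).FF (parA (ns k)).psi (fun u => X u ω) t)
          (fun t => K t ω) := by
  obtain ⟨K', hK', hsq, ns, hns, hLU⟩ := tanaka hnull hB (h.xmeas hB hφ) (h.xcont hB hφ) h.az
  have hY : Mart 𝓕 P (fun t ω => K t ω - K' t ω) := h.hK.sub hK'
  have hz : ∀ᵐ ω ∂P, ∀ t, K t ω - K' t ω = 0 := by
    refine bvm (α := fun t ω => |X t ω| - |X 0 ω| - K' t ω)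
      (β := fun t ω => sk |φ 0| (fun u => K u ω) t) hY ?_ ?_
    · filter_upwards [hLU, h.habs] with ω h1 h2
      obtain ⟨-, h3, -⟩ := path_tanaka (h.xcont hB hφ ω) hns h1
      refine ⟨fun t => ?_, h3, fun s t hst => sk_mono (h.hK.cont ω) hst, ?_, ?_⟩
      · rw [h2 t, h.x_zero hB]; ring
      · rw [hK'.zero]; ring
      · exact sk_zero (abs_nonneg _) (h.hK.zero ω)
    · intro T
      obtain ⟨h4, -⟩ := h.hK.doob_sk T (abs_nonneg (φ 0))
      have h5 : MemLp (fun ω => (K T ω - K' T ω) + 2 * sk |φ 0| (fun u => K u ω) T) 2 P :=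
        (hY.memLp T).add (h4.const_mul 2)
      refine (memLp_congr_ae ?_).mp h5
      filter_upwards [h.habs] with ω h6
      rw [h6 T, h.x_zero hB]; ring
  refine ⟨fun m => ?_, ns, hns, ?_⟩
  · obtain ⟨c, hc, hcm, hKc⟩ := hsq m
    have e : ∫ ω, (K' m ω)^2 ∂P = ∫ ω, (K m ω)^2 ∂P := by
      refine integral_congr_ae ?_
      filter_upwards [hz] with ω hω
      have := hω m
      rw [show K' m ω = K m ω by linarith]
    have h1 := h.hlow m
    rw [e] at hKc
    have : c = m := le_antisymm (by simpa using hcm) (h1.trans hKc)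
    rw [← this]; exact hc
  · filter_upwards [hLU, hz] with ω h1 h2
    have e : (fun t => K t ω) = fun t => K' t ω := by
      ext t; have := h2 t; linarith
    rw [e]; exact h1

theorem xabs2 [IsProbabilityMeasure P] (t : ℝ≥0) : MemLp (fun ω => |X t ω|) 2 P := by
  obtain ⟨h4, -⟩ := h.hK.doob_sk t (abs_nonneg (φ 0))
  have m1 : MemLp (fun _ : Ω => |φ 0|) 2 P := memLp_const _
  have m2 : MemLp (fun ω => |φ 0| + K t ω) 2 P := m1.add (h.hK.memLp t)
  have h5 : MemLp (fun ω => (|φ 0| + K t ω) + sk |φ 0| (fun u => K u ω) t) 2 P := m2.add h4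
  have e : (fun ω => (|φ 0| + K t ω) + sk |φ 0| (fun u => K u ω) t) =ᵐ[P] fun ω => |X t ω| := by
    filter_upwards [h.habs] with ω h6
    exact (h6 t).symm
  exact h5.ae_eq e

/-- distance between the martingale and its approximations -/
theorem kdist [IsProbabilityMeasure P] (hB : BMW 𝓕 P B) (hφ : ∀ x y, |φ x - φ y| ≤ |x - y|)
    {ns : ℕ → ℕ} (hns : StrictMono ns) (hLU : ∀ᵐ ω ∂P,
        LU (fun k t => KF (parA (ns k)).FF (parA (ns k)).psi (fun u => X u ω) t)
          (fun t => K t ω)) (p : Par) (T : ℝ≥0)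
    (hcc : Tendsto (fun k => cc P X (parA k) T) atTop (𝓝 T)) :
    ∫ ω, (K T ω - KF p.FF p.psi (fun u => X u ω) T)^2 ∂P ≤ T - cc P X p T := by
  have hXa := h.xmeas hB hφ
  have hXc := h.xcont hB hφ
  have hKp := kf_mart hB hXa hXc h.az p.tf
  -- index with nested parameters
  have hev : ∀ᶠ k in atTop, (parA (ns k)).b ≤ p.ρ := by
    have := (bA_tendsto.comp hns.tendsto_atTop).eventually (gt_mem_nhds p.hρ)
    filter_upwards [this] with k hk using le_of_lt hk
  obtain ⟨k0, hk0⟩ := eventually_atTop.mp hev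
  have hKk : ∀ k, Mart 𝓕 P (fun t ω =>
      KF (parA (ns (k+k0))).FF (parA (ns (k+k0))).psi (fun u => X u ω) t) :=
    fun k => kf_mart hB hXa hXc h.az (parA (ns (k+k0))).tf
  have hD : ∀ k, MInc (𝓕 0) P (fun ω =>
      KF (parA (ns (k+k0))).FF (parA (ns (k+k0))).psi (fun u => X u ω) T
        - KF p.FF p.psi (fun u => X u ω) T) (cc P X (parA (ns (k+k0))) T - cc P X p T) := by
    intro k
    have h2 := ((hKk k).sub hKp).inc (s := 0) (t := T) zero_le
    have h3 : ∀ ω, KF (parA (ns (k+k0))).FF (parA (ns (k+k0))).psi (fun u => X u ω) 0 = 0 :=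
      fun ω => (hKk k).zero ω
    have h4 : ∀ ω, KF p.FF p.psi (fun u => X u ω) 0 = 0 := fun ω => hKp.zero ω
    simp only [h3, h4, sub_zero] at h2
    exact h2.mono_c (cc_diff hB hXa hXc h.az (hk0 (k+k0) (Nat.le_add_left k0 k)) T)
  have hc : Tendsto (fun k => cc P X (parA (ns (k+k0))) T - cc P X p T) atTop
      (𝓝 (T - cc P X p T)) := by
    refine Tendsto.sub_const ?_ _
    exact hcc.comp (hns.tendsto_atTop.comp (tendsto_add_atTop_nat k0))
  have hz : TZ P (fun k ω => (KF (parA (ns (k+k0))).FF (parA (ns (k+k0))).psi (fun u => X u ω) T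
        - KF p.FF p.psi (fun u => X u ω) T) - (K T ω - KF p.FF p.psi (fun u => X u ω) T)) := by
    refine TZ.of_tendsto_ae (fun k => ?_) ?_
    · exact ((((hKk k).meas T).sub (hKp.meas T)).sub
        ((h.hK.meas T).sub (hKp.meas T))).aestronglyMeasurable
    · filter_upwards [hLU] with ω hω
      have h2 := (hω.tendsto T).comp (tendsto_add_atTop_nat k0)
      have h3 := h2.sub_const (K T ω)
      rw [sub_self] at h3
      refine h3.congr (fun k => ?_)
      simp only [Function.comp]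
      ring
  exact (MInc.of_tim (𝓕.le 0) hD hc hz).sq_le

end ESol

end Pool.Agent.SkewBM
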