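import Pool.Agent.Lib.MP_e34d70_pr.Path

open MeasureTheory Filter ProbabilityTheory
open scoped NNReal ENNReal Topology

namespace Pool.Agent.SkewBM

/-- dyadic grid of `[s, s+h]` -/
noncomputable def gr (s h : ℝ≥0) (n i : ℕ) : ℝ≥0 := s + (i:ℝ≥0) * (h / 2^n)

theorem gr_zero (s h : ℝ≥0) (n : ℕ) : gr s h n 0 = s := by simp [gr]

theorem gr_end (s h : ℝ≥0) (n : ℕ) : gr s h n (2^n) = s + h := by
  unfold gr; push_cast; field_simp

theorem gr_mono (s h : ℝ≥0) (n : ℕ) : Monotone (gr s h n) := by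
  intro i j hij
  unfold gr
  gcongr

theorem gr_succ (s h : ℝ≥0) (n i : ℕ) : gr s h n (i+1) = gr s h n i + h / 2^n := by
  unfold gr; push_cast; ring

theorem gr_succ_sub (s h : ℝ≥0) (n i : ℕ) :
    ((gr s h n (i+1) : ℝ≥0) : ℝ) - (gr s h n i : ℝ≥0) = h / 2^n := by
  rw [gr_succ]; push_cast; ring

theorem gr_le (s h : ℝ≥0) {n i : ℕ} (hi : i ≤ 2^n) : gr s h n i ≤ s + h := by
  rw [← gr_end s h n]; exact gr_mono s h n hi

theorem le_gr (s h : ℝ≥0) (n i : ℕ) : s ≤ gr s h n i := by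
  unfold gr; exact le_self_add

/-- time integral along a path -/
noncomputable def tint (g : ℝ≥0 → ℝ) (s t : ℝ≥0) : ℝ := ∫ u in (s:ℝ)..(t:ℝ), g u.toNNReal

theorem cont_toNN {g : ℝ≥0 → ℝ} (hg : Continuous g) : Continuous (fun u : ℝ => g u.toNNReal) :=
  hg.comp continuous_real_toNNReal

theorem tint_add {g : ℝ≥0 → ℝ} (hg : Continuous g) (s t u : ℝ≥0) :
    tint g s t + tint g t u = tint g s u :=
  intervalIntegral.integral_add_adjacent_intervals ((cont_toNN hg).intervalIntegrable _ _)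
    ((cont_toNN hg).intervalIntegrable _ _)

theorem tint_self (g : ℝ≥0 → ℝ) (s : ℝ≥0) : tint g s s = 0 := by simp [tint]

theorem abs_tint_le {g : ℝ≥0 → ℝ} {s t : ℝ≥0} (hst : s ≤ t) {C : ℝ}
    (h : ∀ u, s ≤ u → u ≤ t → |g u| ≤ C) : |tint g s t| ≤ C * ((t:ℝ) - s) := by
  have hst' : (s:ℝ) ≤ t := by exact_mod_cast hst
  have := intervalIntegral.norm_integral_le_of_norm_le_const (a := (s:ℝ)) (b := t)
    (f := fun u : ℝ => g u.toNNReal) (C := C) (fun u hu => ?_)
  · rw [abs_of_nonneg (by linarith : (0:ℝ) ≤ t - s)] at this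
    exact this
  · rw [Set.uIoc_of_le hst'] at hu
    refine h _ ?_ ?_
    · rw [← NNReal.coe_le_coe, Real.coe_toNNReal _ (by linarith [hu.1, NNReal.coe_nonneg s])]
      exact hu.1.le
    · rw [← NNReal.coe_le_coe, Real.coe_toNNReal _ (by linarith [hu.1, NNReal.coe_nonneg s])]
      exact hu.2

theorem tint_mono {f g : ℝ≥0 → ℝ} (hf : Continuous f) (hg : Continuous g) {s t : ℝ≥0}
    (hst : s ≤ t) (h : ∀ u, s ≤ u → u ≤ t → f u ≤ g u) : tint f s t ≤ tint g s t := by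
  have hst' : (s:ℝ) ≤ t := by exact_mod_cast hst
  refine intervalIntegral.integral_mono_on hst' ((cont_toNN hf).intervalIntegrable _ _)
    ((cont_toNN hg).intervalIntegrable _ _) (fun u hu => ?_)
  refine h _ ?_ ?_
  · rw [← NNReal.coe_le_coe, Real.coe_toNNReal _ (by linarith [hu.1, NNReal.coe_nonneg s])]
    exact hu.1
  · rw [← NNReal.coe_le_coe, Real.coe_toNNReal _ (by linarith [hu.1, NNReal.coe_nonneg s])]
    exact hu.2

theorem tint_nonneg {g : ℝ≥0 → ℝ} {s t : ℝ≥0} (hst : s ≤ t) (h : ∀ u, 0 ≤ g u) :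
    0 ≤ tint g s t :=
  intervalIntegral.integral_nonneg (by exact_mod_cast hst) (fun u _ => h _)

theorem tint_const (c : ℝ) (s t : ℝ≥0) : tint (fun _ => c) s t = c * ((t:ℝ) - s) := by
  unfold tint
  rw [intervalIntegral.integral_const]; simp only [smul_eq_mul]; ring

theorem tint_sub {f g : ℝ≥0 → ℝ} (hf : Continuous f) (hg : Continuous g) (s t : ℝ≥0) :
    tint (fun u => f u - g u) s t = tint f s t - tint g s t :=
  intervalIntegral.integral_sub ((cont_toNN hf).intervalIntegrable _ _)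
    ((cont_toNN hg).intervalIntegrable _ _)

theorem tint_const_mul {g : ℝ≥0 → ℝ} (c : ℝ) (s t : ℝ≥0) :
    tint (fun u => c * g u) s t = c * tint g s t :=
  intervalIntegral.integral_const_mul _ _

/-- mesh eventually small -/
theorem eventually_mesh (h : ℝ≥0) {δ : ℝ≥0} (hδ : 0 < δ) : ∀ᶠ n : ℕ in atTop, h / 2^n ≤ δ := by
  filter_upwards [(tendsto_mesh h).eventually (gt_mem_nhds hδ)] with n hn using hn.le

/-- small oscillation on all cells, eventually -/
theorem eventually_osc {f : ℝ≥0 → ℝ} (hf : Continuous f) (s h : ℝ≥0) {ε : ℝ} (hε : 0 < ε) :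
    ∀ᶠ n : ℕ in atTop, ∀ i < 2^n, ∀ u v, gr s h n i ≤ u → u ≤ gr s h n (i+1) →
      gr s h n i ≤ v → v ≤ gr s h n (i+1) → |f u - f v| < ε := by
  obtain ⟨δ, hδ, hd⟩ := exists_delta hf (s+h) hε
  filter_upwards [eventually_mesh h hδ] with n hn i hi u v hu1 hu2 hv1 hv2
  have hend : gr s h n (i+1) ≤ s + h := gr_le s h (by omega)
  refine hd u (hu2.trans hend) v (hv2.trans hend) ?_ ?_
  · calc u ≤ gr s h n (i+1) := hu2
      _ = gr s h n i + h/2^n := gr_succ _ _ _ _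
      _ ≤ v + δ := by gcongr
  · calc v ≤ gr s h n (i+1) := hv2
      _ = gr s h n i + h/2^n := gr_succ _ _ _ _
      _ ≤ u + δ := by gcongr

theorem tint_eq_sum {g : ℝ≥0 → ℝ} (hg : Continuous g) (s h : ℝ≥0) (n : ℕ) :
    tint g s (s+h) = ∑ i ∈ Finset.range (2^n), tint g (gr s h n i) (gr s h n (i+1)) := by
  have key : ∀ m, ∑ i ∈ Finset.range m, tint g (gr s h n i) (gr s h n (i+1))
      = tint g s (gr s h n m) := by
    intro m
    induction m with
    | zero => simp [gr_zero, tint_self]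
    | succ m ih => rw [Finset.sum_range_succ, ih, tint_add hg]
  rw [key, gr_end]

/-- Riemann sums -/
theorem tendsto_riemann {g : ℝ≥0 → ℝ} (hg : Continuous g) (s h : ℝ≥0) :
    Tendsto (fun n : ℕ => ∑ i ∈ Finset.range (2^n), g (gr s h n i) * ((h:ℝ) / 2^n)) atTop
      (𝓝 (tint g s (s+h))) := by
  rw [Metric.tendsto_atTop]
  intro ε hε
  have hε' : 0 < ε / ((h:ℝ) + 1) := by positivity
  obtain ⟨N, hN⟩ := eventually_atTop.mp (eventually_osc hg s h hε')
  refine ⟨N, fun n hn => ?_⟩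
  rw [tint_eq_sum hg s h n, Real.dist_eq, ← Finset.sum_sub_distrib]
  have hcell : ∀ i ∈ Finset.range (2^n),
      |g (gr s h n i) * ((h:ℝ) / 2^n) - tint g (gr s h n i) (gr s h n (i+1))|
        ≤ ε / ((h:ℝ)+1) * ((h:ℝ)/2^n) := by
    intro i hi
    have hi' := Finset.mem_range.mp hi
    have hle : gr s h n i ≤ gr s h n (i+1) := gr_mono s h n (Nat.le_succ i)
    have e1 : g (gr s h n i) * ((h:ℝ) / 2^n)
        = tint (fun _ => g (gr s h n i)) (gr s h n i) (gr s h n (i+1)) := by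
      rw [tint_const, gr_succ_sub]
    rw [e1, ← tint_sub continuous_const hg]
    refine (abs_tint_le hle (C := ε / ((h:ℝ)+1)) (fun u hu1 hu2 => ?_)).trans ?_
    · exact (hN n hn i hi' _ _ le_rfl hle hu1 hu2).le
    · rw [gr_succ_sub]
  refine lt_of_le_of_lt ((Finset.abs_sum_le_sum_abs _ _).trans (Finset.sum_le_sum hcell)) ?_
  rw [Finset.sum_const, Finset.card_range, nsmul_eq_mul]
  push_cast
  have : (2:ℝ)^n * (ε / ((h:ℝ)+1) * ((h:ℝ)/2^n)) = ε * ((h:ℝ) / ((h:ℝ)+1)) := by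
    field_simp
  rw [this]
  have h1 : (h:ℝ) / ((h:ℝ)+1) < 1 := by
    rw [div_lt_one (by positivity)]; linarith
  calc ε * ((h:ℝ) / ((h:ℝ)+1)) < ε * 1 := by gcongr
    _ = ε := mul_one ε

end Pool.Agent.SkewBM
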