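import Pool.Agent.Lib.MP_e34d70_pr.BM
import Pool.Agent.Lib.MP_e34d70_pr.Grid

open MeasureTheory Filter ProbabilityTheory
open scoped NNReal ENNReal Topology

namespace Pool.Agent.SkewBM

/-- test functions vanishing (to first order) near zero -/
structure TF (F F' ψ : ℝ → ℝ) (C₁ C₂ C₃ ρ : ℝ) : Prop where
  dF : ∀ x, HasDerivAt F (F' x) x
  dF' : ∀ x, HasDerivAt F' (ψ x) x
  bF' : ∀ x, |F' x| ≤ C₁
  bψ : ∀ x, |ψ x| ≤ C₂
  lψ : ∀ x y, |ψ x - ψ y| ≤ C₃ * |x - y|
  ρpos : 0 < ρ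
  zero : ∀ x, |x| < ρ → F' x = 0 ∧ ψ x = 0

section det
variable {F F' ψ : ℝ → ℝ} {C₁ C₂ C₃ ρ : ℝ}

theorem TF.C3_nonneg (h : TF F F' ψ C₁ C₂ C₃ ρ) : 0 ≤ C₃ := by
  have := h.lψ 0 1
  simp only [zero_sub, abs_neg, abs_one, mul_one] at this
  exact (abs_nonneg _).trans this

theorem TF.cont_ψ (h : TF F F' ψ C₁ C₂ C₃ ρ) : Continuous ψ := by
  have : LipschitzWith (Real.toNNReal C₃) ψ := by
    refine LipschitzWith.of_dist_le_mul (fun x y => ?_)
    rw [Real.dist_eq, Real.dist_eq, Real.coe_toNNReal _ h.C3_nonneg]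
    exact h.lψ x y
  exact this.continuous

theorem TF.cont_F' (h : TF F F' ψ C₁ C₂ C₃ ρ) : Continuous F' :=
  continuous_iff_continuousAt.mpr (fun x => (h.dF' x).continuousAt)

theorem TF.cont_F (h : TF F F' ψ C₁ C₂ C₃ ρ) : Continuous F :=
  continuous_iff_continuousAt.mpr (fun x => (h.dF x).continuousAt)

theorem TF.taylor (h : TF F F' ψ C₁ C₂ C₃ ρ) (x y : ℝ) :
    |F y - F x - F' x * (y - x) - ψ x * (y - x)^2 / 2| ≤ C₃ * |y - x|^3 := by
  have hC := h.C3_nonneg
  set s := Set.uIcc x y with hs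
  have hconv : Convex ℝ s := convex_uIcc x y
  have hx : x ∈ s := Set.left_mem_uIcc
  have hy : y ∈ s := Set.right_mem_uIcc
  have hin : ∀ z ∈ s, |z - x| ≤ |y - x| := fun z hz => Set.abs_sub_left_of_mem_uIcc hz
  set k : ℝ → ℝ := fun z => F' z - F' x - ψ x * (z - x) with hk
  have hkd : ∀ z, HasDerivAt k (ψ z - ψ x) z := by
    intro z
    have h1 : HasDerivAt (fun z => (F' z - F' x) - ψ x * (z - x)) (ψ z - ψ x * 1) z :=
      ((h.dF' z).sub_const (F' x)).sub (((hasDerivAt_id z).sub_const x).const_mul (ψ x))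
    rw [mul_one] at h1
    exact h1
  have hkb : ∀ z ∈ s, |k z| ≤ C₃ * |y - x|^2 := by
    intro z hz
    have h1 := hconv.norm_image_sub_le_of_norm_hasDerivWithin_le (C := C₃ * |y - x|)
      (f := k) (f' := fun z => ψ z - ψ x) (fun w _ => (hkd w).hasDerivWithinAt)
      (fun w hw => ?_) hx hz
    · have h2 : k x = 0 := by simp [hk]
      rw [h2, sub_zero, Real.norm_eq_abs, Real.norm_eq_abs] at h1
      calc |k z| ≤ C₃ * |y - x| * |z - x| := h1
        _ ≤ C₃ * |y - x| * |y - x| :=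
            mul_le_mul_of_nonneg_left (hin z hz) (by positivity)
        _ = _ := by ring
    · rw [Real.norm_eq_abs]
      exact (h.lψ w x).trans (mul_le_mul_of_nonneg_left (hin w hw) hC)
  set g : ℝ → ℝ := fun z => F z - F x - F' x * (z - x) - ψ x * (z - x)^2 / 2 with hg
  have hgd : ∀ z, HasDerivAt g (k z) z := by
    intro z
    have h0 : HasDerivAt (fun z : ℝ => (z - x)^2) (((2:ℕ):ℝ) * (z - x)^(2-1) * 1) z :=
      ((hasDerivAt_id z).sub_const x).pow 2
    have h1 : HasDerivAt (fun z => (F z - F x) - F' x * (z - x) - ψ x * (z - x)^2 / 2)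
        (F' z - F' x * 1 - ψ x * (((2:ℕ):ℝ) * (z - x)^(2-1) * 1) / 2) z :=
      (((h.dF z).sub_const (F x)).sub
      (((hasDerivAt_id z).sub_const x).const_mul (F' x))).sub ((h0.const_mul (ψ x)).div_const 2)
    have e : F' z - F' x * 1 - ψ x * (((2:ℕ):ℝ) * (z - x)^(2-1) * 1) / 2 = k z := by
      simp only [hk]; push_cast; ring
    rw [e] at h1
    exact h1
  have h1 := hconv.norm_image_sub_le_of_norm_hasDerivWithin_le (C := C₃ * |y - x|^2)
    (f := g) (f' := k) (fun w _ => (hgd w).hasDerivWithinAt)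
    (fun w hw => by rw [Real.norm_eq_abs]; exact hkb w hw) hx hy
  have h2 : g x = 0 := by simp [hg]
  rw [h2, sub_zero, Real.norm_eq_abs, Real.norm_eq_abs] at h1
  calc |g y| ≤ C₃ * |y - x|^2 * |y - x| := h1
    _ = _ := by ring

theorem TF.const_near (h : TF F F' ψ C₁ C₂ C₃ ρ) {x y : ℝ} (hx : |x| < ρ) (hy : |y| < ρ) :
    F y = F x := by
  have hconv : Convex ℝ (Metric.ball (0:ℝ) ρ) := convex_ball 0 ρ
  have h1 := hconv.norm_image_sub_le_of_norm_hasDerivWithin_le (C := 0) (x := x) (y := y)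
    (f := F) (f' := F') (fun w _ => (h.dF w).hasDerivWithinAt)
    (fun w hw => by
      rw [Metric.mem_ball, dist_zero_right, Real.norm_eq_abs] at hw
      rw [(h.zero w hw).1]; simp)
    (by simpa using hx) (by simpa using hy)
  rw [zero_mul] at h1
  have := norm_le_zero_iff.mp h1
  linarith

theorem TF.cell (h : TF F F' ψ C₁ C₂ C₃ ρ) {X B : ℝ≥0 → ℝ} {a b : ℝ≥0} (hab : a ≤ b)
    (hAZ : (∀ u, a ≤ u → u ≤ b → X u ≠ 0) → X b - X a = B b - B a)
    (hosc : ∀ u v, a ≤ u → u ≤ b → a ≤ v → v ≤ b → |X u - X v| < ρ) :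
    |F (X b) - F (X a) - F' (X a) * (B b - B a) - ψ (X a) * (B b - B a)^2 / 2|
      ≤ C₃ * |B b - B a|^3 := by
  by_cases hz : ∀ u, a ≤ u → u ≤ b → X u ≠ 0
  · rw [← hAZ hz]
    exact h.taylor _ _
  · push Not at hz
    obtain ⟨u, hu1, hu2, hu0⟩ := hz
    have h1 := hosc a u le_rfl hab hu1 hu2
    have h2 := hosc b u hab le_rfl hu1 hu2
    rw [hu0, sub_zero] at h1 h2
    obtain ⟨h3, h4⟩ := h.zero _ h1
    rw [h.const_near h1 h2, h3, h4]
    have := h.C3_nonneg
    simp only [sub_self, zero_mul, zero_div, abs_zero]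
    positivity

theorem TF.path (h : TF F F' ψ C₁ C₂ C₃ ρ) {X B : ℝ≥0 → ℝ} (hX : Continuous X)
    (hAZ : ∀ s t, s ≤ t → (∀ u, s ≤ u → u ≤ t → X u ≠ 0) → X t - X s = B t - B s)
    (s r : ℝ≥0) :
    ∀ᶠ n : ℕ in atTop, |F (X (s+r)) - F (X s)
      - ∑ i ∈ Finset.range (2^n), F' (X (gr s r n i)) * (B (gr s r n (i+1)) - B (gr s r n i))
      - (1/2) * ∑ i ∈ Finset.range (2^n),
          ψ (X (gr s r n i)) * (B (gr s r n (i+1)) - B (gr s r n i))^2|
      ≤ C₃ * ∑ i ∈ Finset.range (2^n), |B (gr s r n (i+1)) - B (gr s r n i)|^3 := by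
  filter_upwards [eventually_osc hX s r h.ρpos] with n hn
  have e1 : F (X (s+r)) - F (X s)
      = ∑ i ∈ Finset.range (2^n), (F (X (gr s r n (i+1))) - F (X (gr s r n i))) := by
    rw [Finset.sum_range_sub (fun i => F (X (gr s r n i))), gr_end, gr_zero]
  rw [e1, Finset.mul_sum, Finset.mul_sum, ← Finset.sum_sub_distrib, ← Finset.sum_sub_distrib]
  refine (Finset.abs_sum_le_sum_abs _ _).trans (Finset.sum_le_sum (fun i hi => ?_))
  have hi' := Finset.mem_range.mp hi
  have hle : gr s r n i ≤ gr s r n (i+1) := gr_mono s r n (Nat.le_succ i)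
  have := h.cell hle (hAZ _ _ hle) (fun u v h1 h2 h3 h4 => hn i hi' u v h1 h2 h3 h4)
  have e : F (X (gr s r n (i+1))) - F (X (gr s r n i)) -
      F' (X (gr s r n i)) * (B (gr s r n (i+1)) - B (gr s r n i)) -
      1/2 * (ψ (X (gr s r n i)) * (B (gr s r n (i+1)) - B (gr s r n i))^2)
      = F (X (gr s r n (i+1))) - F (X (gr s r n i)) -
      F' (X (gr s r n i)) * (B (gr s r n (i+1)) - B (gr s r n i)) -
      ψ (X (gr s r n i)) * (B (gr s r n (i+1)) - B (gr s r n i))^2 / 2 := by ring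
  rw [e]
  exact this

end det

variable {Ω : Type*} {mΩ : MeasurableSpace Ω} {P : Measure Ω} {𝓕 : Filtration ℝ≥0 mΩ}
variable {F F' ψ : ℝ → ℝ} {C₁ C₂ C₃ ρ : ℝ} {B X : ℝ≥0 → Ω → ℝ}

theorem tint_measurable' {𝓖 : MeasurableSpace Ω} {g : ℝ≥0 → Ω → ℝ} (s h : ℝ≥0)
    (hg : ∀ t ≤ s + h, Measurable[𝓖] (g t)) (hc : ∀ ω, Continuous (fun t => g t ω)) :
    Measurable[𝓖] (fun ω => tint (fun u => g u ω) s (s+h)) := by
  refine measurable_of_tendsto_metrizable
    (f := fun n ω => ∑ i ∈ Finset.range (2^n), g (gr s h n i) ω * ((h:ℝ) / 2^n))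
    (fun n => Finset.measurable_sum _ (fun i hi => (hg _ (gr_le s h ?_)).mul_const _)) ?_
  · have := Finset.mem_range.mp hi; omega
  rw [tendsto_pi_nhds]
  exact fun ω => tendsto_riemann (hc ω) s h

theorem tint_measurable {𝓖 : MeasurableSpace Ω} {g : ℝ≥0 → Ω → ℝ}
    (hg : ∀ t, Measurable[𝓖] (g t)) (hc : ∀ ω, Continuous (fun t => g t ω)) (s h : ℝ≥0) :
    Measurable[𝓖] (fun ω => tint (fun u => g u ω) s (s+h)) :=
  tint_measurable' s h (fun t _ => hg t) hc

theorem tint_adapted {g : ℝ≥0 → Ω → ℝ}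
    (hg : ∀ t, Measurable[𝓕 t] (g t)) (hc : ∀ ω, Continuous (fun t => g t ω)) (s h : ℝ≥0) :
    Measurable[𝓕 (s+h)] (fun ω => tint (fun u => g u ω) s (s+h)) :=
  tint_measurable' s h (fun t ht => (hg t).mono (𝓕.mono ht) le_rfl) hc

theorem eta_tendsto : Tendsto (fun n : ℕ => Real.sqrt ((1/2)^n)) atTop (𝓝 0) := by
  have h := tendsto_pow_atTop_nhds_zero_of_lt_one (r := (1/2:ℝ)) (by norm_num) (by norm_num)
  have h2 := (Real.continuous_sqrt.tendsto 0).comp h
  rw [Real.sqrt_zero] at h2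
  exact h2

/-- third moments of the increments are negligible -/
theorem cube_tendsto [IsProbabilityMeasure P] (hB : BMW 𝓕 P B) (s h : ℝ≥0) :
    TZ P (fun n ω => ∑ i ∈ Finset.range (2^n), |B (gr s h n (i+1)) ω - B (gr s h n i) ω|^3) := by
  have hη : ∀ n : ℕ, 0 < Real.sqrt ((1/2:ℝ)^n) := fun n => Real.sqrt_pos.mpr (by positivity)
  have hη2 : ∀ n : ℕ, (Real.sqrt ((1/2:ℝ)^n))^2 = (1/2)^n := fun n =>
    Real.sq_sqrt (by positivity)
  have hpt : ∀ (n : ℕ) (x : ℝ), |x|^3 ≤ (Real.sqrt ((1/2)^n) * x^2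
      + x^4 / Real.sqrt ((1/2)^n)) / 2 := by
    intro n x
    have h1 := hη n
    set e := Real.sqrt ((1/2)^n)
    have h2 : x^2 = |x|^2 := (sq_abs x).symm
    have h4 : x^4 = |x|^4 := by rw [show (4:ℕ) = 2*2 by norm_num, pow_mul, pow_mul, sq_abs]
    rw [h2, h4]
    set y := |x|
    rw [le_div_iff₀ (by norm_num : (0:ℝ) < 2)]
    have h3 : y^4 / e = y^2 * (y^2/e) := by ring
    rw [h3]
    have h5 : 2 * y ≤ e + y^2/e := by
      have : 0 ≤ (e - y)^2 / e := by positivity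
      have h6 : (e - y)^2 / e = e + y^2/e - 2 * y := by field_simp; ring
      linarith
    nlinarith [mul_le_mul_of_nonneg_left h5 (sq_nonneg y)]
  have hle : ∀ (n i : ℕ), gr s h n i ≤ gr s h n (i+1) := fun n i => gr_mono s h n (Nat.le_succ i)
  have i2 : ∀ n i, Integrable (fun ω => (B (gr s h n (i+1)) ω - B (gr s h n i) ω)^2) P :=
    fun n i => hB.integrable_comp (hle n i) (g_int_pow _ 2)
  have i4 : ∀ n i, Integrable (fun ω => (B (gr s h n (i+1)) ω - B (gr s h n i) ω)^4) P :=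
    fun n i => hB.integrable_comp (hle n i) (g_int_pow _ 4)
  have i3 : ∀ n i, Integrable (fun ω => |B (gr s h n (i+1)) ω - B (gr s h n i) ω|^3) P := by
    intro n i
    refine (((i2 n i).const_mul (Real.sqrt ((1/2)^n))).add
      ((i4 n i).div_const (Real.sqrt ((1/2)^n)))).div_const 2 |>.mono' ?_ ?_
    · exact (((hB.meas_sub _ _).abs).pow_const 3).aestronglyMeasurable
    · refine ae_of_all _ (fun ω => ?_)
      rw [Real.norm_eq_abs, abs_of_nonneg (by positivity)]
      exact hpt n _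
  refine TZ.of_integral (fun n => integrable_finsetSum _ (fun i _ => i3 n i)) ?_
  have hbd : ∀ n, ∫ ω, |∑ i ∈ Finset.range (2^n),
      |B (gr s h n (i+1)) ω - B (gr s h n i) ω|^3| ∂P
      ≤ ((h + C4 * h^2)/2) * Real.sqrt ((1/2)^n) := by
    intro n
    have e1 : ∀ ω, |∑ i ∈ Finset.range (2^n), |B (gr s h n (i+1)) ω - B (gr s h n i) ω|^3|
        = ∑ i ∈ Finset.range (2^n), |B (gr s h n (i+1)) ω - B (gr s h n i) ω|^3 := fun ω =>
      abs_of_nonneg (Finset.sum_nonneg (fun i _ => by positivity))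
    simp_rw [e1]
    rw [integral_finsetSum _ (fun i _ => i3 n i)]
    have hc : ∀ i ∈ Finset.range (2^n),
        ∫ ω, |B (gr s h n (i+1)) ω - B (gr s h n i) ω|^3 ∂P
        ≤ (Real.sqrt ((1/2)^n) * (h/2^n) + C4 * (h/2^n)^2 / Real.sqrt ((1/2)^n)) / 2 := by
      intro i _
      calc ∫ ω, |B (gr s h n (i+1)) ω - B (gr s h n i) ω|^3 ∂P
          ≤ ∫ ω, (Real.sqrt ((1/2)^n) * (B (gr s h n (i+1)) ω - B (gr s h n i) ω)^2
            + (B (gr s h n (i+1)) ω - B (gr s h n i) ω)^4 / Real.sqrt ((1/2)^n)) / 2 ∂P := by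
            refine integral_mono (i3 n i) ?_ (fun ω => hpt n _)
            exact (((i2 n i).const_mul (Real.sqrt ((1/2)^n))).add
              ((i4 n i).div_const (Real.sqrt ((1/2)^n)))).div_const 2
        _ = _ := by
            rw [integral_div, integral_add ((i2 n i).const_mul _) ((i4 n i).div_const _),
              integral_const_mul, integral_div, hB.sq (hle n i), hB.four (hle n i),
              gr_succ_sub]
    refine (Finset.sum_le_sum hc).trans ?_
    rw [Finset.sum_const, Finset.card_range, nsmul_eq_mul]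
    push_cast
    have h1 := hη n
    have h2 := hη2 n
    set e := Real.sqrt ((1/2)^n)
    have h3 : (2:ℝ)^n = 1 / e^2 := by rw [h2]; simp
    rw [h3]
    refine le_of_eq ?_
    field_simp
  refine squeeze_zero (fun n => integral_nonneg (fun ω => abs_nonneg _)) hbd ?_
  have := eta_tendsto.const_mul (((h:ℝ) + C4 * h^2)/2)
  simpa using this

theorem ito [IsProbabilityMeasure P] (hB : BMW 𝓕 P B) (hXa : ∀ t, Measurable[𝓕 t] (X t))
    (hXc : ∀ ω, Continuous (fun t => X t ω))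
    (hAZ : ∀ᵐ ω ∂P, ∀ s t, s ≤ t → (∀ u, s ≤ u → u ≤ t → X u ω ≠ 0) →
      X t ω - X s ω = B t ω - B s ω)
    (hT : TF F F' ψ C₁ C₂ C₃ ρ) (s h : ℝ≥0) :
    MInc (𝓕 s) P (fun ω => F (X (s+h) ω) - F (X s ω)
        - (1/2) * tint (fun u => ψ (X u ω)) s (s+h))
      (∫ ω, tint (fun u => (F' (X u ω))^2) s (s+h) ∂P) := by
  have hXm : ∀ t, Measurable (X t) := fun t => (hXa t).mono (𝓕.le t) le_rfl
  have hle : ∀ (n i : ℕ), gr s h n i ≤ gr s h n (i+1) := fun n i => gr_mono s h n (Nat.le_succ i)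
  have hψm : Measurable ψ := hT.cont_ψ.measurable
  have hF'm : Measurable F' := hT.cont_F'.measurable
  have hFm : Measurable F := hT.cont_F.measurable
  -- the approximating sums
  set S : ℕ → Ω → ℝ := fun n ω => ∑ i ∈ Finset.range (2^n),
    F' (X (gr s h n i) ω) * (B (gr s h n (i+1)) ω - B (gr s h n i) ω) with hS
  set D : Ω → ℝ := fun ω => F (X (s+h) ω) - F (X s ω)
        - (1/2) * tint (fun u => ψ (X u ω)) s (s+h) with hD
  set V : ℕ → Ω → ℝ := fun n ω => ∑ i ∈ Finset.range (2^n),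
    ψ (X (gr s h n i) ω) * ((B (gr s h n (i+1)) ω - B (gr s h n i) ω)^2
      - ((gr s h n (i+1) : ℝ≥0) - (gr s h n i : ℝ≥0) : ℝ)) with hV
  set R : ℕ → Ω → ℝ := fun n ω => ∑ i ∈ Finset.range (2^n), ψ (X (gr s h n i) ω) * ((h:ℝ) / 2^n)
    - tint (fun u => ψ (X u ω)) s (s+h) with hR
  set E : ℕ → Ω → ℝ := fun n ω => F (X (s+h) ω) - F (X s ω) - S n ω - (1/2) *
    ∑ i ∈ Finset.range (2^n), ψ (X (gr s h n i) ω) *
      (B (gr s h n (i+1)) ω - B (gr s h n i) ω)^2 with hE
  set W : ℕ → Ω → ℝ := fun n ω => ∑ i ∈ Finset.range (2^n),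
    |B (gr s h n (i+1)) ω - B (gr s h n i) ω|^3 with hW
  have hSm : ∀ n, Measurable (S n) := fun n => Finset.measurable_sum _ (fun i _ =>
    (hF'm.comp (hXm _)).mul (hB.meas_sub _ _))
  have hEm : ∀ n, Measurable (E n) := by
    intro n
    refine (((hFm.comp (hXm _)).sub (hFm.comp (hXm _))).sub (hSm n)).sub (Measurable.const_mul ?_ _)
    exact Finset.measurable_sum _ (fun i _ => (hψm.comp (hXm _)).mul ((hB.meas_sub _ _).pow_const 2))
  have hWm : ∀ n, Measurable (W n) := fun n => Finset.measurable_sum _ (fun i _ =>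
    ((hB.meas_sub _ _).abs).pow_const 3)
  -- S is a martingale increment
  have hSinc : ∀ n, MInc (𝓕 s) P (S n)
      (∫ ω, ∑ i ∈ Finset.range (2^n), (F' (X (gr s h n i) ω))^2 * ((h:ℝ)/2^n) ∂P) := by
    intro n
    obtain ⟨h1, h2, h3, h4⟩ := osum (𝓖 := fun i => 𝓕 (gr s h n i)) (fun i => 𝓕.le _)
      (fun i j hij => 𝓕.mono (gr_mono s h n hij))
      (D := fun i ω => B (gr s h n (i+1)) ω - B (gr s h n i) ω)
      (H := fun i ω => F' (X (gr s h n i) ω)) (C := C₁)
      (fun i => hB.inc (hle n i))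
      (fun i => (hB.adapted _).sub ((hB.adapted _).mono (𝓕.mono (hle n i)) le_rfl))
      (fun i => hF'm.comp (hXa _)) (fun i ω => hT.bF' _) (2^n)
    rw [gr_zero] at h3
    refine ⟨h2, ?_, h3⟩
    simp only [hS]
    rw [h4, integral_finsetSum]
    · refine Finset.sum_le_sum (fun i _ => ?_)
      simp_rw [mul_pow]
      rw [hB.mul_sq (hle n i) (ξ := fun ω => (F' (X (gr s h n i) ω))^2) (C := C₁^2)
        ((hF'm.comp (hXa _)).pow_const 2)
        (fun ω => by
          rw [abs_pow]; exact pow_le_pow_left₀ (abs_nonneg _) (hT.bF' _) 2), gr_succ_sub,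
        integral_mul_const]
    · intro i _
      refine Integrable.mul_const ?_ _
      refine (integrable_const (C₁^2)).mono' ((hF'm.comp (hXm _)).pow_const 2).aestronglyMeasurable
        (ae_of_all _ fun ω => ?_)
      rw [Real.norm_eq_abs, abs_pow]
      exact pow_le_pow_left₀ (abs_nonneg _) (hT.bF' _) 2
  -- convergence of the constants
  have hcst : Tendsto (fun n => ∫ ω, ∑ i ∈ Finset.range (2^n),
      (F' (X (gr s h n i) ω))^2 * ((h:ℝ)/2^n) ∂P) atTop
      (𝓝 (∫ ω, tint (fun u => (F' (X u ω))^2) s (s+h) ∂P)) := by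
    refine tendsto_integral_of_dominated_convergence (fun _ => C₁^2 * h) (fun n => ?_)
      (integrable_const _) (fun n => ?_) ?_
    · exact (Finset.measurable_sum _ (fun i _ =>
        ((hF'm.comp (hXm _)).pow_const 2).mul_const _)).aestronglyMeasurable
    · refine ae_of_all _ (fun ω => ?_)
      rw [Real.norm_eq_abs]
      refine (Finset.abs_sum_le_sum_abs _ _).trans ?_
      have : ∀ i ∈ Finset.range (2^n), |(F' (X (gr s h n i) ω))^2 * ((h:ℝ)/2^n)|
          ≤ C₁^2 * ((h:ℝ)/2^n) := by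
        intro i _
        rw [abs_mul, abs_pow, abs_of_nonneg (by positivity : (0:ℝ) ≤ (h:ℝ)/2^n)]
        gcongr
        exact hT.bF' _
      refine (Finset.sum_le_sum this).trans ?_
      rw [Finset.sum_const, Finset.card_range, nsmul_eq_mul]
      push_cast
      refine le_of_eq ?_
      field_simp
    · refine ae_of_all _ (fun ω => ?_)
      exact tendsto_riemann (g := fun u => (F' (X u ω))^2)
        ((hT.cont_F'.comp (hXc ω)).pow 2) s h
  -- error terms
  have hVz : TZ P V := by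
    have hh : ∀ n, MemLp (V n) 2 P ∧ ∫ ω, (V n ω)^2 ∂P
        ≤ C₂^2 * C4 * (h:ℝ)^2 * (1/2)^n := by
      intro n
      obtain ⟨h1, h2, h3, h4⟩ := osum (𝓖 := fun i => 𝓕 (gr s h n i)) (fun i => 𝓕.le _)
        (fun i j hij => 𝓕.mono (gr_mono s h n hij))
        (D := fun i ω => (B (gr s h n (i+1)) ω - B (gr s h n i) ω)^2
          - ((gr s h n (i+1) : ℝ≥0) - (gr s h n i : ℝ≥0) : ℝ))
        (H := fun i ω => ψ (X (gr s h n i) ω)) (C := C₂)
        (fun i => hB.sqinc (hle n i))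
        (fun i => (((hB.adapted _).sub
          ((hB.adapted _).mono (𝓕.mono (hle n i)) le_rfl)).pow_const 2).sub_const _)
        (fun i => hψm.comp (hXa _)) (fun i ω => hT.bψ _) (2^n)
      refine ⟨h2, ?_⟩
      simp only [hV]
      rw [h4]
      have : ∀ i ∈ Finset.range (2^n), ∫ ω, (ψ (X (gr s h n i) ω) *
          ((B (gr s h n (i+1)) ω - B (gr s h n i) ω)^2
          - ((gr s h n (i+1) : ℝ≥0) - (gr s h n i : ℝ≥0) : ℝ)))^2 ∂P
          ≤ C₂^2 * (C4 * ((h:ℝ)/2^n)^2) := by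
        intro i _
        have h5 := ((hB.sqinc (hle n i)).bdd_mul (𝓕.le _) (hψm.comp (hXa _))
          (fun ω => hT.bψ _)).sq_le
        rw [gr_succ_sub] at h5 ⊢
        exact h5
      refine (Finset.sum_le_sum this).trans ?_
      rw [Finset.sum_const, Finset.card_range, nsmul_eq_mul]
      push_cast
      refine le_of_eq ?_
      rw [one_div, inv_pow]
      field_simp
    refine TZ.of_sq (fun n => (hh n).1) ?_
    refine squeeze_zero (fun n => integral_nonneg (fun ω => sq_nonneg _)) (fun n => (hh n).2) ?_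
    have h5 := tendsto_pow_atTop_nhds_zero_of_lt_one (r := (1/2:ℝ)) (by norm_num) (by norm_num)
    have h6 := h5.const_mul (C₂^2 * C4 * (h:ℝ)^2)
    simpa using h6
  have hRz : TZ P R := by
    refine TZ.of_tendsto_ae (fun n => ?_) (ae_of_all _ fun ω => ?_)
    · refine Measurable.aestronglyMeasurable (Measurable.sub ?_ ?_)
      · exact Finset.measurable_sum _ (fun i _ => (hψm.comp (hXm _)).mul_const _)
      · exact tint_measurable (g := fun u ω => ψ (X u ω)) (fun t => hψm.comp (hXm t))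
          (fun ω => hT.cont_ψ.comp (hXc ω)) s h
    · have := tendsto_riemann (g := fun u => ψ (X u ω)) (hT.cont_ψ.comp (hXc ω)) s h
      have h2 := this.sub_const (tint (fun u => ψ (X u ω)) s (s+h))
      simpa using h2
  have hWz : TZ P W := cube_tendsto hB s h
  have hEz : TZ P E := by
    have h1 : TZ P (fun n ω => max (|E n ω| - C₃ * W n ω) 0) := by
      refine TZ.of_tendsto_ae (fun n => ?_) ?_
      · exact ((((hEm n).abs).sub ((hWm n).const_mul _)).max measurable_const).aestronglyMeasurable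
      · filter_upwards [hAZ] with ω hω
        refine tendsto_const_nhds.congr' ?_
        filter_upwards [hT.path (hXc ω) hω s h] with n hn
        have hn' : |E n ω| ≤ C₃ * W n ω := hn
        rw [max_eq_right (by linarith)]
    refine (h1.add (hWz.const_mul C₃)).mono (fun n => ae_of_all _ fun ω => ?_)
    have h2 : |E n ω| ≤ max (|E n ω| - C₃ * W n ω) 0 + C₃ * W n ω := by
      have := le_max_left (|E n ω| - C₃ * W n ω) 0
      linarith
    exact h2.trans (le_abs_self _)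
  have hfin : TZ P (fun n ω => S n ω - D ω) := by
    have h1 := ((hVz.const_mul (1/2)).add (hRz.const_mul (1/2))).add hEz
    refine h1.neg.congr (fun n => ae_of_all _ fun ω => ?_)
    simp only [hV, hR, hE, hD]
    have e1 : ∑ i ∈ Finset.range (2^n), ψ (X (gr s h n i) ω) *
        ((B (gr s h n (i+1)) ω - B (gr s h n i) ω)^2
          - ((gr s h n (i+1) : ℝ≥0) - (gr s h n i : ℝ≥0) : ℝ))
        = ∑ i ∈ Finset.range (2^n), ψ (X (gr s h n i) ω) *
          (B (gr s h n (i+1)) ω - B (gr s h n i) ω)^2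
          - ∑ i ∈ Finset.range (2^n), ψ (X (gr s h n i) ω) * ((h:ℝ)/2^n) := by
      rw [← Finset.sum_sub_distrib]
      refine Finset.sum_congr rfl (fun i _ => ?_)
      rw [gr_succ_sub]; ring
    rw [e1]
    ring
  exact MInc.of_tim (𝓕.le s) hSinc hcst hfin

end Pool.Agent.SkewBM
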