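import Pool.Agent.Lib.MP_e34d70_pr.Occ

open MeasureTheory Filter ProbabilityTheory
open scoped NNReal ENNReal Topology

namespace Pool.Agent.SkewBM

/-- Lebesgue measure on the half line. -/
noncomputable def mu0 : Measure ℝ≥0 := (volume.restrict (Set.Ioi (0:ℝ))).map Real.toNNReal

theorem preim_Iic (t : ℝ≥0) : (Real.toNNReal ⁻¹' Set.Iic t) ∩ Set.Ioi (0:ℝ) = Set.Ioc (0:ℝ) t := by
  ext u
  simp only [Set.mem_inter_iff, Set.mem_preimage, Set.mem_Iic, Set.mem_Ioi, Set.mem_Ioc,
    Real.toNNReal_le_iff_le_coe]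
  tauto

theorem mu0_Iic (t : ℝ≥0) : mu0 (Set.Iic t) = ENNReal.ofReal t := by
  unfold mu0
  rw [Measure.map_apply measurable_real_toNNReal measurableSet_Iic,
    Measure.restrict_apply (measurable_real_toNNReal measurableSet_Iic), preim_Iic]
  simp

theorem tint_eq_mu0 {g : ℝ≥0 → ℝ} (hg : Continuous g) (t : ℝ≥0) :
    tint g 0 t = ∫ s in Set.Iic t, g s ∂mu0 := by
  unfold tint mu0
  rw [setIntegral_map measurableSet_Iic hg.aestronglyMeasurable
    measurable_real_toNNReal.aemeasurable, intervalIntegral.integral_of_le (by simp),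
    Measure.restrict_restrict (measurable_real_toNNReal measurableSet_Iic), preim_Iic]
  simp

/-- a measure on the half line whose distribution function is finite -/
theorem integrableOn_Iic {μ : Measure ℝ≥0} {t : ℝ≥0} (hμ : μ (Set.Iic t) ≠ ∞) {g : ℝ≥0 → ℝ}
    (hg : Continuous g) : IntegrableOn g (Set.Iic t) μ := by
  obtain ⟨C, hC⟩ := (isCompact_Iic' t).exists_bound_of_continuousOn hg.continuousOn
  have : IsFiniteMeasure (μ.restrict (Set.Iic t)) := ⟨by
    rw [Measure.restrict_apply_univ]; exact hμ.lt_top⟩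
  refine (integrable_const C).mono' hg.aestronglyMeasurable ?_
  rw [ae_restrict_iff' measurableSet_Iic]
  exact ae_of_all _ (fun s hs => hC s hs)

theorem int_le_meas {μ : Measure ℝ≥0} {t : ℝ≥0} (hμ : μ (Set.Iic t) ≠ ∞) {g : ℝ≥0 → ℝ}
    (hg : Continuous g) {S : Set ℝ≥0} (hS : MeasurableSet S)
    (h : ∀ s, g s ≤ S.indicator (fun _ => (1:ℝ)) s) :
    ∫ s in Set.Iic t, g s ∂μ ≤ (μ (Set.Iic t ∩ S)).toReal := by
  have : IsFiniteMeasure (μ.restrict (Set.Iic t)) := ⟨by
    rw [Measure.restrict_apply_univ]; exact hμ.lt_top⟩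
  calc ∫ s in Set.Iic t, g s ∂μ ≤ ∫ s in Set.Iic t, S.indicator (fun _ => (1:ℝ)) s ∂μ :=
        integral_mono (integrableOn_Iic hμ hg) ((integrable_const (1:ℝ)).indicator hS) h
    _ = (μ (Set.Iic t ∩ S)).toReal := by
        rw [integral_indicator hS, setIntegral_const, Measure.real,
          Measure.restrict_apply hS, Set.inter_comm]
        simp

theorem meas_le_int {μ : Measure ℝ≥0} {t : ℝ≥0} (hμ : μ (Set.Iic t) ≠ ∞) {g : ℝ≥0 → ℝ}
    (hg : Continuous g) {S : Set ℝ≥0} (hS : MeasurableSet S)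
    (h : ∀ s, S.indicator (fun _ => (1:ℝ)) s ≤ g s) :
    (μ (Set.Iic t ∩ S)).toReal ≤ ∫ s in Set.Iic t, g s ∂μ := by
  have : IsFiniteMeasure (μ.restrict (Set.Iic t)) := ⟨by
    rw [Measure.restrict_apply_univ]; exact hμ.lt_top⟩
  calc (μ (Set.Iic t ∩ S)).toReal = ∫ s in Set.Iic t, S.indicator (fun _ => (1:ℝ)) s ∂μ := by
        rw [integral_indicator hS, setIntegral_const, Measure.real,
          Measure.restrict_apply hS, Set.inter_comm]
        simp
    _ ≤ ∫ s in Set.Iic t, g s ∂μ :=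
        integral_mono ((integrable_const (1:ℝ)).indicator hS) (integrableOn_Iic hμ hg) h

/-- occupation of a small ball -/
noncomputable def occ (μ : Measure ℝ≥0) (x : ℝ≥0 → ℝ) (t : ℝ≥0) (ε : ℝ) : ℝ :=
  (μ (Set.Iic t ∩ {s | |x s| < ε})).toReal

theorem small_meas {x : ℝ≥0 → ℝ} (hx : Continuous x) (ε : ℝ) : MeasurableSet {s | |x s| < ε} :=
  (isOpen_lt hx.abs continuous_const).measurableSet

theorem occ_mono {μ : Measure ℝ≥0} {t : ℝ≥0} (hμ : μ (Set.Iic t) ≠ ∞) (x : ℝ≥0 → ℝ)
    {ε ε' : ℝ} (h : ε ≤ ε') : occ μ x t ε ≤ occ μ x t ε' := by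
  unfold occ
  refine ENNReal.toReal_mono (ne_top_of_le_ne_top hμ (measure_mono Set.inter_subset_left)) ?_
  refine measure_mono (Set.inter_subset_inter_right _ (fun s hs => ?_))
  exact lt_of_lt_of_le hs h

theorem occ_nonneg (μ : Measure ℝ≥0) (x : ℝ≥0 → ℝ) (t : ℝ≥0) (ε : ℝ) : 0 ≤ occ μ x t ε :=
  ENNReal.toReal_nonneg

/-- interpolation between the times of a slowly decreasing sequence -/
theorem tendsto_occ {G : ℝ → ℝ} {l : ℝ} {u v : ℕ → ℝ} (hu : Tendsto u atTop (𝓝 l))
    (hv : Tendsto v atTop (𝓝 l))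
    (h : ∀ᶠ k in atTop, ∀ ε, bB (k+2) ≤ ε → ε ≤ bB (k+1) → u k ≤ G ε ∧ G ε ≤ v k) :
    Tendsto G (𝓝[>] 0) (𝓝 l) := by
  rw [Metric.tendsto_nhds]
  intro η hη
  have h1 := (Metric.tendsto_nhds.mp hu) η hη
  have h2 := (Metric.tendsto_nhds.mp hv) η hη
  obtain ⟨N, hN⟩ := eventually_atTop.mp (h.and (h1.and h2))
  have hpos := bB_pos (N+1)
  filter_upwards [Ioo_mem_nhdsGT hpos] with ε hε
  have hex : ∃ j, bB (j+2) ≤ ε := by
    have h3 : Tendsto (fun j => bB (j+2)) atTop (𝓝 0) := bB_tendsto.comp (tendsto_add_atTop_nat 2)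
    obtain ⟨j, hj⟩ := (h3.eventually (gt_mem_nhds hε.1)).exists
    exact ⟨j, hj.le⟩
  classical
  set j := Nat.find hex with hj
  have hj1 : bB (j+2) ≤ ε := Nat.find_spec hex
  have hjN : N ≤ j := by
    by_contra hlt
    push Not at hlt
    have h4 : bB (N+1) ≤ bB (j+2) := bB_anti (by omega)
    linarith [hε.2]
  have hj2 : ε ≤ bB (j+1) := by
    rcases Nat.eq_zero_or_pos j with h0 | h0
    · have hN0 : N = 0 := by omega
      rw [h0]; rw [hN0] at hε; exact hε.2.le
    · have h5 := Nat.find_min hex (m := j - 1) (by omega)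
      have h6 : j - 1 + 2 = j + 1 := by omega
      rw [h6] at h5
      exact (not_le.mp h5).le
  obtain ⟨h7, h8, h9⟩ := hN j hjN
  obtain ⟨h10, h11⟩ := h7 ε hj1 hj2
  rw [Real.dist_eq, abs_lt] at *
  constructor <;> linarith [h8.1, h8.2, h9.1, h9.2]

theorem mul_psi_le (p : Par) (x : ℝ) :
    p.mm * p.psi x ≤ (if |x| < p.b then (1:ℝ) else 0) := by
  have hm := p.mm_pos
  split_ifs with h
  · have h1 := p.psi_le x
    calc p.mm * p.psi x ≤ p.mm * (1 / p.mm) := by gcongr
      _ = 1 := by field_simp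
  · rw [p.psi_of_ge (not_lt.mp h), mul_zero]

/-- the pathwise local time limit -/
theorem path_local {x : ℝ≥0 → ℝ} (hx : Continuous x) (t : ℝ≥0) {l : ℝ}
    (h1 : Tendsto (fun k => (1/2) * tint (fun u => (parB k).psi (x u)) 0 t) atTop (𝓝 l))
    (h2 : ∀ᶠ k : ℕ in atTop, tint (fun u => 1 - ((parQ k).Fp (x u))^2) 0 t
      ≤ bB (k+2) / ((k:ℝ)+1)) :
    Tendsto (fun ε => occ mu0 x t ε / (2 * ε)) (𝓝[>] 0) (𝓝 l) := by
  have hfin : mu0 (Set.Iic t) ≠ ∞ := by rw [mu0_Iic]; exact ENNReal.ofReal_ne_top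
  set Λ : ℕ → ℝ := fun k => (1/2) * tint (fun u => (parB k).psi (x u)) 0 t with hΛ
  have hΛ0 : ∀ k, 0 ≤ Λ k := fun k => by
    have := tint_nonneg (g := fun u => (parB k).psi (x u)) (s := 0) (t := t) zero_le
      (fun u => (parB k).psi_nonneg _)
    simp only [hΛ]; linarith
  -- ratios
  have hr1 : Tendsto (fun k => bB (k+1) / bB k) atTop (𝓝 1) := bB_ratio 1
  have hr2 : Tendsto (fun k => bB (k+2) / bB k) atTop (𝓝 1) := bB_ratio 2
  have hr2' : Tendsto (fun k => bB k / bB (k+2)) atTop (𝓝 1) := by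
    have := hr2.inv₀ one_ne_zero
    rw [inv_one] at this
    refine this.congr (fun k => ?_)
    rw [inv_div]
  -- lower bounds for mm
  have hmlow : Tendsto (fun k => (parB (k+2)).mm / bB (k+1)) atTop (𝓝 1) := by
    have hlo : Tendsto (fun k => bB (k+3) / bB (k+1) - 2 * rB (k+2) / bB (k+1)) atTop
        (𝓝 (1 - 0)) := by
      refine Tendsto.sub ?_ ?_
      · have h3 := (bB_ratio 2).comp (tendsto_add_atTop_nat 1)
        exact h3
      · have h4 : Tendsto (fun k => bB (k+1)) atTop (𝓝 0) :=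
          bB_tendsto.comp (tendsto_add_atTop_nat 1)
        refine squeeze_zero (fun k => ?_) (fun k => ?_) h4
        · have := rB_pos (k+2); have := bB_pos (k+1); positivity
        · rw [div_le_iff₀ (bB_pos _)]
          unfold rB
          have h5 : bB (k+2+2) ≤ bB (k+1) := bB_anti (by omega)
          have h6 := bB_pos (k+2+2)
          nlinarith
    rw [sub_zero] at hlo
    have hhi : Tendsto (fun k => bB (k+2) / bB (k+1)) atTop (𝓝 1) :=
      hr1.comp (tendsto_add_atTop_nat 1)
    refine tendsto_of_tendsto_of_tendsto_of_le_of_le hlo hhi (fun k => ?_) (fun k => ?_)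
    · have h5 := (parB (k+2)).le_mm
      have h6 := bB_pos (k+1)
      have e : bB (k+3) / bB (k+1) - 2 * rB (k+2) / bB (k+1)
          = ((parB (k+2)).a - 2 * (parB (k+2)).ρ) / bB (k+1) := by
        simp only [parB]; ring
      simp only
      rw [e]
      gcongr
    · have h5 := (parB (k+2)).mm_le
      have h6 := bB_pos (k+1)
      simp only
      exact div_le_div_of_nonneg_right h5 h6.le
  refine tendsto_occ (u := fun k => ((parB (k+2)).mm / bB (k+1)) * Λ (k+2))
    (v := fun k => (bB k / bB (k+2)) * Λ k + (1/2) * (1 / ((k:ℝ)+1))) ?_ ?_ ?_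
  · have h3 := hmlow.mul (h1.comp (tendsto_add_atTop_nat 2))
    rw [one_mul] at h3
    exact h3
  · have h3 := (hr2'.mul h1).add ((tendsto_one_div_add_atTop_nhds_zero_nat (𝕜 := ℝ)).const_mul (1/2))
    simpa using h3
  · filter_upwards [h2] with k hk ε hε1 hε2
    have hb1 := bB_pos (k+1)
    have hb2 := bB_pos (k+2)
    have hε0 : 0 < ε := hb2.trans_le hε1
    constructor
    · -- lower bound
      have hpsi : Continuous (fun u => (parB (k+2)).mm * (parB (k+2)).psi (x u)) :=
        ((parB (k+2)).psi_cont.comp hx).const_mul _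
      have h3 : ∫ s in Set.Iic t, (parB (k+2)).mm * (parB (k+2)).psi (x s) ∂mu0
          ≤ occ mu0 x t (bB (k+2)) := by
        refine int_le_meas hfin hpsi (small_meas hx _) (fun s => ?_)
        have h4 := mul_psi_le (parB (k+2)) (x s)
        by_cases hs : |x s| < bB (k+2)
        · rw [Set.indicator_of_mem (show s ∈ {s | |x s| < bB (k+2)} from hs)]
          rwa [if_pos (show |x s| < (parB (k+2)).b from hs)] at h4
        · rw [Set.indicator_of_notMem (show s ∉ {s | |x s| < bB (k+2)} from hs)]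
          rwa [if_neg (show ¬ |x s| < (parB (k+2)).b from hs)] at h4
      rw [← tint_eq_mu0 hpsi, tint_const_mul] at h3
      have h5 := h3.trans (occ_mono hfin x hε1)
      have h6 : (parB (k+2)).mm * (2 * Λ (k+2)) ≤ occ mu0 x t ε := by
        simp only [hΛ]; linarith
      calc (parB (k+2)).mm / bB (k+1) * Λ (k+2)
          = ((parB (k+2)).mm * (2 * Λ (k+2))) / (2 * bB (k+1)) := by field_simp
        _ ≤ occ mu0 x t ε / (2 * bB (k+1)) := by gcongr
        _ ≤ occ mu0 x t ε / (2 * ε) := by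
            have := occ_nonneg mu0 x t ε
            gcongr
    · -- upper bound
      have hc : Continuous (fun u => (parB k).mm * (parB k).psi (x u)
          + (1 - ((parQ k).Fp (x u))^2)) :=
        (((parB k).psi_cont.comp hx).const_mul _).add
          (continuous_const.sub (((parQ k).Fp_cont.comp hx).pow 2))
      have h3 : occ mu0 x t (bB (k+1)) ≤ ∫ s in Set.Iic t, ((parB k).mm * (parB k).psi (x s)
          + (1 - ((parQ k).Fp (x s))^2)) ∂mu0 := by
        refine meas_le_int hfin hc (small_meas hx _) (fun s => ?_)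
        have hq := (parQ k).Fp_sq_le (x s)
        have hp : 0 ≤ (parB k).mm * (parB k).psi (x s) :=
          mul_nonneg (parB k).mm_pos.le ((parB k).psi_nonneg _)
        by_cases hs : |x s| < bB (k+1)
        · rw [Set.indicator_of_mem (show s ∈ {s | |x s| < bB (k+1)} from hs)]
          rcases le_total |x s| (2 * rB k) with h4 | h4
          · rw [(parQ k).Fp_of_abs_le h4]
            linarith
          · have h5 : (parB k).psi (x s) = 1 / (parB k).mm := (parB k).psi_one h4 hs.le
            have h6 : (parB k).mm * (1 / (parB k).mm) = 1 := by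
              have := (parB k).mm_pos; field_simp
            rw [h5, h6]
            linarith
        · rw [Set.indicator_of_notMem (show s ∉ {s | |x s| < bB (k+1)} from hs)]
          linarith
      rw [← tint_eq_mu0 hc] at h3
      have h7 : tint (fun u => (parB k).mm * (parB k).psi (x u) + (1 - ((parQ k).Fp (x u))^2)) 0 t
          = (parB k).mm * tint (fun u => (parB k).psi (x u)) 0 t
            + tint (fun u => 1 - ((parQ k).Fp (x u))^2) 0 t := by
        rw [← tint_const_mul]
        exact intervalIntegral.integral_add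
          ((cont_toNN (((parB k).psi_cont.comp hx).const_mul _)).intervalIntegrable _ _)
          ((cont_toNN (continuous_const.sub (((parQ k).Fp_cont.comp hx).pow 2))).intervalIntegrable
            _ _)
      rw [h7] at h3
      have h8 : (parB k).mm ≤ bB k := (parB k).mm_le
      have h9 : occ mu0 x t ε ≤ bB k * (2 * Λ k) + bB (k+2) / ((k:ℝ)+1) := by
        refine (occ_mono hfin x hε2).trans (h3.trans (add_le_add ?_ hk))
        have h10 : tint (fun u => (parB k).psi (x u)) 0 t = 2 * Λ k := by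
          simp only [hΛ]; ring
        rw [h10]
        have := hΛ0 k
        gcongr
      calc occ mu0 x t ε / (2 * ε) ≤ occ mu0 x t ε / (2 * bB (k+2)) := by
            have := occ_nonneg mu0 x t ε
            gcongr
        _ ≤ (bB k * (2 * Λ k) + bB (k+2) / ((k:ℝ)+1)) / (2 * bB (k+2)) := by gcongr
        _ = bB k / bB (k+2) * Λ k + (1/2) * (1 / ((k:ℝ)+1)) := by
            field_simp

end Pool.Agent.SkewBM
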