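import Pool.Agent.Lib.MP_e34d70_pr.Mart

open MeasureTheory Filter ProbabilityTheory
open scoped NNReal ENNReal Topology

namespace Pool.Agent.SkewBM

variable {Ω : Type*} {mΩ : MeasurableSpace Ω} {P : Measure Ω} {𝓕 : Filtration ℝ≥0 mΩ}

/-- locally uniform convergence of paths -/
def LU (f : ℕ → ℝ≥0 → ℝ) (g : ℝ≥0 → ℝ) : Prop :=
  ∀ T : ℝ≥0, ∀ ε : ℝ, 0 < ε → ∀ᶠ k in atTop, ∀ s ≤ T, |f k s - g s| ≤ ε

theorem LU.tendsto {f : ℕ → ℝ≥0 → ℝ} {g : ℝ≥0 → ℝ} (h : LU f g) (t : ℝ≥0) :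
    Tendsto (fun k => f k t) atTop (𝓝 (g t)) := by
  rw [Metric.tendsto_atTop]
  intro ε hε
  obtain ⟨N, hN⟩ := eventually_atTop.mp (h t (ε/2) (by positivity))
  refine ⟨N, fun n hn => ?_⟩
  rw [Real.dist_eq]
  exact lt_of_le_of_lt (hN n hn t le_rfl) (by linarith)

theorem LU.continuous {f : ℕ → ℝ≥0 → ℝ} {g : ℝ≥0 → ℝ} (h : LU f g)
    (hf : ∀ k, Continuous (f k)) : Continuous g := by
  rw [Metric.continuous_iff]
  intro T ε hε
  obtain ⟨N, hN⟩ := eventually_atTop.mp (h (T+1) (ε/4) (by positivity))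
  obtain ⟨δ, hδ, hd⟩ := Metric.continuous_iff.mp (hf N) T (ε/4) (by positivity)
  refine ⟨min δ 1, by positivity, fun S hS => ?_⟩
  have h1 := hd S (lt_of_lt_of_le hS (min_le_left _ _))
  have hS1 : S ≤ T + 1 := by
    have h2 := lt_of_lt_of_le hS (min_le_right _ _)
    rw [NNReal.dist_eq, abs_lt] at h2
    rw [← NNReal.coe_le_coe]; push_cast; linarith
  have h3 := hN N le_rfl S hS1
  have h4 := hN N le_rfl T (le_add_of_nonneg_right zero_le_one)
  rw [Real.dist_eq] at h1 ⊢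
  have h5 := abs_lt.mp h1
  have h6 := abs_le.mp h3
  have h7 := abs_le.mp h4
  rw [abs_lt]
  constructor <;> linarith

/-- a geometric Cauchy criterion -/
theorem exists_LU {f : ℕ → ℝ≥0 → ℝ}
    (h : ∃ k0 : ℕ, ∀ k ≥ k0, ∀ s : ℝ≥0, s ≤ (k:ℝ≥0) → |f (k+1) s - f k s| ≤ (1/2:ℝ)^k) :
    ∃ g, LU f g := by
  obtain ⟨k0, hk0⟩ := h
  have key : ∀ k ≥ k0, ∀ s : ℝ≥0, s ≤ (k:ℝ≥0) → ∀ j, |f (k+j) s - f k s| ≤ 2 * (1/2:ℝ)^k
      - 2 * (1/2:ℝ)^(k+j) := by
    intro k hk s hs j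
    induction j with
    | zero => simp
    | succ j ih =>
      have h1 := hk0 (k+j) (by omega) s (hs.trans (by push_cast; exact le_self_add))
      have h2 : f (k+(j+1)) s - f k s = (f (k+j+1) s - f (k+j) s) + (f (k+j) s - f k s) := by
        rw [← add_assoc]; ring
      rw [h2]
      refine (abs_add_le _ _).trans ?_
      have h3 : (1/2:ℝ)^(k+(j+1)) = (1/2:ℝ)^(k+j) / 2 := by rw [← add_assoc, pow_succ]; ring
      rw [h3]
      linarith
  have key2 : ∀ k ≥ k0, ∀ s : ℝ≥0, s ≤ (k:ℝ≥0) → ∀ j ≥ k, |f j s - f k s| ≤ 2 * (1/2:ℝ)^k := by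
    intro k hk s hs j hj
    obtain ⟨i, rfl⟩ := Nat.exists_eq_add_of_le hj
    refine (key k hk s hs i).trans ?_
    have : (0:ℝ) < (1/2:ℝ)^(k+i) := by positivity
    linarith
  have hpow : Tendsto (fun k : ℕ => 2 * (1/2:ℝ)^k) atTop (𝓝 0) := by
    have := (tendsto_pow_atTop_nhds_zero_of_lt_one (r := (1/2:ℝ)) (by norm_num)
      (by norm_num)).const_mul 2
    simpa using this
  have hex : ∀ s : ℝ≥0, ∃ l, Tendsto (fun k => f k s) atTop (𝓝 l) := by
    intro s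
    refine cauchySeq_tendsto_of_complete ?_
    rw [Metric.cauchySeq_iff']
    intro ε hε
    obtain ⟨n, hn⟩ := exists_nat_ge s
    obtain ⟨N, hN⟩ := eventually_atTop.mp (hpow.eventually (gt_mem_nhds hε))
    refine ⟨max (max k0 n) N, fun j hj => ?_⟩
    rw [Real.dist_eq]
    refine lt_of_le_of_lt (key2 (max (max k0 n) N) (by omega) s ?_ j hj) (hN _ (le_max_right _ _))
    exact hn.trans (by exact_mod_cast (le_max_right k0 n).trans (le_max_left _ _))
  choose g hg using hex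
  refine ⟨g, fun T ε hε => ?_⟩
  obtain ⟨n, hn⟩ := exists_nat_ge T
  filter_upwards [hpow.eventually (gt_mem_nhds hε), eventually_ge_atTop (max k0 n)] with k hk1 hk2 s hs
  have h1 : s ≤ (k:ℝ≥0) := hs.trans (hn.trans (by exact_mod_cast (le_max_right k0 n).trans hk2))
  have h2 : Tendsto (fun j => |f k s - f j s|) atTop (𝓝 (|f k s - g s|)) :=
    ((hg s).const_sub _).abs
  refine le_of_tendsto h2 ?_
  filter_upwards [eventually_ge_atTop k] with j hj
  rw [abs_sub_comm]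
  exact (key2 k ((le_max_left _ _).trans hk2) s h1 j hj).trans hk1.le

theorem uc [IsProbabilityMeasure P] (hnull : ∀ A : Set Ω, P A = 0 → MeasurableSet[𝓕 0] A)
    {K : ℕ → ℝ≥0 → Ω → ℝ} (hK : ∀ n, Mart 𝓕 P (K n))
    (hc : ∀ T : ℝ≥0, ∀ ε : ℝ, 0 < ε → ∀ᶠ N in atTop, ∀ n ≥ N, ∀ m ≥ N,
      ∫ ω, |K n T ω - K m T ω| ∂P ≤ ε)
    (hbd : ∀ T : ℝ≥0, ∃ C : ℝ, ∀ n, ∫ ω, (K n T ω)^2 ∂P ≤ C) :
    ∃ K' : ℝ≥0 → Ω → ℝ, Mart 𝓕 P K' ∧ ∃ ns : ℕ → ℕ, StrictMono ns ∧
      ∀ᵐ ω ∂P, LU (fun k s => K (ns k) s ω) (fun s => K' s ω) := by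
  obtain ⟨ns, hns, hN⟩ := extraction_forall_of_eventually
    (P := fun k N => ∀ n ≥ N, ∀ m ≥ N, ∫ ω, |K n (k:ℝ≥0) ω - K m (k:ℝ≥0) ω| ∂P ≤ (1/4:ℝ)^k)
    (fun k => hc k ((1/4)^k) (by positivity))
  set A : ℕ → Set Ω := fun k =>
    {ω | (1/2:ℝ)^k < supOn (fun s => |K (ns (k+1)) s ω - K (ns k) s ω|) k} with hA
  have hPA : ∀ k, P (A k) ≤ ENNReal.ofReal ((1/2:ℝ)^k) := by
    intro k
    have h1 := ((hK (ns (k+1))).sub (hK (ns k))).doob (k:ℝ≥0) (lam := (1/2)^k) (by positivity)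
    have h2 := hN k (ns (k+1)) (hns.monotone (Nat.le_succ k)) (ns k) le_rfl
    have h3 : P.real (A k) ≤ (1/2:ℝ)^k := by
      have h4 : (1/2:ℝ)^k * P.real (A k) ≤ (1/4:ℝ)^k := h1.trans h2
      have h5 : (1/4:ℝ)^k = (1/2:ℝ)^k * (1/2:ℝ)^k := by rw [← mul_pow]; norm_num
      rw [h5] at h4
      exact le_of_mul_le_mul_left h4 (by positivity)
    rw [← ENNReal.ofReal_toReal (measure_ne_top P (A k))]
    exact ENNReal.ofReal_le_ofReal h3
  have hsum : ∑' k, P (A k) ≠ ∞ := by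
    refine ne_top_of_le_ne_top ?_ (ENNReal.tsum_le_tsum hPA)
    rw [← ENNReal.ofReal_tsum_of_nonneg (fun k => by positivity)
      (summable_geometric_of_lt_one (by norm_num) (by norm_num))]
    exact ENNReal.ofReal_ne_top
  have hae := ae_eventually_notMem hsum
  -- the good set
  set G : Set Ω := {ω | ∀ᶠ k in atTop, ω ∉ A k} with hG
  have hGc : P Gᶜ = 0 := hae
  have hGm : MeasurableSet[𝓕 0] G := by
    have := hnull _ hGc
    simpa using this.compl
  have hLU : ∀ ω ∈ G, ∃ g, LU (fun k s => K (ns k) s ω) g := by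
    intro ω hω
    refine exists_LU ?_
    obtain ⟨k0, hk0⟩ := eventually_atTop.mp hω
    refine ⟨k0, fun k hk s hs => ?_⟩
    have h1 := hk0 k hk
    simp only [hA, Set.mem_ofPred_eq, not_lt] at h1
    refine le_trans ?_ h1
    exact le_supOn (f := fun s => |K (ns (k+1)) s ω - K (ns k) s ω|)
      (((hK _).cont ω).sub ((hK _).cont ω)).abs hs
  classical
  set K' : ℝ≥0 → Ω → ℝ := fun t ω => if h : ω ∈ G then (hLU ω h).choose t else 0 with hK'
  have hlim : ∀ ω ∈ G, LU (fun k s => K (ns k) s ω) (fun s => K' s ω) := by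
    intro ω hω
    have := (hLU ω hω).choose_spec
    simpa [hK', hω] using this
  have hlimt : ∀ t ω, Tendsto (fun k => G.indicator (fun ω => K (ns k) t ω) ω) atTop
      (𝓝 (K' t ω)) := by
    intro t ω
    by_cases hω : ω ∈ G
    · simp only [Set.indicator_of_mem hω]
      exact (hlim ω hω).tendsto t
    · simp only [Set.indicator_of_notMem hω, hK', hω, dif_neg, not_false_eq_true]
      exact tendsto_const_nhds
  have hadapt : ∀ t, Measurable[𝓕 t] (K' t) := by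
    intro t
    refine @measurable_of_tendsto_metrizable Ω ℝ (𝓕 t) _ _ _ _
      (fun k ω => G.indicator (fun ω => K (ns k) t ω) ω) _ (fun k => ?_) ?_
    · exact ((hK (ns k)).adapted t).indicator (𝓕.mono zero_le _ hGm)
    · rw [tendsto_pi_nhds]; exact fun ω => hlimt t ω
  have hae' : ∀ᵐ ω ∂P, LU (fun k s => K (ns k) s ω) (fun s => K' s ω) := by
    filter_upwards [hae] with ω hω using hlim ω hω
  have hinc : ∀ s t, s ≤ t → ∃ c, MInc (𝓕 s) P (fun ω => K' t ω - K' s ω) c := by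
    intro s t hst
    obtain ⟨C, hC⟩ := hbd t
    refine ⟨C, MInc.of_tim (𝓕.le s) (D := fun k ω => K (ns k) t ω - K (ns k) s ω)
      (c := fun _ => C) (fun k => ?_) tendsto_const_nhds ?_⟩
    · refine ((hK (ns k)).inc hst).mono_c ?_
      rw [(hK (ns k)).sq_sub hst]
      have h1 := hC (ns k)
      have h2 : 0 ≤ ∫ ω, (K (ns k) s ω)^2 ∂P := integral_nonneg (fun ω => sq_nonneg _)
      linarith
    · refine TZ.of_tendsto_ae (fun k => ?_) ?_
      · refine Measurable.aestronglyMeasurable ?_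
        exact (((hK (ns k)).meas t).sub ((hK (ns k)).meas s)).sub
          (((hadapt t).mono (𝓕.le t) le_rfl).sub ((hadapt s).mono (𝓕.le s) le_rfl))
      · filter_upwards [hae'] with ω hω
        have h1 := ((hω.tendsto t).sub (hω.tendsto s)).sub_const (K' t ω - K' s ω)
        simpa using h1
  have hz : ∀ ω, K' 0 ω = 0 := by
    intro ω
    refine tendsto_nhds_unique (hlimt 0 ω) ?_
    have : (fun k => G.indicator (fun ω => K (ns k) 0 ω) ω) = fun _ => 0 := by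
      ext k
      by_cases hω : ω ∈ G
      · simp [Set.indicator_of_mem hω, (hK (ns k)).zero]
      · simp [Set.indicator_of_notMem hω]
    rw [this]; exact tendsto_const_nhds
  refine ⟨K', ⟨hadapt, ?_, hz, ?_, ?_⟩, ns, hns, hae'⟩
  · intro ω
    by_cases hω : ω ∈ G
    · exact (hlim ω hω).continuous (fun k => (hK (ns k)).cont ω)
    · have : (fun t => K' t ω) = fun _ => 0 := by
        ext t; simp [hK', hω]
      rw [this]; exact continuous_const
  · intro t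
    obtain ⟨c, hc'⟩ := hinc 0 t zero_le
    have := hc'.memLp
    simpa [hz] using this
  · intro s t hst
    obtain ⟨c, hc'⟩ := hinc s t hst
    exact hc'.orth

end Pool.Agent.SkewBM
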