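import Pool.Agent.Lib.MP_e34d70_pr.Grid
import Pool.Agent.Lib.MP_e34d70_pr.UC

open MeasureTheory Filter ProbabilityTheory
open scoped NNReal ENNReal Topology

namespace Pool.Agent.SkewBM

/-- logarithmic cut-off -/
noncomputable def Gf (δ Λ z : ℝ) : ℝ := max 0 (min 1 (Real.log (max z δ / δ) / Λ))

section det

variable {δ Λ : ℝ}

theorem Gf_nonneg (z : ℝ) : 0 ≤ Gf δ Λ z := le_max_left _ _
theorem Gf_le_one (z : ℝ) : Gf δ Λ z ≤ 1 := max_le zero_le_one (min_le_left _ _)
theorem abs_Gf_le (z : ℝ) : |Gf δ Λ z| ≤ 1 := by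
  rw [abs_of_nonneg (Gf_nonneg z)]; exact Gf_le_one z

theorem Gf_zero (hδ : 0 < δ) {z : ℝ} (hz : z ≤ δ) : Gf δ Λ z = 0 := by
  unfold Gf
  rw [max_eq_right hz, div_self hδ.ne', Real.log_one, zero_div]
  simp

theorem Gf_one (hδ : 0 < δ) {η z : ℝ} (hη : δ < η) (hz : η ≤ z) : Gf δ (Real.log (η/δ)) z = 1 := by
  have h1 : 0 < Real.log (η/δ) := Real.log_pos (by rw [lt_div_iff₀ hδ]; linarith)
  have h2 : 1 ≤ Real.log (max z δ / δ) / Real.log (η/δ) := by
    rw [le_div_iff₀ h1, one_mul]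
    refine Real.log_le_log (by have : 0 < η := hδ.trans hη; positivity) ?_
    gcongr
    exact hz.trans (le_max_left _ _)
  unfold Gf
  rw [min_eq_left h2]; simp

theorem Gf_measurable : Measurable (Gf δ Λ) := by
  unfold Gf
  have h1 : Measurable (fun z : ℝ => Real.log (max z δ / δ)) :=
    Real.measurable_log.comp ((measurable_id.max measurable_const).div_const _)
  exact measurable_const.max (measurable_const.min (h1.div_const _))

theorem log_lip {w w' m : ℝ} (hm : 0 < m) (h : m ≤ w) (h' : m ≤ w') :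
    |Real.log w - Real.log w'| ≤ |w - w'| / m := by
  have key : ∀ a b : ℝ, m ≤ a → m ≤ b → Real.log a - Real.log b ≤ |a - b| / m := by
    intro a b ha hb
    have ha0 : 0 < a := hm.trans_le ha
    have hb0 : 0 < b := hm.trans_le hb
    rw [← Real.log_div ha0.ne' hb0.ne']
    have h1 := Real.log_le_sub_one_of_pos (div_pos ha0 hb0)
    have h2 : a / b - 1 = (a - b) / b := by field_simp
    rw [h2] at h1
    calc Real.log (a/b) ≤ (a - b)/b := h1
      _ ≤ |a - b| / b := by gcongr; exact le_abs_self _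
      _ ≤ |a - b| / m := by gcongr
  rw [abs_le]
  constructor
  · have := key w' w h' h
    rw [abs_sub_comm] at this
    linarith
  · exact key w w' h h'

theorem Gf_lip (hδ : 0 < δ) (hΛ : 0 < Λ) {m : ℝ} (hm : 0 < m) {z z' : ℝ}
    (h : m ≤ max z δ) (h' : m ≤ max z' δ) :
    |Gf δ Λ z - Gf δ Λ z'| ≤ |z - z'| / (Λ * m) := by
  have hw : 0 < max z δ := hm.trans_le h
  have hw' : 0 < max z' δ := hm.trans_le h'
  have h1 : |Gf δ Λ z - Gf δ Λ z'|
      ≤ |Real.log (max z δ / δ) / Λ - Real.log (max z' δ / δ) / Λ| := by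
    unfold Gf
    refine (abs_max_sub_max_le_max _ _ _ _).trans (max_le (by simp) ?_)
    exact (abs_min_sub_min_le_max _ _ _ _).trans (max_le (by simp) le_rfl)
  refine h1.trans ?_
  rw [← sub_div, abs_div, abs_of_pos hΛ, Real.log_div hw.ne' hδ.ne', Real.log_div hw'.ne' hδ.ne',
    sub_sub_sub_cancel_right]
  have h2 := log_lip hm h h'
  have h3 : |max z δ - max z' δ| ≤ |z - z'| := by
    refine (abs_max_sub_max_le_max _ _ _ _).trans (max_le le_rfl (by simp))
  calc |Real.log (max z δ) - Real.log (max z' δ)| / Λ ≤ (|z - z'| / m) / Λ := by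
        gcongr
        exact h2.trans (by gcongr)
    _ = _ := by field_simp

theorem cellA {γ Λ : ℝ} (hγ : 0 < γ) (hΛ : 0 < Λ) {z z' n : ℝ} (hz : |z' - z| ≤ 4 * γ)
    (hn : |n| ≤ 2 * |z'| + 2 * γ) :
    |n * (Gf (4*γ) Λ z' - Gf (4*γ) Λ z)| ≤ 5 / Λ * |z' - z| := by
  have hδ : 0 < 4 * γ := by positivity
  have hz' := abs_le.mp hz
  by_cases hc : z ≤ 4 * γ ∧ z' ≤ 4 * γ
  · rw [Gf_zero hδ hc.1, Gf_zero hδ hc.2]
    simp only [sub_self, mul_zero, abs_zero]
    positivity
  · have hz'pos : 0 < z' := by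
      by_contra hneg
      push Not at hneg
      refine hc ⟨by linarith [hz'.1], by linarith⟩
    set m := min (max z (4*γ)) (max z' (4*γ)) with hm
    have hmδ : 4 * γ ≤ m := le_min (le_max_right _ _) (le_max_right _ _)
    have hm0 : 0 < m := hδ.trans_le hmδ
    have h1 := Gf_lip hδ hΛ hm0 (z := z') (z' := z) (min_le_right _ _) (min_le_left _ _)
    have h2 : z' ≤ 2 * m := by
      rw [hm, mul_min_of_nonneg _ _ (by norm_num : (0:ℝ) ≤ 2)]
      refine le_min ?_ ?_
      · rcases le_total z (4*γ) with h | h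
        · rw [max_eq_right h]; linarith [hz'.2]
        · rw [max_eq_left h]; linarith [hz'.2]
      · have := le_max_left z' (4*γ)
        linarith
    rw [abs_of_pos hz'pos] at hn
    rw [abs_mul]
    calc |n| * |Gf (4*γ) Λ z' - Gf (4*γ) Λ z|
        ≤ (5 * m) * (|z' - z| / (Λ * m)) := by
          refine mul_le_mul ?_ h1 (abs_nonneg _) (by positivity)
          linarith
      _ = 5 / Λ * |z' - z| := by field_simp

theorem sumA {γ Λ : ℝ} (hγ : 0 < γ) (hΛ : 0 < Λ) {a a' n : ℕ → ℝ} (ha : Monotone a)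
    (ha' : Monotone a') (h0 : a 0 = 0) (h0' : a' 0 = 0) (m : ℕ)
    (hz : ∀ i < m, |(a (i+1) - a' (i+1)) - (a i - a' i)| ≤ 4 * γ)
    (hn : ∀ i ≤ m, |n i| ≤ 2 * |a i - a' i| + 2 * γ) :
    |∑ i ∈ Finset.range m, n (i+1) * (Gf (4*γ) Λ (a (i+1) - a' (i+1)) - Gf (4*γ) Λ (a i - a' i))|
      ≤ 5 / Λ * (a m + a' m) := by
  have h1 : ∀ i ∈ Finset.range m,
      |n (i+1) * (Gf (4*γ) Λ (a (i+1) - a' (i+1)) - Gf (4*γ) Λ (a i - a' i))|
      ≤ 5 / Λ * ((a (i+1) + a' (i+1)) - (a i + a' i)) := by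
    intro i hi
    have hi' := Finset.mem_range.mp hi
    refine (cellA hγ hΛ (hz i hi') (hn (i+1) hi')).trans ?_
    have h2 := ha (Nat.le_succ i)
    have h3 := ha' (Nat.le_succ i)
    have h4 : |(a (i+1) - a' (i+1)) - (a i - a' i)| ≤ (a (i+1) + a' (i+1)) - (a i + a' i) := by
      simp only [Nat.succ_eq_add_one] at h2 h3
      rw [abs_le]; constructor <;> linarith
    exact mul_le_mul_of_nonneg_left h4 (by positivity)
  refine (Finset.abs_sum_le_sum_abs _ _).trans ((Finset.sum_le_sum h1).trans ?_)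
  rw [← Finset.mul_sum, Finset.sum_range_sub (fun i => a i + a' i), h0, h0']
  simp

theorem abelA (g n : ℕ → ℝ) (h0 : n 0 = 0) (m : ℕ) :
    g m * n m - ∑ i ∈ Finset.range m, g i * (n (i+1) - n i)
      = ∑ i ∈ Finset.range m, n (i+1) * (g (i+1) - g i) := by
  induction m with
  | zero => simp [h0]
  | succ m ih =>
    rw [Finset.sum_range_succ, Finset.sum_range_succ, ← ih]
    ring

/-- pointwise comparison of two approximate solutions -/
theorem compA {γ b x₀ k k' a a' : ℝ} {φ : ℝ → ℝ} (hφ : ∀ x y, |φ x - φ y| ≤ |x - y|)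
    (h : |(|b + φ a|) - (x₀ + k + a)| ≤ γ) (h' : |(|b + φ a'|) - (x₀ + k' + a')| ≤ γ) :
    |k' - k| ≤ 2 * |a - a'| + 2 * γ ∧ (0 ≤ a - a' → -(2 * γ) ≤ k' - k) ∧
      (a - a' ≤ 0 → k' - k ≤ 2 * γ) := by
  have h1 : |(|b + φ a| - |b + φ a'|)| ≤ |a - a'| := by
    refine (abs_abs_sub_abs_le _ _).trans ?_
    have : b + φ a - (b + φ a') = φ a - φ a' := by ring
    rw [this]; exact hφ _ _
  have h2 := abs_le.mp h
  have h3 := abs_le.mp h'
  have h4 := abs_le.mp h1
  refine ⟨?_, ?_, ?_⟩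
  · rw [abs_le]
    have h5 := le_abs_self (a - a')
    have h6 := neg_abs_le (a - a')
    constructor <;> linarith [h2.1, h2.2, h3.1, h3.2, h4.1, h4.2]
  · intro h5
    rw [abs_of_nonneg h5] at h4
    linarith [h2.1, h2.2, h3.1, h3.2, h4.1, h4.2]
  · intro h5
    rw [abs_of_nonpos h5] at h4
    linarith [h2.1, h2.2, h3.1, h3.2, h4.1, h4.2]

theorem finalA {γ η : ℝ} (hγ : 0 < γ) (hη : 4 * γ < η) {z n : ℝ}
    (h1 : |n| ≤ 2 * |z| + 2 * γ) (h2 : 0 ≤ z → -(2*γ) ≤ n) (h3 : z ≤ 0 → n ≤ 2*γ) :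
    |n| ≤ Gf (4*γ) (Real.log (η/(4*γ))) z * n + Gf (4*γ) (Real.log (η/(4*γ))) (-z) * (-n)
      + 2 * η + 4 * γ := by
  have hδ : 0 < 4 * γ := by positivity
  have key : ∀ z n : ℝ, 0 ≤ z → |n| ≤ 2 * z + 2 * γ → -(2*γ) ≤ n →
      |n| ≤ Gf (4*γ) (Real.log (η/(4*γ))) z * n + 2 * η + 4 * γ := by
    intro z n hz h4 h5
    have hG0 := Gf_nonneg (δ := 4*γ) (Λ := Real.log (η/(4*γ))) z
    have hG1 := Gf_le_one (δ := 4*γ) (Λ := Real.log (η/(4*γ))) z
    rcases le_total η z with h6 | h6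
    · rw [Gf_one hδ hη h6, one_mul]
      rw [abs_le]; constructor <;> linarith
    · have h7 : -(2*γ) ≤ Gf (4*γ) (Real.log (η/(4*γ))) z * n := by
        rcases le_total 0 n with h8 | h8
        · have : 0 ≤ Gf (4*γ) (Real.log (η/(4*γ))) z * n := mul_nonneg hG0 h8
          linarith
        · nlinarith
      linarith
  rcases le_total 0 z with hz | hz
  · have h4 : Gf (4*γ) (Real.log (η/(4*γ))) (-z) = 0 := Gf_zero hδ (by linarith)
    rw [h4, zero_mul, add_zero]
    rw [abs_of_nonneg hz] at h1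
    exact key z n hz h1 (h2 hz)
  · have h4 : Gf (4*γ) (Real.log (η/(4*γ))) z = 0 := Gf_zero hδ (by linarith)
    rw [h4, zero_mul, zero_add]
    rw [abs_of_nonpos hz] at h1
    have := key (-z) (-n) (by linarith) (by rwa [abs_neg]) (by linarith [h3 hz])
    rwa [abs_neg] at this

end det

variable {Ω : Type*} {mΩ : MeasurableSpace Ω} {P : Measure Ω} {𝓕 : Filtration ℝ≥0 mΩ}
variable {K K' B : ℝ≥0 → Ω → ℝ}

/-- the defect of an approximate solution -/
def Defect (φ : ℝ → ℝ) (x₀ : ℝ) (b k : ℝ≥0 → ℝ) (T : ℝ≥0) (γ : ℝ) : Prop :=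
  ∀ u ≤ T, |(|b u + φ (sk x₀ k u)|) - (x₀ + k u + sk x₀ k u)| ≤ γ

theorem young_set [IsProbabilityMeasure P] {f : Ω → ℝ} (hf : MemLp f 2 P) {A : Set Ω}
    (hA : MeasurableSet A) {κ : ℝ} (hκ : 0 < κ) :
    ∫ ω, A.indicator (fun ω => |f ω|) ω ∂P ≤ (∫ ω, (f ω)^2 ∂P) / κ + κ * P.real A := by
  have hi : Integrable f P := hf.integrable (by norm_num)
  calc ∫ ω, A.indicator (fun ω => |f ω|) ω ∂P
      ≤ ∫ ω, ((f ω)^2 / κ + A.indicator (fun _ => κ) ω) ∂P := by
        refine integral_mono (hi.abs.indicator hA)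
          ((hf.integrable_sq.div_const _).add ((integrable_const κ).indicator hA)) (fun ω => ?_)
        by_cases hω : ω ∈ A
        · simp only [Set.indicator_of_mem hω]
          rcases le_total |f ω| κ with h | h
          · have : 0 ≤ (f ω)^2 / κ := by positivity
            linarith
          · have : |f ω| ≤ (f ω)^2 / κ := by
              rw [le_div_iff₀ hκ, ← sq_abs, sq]
              exact mul_le_mul_of_nonneg_left h (abs_nonneg _)
            linarith
        · simp only [Set.indicator_of_notMem hω]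
          positivity
    _ = _ := by
        rw [integral_add (hf.integrable_sq.div_const _) ((integrable_const κ).indicator hA),
          integral_div, integral_indicator hA]
        simp only [integral_const, smul_eq_mul, measureReal_restrict_apply MeasurableSet.univ,
          Set.univ_inter]
        ring

/-- one sided estimate -/
theorem halfA [IsProbabilityMeasure P] (hK : Mart 𝓕 P K) (hK' : Mart 𝓕 P K')
    {φ : ℝ → ℝ} (hφ : ∀ x y, |φ x - φ y| ≤ |x - y|) {x₀ : ℝ} (hx : 0 ≤ x₀) {T : ℝ≥0}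
    {γ Λ κ : ℝ} (hγ : 0 < γ) (hΛ : 0 < Λ) (hκ : 0 < κ) {A : Set Ω} (hA : MeasurableSet A)
    (hdef : ∀ᵐ ω ∂P, ω ∉ A → Defect φ x₀ (fun u => B u ω) (fun u => K u ω) T γ ∧
      Defect φ x₀ (fun u => B u ω) (fun u => K' u ω) T γ) :
    ∫ ω, Gf (4*γ) Λ (sk x₀ (fun u => K u ω) T - sk x₀ (fun u => K' u ω) T)
        * (K' T ω - K T ω) ∂P
      ≤ 5 / Λ * (∫ ω, (sk x₀ (fun u => K u ω) T + sk x₀ (fun u => K' u ω) T) ∂P)
        + 4 * (∫ ω, (K' T ω - K T ω)^2 ∂P) / κ + κ * P.real A := by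
  set a : ℝ≥0 → Ω → ℝ := fun t ω => sk x₀ (fun u => K u ω) t with ha
  set a' : ℝ≥0 → Ω → ℝ := fun t ω => sk x₀ (fun u => K' u ω) t with ha'
  have ham : ∀ t, Measurable[𝓕 t] (a t) := fun t => measurable_sk (fun s hs => hK.meas_le hs) hK.cont
  have ham' : ∀ t, Measurable[𝓕 t] (a' t) :=
    fun t => measurable_sk (fun s hs => hK'.meas_le hs) hK'.cont
  have hN : Mart 𝓕 P (fun t ω => K' t ω - K t ω) := hK'.sub hK
  set N : ℝ≥0 → Ω → ℝ := fun t ω => K' t ω - K t ω with hNdef
  set G : ℝ≥0 → Ω → ℝ := fun t ω => Gf (4*γ) Λ (a t ω - a' t ω) with hG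
  have hGm : ∀ t, Measurable[𝓕 t] (G t) := fun t => Gf_measurable.comp ((ham t).sub (ham' t))
  have hGb : ∀ t ω, |G t ω| ≤ 1 := fun t ω => abs_Gf_le _
  set S : ℕ → Ω → ℝ := fun n ω => ∑ i ∈ Finset.range (2^n),
    G (gr 0 T n i) ω * (N (gr 0 T n (i+1)) ω - N (gr 0 T n i) ω) with hS
  have hSinc : ∀ n, MInc (𝓕 0) P (S n) (∫ ω, (N T ω)^2 ∂P) := by
    intro n
    have h1 := hN.gsum (gr_mono 0 T n) (fun i => hGm (gr 0 T n i)) (fun i ω => hGb _ ω) (2^n)
    rw [gr_zero, gr_end, zero_add] at h1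
    refine h1.mono_c ?_
    simp [hN.zero]
  have hGN2 : MemLp (fun ω => G T ω * N T ω) 2 P :=
    memLp_bdd_mul ((hGm T).mono (𝓕.le T) le_rfl).aestronglyMeasurable (hGb T) (hN.memLp T)
  set U : ℕ → Ω → ℝ := fun n ω => G T ω * N T ω - S n ω with hU
  have hU2 : ∀ n, MemLp (U n) 2 P := fun n => hGN2.sub (hSinc n).memLp
  have hUsq : ∀ n, ∫ ω, (U n ω)^2 ∂P ≤ 4 * ∫ ω, (N T ω)^2 ∂P := by
    intro n
    have h1 : ∫ ω, (U n ω)^2 ∂P ≤ ∫ ω, (2 * (N T ω)^2 + 2 * (S n ω)^2) ∂P := by
      refine integral_mono (hU2 n).integrable_sq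
        (((hN.memLp T).integrable_sq.const_mul 2).add ((hSinc n).memLp.integrable_sq.const_mul 2))
        (fun ω => ?_)
      simp only [hU]
      have h2 : (G T ω * N T ω)^2 ≤ (N T ω)^2 := by
        rw [mul_pow]
        have h3 : (G T ω)^2 ≤ 1 := by rw [sq_le_one_iff_abs_le_one]; exact hGb T ω
        nlinarith [sq_nonneg (N T ω)]
      nlinarith [sq_nonneg (G T ω * N T ω + S n ω)]
    rw [integral_add ((hN.memLp T).integrable_sq.const_mul 2)
      ((hSinc n).memLp.integrable_sq.const_mul 2), integral_const_mul, integral_const_mul] at h1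
    have h4 := (hSinc n).sq_le
    linarith
  have hUint : ∀ n, ∫ ω, U n ω ∂P = ∫ ω, G T ω * N T ω ∂P := by
    intro n
    simp only [hU]
    rw [integral_sub (hGN2.integrable (by norm_num)) (hSinc n).integrable,
      (hSinc n).integral_eq_zero, sub_zero]
  -- the dominating quantity
  obtain ⟨hsk2, -⟩ := hK.doob_sk T hx
  obtain ⟨hsk2', -⟩ := hK'.doob_sk T hx
  set D : Ω → ℝ := fun ω => 5 / Λ * (a T ω + a' T ω) with hD
  have hD2 : MemLp D 2 P := (hsk2.add hsk2').const_mul _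
  have hD0 : ∀ ω, 0 ≤ D ω := by
    intro ω
    have h1 := sk_nonneg (x₀ := x₀) (hK.cont ω) T
    have h2 := sk_nonneg (x₀ := x₀) (hK'.cont ω) T
    simp only [hD, ha, ha']
    positivity
  have hDint : Integrable D P := hD2.integrable (by norm_num)
  set v : ℕ → Ω → ℝ := fun n ω => Aᶜ.indicator (fun ω => max (|U n ω| - D ω) 0) ω with hv
  have hUabs2 : ∀ n, MemLp (fun ω => |U n ω|) 2 P := fun n => (hU2 n).abs
  have hv2 : ∀ n, MemLp (v n) 2 P := by
    intro n
    have h1 : MemLp (fun ω => max (|U n ω| - D ω) 0) 2 P := by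
      refine (hUabs2 n).mono ?_ (ae_of_all _ fun ω => ?_)
      · exact ((hUabs2 n).sub hD2).1.sup aestronglyMeasurable_const
      · rw [Real.norm_eq_abs, Real.norm_eq_abs, abs_abs, abs_of_nonneg (le_max_right _ _)]
        exact max_le (by linarith [hD0 ω]) (abs_nonneg _)
    exact h1.indicator hA.compl
  have hvsq : ∀ n, ∫ ω, (v n ω)^2 ∂P ≤ 4 * ∫ ω, (N T ω)^2 ∂P := by
    intro n
    refine le_trans (integral_mono (hv2 n).integrable_sq (hU2 n).integrable_sq (fun ω => ?_))
      (hUsq n)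
    simp only [hv]
    by_cases hω : ω ∈ Aᶜ
    · rw [Set.indicator_of_mem hω, ← sq_abs (U n ω)]
      refine pow_le_pow_left₀ (le_max_right _ _) (max_le (by linarith [hD0 ω]) (abs_nonneg _)) 2
    · rw [Set.indicator_of_notMem hω]
      nlinarith [sq_nonneg (U n ω)]
  have hvz : ∀ᵐ ω ∂P, Tendsto (fun n => v n ω) atTop (𝓝 0) := by
    filter_upwards [hdef] with ω hω
    by_cases hA' : ω ∈ A
    · have : (fun n => v n ω) = fun _ => 0 := by
        ext n
        simp only [hv]
        rw [Set.indicator_of_notMem (by simpa using hA')]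
      rw [this]; exact tendsto_const_nhds
    · obtain ⟨hd, hd'⟩ := hω hA'
      have hZc : Continuous (fun t => a t ω - a' t ω) :=
        (continuous_sk (hK.cont ω)).sub (continuous_sk (hK'.cont ω))
      refine tendsto_const_nhds.congr' ?_
      filter_upwards [eventually_osc hZc 0 T (show 0 < 4 * γ by positivity)] with n hn
      have h1 := sumA hγ hΛ (a := fun i => a (gr 0 T n i) ω) (a' := fun i => a' (gr 0 T n i) ω)
        (n := fun i => N (gr 0 T n i) ω)
        (fun i j hij => sk_mono (hK.cont ω) (gr_mono 0 T n hij))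
        (fun i j hij => sk_mono (hK'.cont ω) (gr_mono 0 T n hij))
        (by simp only [gr_zero]; exact sk_zero hx (hK.zero ω))
        (by simp only [gr_zero]; exact sk_zero hx (hK'.zero ω)) (2^n)
        (fun i hi => (hn i hi _ _ (gr_mono 0 T n (Nat.le_succ i)) le_rfl le_rfl
          (gr_mono 0 T n (Nat.le_succ i))).le)
        (fun i hi => by
          have hiT : gr 0 T n i ≤ T := by have := gr_le 0 T (n := n) hi; rwa [zero_add] at this
          exact (compA hφ (hd _ hiT) (hd' _ hiT)).1)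
      have h2 := abelA (fun i => G (gr 0 T n i) ω) (fun i => N (gr 0 T n i) ω)
        (by simp only [gr_zero]; exact hN.zero ω) (2^n)
      simp only [gr_end, zero_add] at h1 h2
      have h3 : |U n ω| ≤ D ω := by
        simp only [hU, hS, hD]
        rw [h2]
        exact h1
      simp only [hv]
      rw [Set.indicator_of_mem (by simpa using hA'), max_eq_right (by linarith)]
  have hvlim : Tendsto (fun n => ∫ ω, |v n ω| ∂P) atTop (𝓝 0) :=
    (TZ.of_tendsto_ae (fun n => (hv2 n).1) hvz).integral_abs hv2 hvsq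
  -- the estimate for each n
  have hest : ∀ n, ∫ ω, G T ω * N T ω ∂P ≤ 5 / Λ * (∫ ω, (a T ω + a' T ω) ∂P)
      + (4 * (∫ ω, (N T ω)^2 ∂P) / κ + κ * P.real A) + ∫ ω, |v n ω| ∂P := by
    intro n
    rw [← hUint n]
    have hvi : Integrable (fun ω => |v n ω|) P := ((hv2 n).integrable (by norm_num)).abs
    have hUi : Integrable (U n) P := (hU2 n).integrable (by norm_num)
    have hind : Integrable (A.indicator (fun ω => |U n ω|)) P := hUi.abs.indicator hA
    calc ∫ ω, U n ω ∂P ≤ ∫ ω, ((D ω + A.indicator (fun ω => |U n ω|) ω) + |v n ω|) ∂P := by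
          refine integral_mono hUi ((hDint.add hind).add hvi) (fun ω => ?_)
          simp only
          by_cases hω : ω ∈ A
          · rw [Set.indicator_of_mem hω]
            have := hD0 ω
            have := le_abs_self (U n ω)
            have := abs_nonneg (v n ω)
            linarith
          · rw [Set.indicator_of_notMem hω]
            simp only [hv]
            rw [Set.indicator_of_mem (by simpa using hω)]
            have h1 := le_abs_self (U n ω)
            have h2 := le_max_left (|U n ω| - D ω) 0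
            have h3 := le_abs_self (max (|U n ω| - D ω) 0)
            linarith
      _ = ∫ ω, D ω ∂P + ∫ ω, A.indicator (fun ω => |U n ω|) ω ∂P + ∫ ω, |v n ω| ∂P := by
          have e1 := integral_add (μ := P) (f := fun ω => D ω + A.indicator (fun ω => |U n ω|) ω)
            (g := fun ω => |v n ω|) (hDint.add hind) hvi
          have e2 := integral_add (μ := P) (f := D) (g := A.indicator (fun ω => |U n ω|))
            hDint hind
          rw [e1, e2]
      _ ≤ _ := by
          have h1 := young_set (hU2 n) hA hκ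
          have h2 : (∫ ω, (U n ω)^2 ∂P) / κ ≤ 4 * (∫ ω, (N T ω)^2 ∂P) / κ := by
            gcongr; exact hUsq n
          have h3 : ∫ ω, D ω ∂P = 5 / Λ * (∫ ω, (a T ω + a' T ω) ∂P) := integral_const_mul _ _
          rw [h3]
          linarith
  have hlim := hvlim.const_add (5 / Λ * (∫ ω, (a T ω + a' T ω) ∂P)
      + (4 * (∫ ω, (N T ω)^2 ∂P) / κ + κ * P.real A))
  rw [add_zero] at hlim
  have := ge_of_tendsto' hlim hest
  linarith

end Pool.Agent.SkewBM
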