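import Pool.Agent.Lib.MP_e34d70_pr.LemmaA

open MeasureTheory Filter ProbabilityTheory
open scoped NNReal ENNReal Topology

namespace Pool.Agent.SkewBM

variable {Ω : Type*} {mΩ : MeasurableSpace Ω} {P : Measure Ω} {𝓕 : Filtration ℝ≥0 mΩ}
variable {K K' B : ℝ≥0 → Ω → ℝ}

theorem sk_mean [IsProbabilityMeasure P] (hK : Mart 𝓕 P K) {x₀ : ℝ} (hx : 0 ≤ x₀) {T : ℝ≥0}
    (hT : ∫ ω, (K T ω)^2 ∂P ≤ T) : ∫ ω, sk x₀ (fun u => K u ω) T ∂P ≤ (1 + 4 * T)/2 := by
  obtain ⟨h1, h2⟩ := hK.doob_sk T hx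
  have h3 : ∫ ω, sk x₀ (fun u => K u ω) T ∂P
      ≤ ∫ ω, (1 + (sk x₀ (fun u => K u ω) T)^2)/2 ∂P := by
    refine integral_mono (h1.integrable (by norm_num))
      (((integrable_const 1).add h1.integrable_sq).div_const 2) (fun ω => ?_)
    simp only
    nlinarith [sq_nonneg (sk x₀ (fun u => K u ω) T - 1)]
  rw [integral_div, integral_add (integrable_const 1) h1.integrable_sq] at h3
  simp only [integral_const, probReal_univ, smul_eq_mul, one_mul] at h3
  linarith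

theorem lemmaA [IsProbabilityMeasure P] (hK : Mart 𝓕 P K) (hK' : Mart 𝓕 P K')
    {φ : ℝ → ℝ} (hφ : ∀ x y, |φ x - φ y| ≤ |x - y|) {x₀ : ℝ} (hx : 0 ≤ x₀) {T : ℝ≥0}
    (hT : ∫ ω, (K T ω)^2 ∂P ≤ T) (hT' : ∫ ω, (K' T ω)^2 ∂P ≤ T)
    {γ η κ : ℝ} (hγ : 0 < γ) (hη : 4 * γ < η) (hκ : 0 < κ) {A : Set Ω} (hA : MeasurableSet A)
    (hdef : ∀ᵐ ω ∂P, ω ∉ A → Defect φ x₀ (fun u => B u ω) (fun u => K u ω) T γ ∧
      Defect φ x₀ (fun u => B u ω) (fun u => K' u ω) T γ) :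
    ∫ ω, |K' T ω - K T ω| ∂P
      ≤ 10 / Real.log (η/(4*γ)) * (1 + 4 * T) + 40 * T / κ + 4 * κ * P.real A
        + 2 * η + 4 * γ := by
  have hδ : 0 < 4 * γ := by positivity
  set Λ := Real.log (η/(4*γ)) with hΛdef
  have hΛ : 0 < Λ := Real.log_pos (by rw [lt_div_iff₀ hδ]; linarith)
  have h1 := halfA hK hK' hφ hx hγ hΛ hκ hA hdef
  have hdef' : ∀ᵐ ω ∂P, ω ∉ A → Defect φ x₀ (fun u => B u ω) (fun u => K' u ω) T γ ∧
      Defect φ x₀ (fun u => B u ω) (fun u => K u ω) T γ := by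
    filter_upwards [hdef] with ω hω h
    exact (hω h).symm
  have h2 := halfA hK' hK hφ hx hγ hΛ hκ hA hdef'
  have hN : Mart 𝓕 P (fun t ω => K' t ω - K t ω) := hK'.sub hK
  have hNi : Integrable (fun ω => K' T ω - K T ω) P := (hN.memLp T).integrable (by norm_num)
  have hNsq : ∫ ω, (K' T ω - K T ω)^2 ∂P ≤ 4 * T := by
    have h3 : ∫ ω, (K' T ω - K T ω)^2 ∂P ≤ ∫ ω, (2 * (K' T ω)^2 + 2 * (K T ω)^2) ∂P := by
      refine integral_mono (hN.memLp T).integrable_sq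
        (((hK'.memLp T).integrable_sq.const_mul 2).add ((hK.memLp T).integrable_sq.const_mul 2))
        (fun ω => ?_)
      simp only
      nlinarith [sq_nonneg (K' T ω + K T ω)]
    rw [integral_add ((hK'.memLp T).integrable_sq.const_mul 2)
      ((hK.memLp T).integrable_sq.const_mul 2), integral_const_mul, integral_const_mul] at h3
    linarith
  have hNsq' : ∫ ω, (K T ω - K' T ω)^2 ∂P ≤ 4 * T := by
    have : ∀ ω, (K T ω - K' T ω)^2 = (K' T ω - K T ω)^2 := fun ω => by ring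
    simp_rw [this]; exact hNsq
  have hs1 := sk_mean hK hx hT
  have hs2 := sk_mean hK' hx hT'
  obtain ⟨hm1, -⟩ := hK.doob_sk T hx
  obtain ⟨hm2, -⟩ := hK'.doob_sk T hx
  have hi1 : Integrable (fun ω => sk x₀ (fun u => K u ω) T) P := hm1.integrable (by norm_num)
  have hi2 : Integrable (fun ω => sk x₀ (fun u => K' u ω) T) P := hm2.integrable (by norm_num)
  have hsum : ∫ ω, (sk x₀ (fun u => K u ω) T + sk x₀ (fun u => K' u ω) T) ∂P ≤ 1 + 4 * T := by
    rw [integral_add hi1 hi2]; linarith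
  have hsum' : ∫ ω, (sk x₀ (fun u => K' u ω) T + sk x₀ (fun u => K u ω) T) ∂P ≤ 1 + 4 * T := by
    rw [integral_add hi2 hi1]; linarith
  set g1 : Ω → ℝ := fun ω =>
    Gf (4*γ) Λ (sk x₀ (fun u => K u ω) T - sk x₀ (fun u => K' u ω) T) * (K' T ω - K T ω) with hg1
  set g2 : Ω → ℝ := fun ω =>
    Gf (4*γ) Λ (sk x₀ (fun u => K' u ω) T - sk x₀ (fun u => K u ω) T) * (K T ω - K' T ω) with hg2
  have hskm : Measurable (fun ω => sk x₀ (fun u => K u ω) T) :=
    measurable_sk (fun s _ => hK.meas s) hK.cont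
  have hskm' : Measurable (fun ω => sk x₀ (fun u => K' u ω) T) :=
    measurable_sk (fun s _ => hK'.meas s) hK'.cont
  have hg1i : Integrable g1 P := by
    refine hNi.bdd_mul (Gf_measurable.comp (hskm.sub hskm')).aestronglyMeasurable
      (ae_of_all _ fun ω => ?_) (c := 1)
    exact abs_Gf_le _
  have hNi' : Integrable (fun ω => K T ω - K' T ω) P := by
    have : (fun ω => K T ω - K' T ω) = fun ω => -(K' T ω - K T ω) := by ext ω; ring
    rw [this]; exact hNi.neg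
  have hg2i : Integrable g2 P := by
    refine hNi'.bdd_mul (Gf_measurable.comp (hskm'.sub hskm)).aestronglyMeasurable
      (ae_of_all _ fun ω => ?_) (c := 1)
    exact abs_Gf_le _
  have hind : Integrable (A.indicator (fun ω => |K' T ω - K T ω|)) P := hNi.abs.indicator hA
  have hfin : ∫ ω, |K' T ω - K T ω| ∂P ≤ ∫ ω, (((g1 ω + g2 ω) + (2 * η + 4 * γ))
      + 2 * A.indicator (fun ω => |K' T ω - K T ω|) ω) ∂P := by
    refine integral_mono_ae hNi.abs
      (((hg1i.add hg2i).add (integrable_const _)).add (hind.const_mul 2)) ?_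
    filter_upwards [hdef] with ω hω
    by_cases hA' : ω ∈ A
    · rw [Set.indicator_of_mem hA']
      have e1 : -|K' T ω - K T ω| ≤ g1 ω + g2 ω := by
        simp only [hg1, hg2]
        set z := sk x₀ (fun u => K u ω) T - sk x₀ (fun u => K' u ω) T with hz
        have hz' : sk x₀ (fun u => K' u ω) T - sk x₀ (fun u => K u ω) T = -z := by rw [hz]; ring
        rw [hz']
        have hx1 : K T ω - K' T ω = -(K' T ω - K T ω) := by ring
        rw [hx1]
        set n := K' T ω - K T ω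
        have hG1 := abs_Gf_le (δ := 4*γ) (Λ := Λ) z
        have hG2 := abs_Gf_le (δ := 4*γ) (Λ := Λ) (-z)
        rcases le_total 0 z with h0 | h0
        · rw [Gf_zero hδ (show -z ≤ 4*γ by linarith), zero_mul, add_zero]
          have : |Gf (4*γ) Λ z * n| ≤ |n| := by
            rw [abs_mul]
            calc _ ≤ 1 * |n| := by gcongr
              _ = |n| := one_mul _
          linarith [neg_abs_le (Gf (4*γ) Λ z * n)]
        · rw [Gf_zero hδ (show z ≤ 4*γ by linarith), zero_mul, zero_add]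
          have : |Gf (4*γ) Λ (-z) * (-n)| ≤ |n| := by
            rw [abs_mul, abs_neg]
            calc _ ≤ 1 * |n| := by gcongr
              _ = |n| := one_mul _
          linarith [neg_abs_le (Gf (4*γ) Λ (-z) * (-n))]
      have : 0 < η := hδ.trans hη
      linarith
    · rw [Set.indicator_of_notMem hA']
      obtain ⟨hd, hd'⟩ := hω hA'
      obtain ⟨c1, c2, c3⟩ := compA hφ (hd T le_rfl) (hd' T le_rfl)
      have h5 := finalA hγ hη c1 c2 c3
      simp only [hg1, hg2]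
      have e1 : sk x₀ (fun u => K' u ω) T - sk x₀ (fun u => K u ω) T
          = -(sk x₀ (fun u => K u ω) T - sk x₀ (fun u => K' u ω) T) := by ring
      have e2 : K T ω - K' T ω = -(K' T ω - K T ω) := by ring
      rw [e1, e2]
      linarith
  have hval : ∫ ω, (((g1 ω + g2 ω) + (2 * η + 4 * γ))
      + 2 * A.indicator (fun ω => |K' T ω - K T ω|) ω) ∂P
      = ∫ ω, g1 ω ∂P + ∫ ω, g2 ω ∂P + (2 * η + 4 * γ)
        + 2 * ∫ ω, A.indicator (fun ω => |K' T ω - K T ω|) ω ∂P := by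
    have e1 := integral_add (μ := P) (f := fun ω => (g1 ω + g2 ω) + (2 * η + 4 * γ))
      (g := fun ω => 2 * A.indicator (fun ω => |K' T ω - K T ω|) ω)
      ((hg1i.add hg2i).add (integrable_const _)) (hind.const_mul 2)
    have e2 := integral_add (μ := P) (f := fun ω => g1 ω + g2 ω)
      (g := fun _ => 2 * η + 4 * γ) (hg1i.add hg2i) (integrable_const _)
    rw [e1, e2, integral_add hg1i hg2i, integral_const_mul]
    simp
  have hy := young_set (hN.memLp T) hA hκ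
  have hq1 : 5 / Λ * (∫ ω, (sk x₀ (fun u => K u ω) T + sk x₀ (fun u => K' u ω) T) ∂P)
      ≤ 5 / Λ * (1 + 4 * T) := mul_le_mul_of_nonneg_left hsum (by positivity)
  have hq2 : 5 / Λ * (∫ ω, (sk x₀ (fun u => K' u ω) T + sk x₀ (fun u => K u ω) T) ∂P)
      ≤ 5 / Λ * (1 + 4 * T) := mul_le_mul_of_nonneg_left hsum' (by positivity)
  have hq3 : 4 * (∫ ω, (K' T ω - K T ω)^2 ∂P) / κ ≤ 4 * (4 * T) / κ := by gcongr
  have hq4 : 4 * (∫ ω, (K T ω - K' T ω)^2 ∂P) / κ ≤ 4 * (4 * T) / κ := by gcongr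
  have hq5 : (∫ ω, (K' T ω - K T ω)^2 ∂P) / κ ≤ (4 * T) / κ := by gcongr
  have e3 : 40 * (T:ℝ) / κ = 4 * (4 * T) / κ + 4 * (4 * T)/κ + 2 * ((4 * T)/κ) := by ring
  have e4 : 10 / Λ * (1 + 4 * (T:ℝ)) = 5 / Λ * (1 + 4 * T) + 5/Λ * (1 + 4 * T) := by ring
  rw [hval] at hfin
  rw [e3, e4]
  linarith

/-- consequence: smallness -/
theorem lemmaA_eps (T : ℝ≥0) {ε : ℝ} (hε : 0 < ε) :
    ∃ γ : ℝ, 0 < γ ∧ ∃ p : ℝ, 0 < p ∧ ∀ {Ω : Type*} {mΩ : MeasurableSpace Ω} {P : Measure Ω}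
      [IsProbabilityMeasure P] {𝓕 : Filtration ℝ≥0 mΩ} {K K' B : ℝ≥0 → Ω → ℝ},
      Mart 𝓕 P K → Mart 𝓕 P K' → ∀ {φ : ℝ → ℝ}, (∀ x y, |φ x - φ y| ≤ |x - y|) →
      ∀ {x₀ : ℝ}, 0 ≤ x₀ → ∫ ω, (K T ω)^2 ∂P ≤ T → ∫ ω, (K' T ω)^2 ∂P ≤ T →
      ∀ {A : Set Ω}, MeasurableSet A → P.real A ≤ p →
      (∀ᵐ ω ∂P, ω ∉ A → Defect φ x₀ (fun u => B u ω) (fun u => K u ω) T γ ∧
        Defect φ x₀ (fun u => B u ω) (fun u => K' u ω) T γ) →
      ∫ ω, |K' T ω - K T ω| ∂P ≤ ε := by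
  -- choose the parameters
  set η : ℝ := ε / 10 with hη
  have hηpos : 0 < η := by positivity
  set M : ℝ := 50 * (1 + 4 * T) / ε with hM
  have hMpos : 0 < M := by positivity
  set γ : ℝ := η / (4 * Real.exp M) with hγ
  have hexp : 1 < Real.exp M := Real.one_lt_exp_iff.mpr hMpos
  have hγpos : 0 < γ := by positivity
  have h4γ : 4 * γ = η / Real.exp M := by rw [hγ]; field_simp
  have h4γη : 4 * γ < η := by
    rw [h4γ, div_lt_iff₀ (by positivity)]
    nlinarith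
  have hlog : Real.log (η/(4*γ)) = M := by
    rw [h4γ]
    have : η / (η / Real.exp M) = Real.exp M := by field_simp
    rw [this, Real.log_exp]
  set κ : ℝ := 200 * (T + 1) / ε with hκ
  have hκpos : 0 < κ := by positivity
  refine ⟨γ, hγpos, ε / (20 * κ), by positivity, ?_⟩
  intro Ω mΩ P _ 𝓕 K K' B hK hK' φ hφ x₀ hx hT hT' A hA hPA hdef
  have h1 := lemmaA hK hK' hφ hx hT hT' hγpos h4γη hκpos hA hdef
  rw [hlog] at h1
  have t1 : 10 / M * (1 + 4 * (T:ℝ)) = ε / 5 := by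
    rw [hM]; field_simp; ring
  have t2 : 40 * (T:ℝ) / κ ≤ ε / 5 := by
    rw [hκ, div_le_iff₀ (by positivity)]
    have : ε / 5 * (200 * ((T:ℝ) + 1) / ε) = 40 * (T + 1) := by field_simp; ring
    rw [this]; linarith
  have t3 : 4 * κ * P.real A ≤ ε / 5 := by
    calc 4 * κ * P.real A ≤ 4 * κ * (ε / (20 * κ)) := by gcongr
      _ = ε / 5 := by field_simp; ring
  have t4 : 2 * η = ε / 5 := by rw [hη]; ring
  have t5 : 4 * γ ≤ ε / 10 := h4γη.le
  linarith

end Pool.Agent.SkewBM
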