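import Mathlib

open MeasureTheory Filter ProbabilityTheory
open scoped NNReal ENNReal Topology

namespace Pool.Agent.SkewBM

/-- running supremum -/
noncomputable def supOn (f : ℝ≥0 → ℝ) (T : ℝ≥0) : ℝ := sSup (f '' Set.Iic T)

theorem isCompact_Iic' (T : ℝ≥0) : IsCompact (Set.Iic T) := by
  have : Set.Iic T = Set.Icc 0 T := by ext x; simp
  rw [this]; exact isCompact_Icc

theorem bddAbove_image {f : ℝ≥0 → ℝ} (hf : Continuous f) (T : ℝ≥0) : BddAbove (f '' Set.Iic T) :=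
  ((isCompact_Iic' T).image hf).bddAbove

theorem le_supOn {f : ℝ≥0 → ℝ} (hf : Continuous f) {s T : ℝ≥0} (hs : s ≤ T) : f s ≤ supOn f T :=
  le_csSup (bddAbove_image hf T) ⟨s, hs, rfl⟩

theorem exists_supOn {f : ℝ≥0 → ℝ} (hf : Continuous f) (T : ℝ≥0) : ∃ s ≤ T, f s = supOn f T := by
  obtain ⟨s, hs, h⟩ := ((isCompact_Iic' T).image hf).sSup_mem ⟨_, T, Set.mem_Iic.mpr le_rfl, rfl⟩
  exact ⟨s, hs, h⟩

theorem supOn_le {f : ℝ≥0 → ℝ} {T : ℝ≥0} {c : ℝ} (h : ∀ s ≤ T, f s ≤ c) : supOn f T ≤ c := by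
  refine csSup_le ⟨_, T, Set.mem_Iic.mpr le_rfl, rfl⟩ ?_
  rintro _ ⟨s, hs, rfl⟩
  exact h s hs

theorem supOn_mono {f : ℝ≥0 → ℝ} (hf : Continuous f) {S T : ℝ≥0} (h : S ≤ T) :
    supOn f S ≤ supOn f T :=
  supOn_le (fun _ hs => le_supOn hf (hs.trans h))

theorem supOn_le_add {f g : ℝ≥0 → ℝ} (hg : Continuous g) {T : ℝ≥0} {c : ℝ}
    (h : ∀ s ≤ T, f s ≤ g s + c) : supOn f T ≤ supOn g T + c :=
  supOn_le (fun s hs => (h s hs).trans (by linarith [le_supOn hg hs]))

theorem abs_supOn_sub_le {f g : ℝ≥0 → ℝ} (hf : Continuous f) (hg : Continuous g)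
    {T : ℝ≥0} {c : ℝ} (h : ∀ s ≤ T, |f s - g s| ≤ c) : |supOn f T - supOn g T| ≤ c := by
  rw [abs_le]
  constructor
  · have := supOn_le_add (f := g) (g := f) hf (T := T) (c := c)
      (fun s hs => by have := abs_le.mp (h s hs); linarith [this.1])
    linarith
  · have := supOn_le_add (f := f) (g := g) hg (T := T) (c := c)
      (fun s hs => by have := abs_le.mp (h s hs); linarith [this.2])
    linarith

theorem supOn_zero (f : ℝ≥0 → ℝ) : supOn f 0 = f 0 := by
  have : Set.Iic (0:ℝ≥0) = {0} := by ext x; simp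
  rw [supOn, this, Set.image_singleton, csSup_singleton]

/-- local oscillation bound -/
theorem exists_delta {f : ℝ≥0 → ℝ} (hf : Continuous f) (T : ℝ≥0) {ε : ℝ} (hε : 0 < ε) :
    ∃ δ : ℝ≥0, 0 < δ ∧ ∀ u ≤ T, ∀ v ≤ T, u ≤ v + δ → v ≤ u + δ → |f u - f v| < ε := by
  have huc := (isCompact_Iic' T).uniformContinuousOn_of_continuous hf.continuousOn
  rw [Metric.uniformContinuousOn_iff] at huc
  obtain ⟨δ, hδ, h⟩ := huc ε hε
  have hco : ((Real.toNNReal (δ/2) : ℝ≥0) : ℝ) = δ / 2 := Real.coe_toNNReal _ (by positivity)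
  refine ⟨Real.toNNReal (δ/2), ?_, ?_⟩
  · rw [Real.toNNReal_pos]; positivity
  · intro u hu v hv h1 h2
    have := h u hu v hv ?_
    · rwa [Real.dist_eq] at this
    · rw [NNReal.dist_eq, abs_lt]
      have h1' : (u:ℝ) ≤ v + δ/2 := by rw [← hco]; exact_mod_cast h1
      have h2' : (v:ℝ) ≤ u + δ/2 := by rw [← hco]; exact_mod_cast h2
      constructor <;> linarith

theorem supOn_le_of_osc {f : ℝ≥0 → ℝ} (hf : Continuous f) {S T : ℝ≥0} {ε : ℝ}
    (hε : 0 ≤ ε)
    (h : ∀ u, S ≤ u → u ≤ T → f u ≤ f S + ε) : supOn f T ≤ supOn f S + ε := by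
  refine supOn_le (fun s hs => ?_)
  rcases le_total s S with h1 | h1
  · linarith [le_supOn hf h1]
  · linarith [h s h1 hs, le_supOn hf (le_refl S)]

theorem continuous_supOn {f : ℝ≥0 → ℝ} (hf : Continuous f) : Continuous (fun T => supOn f T) := by
  rw [Metric.continuous_iff]
  intro T ε hε
  obtain ⟨δ, hδ, h⟩ := exists_delta hf (T+1) (half_pos hε)
  refine ⟨min δ 1, by positivity, fun S hS => ?_⟩
  rw [NNReal.dist_eq, abs_lt] at hS
  have hδ1 : ((min (δ:ℝ) 1 : ℝ)) ≤ δ := min_le_left _ _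
  have hδ2 : ((min (δ:ℝ) 1 : ℝ)) ≤ 1 := min_le_right _ _
  have hS1 : S ≤ T + δ := by rw [← NNReal.coe_le_coe]; push_cast; linarith
  have hS2 : T ≤ S + δ := by rw [← NNReal.coe_le_coe]; push_cast; linarith
  have hS3 : S ≤ T + 1 := by rw [← NNReal.coe_le_coe]; push_cast; linarith
  rw [Real.dist_eq]
  rcases le_total S T with hc | hc
  · have h1 := supOn_mono hf hc
    have h2 := supOn_le_of_osc hf (half_pos hε).le (fun u hu1 hu2 => by
      have := h u (hu2.trans (le_add_of_nonneg_right zero_le_one)) S hS3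
        (hu2.trans hS2) (hu1.trans (le_add_of_nonneg_right hδ.le))
      linarith [(abs_lt.mp this).2])
    rw [abs_lt]; constructor <;> linarith
  · have h1 := supOn_mono hf hc
    have h2 := supOn_le_of_osc hf (half_pos hε).le (fun u hu1 hu2 => by
      have := h u (hu2.trans hS3) T (le_add_of_nonneg_right zero_le_one)
        (hu2.trans hS1) (hu1.trans (le_add_of_nonneg_right hδ.le))
      linarith [(abs_lt.mp this).2])
    rw [abs_lt]; constructor <;> linarith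

theorem range_ne (n : ℕ) : (Finset.range (2^n+1)).Nonempty := ⟨0, by simp⟩

/-- dyadic maximum -/
noncomputable def gmd (f : ℝ≥0 → ℝ) (T : ℝ≥0) (n : ℕ) : ℝ :=
  (Finset.range (2^n+1)).sup' (range_ne n) (fun i => f ((i:ℝ≥0) * (T / 2^n)))

theorem grid_le {T : ℝ≥0} {n i : ℕ} (hi : i ≤ 2^n) : (i:ℝ≥0) * (T / 2^n) ≤ T := by
  have h2 : (0:ℝ≥0) < 2^n := by positivity
  calc (i:ℝ≥0) * (T / 2^n) ≤ (2^n : ℝ≥0) * (T/2^n) := by
        gcongr; exact_mod_cast hi
    _ = T := by field_simp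

theorem gmd_le_supOn {f : ℝ≥0 → ℝ} (hf : Continuous f) (T : ℝ≥0) (n : ℕ) :
    gmd f T n ≤ supOn f T := by
  refine Finset.sup'_le _ _ (fun i hi => ?_)
  refine le_supOn hf (grid_le ?_)
  have := Finset.mem_range.mp hi; omega

theorem le_gmd (f : ℝ≥0 → ℝ) (T : ℝ≥0) {n i : ℕ} (hi : i ≤ 2^n) :
    f ((i:ℝ≥0) * (T / 2^n)) ≤ gmd f T n :=
  Finset.le_sup' (f := fun i : ℕ => f ((i:ℝ≥0) * (T / 2^n))) (Finset.mem_range.mpr (by omega))

theorem gmd_mono (f : ℝ≥0 → ℝ) (T : ℝ≥0) : Monotone (fun n => gmd f T n) := by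
  refine monotone_nat_of_le_succ (fun n => ?_)
  refine Finset.sup'_le _ _ (fun i hi => ?_)
  have h := Finset.mem_range.mp hi
  have h1 : ((2 * i : ℕ) : ℝ≥0) * (T / 2^(n+1)) = (i:ℝ≥0) * (T / 2^n) := by
    push_cast
    rw [pow_succ]
    field_simp
  rw [← h1]
  exact le_gmd f T (by rw [pow_succ]; omega)

theorem exists_grid_near (T s : ℝ≥0) (hs : s ≤ T) (n : ℕ) :
    ∃ i : ℕ, i ≤ 2^n ∧ (i:ℝ≥0) * (T/2^n) ≤ s ∧ s ≤ (i:ℝ≥0) * (T/2^n) + T/2^n := by
  rcases eq_or_ne T 0 with hT | hT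
  · subst hT
    have : s = 0 := le_antisymm hs zero_le
    subst this
    exact ⟨0, by simp, by simp, by simp⟩
  · have hTn : (0:ℝ≥0) < T / 2^n := by positivity
    refine ⟨⌊s / (T/2^n)⌋₊, ?_, ?_, ?_⟩
    · have h1 : s / (T/2^n) ≤ ((2^n : ℕ):ℝ≥0) := by
        rw [div_le_iff₀ hTn]
        push_cast
        rw [mul_div_cancel₀]
        · exact hs
        · positivity
      have := Nat.floor_le_of_le h1
      exact this
    · have := Nat.floor_le (zero_le (a := s / (T/2^n)))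
      calc _ ≤ s / (T/2^n) * (T/2^n) := by gcongr
        _ = s := by field_simp
    · have := (Nat.lt_floor_add_one (s / (T/2^n))).le
      calc s = s / (T/2^n) * (T/2^n) := by field_simp
        _ ≤ (⌊s / (T/2^n)⌋₊ + 1) * (T/2^n) := by gcongr
        _ = _ := by ring

theorem tendsto_mesh (T : ℝ≥0) : Tendsto (fun n : ℕ => T / 2^n) atTop (𝓝 0) := by
  have h : Tendsto (fun n : ℕ => ((2:ℝ≥0)⁻¹)^n) atTop (𝓝 0) :=
    NNReal.tendsto_pow_atTop_nhds_zero_of_lt_one (by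
      rw [← NNReal.coe_lt_coe]; push_cast; norm_num)
  have h2 := h.const_mul T
  rw [mul_zero] at h2
  refine h2.congr (fun n => ?_)
  rw [inv_pow, div_eq_mul_inv]

theorem tendsto_gmd {f : ℝ≥0 → ℝ} (hf : Continuous f) (T : ℝ≥0) :
    Tendsto (fun n => gmd f T n) atTop (𝓝 (supOn f T)) := by
  rw [Metric.tendsto_atTop]
  intro ε hε
  obtain ⟨δ, hδ, h⟩ := exists_delta hf T hε
  obtain ⟨s, hs, hsup⟩ := exists_supOn hf T
  have h1 := (tendsto_mesh T).eventually (gt_mem_nhds hδ)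
  obtain ⟨N, hN⟩ := eventually_atTop.mp h1
  refine ⟨N, fun n hn => ?_⟩
  obtain ⟨i, hi1, hi2, hi3⟩ := exists_grid_near T s hs n
  have h2 := h _ (grid_le hi1) s hs (hi2.trans (le_add_of_nonneg_right hδ.le))
    (hi3.trans (by gcongr; exact (hN n hn).le))
  have h3 := le_gmd f T hi1
  have h4 := gmd_le_supOn hf T n
  have h5 := abs_lt.mp h2
  rw [Real.dist_eq, abs_lt]
  constructor <;> linarith

theorem measurable_gmd {Ω : Type*} {𝓖 : MeasurableSpace Ω} {K : ℝ≥0 → Ω → ℝ} {T : ℝ≥0}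
    (hK : ∀ s ≤ T, Measurable[𝓖] (K s)) (n : ℕ) :
    Measurable[𝓖] (fun ω => gmd (fun s => K s ω) T n) := by
  unfold gmd
  have : (fun ω => (Finset.range (2^n+1)).sup' (range_ne n)
      (fun i => K ((i:ℝ≥0) * (T / 2^n)) ω))
      = (Finset.range (2^n+1)).sup' (range_ne n) (fun i : ℕ => K ((i:ℝ≥0) * (T / 2^n))) := by
    ext ω; rw [Finset.sup'_apply]
  rw [this]
  refine Finset.measurable_sup' _ (fun i hi => hK _ (grid_le ?_))
  have := Finset.mem_range.mp hi; omega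

theorem measurable_supOn {Ω : Type*} {𝓖 : MeasurableSpace Ω} {K : ℝ≥0 → Ω → ℝ} {T : ℝ≥0}
    (hK : ∀ s ≤ T, Measurable[𝓖] (K s)) (hc : ∀ ω, Continuous (fun s => K s ω)) :
    Measurable[𝓖] (fun ω => supOn (fun s => K s ω) T) := by
  refine measurable_of_tendsto_metrizable (f := fun n ω => gmd (fun s => K s ω) T n)
    (fun n => measurable_gmd hK n) ?_
  rw [tendsto_pi_nhds]
  exact fun ω => tendsto_gmd (hc ω) T

/-- The Skorokhod reflection term. -/
noncomputable def sk (x₀ : ℝ) (k : ℝ≥0 → ℝ) (t : ℝ≥0) : ℝ :=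
  supOn (fun s => max 0 (-x₀ - k s)) t

section sk
variable {x₀ : ℝ} {k k' : ℝ≥0 → ℝ}

theorem cont_aux (hk : Continuous k) : Continuous (fun s => max 0 (-x₀ - k s)) := by fun_prop

theorem sk_nonneg (hk : Continuous k) (t : ℝ≥0) : 0 ≤ sk x₀ k t :=
  (le_max_left 0 (-x₀ - k t)).trans (le_supOn (cont_aux hk) le_rfl)

theorem sk_mono (hk : Continuous k) {s t : ℝ≥0} (h : s ≤ t) : sk x₀ k s ≤ sk x₀ k t :=
  supOn_mono (cont_aux hk) h

theorem continuous_sk (hk : Continuous k) : Continuous (fun t => sk x₀ k t) :=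
  continuous_supOn (cont_aux hk)

theorem sk_zero (hx : 0 ≤ x₀) (h0 : k 0 = 0) : sk x₀ k 0 = 0 := by
  rw [sk, supOn_zero, h0]
  simp [hx]

theorem le_sk (hk : Continuous k) {s t : ℝ≥0} (h : s ≤ t) : -x₀ - k s ≤ sk x₀ k t :=
  (le_max_right 0 (-x₀ - k s)).trans (le_supOn (cont_aux hk) h)

theorem refl_nonneg (hk : Continuous k) (t : ℝ≥0) : 0 ≤ x₀ + k t + sk x₀ k t := by
  have := le_sk (x₀ := x₀) hk (le_refl t); linarith

theorem sk_le {t : ℝ≥0} {c : ℝ} (hc : 0 ≤ c) (h : ∀ s ≤ t, -x₀ - k s ≤ c) : sk x₀ k t ≤ c :=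
  supOn_le (fun s hs => max_le hc (h s hs))

theorem abs_sk_sub_le (hk : Continuous k) (hk' : Continuous k') {t : ℝ≥0} {c : ℝ}
    (h : ∀ s ≤ t, |k s - k' s| ≤ c) : |sk x₀ k t - sk x₀ k' t| ≤ c := by
  refine abs_supOn_sub_le (cont_aux hk) (cont_aux hk') (fun s hs => ?_)
  refine (abs_max_sub_max_le_max _ _ _ _).trans ?_
  simp only [sub_self, abs_zero]
  refine max_le ((abs_nonneg _).trans (h s hs)) ?_
  have : -x₀ - k s - (-x₀ - k' s) = -(k s - k' s) := by ring
  rw [this, abs_neg]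
  exact h s hs

/-- the reflection term is constant where the reflected path is positive -/
theorem sk_flat (hk : Continuous k) {s t : ℝ≥0} (hst : s ≤ t)
    (h : ∀ u, s ≤ u → u ≤ t → x₀ + k u + sk x₀ k u ≠ 0) : sk x₀ k t = sk x₀ k s := by
  refine le_antisymm ?_ (sk_mono hk hst)
  by_contra hcon
  push Not at hcon
  obtain ⟨u, hu, hval⟩ := exists_supOn (cont_aux (x₀ := x₀) hk) t
  have hval' : max 0 (-x₀ - k u) = sk x₀ k t := hval
  rcases le_total u s with h1 | h1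
  · have h2 : max 0 (-x₀ - k u) ≤ sk x₀ k s := le_supOn (cont_aux hk) h1
    linarith
  · have h2 : 0 < max 0 (-x₀ - k u) := by
      rw [hval']; exact lt_of_le_of_lt (sk_nonneg hk s) hcon
    have h3 : max 0 (-x₀ - k u) = -x₀ - k u := by
      rcases le_total 0 (-x₀ - k u) with h4 | h4
      · exact max_eq_right h4
      · rw [max_eq_left h4] at h2; exact absurd h2 (lt_irrefl _)
    have h5 := refl_nonneg (x₀ := x₀) hk u
    have h6 : sk x₀ k u ≤ sk x₀ k t := sk_mono hk hu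
    exact h u h1 hu (by linarith)

/-- Skorokhod's lemma -/
theorem eq_sk_of_flat (hk : Continuous k)
    {l : ℝ≥0 → ℝ} (hl : Continuous l) (hl0 : l 0 = 0)
    (hlm : Monotone l) (hpos : ∀ t, 0 ≤ x₀ + k t + l t)
    (hflat : ∀ s t, s ≤ t → (∀ u, s ≤ u → u ≤ t → x₀ + k u + l u ≠ 0) → l t = l s) (t : ℝ≥0) :
    l t = sk x₀ k t := by
  refine le_antisymm ?_ ?_
  · by_cases hz : ∃ u ≤ t, x₀ + k u + l u = 0
    · -- last zero before `t`
      set Z : Set ℝ≥0 := {u | u ≤ t ∧ x₀ + k u + l u = 0} with hZ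
      have hZc : IsCompact Z := by
        have hcl : IsClosed Z := by
          refine IsClosed.inter isClosed_Iic (isClosed_eq ?_ continuous_const)
          exact (continuous_const.add hk).add hl
        refine (isCompact_Iic' t).of_isClosed_subset hcl (fun u hu => hu.1)
      obtain ⟨u0, hu0, hu0'⟩ := hz
      have hne : Z.Nonempty := ⟨u0, hu0, hu0'⟩
      have hmem := hZc.sSup_mem hne
      set s := sSup Z with hs
      have hlast : ∀ u, s < u → u ≤ t → x₀ + k u + l u ≠ 0 := by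
        intro u hu1 hu2 h0
        have := le_csSup hZc.bddAbove (show u ∈ Z from ⟨hu2, h0⟩)
        exact absurd hu1 (not_lt.mpr this)
      have hls : l t = l s := by
        rcases eq_or_lt_of_le hmem.1 with h1 | h1
        · rw [h1]
        · have hconst : ∀ u, s < u → u ≤ t → l u = l t := by
            intro u hu1 hu2
            exact (hflat u t hu2 (fun v hv1 hv2 => hlast v (lt_of_lt_of_le hu1 hv1) hv2)).symm
          have htend : Tendsto l (𝓝[>] s) (𝓝 (l s)) := hl.continuousAt.mono_left nhdsWithin_le_nhds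
          have hev : ∀ᶠ u in 𝓝[>] s, l u = l t := by
            filter_upwards [Ioc_mem_nhdsGT h1] with u hu
            exact hconst u hu.1 hu.2
          have : Tendsto l (𝓝[>] s) (𝓝 (l t)) := tendsto_const_nhds.congr' (by
            filter_upwards [hev] with u hu; exact hu.symm)
          exact tendsto_nhds_unique this htend
      rw [hls]
      have h2 := hmem.2
      have h3 := le_sk (x₀ := x₀) hk hmem.1
      linarith
    · push Not at hz
      rw [hflat 0 t zero_le (fun u _ hu => hz u hu), hl0]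
      exact sk_nonneg hk t
  · refine sk_le ?_ (fun s hs => ?_)
    · rw [← hl0]; exact hlm zero_le
    · have h1 := hpos s
      have h2 := hlm hs
      linarith

end sk

theorem measurable_sk {Ω : Type*} {𝓖 : MeasurableSpace Ω} {K : ℝ≥0 → Ω → ℝ} {T : ℝ≥0} {x₀ : ℝ}
    (hK : ∀ s ≤ T, Measurable[𝓖] (K s)) (hc : ∀ ω, Continuous (fun s => K s ω)) :
    Measurable[𝓖] (fun ω => sk x₀ (fun s => K s ω) T) := by
  unfold sk
  exact measurable_supOn (K := fun s ω => max 0 (-x₀ - K s ω))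
    (fun s hs => measurable_const.max (measurable_const.sub (hK s hs)))
    (fun ω => cont_aux (hc ω))

end Pool.Agent.SkewBM
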