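import Pool.Agent.Lib.MP_e34d70_pr.OSum
import Pool.Agent.Lib.MP_e34d70_pr.Path

open MeasureTheory Filter ProbabilityTheory
open scoped NNReal ENNReal Topology

namespace Pool.Agent.SkewBM

variable {Ω : Type*} {mΩ : MeasurableSpace Ω} {P : Measure Ω} {𝓕 : Filtration ℝ≥0 mΩ}

/-- continuous square integrable martingale started at zero -/
structure Mart (𝓕 : Filtration ℝ≥0 mΩ) (P : Measure Ω) (K : ℝ≥0 → Ω → ℝ) : Prop where
  adapted : ∀ t, Measurable[𝓕 t] (K t)
  cont : ∀ ω, Continuous (fun t => K t ω)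
  zero : ∀ ω, K 0 ω = 0
  memLp : ∀ t, MemLp (K t) 2 P
  orth : ∀ s t, s ≤ t → ∀ ξ : Ω → ℝ, Measurable[𝓕 s] ξ → (∀ ω, |ξ ω| ≤ 1) →
    ∫ ω, ξ ω * (K t ω - K s ω) ∂P = 0

namespace Mart

variable {K K' : ℝ≥0 → Ω → ℝ}

theorem meas (h : Mart 𝓕 P K) (t : ℝ≥0) : Measurable (K t) := (h.adapted t).mono (𝓕.le t) le_rfl

theorem meas_le (h : Mart 𝓕 P K) {s t : ℝ≥0} (hst : s ≤ t) : Measurable[𝓕 t] (K s) :=
  (h.adapted s).mono (𝓕.mono hst) le_rfl

theorem inc (h : Mart 𝓕 P K) {s t : ℝ≥0} (hst : s ≤ t) :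
    MInc (𝓕 s) P (fun ω => K t ω - K s ω) (∫ ω, (K t ω - K s ω)^2 ∂P) :=
  ⟨(h.memLp t).sub (h.memLp s), le_rfl, h.orth s t hst⟩

theorem sq_sub [IsProbabilityMeasure P] (h : Mart 𝓕 P K) {s t : ℝ≥0} (hst : s ≤ t) :
    ∫ ω, (K t ω - K s ω)^2 ∂P = ∫ ω, (K t ω)^2 ∂P - ∫ ω, (K s ω)^2 ∂P := by
  have h1 := (h.inc hst).sq_add (𝓕.le s) (h.adapted s) (h.memLp s)
  have h2 : ∀ ω, K s ω + (K t ω - K s ω) = K t ω := fun ω => by ring
  simp_rw [h2] at h1
  linarith

theorem sq_mono [IsProbabilityMeasure P] (h : Mart 𝓕 P K) {s t : ℝ≥0} (hst : s ≤ t) :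
    ∫ ω, (K s ω)^2 ∂P ≤ ∫ ω, (K t ω)^2 ∂P := by
  have := h.sq_sub hst
  have h2 : 0 ≤ ∫ ω, (K t ω - K s ω)^2 ∂P := integral_nonneg (fun ω => sq_nonneg _)
  linarith

theorem sub [IsProbabilityMeasure P] (h : Mart 𝓕 P K) (h' : Mart 𝓕 P K') :
    Mart 𝓕 P (fun t ω => K t ω - K' t ω) where
  adapted t := (h.adapted t).sub (h'.adapted t)
  cont ω := (h.cont ω).sub (h'.cont ω)
  zero ω := by simp [h.zero, h'.zero]
  memLp t := (h.memLp t).sub (h'.memLp t)
  orth s t hst ξ hξ hb := by
    have hξ' : AEStronglyMeasurable ξ P := (hξ.mono (𝓕.le s) le_rfl).aestronglyMeasurable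
    have e : ∀ ω, ξ ω * (K t ω - K' t ω - (K s ω - K' s ω))
        = ξ ω * (K t ω - K s ω) - ξ ω * (K' t ω - K' s ω) := fun ω => by ring
    simp_rw [e]
    rw [integral_sub (integrable_mul_bdd hξ' hb (h.inc hst).integrable)
      (integrable_mul_bdd hξ' hb (h'.inc hst).integrable), h.orth s t hst ξ hξ hb,
      h'.orth s t hst ξ hξ hb, sub_zero]

theorem neg (h : Mart 𝓕 P K) : Mart 𝓕 P (fun t ω => - K t ω) where
  adapted t := (h.adapted t).neg
  cont ω := (h.cont ω).neg
  zero ω := by simp [h.zero]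
  memLp t := (h.memLp t).neg
  orth s t hst ξ hξ hb := by
    have e : ∀ ω, ξ ω * (- K t ω - (- K s ω)) = - (ξ ω * (K t ω - K s ω)) := fun ω => by ring
    simp_rw [e]
    rw [integral_neg, h.orth s t hst ξ hξ hb, neg_zero]

theorem add [IsProbabilityMeasure P] (h : Mart 𝓕 P K) (h' : Mart 𝓕 P K') :
    Mart 𝓕 P (fun t ω => K t ω + K' t ω) := by
  have := h.sub h'.neg
  simpa using this

/-- discrete stochastic integral against a martingale -/
theorem gsum [IsProbabilityMeasure P] (h : Mart 𝓕 P K) {u : ℕ → ℝ≥0} (hu : Monotone u)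
    {H : ℕ → Ω → ℝ} {C : ℝ} (hH : ∀ i, Measurable[𝓕 (u i)] (H i)) (hb : ∀ i ω, |H i ω| ≤ C)
    (N : ℕ) :
    MInc (𝓕 (u 0)) P (fun ω => ∑ i ∈ Finset.range N, H i ω * (K (u (i+1)) ω - K (u i) ω))
      (C^2 * (∫ ω, (K (u N) ω)^2 ∂P - ∫ ω, (K (u 0) ω)^2 ∂P)) := by
  obtain ⟨h1, h2, h3, h4⟩ := osum (𝓖 := fun i => 𝓕 (u i)) (fun i => 𝓕.le _)
    (fun i j hij => 𝓕.mono (hu hij)) (D := fun i ω => K (u (i+1)) ω - K (u i) ω)
    (fun i => h.inc (hu (Nat.le_succ i)))
    (fun i => (h.adapted _).sub (h.meas_le (hu (Nat.le_succ i)))) hH hb N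
  refine ⟨h2, ?_, h3⟩
  rw [h4]
  have h5 : ∀ i ∈ Finset.range N, ∫ ω, (H i ω * (K (u (i+1)) ω - K (u i) ω))^2 ∂P
      ≤ C^2 * (∫ ω, (K (u (i+1)) ω)^2 ∂P - ∫ ω, (K (u i) ω)^2 ∂P) := by
    intro i _
    rw [← h.sq_sub (hu (Nat.le_succ i))]
    exact ((h.inc (hu (Nat.le_succ i))).bdd_mul (𝓕.le _) (hH i) (hb i)).sq_le
  refine (Finset.sum_le_sum h5).trans ?_
  rw [← Finset.mul_sum, Finset.sum_range_sub (fun i => ∫ ω, (K (u i) ω)^2 ∂P)]

/-- sum of squares of increments -/
theorem sum_sq [IsProbabilityMeasure P] (h : Mart 𝓕 P K) {u : ℕ → ℝ≥0} (hu : Monotone u)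
    (N : ℕ) :
    ∫ ω, ∑ i ∈ Finset.range N, (K (u (i+1)) ω - K (u i) ω)^2 ∂P
      = ∫ ω, (K (u N) ω)^2 ∂P - ∫ ω, (K (u 0) ω)^2 ∂P := by
  rw [integral_finsetSum]
  · rw [← Finset.sum_range_sub (fun i => ∫ ω, (K (u i) ω)^2 ∂P)]
    refine Finset.sum_congr rfl (fun i _ => ?_)
    exact h.sq_sub (hu (Nat.le_succ i))
  · intro i _
    exact (h.inc (hu (Nat.le_succ i))).memLp.integrable_sq

end Mart

/-! ### Doob's inequalities -/

section det

/-- first passage sign: zero until `|N i| ≥ lam`, then frozen at the sign. -/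
noncomputable def fps (lam : ℝ) (N : ℕ → ℝ) : ℕ → ℝ
  | 0 => 0
  | n+1 => if fps lam N n ≠ 0 then fps lam N n
      else if lam < |N (n+1)| then (if 0 ≤ N (n+1) then 1 else -1) else 0

theorem fps_abs (lam : ℝ) (N : ℕ → ℝ) (n : ℕ) : |fps lam N n| ≤ 1 := by
  induction n with
  | zero => simp [fps]
  | succ n ih =>
    rw [fps]
    split_ifs <;> simp_all

theorem fps_ne_zero {lam : ℝ} {N : ℕ → ℝ} (h0 : |N 0| ≤ lam) (n : ℕ) :
    (∃ i ≤ n, lam < |N i|) → fps lam N n ≠ 0 := by
  induction n with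
  | zero =>
    rintro ⟨i, hi, h⟩
    have : i = 0 := by omega
    subst this
    exact absurd h0 (not_le.mpr h)
  | succ n ih =>
    rintro ⟨i, hi, h⟩
    rw [fps]
    by_cases h1 : fps lam N n ≠ 0
    · simp [h1]
    · have h2 : ¬ (∃ i ≤ n, lam < |N i|) := fun h3 => h1 (ih h3)
      have h3 : i = n + 1 := by
        by_contra hne
        exact h2 ⟨i, by omega, h⟩
      subst h3
      simp only [h1, if_false, h, if_true]
      split_ifs <;> norm_num

theorem fps_key (lam : ℝ) (N : ℕ → ℝ) (n : ℕ) :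
    lam * |fps lam N n| ≤ fps lam N n * N n -
      ∑ i ∈ Finset.range n, fps lam N i * (N (i+1) - N i) := by
  induction n with
  | zero => simp [fps]
  | succ n ih =>
    rw [Finset.sum_range_succ]
    by_cases h1 : fps lam N n ≠ 0
    · have h2 : fps lam N (n+1) = fps lam N n := by rw [fps]; simp [h1]
      rw [h2]
      linarith
    · have h3 : fps lam N n = 0 := not_not.mp h1
      rw [h3] at ih ⊢
      by_cases h4 : lam < |N (n+1)|
      · by_cases h5 : 0 ≤ N (n+1)
        · have h2 : fps lam N (n+1) = 1 := by rw [fps]; simp [h3, h4, h5]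
          rw [abs_of_nonneg h5] at h4
          rw [h2]
          simp only [abs_zero, mul_zero, zero_mul, abs_one] at *
          linarith
        · have h2 : fps lam N (n+1) = -1 := by rw [fps]; simp [h3, h4, h5]
          push Not at h5
          rw [abs_of_neg h5] at h4
          rw [h2]
          simp only [abs_zero, mul_zero, zero_mul, abs_neg, abs_one] at *
          linarith
      · have h2 : fps lam N (n+1) = 0 := by rw [fps]; simp [h3, h4]
        rw [h2]
        simp only [abs_zero, mul_zero, zero_mul] at *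
        linarith

theorem fps_measurable {Ω : Type*} {𝓖 : ℕ → MeasurableSpace Ω} (hmono : Monotone 𝓖)
    {N : ℕ → Ω → ℝ} (hN : ∀ i, Measurable[𝓖 i] (N i)) (lam : ℝ) (n : ℕ) :
    Measurable[𝓖 n] (fun ω => fps lam (fun i => N i ω) n) := by
  induction n with
  | zero => simp only [fps]; exact measurable_const
  | succ n ih =>
    have ih' : Measurable[𝓖 (n+1)] (fun ω => fps lam (fun i => N i ω) n) :=
      ih.mono (hmono (Nat.le_succ n)) le_rfl
    simp only [fps]
    have habs : Measurable[𝓖 (n+1)] (fun ω => |N (n+1) ω|) :=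
      continuous_abs.measurable.comp (hN (n+1))
    have s1 : MeasurableSet[𝓖 (n+1)] {ω | fps lam (fun i => N i ω) n ≠ 0} :=
      ih' (measurableSet_singleton 0).compl
    have s2 : MeasurableSet[𝓖 (n+1)] {ω | lam < |N (n+1) ω|} := habs measurableSet_Ioi
    have s3 : MeasurableSet[𝓖 (n+1)] {ω | 0 ≤ N (n+1) ω} := (hN (n+1)) measurableSet_Ici
    exact Measurable.ite s1 ih' (Measurable.ite s2
      (Measurable.ite s3 measurable_const measurable_const) measurable_const)

/-- running maximum of a sequence started at `0` -/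
noncomputable def rm (K : ℕ → ℝ) : ℕ → ℝ
  | 0 => 0
  | n+1 => max (rm K n) (K (n+1))

theorem le_rm {K : ℕ → ℝ} (h0 : K 0 = 0) {i n : ℕ} (hi : i ≤ n) : K i ≤ rm K n := by
  induction n with
  | zero =>
    have : i = 0 := by omega
    subst this
    simp [rm, h0]
  | succ n ih =>
    rcases Nat.lt_or_ge n i with h | h
    · have : i = n + 1 := by omega
      subst this
      exact le_max_right _ _
    · exact (ih h).trans (le_max_left _ _)

theorem rm_nonneg (K : ℕ → ℝ) (n : ℕ) : 0 ≤ rm K n := by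
  induction n with
  | zero => simp [rm]
  | succ n ih => exact ih.trans (le_max_left _ _)

theorem rm_key (K : ℕ → ℝ) (n : ℕ) :
    ∑ i ∈ Finset.range n, rm K i * (K (i+1) - K i) ≤ rm K n * K n - (rm K n)^2 / 2 := by
  induction n with
  | zero => simp [rm]
  | succ n ih =>
    rw [Finset.sum_range_succ]
    rcases le_total (K (n+1)) (rm K n) with h | h
    · have h2 : rm K (n+1) = rm K n := by rw [rm]; exact max_eq_left h
      rw [h2]; linarith
    · have h2 : rm K (n+1) = K (n+1) := by rw [rm]; exact max_eq_right h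
      rw [h2]
      nlinarith [sq_nonneg (K (n+1) - rm K n)]

theorem rm_sq (K : ℕ → ℝ) (n : ℕ) :
    (rm K n)^2 ≤ 4 * (K n)^2 - 4 * ∑ i ∈ Finset.range n, rm K i * (K (i+1) - K i) := by
  have := rm_key K n
  nlinarith [sq_nonneg (rm K n / 2 - K n)]

end det

variable {K : ℝ≥0 → Ω → ℝ}

/-- the dyadic grid of `[0,T]` -/
theorem grid_mono (T : ℝ≥0) (n : ℕ) : Monotone (fun i : ℕ => (i:ℝ≥0) * (T / 2^n)) := by
  intro i j hij
  simp only
  gcongr

theorem grid_end (T : ℝ≥0) (n : ℕ) : ((2^n : ℕ):ℝ≥0) * (T / 2^n) = T := by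
  push_cast; field_simp

/-- Doob's maximal inequality -/
theorem Mart.doob [IsProbabilityMeasure P] (h : Mart 𝓕 P K) (T : ℝ≥0) {lam : ℝ}
    (hlam : 0 < lam) :
    lam * P.real {ω | lam < supOn (fun s => |K s ω|) T} ≤ ∫ ω, |K T ω| ∂P := by
  -- discrete version
  have hdisc : ∀ n, lam * P.real {ω | lam < gmd (fun s => |K s ω|) T n} ≤ ∫ ω, |K T ω| ∂P := by
    intro n
    set u : ℕ → ℝ≥0 := fun i => (i:ℝ≥0) * (T / 2^n) with hu
    have hmono : Monotone u := grid_mono T n
    set H : ℕ → Ω → ℝ := fun i ω => fps lam (fun j => K (u j) ω) i with hH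
    have hHm : ∀ i, Measurable[𝓕 (u i)] (H i) := fun i =>
      fps_measurable (𝓖 := fun i => 𝓕 (u i)) (fun i j hij => 𝓕.mono (hmono hij))
        (N := fun j ω => K (u j) ω) (fun i => h.adapted _) lam i
    have hHb : ∀ i ω, |H i ω| ≤ 1 := fun i ω => fps_abs _ _ _
    have hg := h.gsum hmono hHm hHb (2^n)
    have hu0 : u 0 = 0 := by simp [hu]
    have huN : u (2^n) = T := grid_end T n
    have hset : {ω | lam < gmd (fun s => |K s ω|) T n} ⊆ {ω | H (2^n) ω ≠ 0} := by
      intro ω hω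
      simp only [Set.mem_ofPred_eq] at hω ⊢
      refine fps_ne_zero ?_ _ ?_
      · rw [hu0, h.zero]; simp [hlam.le]
      · unfold gmd at hω
        rw [Finset.lt_sup'_iff] at hω
        obtain ⟨i, hi, hlt⟩ := hω
        exact ⟨i, by have := Finset.mem_range.mp hi; omega, hlt⟩
    have hpt : ∀ ω, lam * |H (2^n) ω| ≤ |K T ω| -
        ∑ i ∈ Finset.range (2^n), H i ω * (K (u (i+1)) ω - K (u i) ω) := by
      intro ω
      have h1 := fps_key lam (fun j => K (u j) ω) (2^n)
      have h2 : H (2^n) ω * K (u (2^n)) ω ≤ |K T ω| := by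
        rw [huN]
        calc H (2^n) ω * K T ω ≤ |H (2^n) ω * K T ω| := le_abs_self _
          _ = |H (2^n) ω| * |K T ω| := abs_mul _ _
          _ ≤ 1 * |K T ω| := by gcongr; exact hHb _ _
          _ = |K T ω| := one_mul _
      simp only [hH] at h1 h2 ⊢
      linarith
    have hmeasH : Measurable (H (2^n)) := (hHm (2^n)).mono (𝓕.le _) le_rfl
    have hHint : Integrable (fun ω => |H (2^n) ω|) P := by
      refine (integrable_const (1:ℝ)).mono' hmeasH.abs.aestronglyMeasurable
        (ae_of_all _ fun ω => ?_)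
      simp only [Real.norm_eq_abs, abs_abs]
      exact hHb _ _
    have hsetm : MeasurableSet {ω | H (2^n) ω ≠ 0} :=
      hmeasH (measurableSet_singleton 0).compl
    have h3 : P.real {ω | lam < gmd (fun s => |K s ω|) T n} ≤ ∫ ω, |H (2^n) ω| ∂P := by
      calc P.real {ω | lam < gmd (fun s => |K s ω|) T n}
          ≤ P.real {ω | H (2^n) ω ≠ 0} := measureReal_mono hset
        _ = ∫ ω, Set.indicator {ω | H (2^n) ω ≠ 0} (fun _ => (1:ℝ)) ω ∂P := by
            rw [integral_indicator hsetm]; simp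
        _ ≤ ∫ ω, |H (2^n) ω| ∂P := by
            refine integral_mono ((integrable_const (1:ℝ)).indicator hsetm) hHint (fun ω => ?_)
            simp only [Set.indicator, Set.mem_ofPred_eq]
            split_ifs with h4
            · have h5 : ∀ m, fps lam (fun j => K (u j) ω) m ≠ 0 →
                  1 ≤ |fps lam (fun j => K (u j) ω) m| := by
                intro m
                induction m with
                | zero => simp [fps]
                | succ m ih =>
                  intro h6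
                  rw [fps] at h6 ⊢
                  split_ifs at h6 ⊢ with h7 h8 h9
                  · exact ih h7
                  · simp
                  · simp
                  · exact absurd rfl h6
              exact h5 _ h4
            · positivity
    have hKint : Integrable (K T) P := (h.memLp T).integrable (by norm_num)
    calc lam * P.real {ω | lam < gmd (fun s => |K s ω|) T n}
        ≤ lam * ∫ ω, |H (2^n) ω| ∂P := by gcongr
      _ = ∫ ω, lam * |H (2^n) ω| ∂P := (integral_const_mul _ _).symm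
      _ ≤ ∫ ω, (|K T ω| - ∑ i ∈ Finset.range (2^n),
            H i ω * (K (u (i+1)) ω - K (u i) ω)) ∂P :=
          integral_mono (hHint.const_mul _) (hKint.abs.sub hg.integrable) hpt
      _ = ∫ ω, |K T ω| ∂P := by
          rw [integral_sub hKint.abs hg.integrable, hg.integral_eq_zero, sub_zero]
  -- passage to the limit
  have hcont : ∀ ω, Continuous (fun s => |K s ω|) := fun ω => (h.cont ω).abs
  have hU : {ω | lam < supOn (fun s => |K s ω|) T}
      = ⋃ n, {ω | lam < gmd (fun s => |K s ω|) T n} := by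
    ext ω
    simp only [Set.mem_ofPred_eq, Set.mem_iUnion]
    constructor
    · intro h1
      exact ((tendsto_gmd (hcont ω) T).eventually (lt_mem_nhds h1)).exists
    · rintro ⟨n, hn⟩
      exact lt_of_lt_of_le hn (gmd_le_supOn (hcont ω) T n)
  have hmonoU : Monotone (fun n => {ω | lam < gmd (fun s => |K s ω|) T n}) := by
    intro n m hnm ω hω
    exact lt_of_lt_of_le hω (gmd_mono _ T hnm)
  rw [hU]
  have hlim : Tendsto (fun n => lam * P.real {ω | lam < gmd (fun s => |K s ω|) T n}) atTop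
      (𝓝 (lam * P.real (⋃ n, {ω | lam < gmd (fun s => |K s ω|) T n}))) := by
    refine Tendsto.const_mul _ ?_
    have := tendsto_measure_iUnion_atTop (μ := P) hmonoU
    exact (ENNReal.tendsto_toReal (measure_ne_top _ _)).comp this
  exact le_of_tendsto' hlim hdisc

/-- Doob's `L²` inequality, one sided, for the Skorokhod term. -/
theorem Mart.doob_sk [IsProbabilityMeasure P] (h : Mart 𝓕 P K) (T : ℝ≥0) {x₀ : ℝ}
    (hx : 0 ≤ x₀) :
    MemLp (fun ω => sk x₀ (fun s => K s ω) T) 2 P ∧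
    ∫ ω, (sk x₀ (fun s => K s ω) T)^2 ∂P ≤ 4 * ∫ ω, (K T ω)^2 ∂P := by
  set u : ℕ → ℕ → ℝ≥0 := fun n i => (i:ℝ≥0) * (T / 2^n) with hu
  set R : ℕ → ℕ → Ω → ℝ := fun n m ω => rm (fun j => - K (u n j) ω) m with hR
  have hRm : ∀ n m, Measurable[𝓕 (u n m)] (R n m) := by
    intro n m
    induction m with
    | zero => simp only [hR, rm]; exact measurable_const
    | succ m ih =>
      have : R n (m+1) = fun ω => max (R n m ω) (- K (u n (m+1)) ω) := by
        ext ω; simp only [hR, rm]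
      rw [this]
      exact (ih.mono (𝓕.mono (grid_mono T n (Nat.le_succ m))) le_rfl).max (h.adapted _).neg
  have hR2 : ∀ n m, MemLp (R n m) 2 P := by
    intro n m
    induction m with
    | zero => simp only [hR, rm]; exact MemLp.zero
    | succ m ih =>
      have : R n (m+1) = fun ω => max (R n m ω) (- K (u n (m+1)) ω) := by
        ext ω; simp only [hR, rm]
      rw [this]
      exact ih.sup (h.memLp _).neg
  have hbd : ∀ n, ∫ ω, (R n (2^n) ω)^2 ∂P ≤ 4 * ∫ ω, (K T ω)^2 ∂P := by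
    intro n
    have huN : u n (2^n) = T := grid_end T n
    have hprod : ∀ i, Integrable (fun ω => R n i ω * (- K (u n (i+1)) ω - - K (u n i) ω)) P := by
      intro i
      exact (hR2 n i).integrable_mul ((h.memLp _).neg.sub (h.memLp _).neg)
    have hz : ∀ i, ∫ ω, R n i ω * (- K (u n (i+1)) ω - - K (u n i) ω) ∂P = 0 := by
      intro i
      exact (h.neg.inc (grid_mono T n (Nat.le_succ i))).orth_sq (𝓕.le _) (hRm n i) (hR2 n i)
    have hs : Integrable (fun ω => ∑ i ∈ Finset.range (2^n),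
        R n i ω * (- K (u n (i+1)) ω - - K (u n i) ω)) P :=
      integrable_finsetSum _ (fun i _ => hprod i)
    calc ∫ ω, (R n (2^n) ω)^2 ∂P
        ≤ ∫ ω, (4 * (K T ω)^2 - 4 * ∑ i ∈ Finset.range (2^n),
            R n i ω * (- K (u n (i+1)) ω - - K (u n i) ω)) ∂P := by
          refine integral_mono (hR2 n _).integrable_sq
            (((h.memLp T).integrable_sq.const_mul 4).sub (hs.const_mul 4)) (fun ω => ?_)
          have := rm_sq (fun j => - K (u n j) ω) (2^n)
          simp only [huN, neg_sq] at this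
          exact this
      _ = 4 * ∫ ω, (K T ω)^2 ∂P := by
          rw [integral_sub ((h.memLp T).integrable_sq.const_mul 4) (hs.const_mul 4),
            integral_const_mul, integral_const_mul, integral_finsetSum _ (fun i _ => hprod i),
            Finset.sum_eq_zero (fun i _ => hz i)]
          ring
  -- domination of the skorokhod term and the limit
  have hcK : ∀ ω, Continuous (fun s => K s ω) := h.cont
  have hcK' : ∀ ω, Continuous (fun s => max 0 (-x₀ - K s ω)) := fun ω => cont_aux (hcK ω)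
  set A : ℕ → Ω → ℝ := fun n ω => gmd (fun s => max 0 (-x₀ - K s ω)) T n with hA
  have hAle : ∀ n ω, A n ω ≤ R n (2^n) ω := by
    intro n ω
    simp only [hA, gmd]
    refine Finset.sup'_le _ _ (fun i hi => ?_)
    have hi' := Finset.mem_range.mp hi
    refine max_le (rm_nonneg _ _) ?_
    have h1 : - K (u n i) ω ≤ R n (2^n) ω :=
      le_rm (K := fun j => - K (u n j) ω) (by simp [hu, h.zero]) (by omega)
    simp only [hu] at h1
    linarith
  have hA0 : ∀ n ω, 0 ≤ A n ω := by
    intro n ω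
    have h1 := le_gmd (fun s => max 0 (-x₀ - K s ω)) T (n := n) (i := 0) (by simp)
    exact (le_max_left _ _).trans h1
  have hAm : ∀ n, Measurable (A n) := fun n =>
    measurable_gmd (K := fun s ω => max 0 (-x₀ - K s ω))
      (fun s _ => measurable_const.max (measurable_const.sub (h.meas s))) n
  have hlim : ∀ ω, Tendsto (fun n => A n ω) atTop (𝓝 (sk x₀ (fun s => K s ω) T)) :=
    fun ω => tendsto_gmd (hcK' ω) T
  have hA2 : ∀ n, MemLp (A n) 2 P := by
    intro n
    refine (hR2 n (2^n)).mono (hAm n).aestronglyMeasurable (ae_of_all _ fun ω => ?_)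
    rw [Real.norm_eq_abs, Real.norm_eq_abs, abs_of_nonneg (hA0 n ω)]
    exact (hAle n ω).trans (le_abs_self _)
  have hA3 : ∀ n, MInc (⊥ : MeasurableSpace Ω) P (fun ω => A n ω - ∫ ω, A n ω ∂P)
      (∫ ω, (A n ω - ∫ ω, A n ω ∂P)^2 ∂P) → True := fun _ _ => trivial
  clear hA3
  have hmono : ∀ ω, Monotone (fun n => A n ω) := fun ω => gmd_mono _ T
  have hskm : Measurable (fun ω => sk x₀ (fun s => K s ω) T) :=
    measurable_sk (fun s _ => h.meas s) hcK
  have hle : ∀ n, ∫ ω, (A n ω)^2 ∂P ≤ 4 * ∫ ω, (K T ω)^2 ∂P := by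
    intro n
    refine le_trans (integral_mono (hA2 n).integrable_sq (hR2 n _).integrable_sq (fun ω => ?_))
      (hbd n)
    exact pow_le_pow_left₀ (hA0 n ω) (hAle n ω) 2
  have hKT0 : 0 ≤ 4 * ∫ ω, (K T ω)^2 ∂P := by
    have : 0 ≤ ∫ ω, (K T ω)^2 ∂P := integral_nonneg (fun ω => sq_nonneg _)
    linarith
  have hfat : ∫⁻ ω, ENNReal.ofReal ((sk x₀ (fun s => K s ω) T)^2) ∂P
      ≤ ENNReal.ofReal (4 * ∫ ω, (K T ω)^2 ∂P) := by
    calc ∫⁻ ω, ENNReal.ofReal ((sk x₀ (fun s => K s ω) T)^2) ∂P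
        = ∫⁻ ω, liminf (fun n => ENNReal.ofReal ((A n ω)^2)) atTop ∂P := by
          refine lintegral_congr (fun ω => ?_)
          exact (Tendsto.liminf_eq (ENNReal.tendsto_ofReal ((hlim ω).pow 2))).symm
      _ ≤ liminf (fun n => ∫⁻ ω, ENNReal.ofReal ((A n ω)^2) ∂P) atTop :=
          lintegral_liminf_le (fun n => ((hAm n).pow_const 2).ennreal_ofReal)
      _ ≤ liminf (fun _ : ℕ => ENNReal.ofReal (4 * ∫ ω, (K T ω)^2 ∂P)) atTop := by
          refine liminf_le_liminf (Eventually.of_forall fun n => ?_)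
          rw [← ofReal_integral_eq_lintegral_ofReal (hA2 n).integrable_sq
            (ae_of_all _ fun ω => sq_nonneg _)]
          exact ENNReal.ofReal_le_ofReal (hle n)
      _ = _ := by simp
  have hint : Integrable (fun ω => (sk x₀ (fun s => K s ω) T)^2) P := by
    refine ⟨(hskm.pow_const 2).aestronglyMeasurable, ?_⟩
    rw [hasFiniteIntegral_iff_ofReal (ae_of_all _ fun ω => sq_nonneg _)]
    exact lt_of_le_of_lt hfat ENNReal.ofReal_lt_top
  refine ⟨(memLp_two_iff_integrable_sq hskm.aestronglyMeasurable).mpr hint, ?_⟩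
  rw [integral_eq_lintegral_of_nonneg_ae (ae_of_all _ fun ω => sq_nonneg _) hint.1]
  exact ENNReal.toReal_le_of_le_ofReal hKT0 hfat

end Pool.Agent.SkewBM
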