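import Pool.Agent.Lib.MP_e34d70_pr.QV
import Pool.Agent.Lib.MP_e34d70_pr.Bvm
import Pool.Agent.Lib.MP_e34d70_pr.Leb

open MeasureTheory Filter ProbabilityTheory
open scoped NNReal ENNReal Topology

namespace Pool.Agent.SkewBM

section

variable {μ : Measure ℝ≥0} {q : ℝ≥0 → ℝ}

theorem meas_Ioc (hμ : ∀ t, μ (Set.Iic t) = ENNReal.ofReal (q t)) (hqm : Monotone q)
    (hq0 : q 0 = 0) {s t : ℝ≥0} (hst : s ≤ t) : (μ (Set.Ioc s t)).toReal = q t - q s := by
  have h0 : ∀ t, 0 ≤ q t := fun t => by rw [← hq0]; exact hqm zero_le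
  have h1 : μ (Set.Iic t) = μ (Set.Iic s) + μ (Set.Ioc s t) := by
    rw [← Set.Iic_union_Ioc_eq_Iic hst]
    refine measure_union ?_ measurableSet_Ioc
    rw [Set.disjoint_left]
    intro u hu1 hu2
    exact absurd hu2.1 (not_lt.mpr hu1)
  have hfin : ∀ t, μ (Set.Iic t) ≠ ∞ := fun t => by rw [hμ]; exact ENNReal.ofReal_ne_top
  have h2 : μ (Set.Ioc s t) ≠ ∞ :=
    ne_top_of_le_ne_top (hfin t) (measure_mono Set.Ioc_subset_Iic_self)
  have h3 := congrArg ENNReal.toReal h1
  rw [ENNReal.toReal_add (hfin s) h2, hμ, hμ, ENNReal.toReal_ofReal (h0 t),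
    ENNReal.toReal_ofReal (h0 s)] at h3
  linarith

theorem abs_int_sub_le (hμ : ∀ t, μ (Set.Iic t) = ENNReal.ofReal (q t)) (hqm : Monotone q)
    (hq0 : q 0 = 0) {g : ℝ≥0 → ℝ} (hg : Continuous g) {s t : ℝ≥0} (hst : s ≤ t) {c ε : ℝ}
    (h : ∀ u, s ≤ u → u ≤ t → |g u - c| ≤ ε) :
    |(∫ u in Set.Iic t, g u ∂μ - ∫ u in Set.Iic s, g u ∂μ) - c * (q t - q s)|
      ≤ ε * (q t - q s) := by
  have hfin : ∀ t, μ (Set.Iic t) ≠ ∞ := fun t => by rw [hμ]; exact ENNReal.ofReal_ne_top
  have hfin2 : μ (Set.Ioc s t) ≠ ∞ :=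
    ne_top_of_le_ne_top (hfin t) (measure_mono Set.Ioc_subset_Iic_self)
  have hint : ∀ {f : ℝ≥0 → ℝ}, Continuous f → IntegrableOn f (Set.Ioc s t) μ := fun hf =>
    (integrableOn_Iic (hfin t) hf).mono_set Set.Ioc_subset_Iic_self
  have h1 : ∫ u in Set.Iic t, g u ∂μ
      = ∫ u in Set.Iic s, g u ∂μ + ∫ u in Set.Ioc s t, g u ∂μ := by
    rw [← Set.Iic_union_Ioc_eq_Iic hst]
    refine setIntegral_union ?_ measurableSet_Ioc (integrableOn_Iic (hfin s) hg) (hint hg)
    rw [Set.disjoint_left]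
    intro u hu1 hu2
    exact absurd hu2.1 (not_lt.mpr hu1)
  have h2 : ∫ u in Set.Ioc s t, (g u - c) ∂μ = ∫ u in Set.Ioc s t, g u ∂μ - c * (q t - q s) := by
    rw [integral_sub (hint hg) (hint continuous_const), setIntegral_const, Measure.real,
      meas_Ioc hμ hqm hq0 hst, smul_eq_mul]
    ring
  have h3 := norm_setIntegral_le_of_norm_le_const (μ := μ) (s := Set.Ioc s t) (C := ε)
    (f := fun u => g u - c) hfin2.lt_top (fun u hu => h u hu.1.le hu.2)
  rw [h2, Real.norm_eq_abs, Measure.real, meas_Ioc hμ hqm hq0 hst] at h3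
  rw [h1]
  have e : ∫ u in Set.Iic s, g u ∂μ + ∫ u in Set.Ioc s t, g u ∂μ - ∫ u in Set.Iic s, g u ∂μ
      - c * (q t - q s) = ∫ u in Set.Ioc s t, g u ∂μ - c * (q t - q s) := by ring
  rw [e]
  exact h3

theorem abs_tint_sub_le {g : ℝ≥0 → ℝ} (hg : Continuous g) {s t : ℝ≥0} (hst : s ≤ t) {c ε : ℝ}
    (h : ∀ u, s ≤ u → u ≤ t → |g u - c| ≤ ε) :
    |(tint g 0 t - tint g 0 s) - c * ((t:ℝ) - s)| ≤ ε * ((t:ℝ) - s) := by
  have h1 := tint_add hg 0 s t
  have h2 := tint_sub hg (continuous_const (y := c)) s t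
  rw [tint_const] at h2
  have h3 := abs_tint_le (g := fun u => g u - c) hst h
  rw [h2] at h3
  have e : (tint g 0 t - tint g 0 s) - c * ((t:ℝ) - s) = tint g s t - c * ((t:ℝ) - s) := by
    linarith
  rw [e]; exact h3

/-- integrals of functions of the path that vanish near its zeros -/
theorem int_eq_tint {x : ℝ≥0 → ℝ} (hx : Continuous x)
    (hμ : ∀ t, μ (Set.Iic t) = ENNReal.ofReal (q t)) (hqm : Monotone q) (hq0 : q 0 = 0)
    (hq : ∀ m i j : ℕ, i ≤ j → (∀ u, tt m i ≤ u → u ≤ tt m j → x u ≠ 0) →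
      q (tt m j) - q (tt m i) = ((tt m j : ℝ≥0):ℝ) - (tt m i : ℝ≥0))
    {f : ℝ → ℝ} (hf : Continuous f) {ρ : ℝ} (hρ : 0 < ρ) (hf0 : ∀ y, |y| < ρ → f y = 0)
    (m j : ℕ) :
    ∫ u in Set.Iic (tt m j), f (x u) ∂μ = tint (fun u => f (x u)) 0 (tt m j) := by
  set g : ℝ≥0 → ℝ := fun u => f (x u) with hg
  have hgc : Continuous g := hf.comp hx
  set T := tt m j with hT
  have hqT : 0 ≤ q T := by rw [← hq0]; exact hqm zero_le
  -- it suffices to bound the difference
  refine eq_of_abs_sub_le_all (fun η hη => ?_)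
  set ε : ℝ := η / (q T + T + 1) with hε
  have hden : 0 < q T + T + 1 := by positivity
  have hε0 : 0 < ε := div_pos hη hden
  obtain ⟨δ₁, hδ₁, hd₁⟩ := exists_delta hgc T hε0
  obtain ⟨δ₂, hδ₂, hd₂⟩ := exists_delta hx T hρ
  -- a fine level
  obtain ⟨d, hd⟩ : ∃ d : ℕ, (1:ℝ≥0) / 2^(m+d) ≤ min δ₁ δ₂ := by
    obtain ⟨d, hd⟩ := (eventually_mesh 1 (lt_min hδ₁ hδ₂)).exists
    refine ⟨d, le_trans ?_ hd⟩
    gcongr
    · norm_num
    · omega
  set n := m + d with hn
  have hTn : T = tt n (j * 2^d) := tt_refine m j d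
  have hcell : ∀ k : ℕ, k < j * 2^d →
      |((∫ u in Set.Iic (tt n (k+1)), g u ∂μ - ∫ u in Set.Iic (tt n k), g u ∂μ)
        - (tint g 0 (tt n (k+1)) - tint g 0 (tt n k)))|
        ≤ ε * ((q (tt n (k+1)) - q (tt n k)) + (((tt n (k+1) : ℝ≥0):ℝ) - (tt n k : ℝ≥0))) := by
    intro k hk
    have hle : tt n k ≤ tt n (k+1) := tt_mono n (Nat.le_succ k)
    have hleT : tt n (k+1) ≤ T := by rw [hTn]; exact tt_mono n (by omega)
    have hosc : ∀ u, tt n k ≤ u → u ≤ tt n (k+1) → u ≤ tt n k + δ₁ ∧ u ≤ tt n k + δ₂ := by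
      intro u _ hu2
      rw [tt_succ] at hu2
      have h3 : (1:ℝ≥0) / 2^n ≤ δ₁ := hd.trans (min_le_left _ _)
      have h4 : (1:ℝ≥0) / 2^n ≤ δ₂ := hd.trans (min_le_right _ _)
      exact ⟨hu2.trans (by gcongr), hu2.trans (by gcongr)⟩
    have hgosc : ∀ u, tt n k ≤ u → u ≤ tt n (k+1) → |g u - g (tt n k)| ≤ ε := by
      intro u hu1 hu2
      exact (hd₁ u (hu2.trans hleT) (tt n k) (hle.trans hleT) (hosc u hu1 hu2).1
        (hu1.trans le_self_add)).le
    have h1 := abs_int_sub_le hμ hqm hq0 hgc hle hgosc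
    have h2 := abs_tint_sub_le hgc hle hgosc
    have h3 : g (tt n k) * (q (tt n (k+1)) - q (tt n k))
        = g (tt n k) * (((tt n (k+1) : ℝ≥0):ℝ) - (tt n k : ℝ≥0)) := by
      by_cases h0 : g (tt n k) = 0
      · rw [h0]; simp
      · have h4 : ρ ≤ |x (tt n k)| := by
          by_contra h5
          exact h0 (hf0 _ (not_le.mp h5))
        rw [hq n k (k+1) (Nat.le_succ k) (fun u hu1 hu2 h5 => ?_)]
        have h6 := hd₂ u (hu2.trans hleT) (tt n k) (hle.trans hleT) (hosc u hu1 hu2).2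
          (hu1.trans le_self_add)
        rw [h5, zero_sub, abs_neg] at h6
        linarith
    rw [abs_le] at h1 h2 ⊢
    constructor <;> nlinarith [h1.1, h1.2, h2.1, h2.2]
  have hsum : ∀ N : ℕ, N ≤ j * 2^d →
      |(∫ u in Set.Iic (tt n N), g u ∂μ) - tint g 0 (tt n N)|
        ≤ ε * (q (tt n N) + (tt n N : ℝ≥0)) := by
    intro N
    induction N with
    | zero =>
      intro _
      rw [tt_zero, tint_self, hq0]
      have h1 : μ (Set.Iic 0) = 0 := by rw [hμ, hq0]; simp
      rw [Measure.restrict_eq_zero.mpr h1]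
      simp
    | succ N ih =>
      intro hN
      have h1 := ih (by omega)
      have h2 := hcell N (by omega)
      rw [abs_le] at h1 h2 ⊢
      constructor <;> nlinarith [h1.1, h1.2, h2.1, h2.2]
  have hfin := hsum (j * 2^d) le_rfl
  rw [← hTn] at hfin
  refine hfin.trans ?_
  rw [hε, div_mul_eq_mul_div, div_le_iff₀ hden]
  nlinarith
end

theorem bA_mm_lower (k : ℕ) : bA k * (1 - 3 / ((k:ℝ)+9)) ≤ (parA k).mm := by
  have h1 := (parA k).le_mm
  have h2 : (parA k).a - 2 * (parA k).ρ = bA k - 3 * bA (k+1) := by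
    simp only [parA]; ring
  rw [h2, bA_succ] at h1
  refine le_trans (le_of_eq ?_) h1
  ring

theorem mm_ratio : Tendsto (fun k => (parA k).mm / bA k) atTop (𝓝 1) := by
  have h0 : Tendsto (fun k : ℕ => 3 / ((k:ℝ)+9)) atTop (𝓝 0) := by
    refine Tendsto.div_atTop tendsto_const_nhds ?_
    exact tendsto_atTop_add_const_right _ _ tendsto_natCast_atTop_atTop
  have h1 : Tendsto (fun k : ℕ => 1 - 3 / ((k:ℝ)+9)) atTop (𝓝 1) := by
    simpa using h0.const_sub 1
  refine tendsto_of_tendsto_of_tendsto_of_le_of_le h1 tendsto_const_nhds (fun k => ?_) (fun k => ?_)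
  · simp only
    rw [le_div_iff₀ (bA_pos k), mul_comm]
    exact bA_mm_lower k
  · simp only
    rw [div_le_one (bA_pos k)]
    exact (parA k).mm_le

theorem mm_inv_ratio : Tendsto (fun k => bA k / (parA k).mm) atTop (𝓝 1) := by
  have := mm_ratio.inv₀ one_ne_zero
  rw [inv_one] at this
  refine this.congr (fun k => ?_)
  rw [inv_div]

theorem a_ratio : Tendsto (fun k => (parA k).a / (parA k).mm) atTop (𝓝 1) := by
  have h0 : Tendsto (fun k : ℕ => 1 / ((k:ℝ)+9)) atTop (𝓝 0) := by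
    refine Tendsto.div_atTop tendsto_const_nhds ?_
    exact tendsto_atTop_add_const_right _ _ tendsto_natCast_atTop_atTop
  have h1 : Tendsto (fun k : ℕ => (1 - 1 / ((k:ℝ)+9)) * (bA k / (parA k).mm)) atTop (𝓝 1) := by
    simpa using (h0.const_sub 1).mul mm_inv_ratio
  refine h1.congr (fun k => ?_)
  have h2 : (parA k).a = bA k - bA (k+1) := rfl
  rw [h2, bA_succ]
  ring

theorem rho_ratio : Tendsto (fun k => 2 * (parA k).ρ / (parA k).mm) atTop (𝓝 0) := by
  have h0 : Tendsto (fun k : ℕ => 2 / ((k:ℝ)+9)) atTop (𝓝 0) := by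
    refine Tendsto.div_atTop tendsto_const_nhds ?_
    exact tendsto_atTop_add_const_right _ _ tendsto_natCast_atTop_atTop
  have h1 : Tendsto (fun k : ℕ => (2 / ((k:ℝ)+9)) * (bA k / (parA k).mm)) atTop (𝓝 0) := by
    simpa using h0.mul mm_inv_ratio
  refine h1.congr (fun k => ?_)
  have h2 : (parA k).ρ = bA (k+1) := rfl
  rw [h2, bA_succ]
  ring

/-- the trapezoidal averages converge to the local time -/
theorem trap_limit {μ : Measure ℝ≥0} {x : ℝ≥0 → ℝ} (hx : Continuous x) {T : ℝ≥0} {l : ℝ}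
    (hfin : μ (Set.Iic T) ≠ ∞)
    (hl : Tendsto (fun ε : ℝ => occ μ x T ε / (2 * ε)) (𝓝[>] 0) (𝓝 l)) :
    Tendsto (fun k => (1/2) * ∫ u in Set.Iic T, (parA k).psi (x u) ∂μ) atTop (𝓝 l) := by
  have hb : Tendsto (fun k => bA k) atTop (𝓝[>] 0) :=
    tendsto_nhdsWithin_iff.mpr ⟨bA_tendsto, Eventually.of_forall (fun k => bA_pos k)⟩
  have ha0 : Tendsto (fun k => (parA k).a) atTop (𝓝 0) := by
    refine squeeze_zero (fun k => (parA k).apos.le) (fun k => ?_) bA_tendsto
    exact (parA k).hb.le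
  have ha : Tendsto (fun k => (parA k).a) atTop (𝓝[>] 0) :=
    tendsto_nhdsWithin_iff.mpr ⟨ha0, Eventually.of_forall (fun k => (parA k).apos)⟩
  have hr0 : Tendsto (fun k => 2 * (parA k).ρ) atTop (𝓝 0) := by
    refine squeeze_zero (fun k => by have := (parA k).hρ; positivity) (fun k => ?_) ha0
    exact (parA k).ha.le
  have hr : Tendsto (fun k => 2 * (parA k).ρ) atTop (𝓝[>] 0) :=
    tendsto_nhdsWithin_iff.mpr ⟨hr0, Eventually.of_forall (fun k => by
      have := (parA k).hρ
      show 0 < 2 * (parA k).ρ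
      positivity)⟩
  have u1 : Tendsto (fun k => (occ μ x T (bA k) / (2 * bA k)) * (bA k / (parA k).mm)) atTop
      (𝓝 l) := by
    simpa using (hl.comp hb).mul mm_inv_ratio
  have u2 : Tendsto (fun k => (occ μ x T (parA k).a / (2 * (parA k).a)) *
      ((parA k).a / (parA k).mm) - (occ μ x T (2 * (parA k).ρ) / (2 * (2 * (parA k).ρ))) *
      (2 * (parA k).ρ / (parA k).mm)) atTop (𝓝 l) := by
    simpa using ((hl.comp ha).mul a_ratio).sub ((hl.comp hr).mul rho_ratio)
  refine tendsto_of_tendsto_of_tendsto_of_le_of_le u2 u1 (fun k => ?_) (fun k => ?_)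
  · -- lower bound
    have hm := (parA k).mm_pos
    have hc : Continuous (fun u => (parA k).mm * (parA k).psi (x u)) :=
      ((parA k).psi_cont.comp hx).const_mul _
    have hψ := (parA k).psi_nonneg
    have h1 : occ μ x T (parA k).a ≤ ∫ s in Set.Iic T, (parA k).mm * (parA k).psi (x s) ∂μ
        + occ μ x T (2 * (parA k).ρ) := by
      have hms : MeasurableSet {s | |x s| < (parA k).a} := small_meas hx _
      have hms2 : MeasurableSet {s | |x s| < 2 * (parA k).ρ} := small_meas hx _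
      have hF : IsFiniteMeasure (μ.restrict (Set.Iic T)) := ⟨by
        rw [Measure.restrict_apply_univ]; exact hfin.lt_top⟩
      have e : ∀ S : Set ℝ≥0, MeasurableSet S → (μ (Set.Iic T ∩ S)).toReal
          = ∫ s in Set.Iic T, S.indicator (fun _ => (1:ℝ)) s ∂μ := by
        intro S hS
        rw [integral_indicator hS, setIntegral_const, Measure.real,
          Measure.restrict_apply hS, Set.inter_comm]
        simp
      unfold occ
      rw [e _ hms, e _ hms2, ← integral_add (integrableOn_Iic hfin hc)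
        ((integrable_const (1:ℝ)).indicator hms2)]
      refine integral_mono ((integrable_const (1:ℝ)).indicator hms)
        ((integrableOn_Iic hfin hc).add ((integrable_const (1:ℝ)).indicator hms2)) (fun s => ?_)
      simp only
      have h0 : 0 ≤ (parA k).mm * (parA k).psi (x s) := mul_nonneg hm.le (hψ _)
      by_cases h2 : |x s| < 2 * (parA k).ρ
      · have h3 : |x s| < (parA k).a := h2.trans (parA k).ha
        rw [Set.indicator_of_mem (show s ∈ {s | |x s| < (parA k).a} from h3),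
          Set.indicator_of_mem (show s ∈ {s | |x s| < 2 * (parA k).ρ} from h2)]
        linarith
      · rw [Set.indicator_of_notMem (show s ∉ {s | |x s| < 2 * (parA k).ρ} from h2)]
        by_cases h3 : |x s| < (parA k).a
        · rw [Set.indicator_of_mem (show s ∈ {s | |x s| < (parA k).a} from h3),
            (parA k).psi_one (not_lt.mp h2) h3.le]
          have : (parA k).mm * (1 / (parA k).mm) = 1 := by field_simp
          rw [this]; simp
        · rw [Set.indicator_of_notMem (show s ∉ {s | |x s| < (parA k).a} from h3)]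
          linarith
    rw [integral_const_mul] at h1
    have hρ := (parA k).hρ
    have ha' := (parA k).apos
    have e1 : occ μ x T (parA k).a / (2 * (parA k).a) * ((parA k).a / (parA k).mm)
        - occ μ x T (2 * (parA k).ρ) / (2 * (2 * (parA k).ρ)) * (2 * (parA k).ρ / (parA k).mm)
        = (occ μ x T (parA k).a - occ μ x T (2 * (parA k).ρ)) / (2 * (parA k).mm) := by
      field_simp
    rw [e1, div_le_iff₀ (by positivity)]
    linarith
  · -- upper bound
    have hm := (parA k).mm_pos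
    have hbk := bA_pos k
    have hc : Continuous (fun u => (parA k).mm * (parA k).psi (x u)) :=
      ((parA k).psi_cont.comp hx).const_mul _
    have h3 : ∫ s in Set.Iic T, (parA k).mm * (parA k).psi (x s) ∂μ ≤ occ μ x T (bA k) := by
      refine int_le_meas hfin hc (small_meas hx _) (fun s => ?_)
      have h4 := mul_psi_le (parA k) (x s)
      by_cases hs : |x s| < bA k
      · rw [Set.indicator_of_mem (show s ∈ {s | |x s| < bA k} from hs)]
        rwa [if_pos (show |x s| < (parA k).b from hs)] at h4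
      · rw [Set.indicator_of_notMem (show s ∉ {s | |x s| < bA k} from hs)]
        rwa [if_neg (show ¬ |x s| < (parA k).b from hs)] at h4
    rw [integral_const_mul] at h3
    have e1 : occ μ x T (bA k) / (2 * bA k) * (bA k / (parA k).mm)
        = occ μ x T (bA k) / (2 * (parA k).mm) := by
      field_simp
    rw [e1, le_div_iff₀ (by positivity)]
    linarith

/-- identification of the local time at dyadic times -/
theorem local_eq {μ : Measure ℝ≥0} {x q : ℝ≥0 → ℝ} (hx : Continuous x)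
    (hμ : ∀ t, μ (Set.Iic t) = ENNReal.ofReal (q t)) (hqm : Monotone q) (hq0 : q 0 = 0)
    (hq : ∀ m i j : ℕ, i ≤ j → (∀ u, tt m i ≤ u → u ≤ tt m j → x u ≠ 0) →
      q (tt m j) - q (tt m i) = ((tt m j : ℝ≥0):ℝ) - (tt m i : ℝ≥0))
    {l L : ℝ≥0 → ℝ} {ns : ℕ → ℕ} (hns : StrictMono ns)
    (hl : ∀ t, Tendsto (fun j => (1/2) * tint (fun u => (parA (ns j)).psi (x u)) 0 t) atTop
      (𝓝 (l t)))
    (hlc : Continuous l)
    (hL : ∀ t, Tendsto (fun ε : ℝ => occ μ x t ε / (2 * ε)) (𝓝[>] 0) (𝓝 (L t))) (t : ℝ≥0) :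
    L t = l t := by
  have hfin : ∀ t, μ (Set.Iic t) ≠ ∞ := fun t => by rw [hμ]; exact ENNReal.ofReal_ne_top
  have hdy : ∀ m j, L (tt m j) = l (tt m j) := by
    intro m j
    refine tendsto_nhds_unique ((trap_limit hx (hfin _) (hL (tt m j))).comp
      hns.tendsto_atTop) ?_
    refine (hl (tt m j)).congr (fun k => ?_)
    simp only [Function.comp]
    rw [int_eq_tint hx hμ hqm hq0 hq (parA (ns k)).psi_cont (parA (ns k)).hρ
      (fun y hy => ((parA (ns k)).tf.zero y hy).2)]
  have hLm : Monotone L := by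
    intro s t hst
    refine le_of_tendsto_of_tendsto (hL s) (hL t) ?_
    filter_upwards [self_mem_nhdsWithin] with ε hε
    have hε' : (0:ℝ) < ε := hε
    have : occ μ x s ε ≤ occ μ x t ε := by
      unfold occ
      refine ENNReal.toReal_mono (ne_top_of_le_ne_top (hfin t)
        (measure_mono Set.inter_subset_left)) ?_
      exact measure_mono (Set.inter_subset_inter_left _ (Set.Iic_subset_Iic.mpr hst))
    gcongr
  -- dyadic approximation
  have h1 : Tendsto (fun n : ℕ => tt n ⌊t * 2^n⌋₊) atTop (𝓝 t) := by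
    refine tendsto_of_tendsto_of_tendsto_of_le_of_le (g := fun n : ℕ => t - 1/2^n) ?_
      tendsto_const_nhds (fun n => ?_) (fun n => tt_floor_le n t)
    · have := tendsto_mesh 1
      simpa using (tendsto_const_nhds (x := t)).sub this
    · simp only
      rw [tsub_le_iff_right, ← tt_succ]
      exact (lt_tt_floor n t).le
  have h2 : Tendsto (fun n : ℕ => tt n (⌊t * 2^n⌋₊ + 1)) atTop (𝓝 t) := by
    have := h1.add (tendsto_mesh 1)
    rw [add_zero] at this
    refine this.congr (fun n => ?_)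
    rw [tt_succ]
  refine tendsto_nhds_unique (f := fun _ : ℕ => L t) (l := atTop) tendsto_const_nhds ?_
  refine tendsto_of_tendsto_of_tendsto_of_le_of_le ((hlc.tendsto t).comp h1)
    ((hlc.tendsto t).comp h2) (fun n => ?_) (fun n => ?_)
  · simp only [Function.comp]
    rw [← hdy]
    exact hLm (tt_floor_le n t)
  · simp only [Function.comp]
    rw [← hdy]
    exact hLm (lt_tt_floor n t).le

end Pool.Agent.SkewBM
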