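import Pool.Agent.Lib.MP_e34d70_pr.Trap
import Pool.Agent.Lib.MP_e34d70_pr.UC

open MeasureTheory Filter ProbabilityTheory
open scoped NNReal ENNReal Topology

namespace Pool.Agent.SkewBM

variable {Ω : Type*} {mΩ : MeasurableSpace Ω} {P : Measure Ω} {𝓕 : Filtration ℝ≥0 mΩ}

theorem integral_abs_le_sqrt [IsProbabilityMeasure P] {f : Ω → ℝ} (hf : MemLp f 2 P) :
    ∫ ω, |f ω| ∂P ≤ Real.sqrt (∫ ω, (f ω)^2 ∂P) := by
  set m := ∫ ω, |f ω| ∂P with hm
  have hi : Integrable (fun ω => |f ω|) P := (hf.integrable (by norm_num)).abs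
  have h0 : 0 ≤ ∫ ω, (|f ω| - m)^2 ∂P := integral_nonneg (fun ω => sq_nonneg _)
  have e : ∀ ω, (|f ω| - m)^2 = (f ω)^2 - (2 * m) * |f ω| + m^2 := fun ω => by
    rw [sub_sq, sq_abs]; ring
  simp_rw [e] at h0
  have i1 : Integrable (fun ω => (f ω)^2 - (2*m) * |f ω|) P :=
    hf.integrable_sq.sub (hi.const_mul _)
  rw [integral_add i1 (integrable_const _), integral_sub hf.integrable_sq (hi.const_mul _),
    integral_const_mul, ← hm] at h0
  simp only [integral_const, probReal_univ, smul_eq_mul, one_mul] at h0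
  refine Real.le_sqrt_of_sq_le ?_
  nlinarith

theorem continuous_tint {g : ℝ≥0 → ℝ} (hg : Continuous g) (s : ℝ≥0) :
    Continuous (fun t : ℝ≥0 => tint g s t) := by
  unfold tint
  have h := intervalIntegral.continuous_primitive (μ := volume)
    (fun a b => (cont_toNN hg).intervalIntegrable a b) (s:ℝ)
  exact h.comp NNReal.continuous_coe

variable {F F' ψ : ℝ → ℝ} {C₁ C₂ C₃ ρ : ℝ} {B X : ℝ≥0 → Ω → ℝ}

/-- The away from zero property. -/
def AZ (P : Measure Ω) (X B : ℝ≥0 → Ω → ℝ) : Prop :=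
  ∀ᵐ ω ∂P, ∀ s t, s ≤ t → (∀ u, s ≤ u → u ≤ t → X u ω ≠ 0) →
      X t ω - X s ω = B t ω - B s ω

/-- The martingale part of `F(X)`. -/
noncomputable def KF (F ψ : ℝ → ℝ) (x : ℝ≥0 → ℝ) (t : ℝ≥0) : ℝ :=
  F (x t) - F (x 0) - (1/2) * tint (fun u => ψ (x u)) 0 t

theorem KF_sub {F ψ : ℝ → ℝ} {x : ℝ≥0 → ℝ} (h : Continuous (fun u => ψ (x u))) (s t : ℝ≥0) :
    KF F ψ x t - KF F ψ x s = F (x t) - F (x s) - (1/2) * tint (fun u => ψ (x u)) s t := by
  unfold KF
  rw [← tint_add h 0 s t]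
  ring

theorem fp_int_bdd [IsProbabilityMeasure P] {f : ℝ → ℝ} (hf : Continuous f) {C : ℝ}
    (hb : ∀ x, |f x| ≤ C)
    (hXm : ∀ t, Measurable (X t)) (hXc : ∀ ω, Continuous (fun t => X t ω)) (s h : ℝ≥0) :
    Integrable (fun ω => tint (fun u => f (X u ω)) s (s+h)) P := by
  have hm : Measurable (fun ω => tint (fun u => f (X u ω)) s (s+h)) :=
    tint_measurable (g := fun u ω => f (X u ω)) (fun t => hf.measurable.comp (hXm t))
      (fun ω => hf.comp (hXc ω)) s h
  refine (integrable_const (C * h)).mono' hm.aestronglyMeasurable (ae_of_all _ fun ω => ?_)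
  rw [Real.norm_eq_abs]
  refine (abs_tint_le le_self_add (C := C) (fun u _ _ => hb _)).trans ?_
  push_cast
  rw [add_sub_cancel_left]

theorem kf_inc [IsProbabilityMeasure P] (hB : BMW 𝓕 P B) (hXa : ∀ t, Measurable[𝓕 t] (X t))
    (hXc : ∀ ω, Continuous (fun t => X t ω)) (hAZ : AZ P X B)
    (hT : TF F F' ψ C₁ C₂ C₃ ρ) {s t : ℝ≥0} (hst : s ≤ t) :
    MInc (𝓕 s) P (fun ω => KF F ψ (fun u => X u ω) t - KF F ψ (fun u => X u ω) s)
      (∫ ω, tint (fun u => (F' (X u ω))^2) s t ∂P) := by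
  have h1 := ito hB hXa hXc hAZ hT s (t - s)
  rw [add_tsub_cancel_of_le hst] at h1
  refine h1.congr (ae_of_all _ fun ω => ?_)
  simp only
  rw [KF_sub (x := fun u => X u ω) (hT.cont_ψ.comp (hXc ω))]

theorem kf_mart [IsProbabilityMeasure P] (hB : BMW 𝓕 P B) (hXa : ∀ t, Measurable[𝓕 t] (X t))
    (hXc : ∀ ω, Continuous (fun t => X t ω)) (hAZ : AZ P X B)
    (hT : TF F F' ψ C₁ C₂ C₃ ρ) :
    Mart 𝓕 P (fun t ω => KF F ψ (fun u => X u ω) t) where
  adapted t := by
    unfold KF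
    refine ((hT.cont_F.measurable.comp (hXa t)).sub (hT.cont_F.measurable.comp
      ((hXa 0).mono (𝓕.mono zero_le) le_rfl))).sub (Measurable.const_mul ?_ _)
    have h1 := tint_adapted (𝓕 := 𝓕) (g := fun u ω => ψ (X u ω))
      (fun t => hT.cont_ψ.measurable.comp (hXa t)) (fun ω => hT.cont_ψ.comp (hXc ω)) 0 t
    rw [zero_add] at h1
    exact h1
  cont ω := by
    unfold KF
    exact ((hT.cont_F.comp (hXc ω)).sub continuous_const).sub
      ((continuous_tint (hT.cont_ψ.comp (hXc ω)) 0).const_mul _)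
  zero ω := by simp [KF, tint_self]
  memLp t := by
    have h1 := (kf_inc hB hXa hXc hAZ hT (s := 0) (t := t) zero_le).memLp
    have h2 : (fun ω => KF F ψ (fun u => X u ω) t - KF F ψ (fun u => X u ω) 0)
        = fun ω => KF F ψ (fun u => X u ω) t := by
      ext ω; simp [KF, tint_self]
    rwa [h2] at h1
  orth s t hst := (kf_inc hB hXa hXc hAZ hT hst).orth

theorem kf_sq [IsProbabilityMeasure P] (hB : BMW 𝓕 P B) (hXa : ∀ t, Measurable[𝓕 t] (X t))
    (hXc : ∀ ω, Continuous (fun t => X t ω)) (hAZ : AZ P X B)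
    (hT : TF F F' ψ C₁ C₂ C₃ ρ) (t : ℝ≥0) :
    ∫ ω, (KF F ψ (fun u => X u ω) t)^2 ∂P ≤ ∫ ω, tint (fun u => (F' (X u ω))^2) 0 t ∂P := by
  have h1 := (kf_inc hB hXa hXc hAZ hT (s := 0) (t := t) zero_le).sq_le
  have h2 : (fun ω => (KF F ψ (fun u => X u ω) t - KF F ψ (fun u => X u ω) 0)^2)
      = fun ω => (KF F ψ (fun u => X u ω) t)^2 := by
    ext ω; simp [KF, tint_self]
  rwa [h2] at h1

/-- the expected occupation weight -/
noncomputable def cc (P : Measure Ω) (X : ℝ≥0 → Ω → ℝ) (p : Par) (T : ℝ≥0) : ℝ :=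
  ∫ ω, tint (fun u => (p.Fp (X u ω))^2) 0 T ∂P

theorem fpsq_integrable [IsProbabilityMeasure P] (p : Par)
    (hXm : ∀ t, Measurable (X t)) (hXc : ∀ ω, Continuous (fun t => X t ω)) (T : ℝ≥0) :
    Integrable (fun ω => tint (fun u => (p.Fp (X u ω))^2) 0 T) P := by
  have h1 := fp_int_bdd (P := P) (X := X) (f := fun x => (p.Fp x)^2) (p.Fp_cont.pow 2) (C := 1)
    (fun x => by rw [abs_of_nonneg (sq_nonneg _)]; exact p.Fp_sq_le x) hXm hXc 0 T
  rw [zero_add] at h1
  exact h1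

theorem cc_le [IsProbabilityMeasure P] (p : Par)
    (hXm : ∀ t, Measurable (X t)) (hXc : ∀ ω, Continuous (fun t => X t ω)) (T : ℝ≥0) :
    cc P X p T ≤ T := by
  unfold cc
  calc ∫ ω, tint (fun u => (p.Fp (X u ω))^2) 0 T ∂P ≤ ∫ _, (T:ℝ) ∂P := by
        refine integral_mono (fpsq_integrable p hXm hXc T) (integrable_const _) (fun ω => ?_)
        simp only
        have h1 := tint_mono (f := fun u => (p.Fp (X u ω))^2) (g := fun _ => 1)
          ((p.Fp_cont.comp (hXc ω)).pow 2) continuous_const (s := 0) (t := T) zero_le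
          (fun u _ _ => p.Fp_sq_le _)
        rw [tint_const] at h1
        simpa using h1
    _ = T := by simp

theorem cc_diff [IsProbabilityMeasure P] (hB : BMW 𝓕 P B) (hXa : ∀ t, Measurable[𝓕 t] (X t))
    (hXc : ∀ ω, Continuous (fun t => X t ω)) (hAZ : AZ P X B) {p q : Par} (hpq : p.b ≤ q.ρ)
    (T : ℝ≥0) :
    ∫ ω, (KF p.FF p.psi (fun u => X u ω) T - KF q.FF q.psi (fun u => X u ω) T)^2 ∂P
      ≤ cc P X p T - cc P X q T := by
  have hXm : ∀ t, Measurable (X t) := fun t => (hXa t).mono (𝓕.le t) le_rfl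
  have h1 := kf_sq hB hXa hXc hAZ (p.tf.sub q.tf) T
  have h2 : ∀ ω, KF (fun x => p.FF x - q.FF x) (fun x => p.psi x - q.psi x) (fun u => X u ω) T
      = KF p.FF p.psi (fun u => X u ω) T - KF q.FF q.psi (fun u => X u ω) T := by
    intro ω
    have e := tint_sub (f := fun u => p.psi (X u ω)) (g := fun u => q.psi (X u ω))
      (p.psi_cont.comp (hXc ω)) (q.psi_cont.comp (hXc ω)) 0 T
    simp only [KF]
    rw [e]
    ring
  simp_rw [h2] at h1
  refine h1.trans ?_
  unfold cc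
  rw [← integral_sub (fpsq_integrable p hXm hXc T) (fpsq_integrable q hXm hXc T)]
  have hc1 := p.Fp_cont
  have hc2 := q.Fp_cont
  refine integral_mono ?_ ((fpsq_integrable p hXm hXc T).sub (fpsq_integrable q hXm hXc T))
    (fun ω => ?_)
  · have h3 := fp_int_bdd (P := P) (X := X) (f := fun x => (p.Fp x - q.Fp x)^2)
      ((hc1.sub hc2).pow 2) (C := 4)
      (fun x => by
        rw [abs_of_nonneg (sq_nonneg _)]
        have ha := abs_le.mp (p.abs_Fp_le x)
        have hb := abs_le.mp (q.abs_Fp_le x)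
        nlinarith) hXm hXc 0 T
    rw [zero_add] at h3
    exact h3
  · simp only
    rw [← tint_sub (f := fun u => (p.Fp (X u ω))^2) (g := fun u => (q.Fp (X u ω))^2)
      ((hc1.comp (hXc ω)).pow 2) ((hc2.comp (hXc ω)).pow 2)]
    exact tint_mono (((hc1.comp (hXc ω)).sub (hc2.comp (hXc ω))).pow 2)
      (((hc1.comp (hXc ω)).pow 2).sub ((hc2.comp (hXc ω)).pow 2)) zero_le
      (fun u _ _ => Par.nest p q hpq _)

/-! ### the rapidly decreasing family -/

noncomputable def bA (k : ℕ) : ℝ := 1 / ((k+8).factorial : ℝ)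

theorem bA_pos (k : ℕ) : 0 < bA k := by
  unfold bA; have := Nat.factorial_pos (k+8); positivity

theorem bA_succ (k : ℕ) : bA (k+1) = bA k / (k+9) := by
  unfold bA
  have h : (k + 1 + 8).factorial = (k+9) * (k+8).factorial := by
    rw [show k+1+8 = (k+8)+1 by ring, Nat.factorial_succ]
  rw [h]
  have := Nat.factorial_pos (k+8)
  push_cast
  field_simp

noncomputable def parA (k : ℕ) : Par where
  ρ := bA (k+1)
  a := bA k - bA (k+1)
  b := bA k
  hρ := bA_pos _
  ha := by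
    have h1 := bA_pos k
    have h2 : bA (k+1) * (k+9) = bA k := by
      rw [bA_succ]; field_simp
    have h3 := bA_pos (k+1)
    nlinarith [mul_nonneg h3.le (Nat.cast_nonneg (α := ℝ) k)]
  hb := by have := bA_pos (k+1); linarith

theorem bA_antitone : Antitone bA := by
  refine antitone_nat_of_succ_le (fun k => ?_)
  rw [bA_succ]
  exact div_le_self (bA_pos k).le (by have : (0:ℝ) ≤ k := Nat.cast_nonneg k; linarith)

theorem bA_le (k : ℕ) : bA k ≤ 1 / (k+1) := by
  unfold bA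
  have h1 : ((k+1 : ℕ):ℝ) ≤ ((k+8).factorial : ℝ) := by
    have h2 : k + 1 ≤ (k+8).factorial := le_trans (by omega) (Nat.self_le_factorial (k+8))
    exact_mod_cast h2
  push_cast at h1
  gcongr

theorem bA_tendsto : Tendsto bA atTop (𝓝 0) :=
  squeeze_zero (fun k => (bA_pos k).le) bA_le tendsto_one_div_add_atTop_nhds_zero_nat

theorem parA_nest {j k : ℕ} (h : k < j) : (parA j).b ≤ (parA k).ρ := bA_antitone h

theorem cc_mono [IsProbabilityMeasure P] (hB : BMW 𝓕 P B) (hXa : ∀ t, Measurable[𝓕 t] (X t))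
    (hXc : ∀ ω, Continuous (fun t => X t ω)) (hAZ : AZ P X B) (T : ℝ≥0) :
    Monotone (fun k => cc P X (parA k) T) := by
  refine monotone_nat_of_le_succ (fun k => ?_)
  have h1 := cc_diff hB hXa hXc hAZ (parA_nest (Nat.lt_succ_self k)) T
  have h2 : 0 ≤ ∫ ω, (KF (parA (k+1)).FF (parA (k+1)).psi (fun u => X u ω) T
    - KF (parA k).FF (parA k).psi (fun u => X u ω) T)^2 ∂P := integral_nonneg (fun ω => sq_nonneg _)
  linarith

/-- Tanaka's formula for `|X|`. -/
theorem tanaka [IsProbabilityMeasure P] (hnull : ∀ A : Set Ω, P A = 0 → MeasurableSet[𝓕 0] A)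
    (hB : BMW 𝓕 P B) (hXa : ∀ t, Measurable[𝓕 t] (X t))
    (hXc : ∀ ω, Continuous (fun t => X t ω)) (hAZ : AZ P X B) :
    ∃ K : ℝ≥0 → Ω → ℝ, Mart 𝓕 P K ∧
      (∀ T : ℝ≥0, ∃ c : ℝ, Tendsto (fun k => cc P X (parA k) T) atTop (𝓝 c) ∧ c ≤ T ∧
        ∫ ω, (K T ω)^2 ∂P ≤ c) ∧
      ∃ ns : ℕ → ℕ, StrictMono ns ∧ ∀ᵐ ω ∂P,
        LU (fun k t => KF (parA (ns k)).FF (parA (ns k)).psi (fun u => X u ω) t)
          (fun t => K t ω) := by
  have hXm : ∀ t, Measurable (X t) := fun t => (hXa t).mono (𝓕.le t) le_rfl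
  have hK : ∀ n, Mart 𝓕 P (fun t ω => KF (parA n).FF (parA n).psi (fun u => X u ω) t) :=
    fun n => kf_mart hB hXa hXc hAZ (parA n).tf
  have hcl : ∀ T : ℝ≥0, ∃ c : ℝ, Tendsto (fun k => cc P X (parA k) T) atTop (𝓝 c) ∧ c ≤ T := by
    intro T
    have h1 : BddAbove (Set.range (fun k => cc P X (parA k) T)) :=
      ⟨T, by rintro _ ⟨k, rfl⟩; exact cc_le _ hXm hXc T⟩
    refine ⟨_, tendsto_atTop_ciSup (cc_mono hB hXa hXc hAZ T) h1, ?_⟩
    exact ciSup_le (fun k => cc_le _ hXm hXc T)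
  have hcau : ∀ T : ℝ≥0, ∀ ε : ℝ, 0 < ε → ∀ᶠ N in atTop, ∀ n ≥ N, ∀ m ≥ N,
      ∫ ω, |KF (parA n).FF (parA n).psi (fun u => X u ω) T
        - KF (parA m).FF (parA m).psi (fun u => X u ω) T| ∂P ≤ ε := by
    intro T ε hε
    obtain ⟨c, hc, -⟩ := hcl T
    have h1 := (Metric.tendsto_atTop.mp hc) (ε^2/2) (by positivity)
    obtain ⟨N, hN⟩ := h1
    filter_upwards [eventually_ge_atTop N] with M hM n hn m hm
    -- wlog
    have key : ∀ n m, M ≤ m → m < n →
        ∫ ω, |KF (parA n).FF (parA n).psi (fun u => X u ω) T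
        - KF (parA m).FF (parA m).psi (fun u => X u ω) T| ∂P ≤ ε := by
      intro n m hm hnm
      have h2 := cc_diff hB hXa hXc hAZ (parA_nest hnm) T
      have h3 := hN n (by omega)
      have h4 := hN m (by omega)
      rw [Real.dist_eq, abs_lt] at h3 h4
      have h5 : ∫ ω, (KF (parA n).FF (parA n).psi (fun u => X u ω) T
        - KF (parA m).FF (parA m).psi (fun u => X u ω) T)^2 ∂P ≤ ε^2 := by linarith [h3.2, h4.1]
      refine (integral_abs_le_sqrt (((hK n).memLp T).sub ((hK m).memLp T))).trans ?_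
      calc _ ≤ Real.sqrt (ε^2) := Real.sqrt_le_sqrt h5
        _ = ε := Real.sqrt_sq hε.le
    rcases lt_trichotomy n m with h | h | h
    · have h6 := key m n hn h
      have h7 : ∀ ω, |KF (parA n).FF (parA n).psi (fun u => X u ω) T
        - KF (parA m).FF (parA m).psi (fun u => X u ω) T|
        = |KF (parA m).FF (parA m).psi (fun u => X u ω) T
        - KF (parA n).FF (parA n).psi (fun u => X u ω) T| := fun ω => abs_sub_comm _ _
      simp_rw [h7]
      exact h6
    · subst h; simp [hε.le]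
    · exact key n m hm h
  obtain ⟨K', hK', ns, hns, hLU⟩ := uc hnull hK hcau (fun T => ⟨T, fun n =>
    (kf_sq hB hXa hXc hAZ (parA n).tf T).trans (cc_le _ hXm hXc T)⟩)
  refine ⟨K', hK', fun T => ?_, ns, hns, hLU⟩
  obtain ⟨c, hc, hcT⟩ := hcl T
  refine ⟨c, hc, hcT, ?_⟩
  have h1 : MInc (𝓕 0) P (fun ω => K' T ω) c := by
    refine MInc.of_tim (𝓕.le 0)
      (D := fun k ω => KF (parA (ns k)).FF (parA (ns k)).psi (fun u => X u ω) T)
      (c := fun k => cc P X (parA (ns k)) T) (fun k => ?_) (hc.comp hns.tendsto_atTop) ?_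
    · have h2 := (hK (ns k)).inc (s := 0) (t := T) zero_le
      have h3 : ∀ ω, KF (parA (ns k)).FF (parA (ns k)).psi (fun u => X u ω) T
          - KF (parA (ns k)).FF (parA (ns k)).psi (fun u => X u ω) 0
          = KF (parA (ns k)).FF (parA (ns k)).psi (fun u => X u ω) T := by
        intro ω; simp [KF, tint_self]
      simp_rw [h3] at h2
      exact h2.mono_c (kf_sq hB hXa hXc hAZ (parA (ns k)).tf T)
    · refine TZ.of_tendsto_ae (fun k => ?_) ?_
      · exact (((hK (ns k)).meas T).sub (hK'.meas T)).aestronglyMeasurable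
      · filter_upwards [hLU] with ω hω
        have := (hω.tendsto T).sub_const (K' T ω)
        simpa using this
  exact h1.sq_le

end Pool.Agent.SkewBM
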