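import Pool.Agent.Lib.MP_e34d70_pr.Stop
import Pool.Agent.Lib.MP_e34d70_pr.BM
import Pool.Agent.Lib.MP_e34d70_pr.Tanaka

open MeasureTheory Filter ProbabilityTheory
open scoped NNReal ENNReal Topology

namespace Pool.Agent.SkewBM

variable {Ω : Type*} {mΩ : MeasurableSpace Ω} {P : Measure Ω} {𝓕 : Filtration ℝ≥0 mΩ}

/-- regularised data extracted from a solution -/
structure SD (𝓕 : Filtration ℝ≥0 mΩ) (P : Measure Ω) (B : ℝ≥0 → Ω → ℝ) (φ : ℝ → ℝ)
    (X K L : ℝ≥0 → Ω → ℝ) : Prop where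
  hB : BMW 𝓕 P B
  hK : Mart 𝓕 P K
  hup : ∀ t, ∫ ω, (K t ω)^2 ∂P ≤ t
  Xa : ∀ t, Measurable[𝓕 t] (X t)
  Xc : ∀ ω, Continuous (fun t => X t ω)
  La : ∀ t, Measurable[𝓕 t] (L t)
  Lc : ∀ ω, Continuous (fun t => L t ω)
  L0 : ∀ ω, L 0 ω = 0
  Lm : ∀ᵐ ω ∂P, Monotone (fun t => L t ω)
  flat : ∀ᵐ ω ∂P, ∀ s t, s ≤ t → (∀ u, s ≤ u → u ≤ t → X u ω ≠ 0) → L t ω = L s ω
  eqn : ∀ᵐ ω ∂P, ∀ t, X t ω = B t ω + φ (L t ω)
  habs : ∀ᵐ ω ∂P, ∀ t, |X t ω| = |φ 0| + K t ω + L t ω

theorem zero_at_lastle {x f : ℝ≥0 → ℝ} {l : ℝ} {T : ℝ≥0} (hx : Continuous x) (hf : Continuous f)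
    (h0 : f 0 ≤ l)
    (hflat : ∀ s t, s ≤ t → (∀ u, s ≤ u → u ≤ t → x u ≠ 0) → f t = f s)
    (h : l < f T) : x (lastle f l T) = 0 := by
  by_contra hne
  have hlt := lastle_lt (T := T) hf h0 h
  have hval := lastle_val (T := T) hf h0 h
  set σ := lastle f l T with hσ
  -- a neighbourhood on which x ≠ 0
  have hev : ∀ᶠ u in 𝓝 σ, x u ≠ 0 := (hx.tendsto σ).eventually (isOpen_ne.mem_nhds hne)
  obtain ⟨b, hb1, hb2⟩ := (mem_nhdsGE_iff_exists_Icc_subset.mp (mem_nhdsWithin_of_mem_nhds hev))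
  have hb1' : σ < b := hb1
  set v := min b T with hv
  have hσv : σ < v := lt_min hb1' hlt
  have h1 := hflat σ v hσv.le (fun u hu1 hu2 => hb2 ⟨hu1, hu2.trans (min_le_left _ _)⟩)
  have h2 := gt_of_lastle_lt (f := f) (l := l) (T := T) (min_le_right b T) hσv
  rw [← hv, h1, hval] at h2
  exact lt_irrefl _ h2

namespace SD

variable {B X K L : ℝ≥0 → Ω → ℝ} {φ : ℝ → ℝ}

/-- the increasing process reaches every level below which `φ` is bounded -/
theorem reach [IsProbabilityMeasure P] (h : SD 𝓕 P B φ X K L) {l c : ℝ} (hl : 0 ≤ l)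
    (hc : ∀ y, 0 ≤ y → y ≤ l → |φ y| ≤ c) :
    Tendsto (fun n : ℕ => P.real {ω | L (n:ℝ≥0) ω ≤ l}) atTop (𝓝 0) := by
  have hc0 : 0 ≤ c := (abs_nonneg _).trans (hc 0 le_rfl hl)
  -- main estimate
  have key : ∀ (T : ℝ≥0) (N : ℝ), T ≠ 0 → 0 < N → P.real {ω | L T ω ≤ l}
      ≤ (|φ 0| + l) / N + 2 * (N + c) / Real.sqrt T := by
    intro T N hT hN
    obtain ⟨i1, e1⟩ := stop_zero h.hK h.La h.Lc h.Lm h.L0 hl T
    set σ : Ω → ℝ≥0 := fun ω => lastle (fun t => L t ω) l T with hσ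
    set g : Ω → ℝ := fun ω => |φ 0| + K (σ ω) ω + l with hg
    have hgi : Integrable g P := ((integrable_const _).add i1).add (integrable_const _)
    have hgE : ∫ ω, g ω ∂P = |φ 0| + l := by
      have q1 := integral_add (μ := P) (f := fun ω => |φ 0| + K (σ ω) ω) (g := fun _ => l)
        ((integrable_const _).add i1) (integrable_const _)
      have q2 := integral_add (μ := P) (f := fun _ => |φ 0|) (g := fun ω => K (σ ω) ω)
        (integrable_const _) i1
      simp only [hg]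
      rw [q1, q2, e1]
      simp
    have hXg : ∀ᵐ ω ∂P, |X (σ ω) ω| ≤ g ω := by
      filter_upwards [h.habs] with ω h1
      rw [h1 (σ ω)]
      have h2 := (lastle_mem (T := T) (l := l) (h.Lc ω) (by rw [h.L0]; exact hl)).2
      simp only [hg, hσ] at h2 ⊢
      linarith
    have hg0 : 0 ≤ᵐ[P] g := by
      filter_upwards [hXg] with ω h1 using (abs_nonneg _).trans h1
    have hmk := mul_meas_ge_le_integral_of_nonneg hg0 hgi N
    rw [hgE] at hmk
    have h3 : P.real {ω | N ≤ g ω} ≤ (|φ 0| + l) / N := by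
      rw [le_div_iff₀ hN, mul_comm]; exact hmk
    have h4 : P.real {ω | |B T ω| ≤ N + c} ≤ 2 * (N + c) / Real.sqrt T := by
      have hlaw := h.hB.law 0 T zero_le
      simp only [h.hB.zero, sub_zero, tsub_zero] at hlaw
      have h5 := g_ball T hT (N + c) (by linarith)
      rw [← hlaw] at h5
      rw [Measure.real, Measure.map_apply (h.hB.meas T)
        (measurableSet_le continuous_abs.measurable measurable_const)] at h5
      exact h5
    have hsub : P.real {ω | L T ω ≤ l} ≤ P.real ({ω | N ≤ g ω} ∪ {ω | |B T ω| ≤ N + c}) := by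
      refine ENNReal.toReal_mono (measure_ne_top _ _) (measure_mono_ae ?_)
      filter_upwards [hXg, h.eqn, h.Lm] with ω h6 h7 h8 h9
      have h9' : L T ω ≤ l := h9
      have hσT : σ ω = T := lastle_eq_of_le (f := fun t => L t ω) h9'
      rw [hσT] at h6
      by_cases h10 : N ≤ g ω
      · exact Or.inl h10
      · right
        push Not at h10
        have h11 := h7 T
        have h12 : 0 ≤ L T ω := by
          have : L 0 ω ≤ L T ω := h8 zero_le
          rwa [h.L0] at this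
        have h13 := hc (L T ω) h12 h9'
        have h14 : B T ω = X T ω - φ (L T ω) := by linarith
        show |B T ω| ≤ N + c
        rw [h14]
        exact (abs_sub _ _).trans (by linarith)
    calc P.real {ω | L T ω ≤ l} ≤ _ := hsub
      _ ≤ P.real {ω | N ≤ g ω} + P.real {ω | |B T ω| ≤ N + c} := measureReal_union_le _ _
      _ ≤ _ := add_le_add h3 h4
  rw [Metric.tendsto_atTop]
  intro ε hε
  set N : ℝ := 4 * (|φ 0| + l + 1) / ε with hN
  have hNpos : 0 < N := by have := abs_nonneg (φ 0); positivity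
  have hsq : Tendsto (fun n : ℕ => 2 * (N + c) / Real.sqrt (n:ℝ)) atTop (𝓝 0) := by
    refine Tendsto.const_div_atTop ?_ _
    exact (Real.tendsto_sqrt_atTop).comp tendsto_natCast_atTop_atTop
  obtain ⟨M, hM⟩ := eventually_atTop.mp (hsq.eventually (gt_mem_nhds (show (0:ℝ) < ε/2 by positivity)))
  refine ⟨max M 1, fun n hn => ?_⟩
  rw [Real.dist_eq, sub_zero, abs_of_nonneg measureReal_nonneg]
  have hn1 : 1 ≤ n := (le_max_right M 1).trans hn
  have h1 := key (n:ℝ≥0) N (by positivity) hNpos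
  have h2 := hM n ((le_max_left M 1).trans hn)
  have h3 : (|φ 0| + l) / N < ε / 2 := by
    rw [div_lt_iff₀ hNpos, hN]
    have h4 : ε / 2 * (4 * (|φ 0| + l + 1) / ε) = 2 * (|φ 0| + l + 1) := by field_simp; ring
    rw [h4]
    have := abs_nonneg (φ 0)
    linarith
  rw [NNReal.coe_natCast] at h1
  linarith

/-- one-sided Lipschitz bound, for a sign `s = ±1` -/
theorem onesided [IsProbabilityMeasure P] (h : SD 𝓕 P B φ X K L) {l₁ l₂ c : ℝ} (hl : 0 ≤ l₁)
    (hl2 : l₁ < l₂) (hc : ∀ y, 0 ≤ y → y ≤ l₂ → |φ y| ≤ c) {s : ℝ} (hs : s = 1 ∨ s = -1) :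
    0 ≤ (l₂ + s * φ l₂) - (l₁ + s * φ l₁) := by
  have hl2' : 0 ≤ l₂ := hl.trans hl2.le
  have hc0 : 0 ≤ c := (abs_nonneg _).trans (hc 0 le_rfl hl2')
  have hsabs : |s| = 1 := by rcases hs with h | h <;> simp [h]
  set d := (l₂ + s * φ l₂) - (l₁ + s * φ l₁) with hd
  -- the martingale K + s B
  have hY : Mart 𝓕 P (fun t ω => K t ω + s * B t ω) := by
    rcases hs with h1 | h1
    · subst h1; simpa using h.hK.add h.hB.toMart
    · subst h1
      have := h.hK.sub h.hB.toMart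
      simpa [sub_eq_add_neg] using this
  have hreach := h.reach hl2' hc
  have key : ∀ n : ℕ, 0 ≤ d * (1 - P.real {ω | L (n:ℝ≥0) ω ≤ l₂})
      + 2 * (l₂ + c) * P.real {ω | L (n:ℝ≥0) ω ≤ l₂} := by
    intro n
    set T : ℝ≥0 := (n:ℝ≥0) with hT
    obtain ⟨i1, e1⟩ := stop_zero hY h.La h.Lc h.Lm h.L0 hl T
    obtain ⟨i2, e2⟩ := stop_zero hY h.La h.Lc h.Lm h.L0 hl2' T
    set σ1 : Ω → ℝ≥0 := fun ω => lastle (fun t => L t ω) l₁ T with hσ1
    set σ2 : Ω → ℝ≥0 := fun ω => lastle (fun t => L t ω) l₂ T with hσ2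
    set A : Set Ω := {ω | L T ω ≤ l₂} with hA
    have hAm : MeasurableSet A := ((h.La T).mono (𝓕.le T) le_rfl) measurableSet_Iic
    have hpt : ∀ᵐ ω ∂P, -(d * Aᶜ.indicator (fun _ => (1:ℝ)) ω
        + 2 * (l₂ + c) * A.indicator (fun _ => (1:ℝ)) ω)
        ≤ (K (σ2 ω) ω + s * B (σ2 ω) ω) - (K (σ1 ω) ω + s * B (σ1 ω) ω) := by
      filter_upwards [h.eqn, h.habs, h.Lm, h.flat] with ω hX habs hm hflat
      have hLc := h.Lc ω
      have h01 : L 0 ω ≤ l₁ := by rw [h.L0]; exact hl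
      have h02 : L 0 ω ≤ l₂ := by rw [h.L0]; exact hl2'
      obtain ⟨a1, a2⟩ := lastle_mem (T := T) (l := l₁) hLc h01
      obtain ⟨b1, b2⟩ := lastle_mem (T := T) (l := l₂) hLc h02
      have hab : σ1 ω ≤ σ2 ω := lastle_mono hLc h01 hl2.le
      have hL1 : 0 ≤ L (σ1 ω) ω := by
        have : L 0 ω ≤ L (σ1 ω) ω := hm zero_le
        rwa [h.L0] at this
      have hL2 : 0 ≤ L (σ2 ω) ω := by
        have : L 0 ω ≤ L (σ2 ω) ω := hm zero_le
        rwa [h.L0] at this
      -- representation of Y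
      have hYr : ∀ t, K t ω + s * B t ω
          = (|X t ω| + s * X t ω) - |φ 0| - (L t ω + s * φ (L t ω)) := by
        intro t
        have e3 := hX t
        have e4 := habs t
        have e5 : B t ω = X t ω - φ (L t ω) := by linarith
        rw [e5]
        linarith
      have hplus : ∀ x : ℝ, 0 ≤ |x| + s * x := by
        intro x
        have h5 : |s * x| = |x| := by rw [abs_mul, hsabs, one_mul]
        have := neg_abs_le (s * x)
        linarith
      have hdiff : 0 ≤ (|X (σ2 ω) ω| + s * X (σ2 ω) ω) - (|X (σ1 ω) ω| + s * X (σ1 ω) ω) := by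
        rcases lt_or_ge l₁ (L T ω) with h6 | h6
        · have h7 : X (σ1 ω) ω = 0 :=
            zero_at_lastle (x := fun t => X t ω) (f := fun t => L t ω) (h.Xc ω) hLc h01 hflat h6
          rw [h7]
          have := hplus (X (σ2 ω) ω)
          simp only [abs_zero, mul_zero, add_zero, sub_zero]
          exact this
        · have h7 : σ1 ω = T := lastle_eq_of_le (f := fun t => L t ω) h6
          have h8 : σ2 ω = T := lastle_eq_of_le (f := fun t => L t ω) (h6.trans hl2.le)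
          rw [h7, h8, sub_self]
      rw [hYr, hYr]
      by_cases hω : ω ∈ A
      · have hω' : ω ∉ Aᶜ := fun h => h hω
        rw [Set.indicator_of_mem hω, Set.indicator_of_notMem hω']
        have c1 := hc _ hL1 (a2.trans hl2.le)
        have c2 := hc _ hL2 b2
        have c3 : |s * φ (L (σ1 ω) ω)| ≤ c := by rw [abs_mul, hsabs, one_mul]; exact c1
        have c4 : |s * φ (L (σ2 ω) ω)| ≤ c := by rw [abs_mul, hsabs, one_mul]; exact c2
        have c5 := abs_le.mp c3
        have c6 := abs_le.mp c4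
        have c7 : L (σ2 ω) ω ≤ l₂ := b2
        linarith
      · have hω' : ω ∈ Aᶜ := hω
        rw [Set.indicator_of_notMem hω, Set.indicator_of_mem hω']
        have hgt : l₂ < L T ω := not_le.mp hω
        have v1 : L (σ1 ω) ω = l₁ := lastle_val (f := fun t => L t ω) hLc h01 (hl2.trans hgt)
        have v2 : L (σ2 ω) ω = l₂ := lastle_val (f := fun t => L t ω) hLc h02 hgt
        rw [v1, v2]
        linarith
    have hi1 : Integrable (fun ω => d * Aᶜ.indicator (fun _ => (1:ℝ)) ω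
        + 2 * (l₂ + c) * A.indicator (fun _ => (1:ℝ)) ω) P :=
      (((integrable_const (1:ℝ)).indicator hAm.compl).const_mul _).add
        (((integrable_const (1:ℝ)).indicator hAm).const_mul _)
    have hfin := integral_mono_ae hi1.neg (i2.sub i1) hpt
    rw [integral_sub' i2 i1, e1, e2, sub_zero] at hfin
    have hval : ∫ ω, (d * Aᶜ.indicator (fun _ => (1:ℝ)) ω
        + 2 * (l₂ + c) * A.indicator (fun _ => (1:ℝ)) ω) ∂P
        = d * (1 - P.real A) + 2 * (l₂ + c) * P.real A := by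
      rw [integral_add (((integrable_const (1:ℝ)).indicator hAm.compl).const_mul _)
        (((integrable_const (1:ℝ)).indicator hAm).const_mul _), integral_const_mul,
        integral_const_mul, integral_indicator hAm, integral_indicator hAm.compl]
      simp only [integral_const, smul_eq_mul, mul_one, measureReal_restrict_apply_univ]
      rw [probReal_compl_eq_one_sub hAm]
    have hneg : ∫ ω, (-fun ω => (d * Aᶜ.indicator (fun _ => (1:ℝ)) ω
        + 2 * (l₂ + c) * A.indicator (fun _ => (1:ℝ)) ω)) ω ∂P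
        = - ∫ ω, (d * Aᶜ.indicator (fun _ => (1:ℝ)) ω
        + 2 * (l₂ + c) * A.indicator (fun _ => (1:ℝ)) ω) ∂P := integral_neg _
    rw [hneg, hval] at hfin
    linarith
  have hlim : Tendsto (fun n : ℕ => d * (1 - P.real {ω | L (n:ℝ≥0) ω ≤ l₂})
      + 2 * (l₂ + c) * P.real {ω | L (n:ℝ≥0) ω ≤ l₂}) atTop
      (𝓝 (d * (1 - 0) + 2 * (l₂ + c) * 0)) :=
    ((hreach.const_sub 1).const_mul d).add (hreach.const_mul _)
  have := ge_of_tendsto' hlim key
  simpa using this

/-- **Necessity**: the profile of a solution is `1`-Lipschitz. -/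
theorem lip [IsProbabilityMeasure P] (h : SD 𝓕 P B φ X K L) :
    ∀ y z, 0 ≤ y → 0 ≤ z → |φ y - φ z| ≤ |y - z| := by
  -- Lipschitz on intervals where φ is bounded
  have hlipb : ∀ l c : ℝ, (∀ y, 0 ≤ y → y ≤ l → |φ y| ≤ c) →
      ∀ y z, 0 ≤ y → y ≤ z → z ≤ l → |φ y - φ z| ≤ z - y := by
    intro l c hc y z hy hyz hz
    rcases eq_or_lt_of_le hyz with h1 | h1
    · subst h1; simp
    · have hc' : ∀ w, 0 ≤ w → w ≤ z → |φ w| ≤ c := fun w h2 h3 => hc w h2 (h3.trans hz)
      have a1 := h.onesided hy h1 hc' (Or.inl rfl)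
      have a2 := h.onesided hy h1 hc' (Or.inr rfl)
      rw [abs_le]; constructor <;> linarith
  -- extension of boundedness
  have hext : ∀ l c : ℝ, 0 ≤ l → (∀ y, 0 ≤ y → y ≤ l → |φ y| ≤ c) →
      ∃ l' c' : ℝ, l < l' ∧ ∀ y, 0 ≤ y → y ≤ l' → |φ y| ≤ c' := by
    intro l c hl hc
    have h1 := h.reach hl hc
    obtain ⟨n, hn⟩ := (h1.eventually (gt_mem_nhds (show (0:ℝ) < 1 by norm_num))).exists
    have h2 : ∃ᵐ ω ∂P, l < L (n:ℝ≥0) ω := by
      intro hcon
      have h3 : P {ω | L (n:ℝ≥0) ω ≤ l} = 1 := by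
        have h4 : ∀ᵐ ω ∂P, L (n:ℝ≥0) ω ≤ l := by
          filter_upwards [hcon] with ω hω using not_lt.mp hω
        exact prob_compl_eq_zero_iff₀ (by
          exact (((h.La n).mono (𝓕.le _) le_rfl) measurableSet_Iic).nullMeasurableSet) |>.mp h4
      rw [Measure.real, h3] at hn
      norm_num at hn
    obtain ⟨ω, hω1, hω2⟩ := (h2.and_eventually h.eqn).exists
    obtain ⟨C, hC⟩ := (isCompact_Iic' (n:ℝ≥0)).exists_bound_of_continuousOn
      (f := fun t => X t ω - B t ω) ((h.Xc ω).sub (h.hB.cont ω)).continuousOn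
    refine ⟨L n ω, C, hω1, fun y hy1 hy2 => ?_⟩
    have hivt := intermediate_value_Icc (zero_le (a := (n:ℝ≥0))) ((h.Lc ω).continuousOn
      (s := Set.Icc (0:ℝ≥0) n))
    have hy : y ∈ Set.Icc (L 0 ω) (L n ω) := ⟨by rw [h.L0]; exact hy1, hy2⟩
    obtain ⟨s, hs, hsy⟩ := hivt hy
    have h5 := hC s hs.2
    have h6 := hω2 s
    have h7 : X s ω - B s ω = φ y := by
      simp only at hsy
      rw [h6, hsy]; ring
    rw [h7, Real.norm_eq_abs] at h5
    exact h5
  -- boundedness everywhere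
  have hall : ∀ l : ℝ, ∃ c, ∀ y, 0 ≤ y → y ≤ l → |φ y| ≤ c := by
    by_contra hcon
    push Not at hcon
    obtain ⟨l0, hl0⟩ := hcon
    set S : Set ℝ := {l | 0 ≤ l ∧ ∃ c, ∀ y, 0 ≤ y → y ≤ l → |φ y| ≤ c} with hS
    have h0S : (0:ℝ) ∈ S := ⟨le_rfl, |φ 0|, fun y h1 h2 => by
      have : y = 0 := le_antisymm h2 h1
      rw [this]⟩
    have hbd : BddAbove S := by
      refine ⟨l0, fun l hl => ?_⟩
      by_contra hlt
      push Not at hlt
      obtain ⟨c, hc⟩ := hl.2
      obtain ⟨y, h1, h2, h3⟩ := hl0 c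
      exact absurd (hc y h1 (h2.trans hlt.le)) (not_le.mpr h3)
    set m := sSup S with hm
    have hm0 : 0 ≤ m := le_csSup hbd h0S
    have hbelow : ∀ l, 0 ≤ l → l < m → |φ l| ≤ |φ 0| + m := by
      intro l hl1 hl2
      obtain ⟨l', hl', hlt⟩ := exists_lt_of_lt_csSup ⟨0, h0S⟩ hl2
      obtain ⟨c, hc⟩ := hl'.2
      have h1 := hlipb l' c hc 0 l le_rfl hl1 hlt.le
      have h2 : |φ l| ≤ |φ 0| + |φ 0 - φ l| := by
        have := abs_sub_abs_le_abs_sub (φ l) (φ 0)
        rw [abs_sub_comm] at this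
        linarith
      linarith
    have hmS : ∀ y, 0 ≤ y → y ≤ m → |φ y| ≤ max (|φ 0| + m) |φ m| := by
      intro y h1 h2
      rcases eq_or_lt_of_le h2 with h3 | h3
      · rw [h3]; exact le_max_right _ _
      · exact (hbelow y h1 h3).trans (le_max_left _ _)
    obtain ⟨l', c', hl', hc'⟩ := hext m _ hm0 hmS
    have : l' ≤ m := le_csSup hbd ⟨hm0.trans hl'.le, c', hc'⟩
    linarith
  intro y z hy hz
  rcases le_total y z with h1 | h1
  · obtain ⟨c, hc⟩ := hall z
    have := hlipb z c hc y z hy h1 le_rfl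
    rw [abs_sub_comm y z, abs_of_nonneg (by linarith : 0 ≤ z - y)]
    exact this
  · obtain ⟨c, hc⟩ := hall y
    have := hlipb y c hc z y hz h1 le_rfl
    rw [abs_sub_comm, abs_of_nonneg (by linarith : 0 ≤ y - z)]
    exact this

end SD

end Pool.Agent.SkewBM
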