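import Pool.Agent.Lib.MP_e34d70_pr.Basic

open MeasureTheory Filter ProbabilityTheory
open scoped NNReal ENNReal Topology

namespace Pool.Agent.SkewBM

variable {Ω : Type*} {𝓖 : MeasurableSpace Ω} {mΩ : MeasurableSpace Ω} {P : Measure Ω}

theorem MInc.mono_c {D : Ω → ℝ} {c c' : ℝ} (h : MInc 𝓖 P D c) (hc : c ≤ c') : MInc 𝓖 P D c' :=
  ⟨h.memLp, h.sq_le.trans hc, h.orth⟩

theorem MInc.mono_m {𝓖' : MeasurableSpace Ω} {mΩ : MeasurableSpace Ω} {P : Measure Ω}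
    {D : Ω → ℝ} {c : ℝ} (h : MInc 𝓖 P D c) (hc : 𝓖' ≤ 𝓖) :
    MInc 𝓖' P D c :=
  ⟨h.memLp, h.sq_le, fun ξ hξ hb => h.orth ξ (hξ.mono hc le_rfl) hb⟩

theorem MInc.exact {D : Ω → ℝ} {c : ℝ} (h : MInc 𝓖 P D c) : MInc 𝓖 P D (∫ ω, (D ω)^2 ∂P) :=
  ⟨h.memLp, le_rfl, h.orth⟩

theorem MInc.integrable [IsProbabilityMeasure P] {D : Ω → ℝ} {c : ℝ} (h : MInc 𝓖 P D c) :
    Integrable D P := h.memLp.integrable (by norm_num)

theorem MInc.integral_eq_zero {D : Ω → ℝ} {c : ℝ} (h : MInc 𝓖 P D c) : ∫ ω, D ω ∂P = 0 := by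
  have := h.orth (fun _ => 1) measurable_const (fun _ => by simp)
  simpa using this

theorem memLp_bdd_mul {H D : Ω → ℝ} {C : ℝ} (hH : AEStronglyMeasurable H P)
    (hb : ∀ ω, |H ω| ≤ C) (hD : MemLp D 2 P) : MemLp (fun ω => H ω * D ω) 2 P := by
  have h1 : MemLp (fun ω => C * D ω) 2 P := hD.const_mul C
  refine MemLp.mono h1 (hH.mul hD.1) (ae_of_all _ fun ω => ?_)
  rw [Real.norm_eq_abs, Real.norm_eq_abs, abs_mul, abs_mul]
  exact mul_le_mul_of_nonneg_right ((hb ω).trans (le_abs_self _)) (abs_nonneg _)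

/-- multiplication by a bounded `𝓖`-measurable factor. -/
theorem MInc.bdd_mul [IsProbabilityMeasure P] (h𝓖 : 𝓖 ≤ mΩ) {D H : Ω → ℝ} {c C : ℝ}
    (h : MInc 𝓖 P D c)
    (hH : Measurable[𝓖] H) (hb : ∀ ω, |H ω| ≤ C) :
    MInc 𝓖 P (fun ω => H ω * D ω) (C^2 * c) := by
  have hHm : AEStronglyMeasurable H P := (hH.mono h𝓖 le_rfl).aestronglyMeasurable
  have hmem := memLp_bdd_mul hHm hb h.memLp
  refine ⟨hmem, ?_, ?_⟩
  · calc ∫ ω, (H ω * D ω)^2 ∂P ≤ ∫ ω, C^2 * (D ω)^2 ∂P := by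
          refine integral_mono hmem.integrable_sq (h.memLp.integrable_sq.const_mul _) (fun ω => ?_)
          simp only
          rw [mul_pow]
          refine mul_le_mul_of_nonneg_right ?_ (sq_nonneg _)
          rw [← sq_abs]
          exact pow_le_pow_left₀ (abs_nonneg _) (hb ω) 2
      _ = C^2 * ∫ ω, (D ω)^2 ∂P := integral_const_mul _ _
      _ ≤ C^2 * c := mul_le_mul_of_nonneg_left h.sq_le (sq_nonneg _)
  · intro ξ hξ hbξ
    have h1 := h.orth_sq h𝓖 (ξ := fun ω => ξ ω * H ω) (hξ.mul hH) ?_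
    · rw [← h1]; congr 1; ext ω; ring
    · refine MemLp.of_bound ((hξ.mul hH).mono h𝓖 le_rfl).aestronglyMeasurable C
        (ae_of_all _ fun ω => ?_)
      rw [Real.norm_eq_abs, abs_mul]
      have := mul_le_mul (hbξ ω) (hb ω) (abs_nonneg _) zero_le_one
      simpa using this

/-- additivity of martingale increments. -/
theorem MInc.add_le {𝓖' : MeasurableSpace Ω} {mΩ : MeasurableSpace Ω}
    {P : Measure Ω} [IsProbabilityMeasure P]
    (h𝓖 : 𝓖 ≤ 𝓖') (h𝓖' : 𝓖' ≤ mΩ) {D D' : Ω → ℝ} {c c' : ℝ}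
    (h : MInc 𝓖 P D c) (h' : MInc 𝓖' P D' c') (hD : Measurable[𝓖'] D) :
    MInc 𝓖 P (fun ω => D ω + D' ω) (c + c') := by
  refine ⟨h.memLp.add h'.memLp, ?_, ?_⟩
  · have e1 : ∀ ω, (D ω + D' ω)^2 = (D ω)^2 + 2 * (D ω * D' ω) + (D' ω)^2 := fun ω => by ring
    simp_rw [e1]
    have i1 := h.memLp.integrable_sq
    have i2 := h'.memLp.integrable_sq
    have i3 : Integrable (fun ω => D ω * D' ω) P := h.memLp.integrable_mul h'.memLp
    have e2 := integral_add (μ := P) (f := fun ω => (D ω)^2 + 2 * (D ω * D' ω))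
      (g := fun ω => (D' ω)^2) (i1.add (i3.const_mul 2)) i2
    have e3 := integral_add (μ := P) (f := fun ω => (D ω)^2)
      (g := fun ω => 2 * (D ω * D' ω)) i1 (i3.const_mul 2)
    rw [e2, e3, integral_const_mul, h'.orth_sq h𝓖' hD h.memLp]
    have := h.sq_le
    have := h'.sq_le
    linarith
  · intro ξ hξ hb
    have hξ' : AEStronglyMeasurable ξ P := (hξ.mono (h𝓖.trans h𝓖') le_rfl).aestronglyMeasurable
    have e1 : ∀ ω, ξ ω * (D ω + D' ω) = ξ ω * D ω + ξ ω * D' ω := fun ω => by ring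
    simp_rw [e1]
    rw [integral_add (integrable_mul_bdd hξ' hb h.integrable)
      (integrable_mul_bdd hξ' hb h'.integrable), h.orth ξ hξ hb,
      h'.orth ξ (hξ.mono h𝓖 le_rfl) hb, add_zero]

theorem MInc.sq_add [IsProbabilityMeasure P] {D D' : Ω → ℝ} {c' : ℝ}
    (h𝓖 : 𝓖 ≤ mΩ) (h' : MInc 𝓖 P D' c') (hD : Measurable[𝓖] D) (hD2 : MemLp D 2 P) :
    ∫ ω, (D ω + D' ω)^2 ∂P = ∫ ω, (D ω)^2 ∂P + ∫ ω, (D' ω)^2 ∂P := by
  have e1 : ∀ ω, (D ω + D' ω)^2 = (D ω)^2 + 2 * (D ω * D' ω) + (D' ω)^2 := fun ω => by ring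
  simp_rw [e1]
  have i1 := hD2.integrable_sq
  have i2 := h'.memLp.integrable_sq
  have i3 : Integrable (fun ω => D ω * D' ω) P := hD2.integrable_mul h'.memLp
  have e2 := integral_add (μ := P) (f := fun ω => (D ω)^2 + 2 * (D ω * D' ω))
    (g := fun ω => (D' ω)^2) (i1.add (i3.const_mul 2)) i2
  have e3 := integral_add (μ := P) (f := fun ω => (D ω)^2)
    (g := fun ω => 2 * (D ω * D' ω)) i1 (i3.const_mul 2)
  rw [e2, e3, integral_const_mul, h'.orth_sq h𝓖 hD hD2]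
  ring

/-- discrete stochastic integrals. -/
theorem osum {𝓖 : ℕ → MeasurableSpace Ω}
    {mΩ : MeasurableSpace Ω} {P : Measure Ω} [IsProbabilityMeasure P]
    (h𝓖 : ∀ i, 𝓖 i ≤ mΩ) (hmono : Monotone 𝓖)
    {D H : ℕ → Ω → ℝ} {c : ℕ → ℝ} {C : ℝ}
    (hD : ∀ i, MInc (𝓖 i) P (D i) (c i)) (hDm : ∀ i, Measurable[𝓖 (i+1)] (D i))
    (hH : ∀ i, Measurable[𝓖 i] (H i)) (hb : ∀ i ω, |H i ω| ≤ C) (N : ℕ) :
    Measurable[𝓖 N] (fun ω => ∑ i ∈ Finset.range N, H i ω * D i ω) ∧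
    MemLp (fun ω => ∑ i ∈ Finset.range N, H i ω * D i ω) 2 P ∧
    (∀ ξ : Ω → ℝ, Measurable[𝓖 0] ξ → (∀ ω, |ξ ω| ≤ 1) →
      ∫ ω, ξ ω * ∑ i ∈ Finset.range N, H i ω * D i ω ∂P = 0) ∧
    ∫ ω, (∑ i ∈ Finset.range N, H i ω * D i ω)^2 ∂P
      = ∑ i ∈ Finset.range N, ∫ ω, (H i ω * D i ω)^2 ∂P := by
  induction N with
  | zero => simp
  | succ N ih =>
    obtain ⟨ih1, ih2, ih3, ih4⟩ := ih
    have hstep := (hD N).bdd_mul (h𝓖 N) (hH N) (hb N)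
    have hS : MInc (𝓖 0) P (fun ω => ∑ i ∈ Finset.range N, H i ω * D i ω)
        (∫ ω, (∑ i ∈ Finset.range N, H i ω * D i ω)^2 ∂P) := ⟨ih2, le_rfl, ih3⟩
    have hadd := hS.add_le (hmono (Nat.zero_le N)) (h𝓖 N) hstep ih1
    refine ⟨?_, ?_, ?_, ?_⟩
    · simp only [Finset.sum_range_succ]
      refine Measurable.add ?_ ?_
      · exact ih1.mono (hmono (Nat.le_succ N)) le_rfl
      · exact ((hH N).mono (hmono (Nat.le_succ N)) le_rfl).mul (hDm N)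
    · simp only [Finset.sum_range_succ]
      exact hadd.memLp
    · simp only [Finset.sum_range_succ]
      exact hadd.orth
    · simp only [Finset.sum_range_succ]
      rw [hstep.sq_add (h𝓖 N) ih1 ih2, ih4]

end Pool.Agent.SkewBM
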