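import Pool.Agent.Lib.MP_e34d70_pr.Exist

open MeasureTheory Filter ProbabilityTheory
open scoped NNReal ENNReal Topology

namespace Pool.Agent.SkewBM

variable {Ω : Type*} {mΩ : MeasurableSpace Ω} {P : Measure Ω} {𝓕 : Filtration ℝ≥0 mΩ}
variable {B K X : ℝ≥0 → Ω → ℝ} {φ : ℝ → ℝ}

theorem occ_bound [IsProbabilityMeasure P] (hB : BMW 𝓕 P B) (hXa : ∀ t, Measurable[𝓕 t] (X t))
    (hXc : ∀ ω, Continuous (fun t => X t ω)) (hAZ : AZ P X B) (p : Par) (T : ℝ≥0)
    (hX2 : Integrable (fun ω => |X T ω|) P) (hX0 : Integrable (fun ω => |X 0 ω|) P) :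
    ∫ ω, tint (fun u => p.psi (X u ω)) 0 T ∂P ≤ 2 * ∫ ω, |X T ω| ∂P := by
  have hXm : ∀ t, Measurable (X t) := fun t => (hXa t).mono (𝓕.le t) le_rfl
  have hKp := kf_mart hB hXa hXc hAZ p.tf
  have h1 : ∫ ω, KF p.FF p.psi (fun u => X u ω) T ∂P = 0 := by
    have h2 := (hKp.inc (s := 0) (t := T) zero_le).integral_eq_zero
    have h3 : ∀ ω, KF p.FF p.psi (fun u => X u ω) 0 = 0 := fun ω => hKp.zero ω
    simp only [h3, sub_zero] at h2
    exact h2
  have i1 : Integrable (fun ω => tint (fun u => p.psi (X u ω)) 0 T) P := by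
    have := fp_int_bdd (P := P) (X := X) (f := p.psi) p.psi_cont (C := 1/p.mm)
      (fun x => by rw [abs_of_nonneg (p.psi_nonneg x)]; exact p.psi_le x) hXm hXc 0 T
    rwa [zero_add] at this
  have i2 : Integrable (fun ω => p.FF (X T ω)) P := by
    refine hX2.mono' (p.FF_cont.measurable.comp (hXm T)).aestronglyMeasurable
      (ae_of_all _ fun ω => ?_)
    rw [Real.norm_eq_abs, abs_of_nonneg (p.FF_nonneg _)]
    exact p.FF_le _
  have i3 : Integrable (fun ω => p.FF (X 0 ω)) P := by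
    refine hX0.mono' (p.FF_cont.measurable.comp (hXm 0)).aestronglyMeasurable
      (ae_of_all _ fun ω => ?_)
    rw [Real.norm_eq_abs, abs_of_nonneg (p.FF_nonneg _)]
    exact p.FF_le _
  have h2 : ∫ ω, KF p.FF p.psi (fun u => X u ω) T ∂P
      = ∫ ω, p.FF (X T ω) ∂P - ∫ ω, p.FF (X 0 ω) ∂P
        - (1/2) * ∫ ω, tint (fun u => p.psi (X u ω)) 0 T ∂P := by
    unfold KF
    have e1 := integral_sub (μ := P) (f := fun ω => p.FF (X T ω) - p.FF (X 0 ω))
      (g := fun ω => (1/2) * tint (fun u => p.psi (X u ω)) 0 T) (i2.sub i3) (i1.const_mul _)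
    rw [e1, integral_sub i2 i3, integral_const_mul]
  have h3 : 0 ≤ ∫ ω, p.FF (X 0 ω) ∂P := integral_nonneg (fun ω => p.FF_nonneg _)
  have h4 : ∫ ω, p.FF (X T ω) ∂P ≤ ∫ ω, |X T ω| ∂P :=
    integral_mono i2 hX2 (fun ω => p.FF_le _)
  rw [h1] at h2
  linarith

theorem one_sub_fp_int [IsProbabilityMeasure P] (p : Par)
    (hXm : ∀ t, Measurable (X t)) (hXc : ∀ ω, Continuous (fun t => X t ω)) (T : ℝ≥0) :
    Integrable (fun ω => tint (fun u => 1 - (p.Fp (X u ω))^2) 0 T) P ∧
    ∫ ω, tint (fun u => 1 - (p.Fp (X u ω))^2) 0 T ∂P = T - cc P X p T := by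
  have e : ∀ ω, tint (fun u => 1 - (p.Fp (X u ω))^2) 0 T
      = T - tint (fun u => (p.Fp (X u ω))^2) 0 T := by
    intro ω
    have h1 := tint_sub (f := fun _ => (1:ℝ)) (g := fun u => (p.Fp (X u ω))^2) continuous_const
      ((p.Fp_cont.comp (hXc ω)).pow 2) 0 T
    rw [h1, tint_const]
    simp
  simp_rw [e]
  have i1 := fpsq_integrable (P := P) p hXm hXc T
  refine ⟨(integrable_const _).sub i1, ?_⟩
  rw [integral_sub (integrable_const _) i1]
  simp [cc]

/-- linear bound for the time spent near zero -/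
theorem near_zero [IsProbabilityMeasure P] (hB : BMW 𝓕 P B) (hXa : ∀ t, Measurable[𝓕 t] (X t))
    (hXc : ∀ ω, Continuous (fun t => X t ω)) (hAZ : AZ P X B) (p : Par) (T : ℝ≥0)
    (hX2 : Integrable (fun ω => |X T ω|) P) (hX0 : Integrable (fun ω => |X 0 ω|) P)
    (hcc : Tendsto (fun k => cc P X (parA k) T) atTop (𝓝 T)) :
    T - cc P X p T ≤ 6 * p.b * ∫ ω, |X T ω| ∂P := by
  have hXm : ∀ t, Measurable (X t) := fun t => (hXa t).mono (𝓕.le t) le_rfl
  have hE : 0 ≤ ∫ ω, |X T ω| ∂P := integral_nonneg (fun ω => abs_nonneg _)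
  have hbp := p.bpos
  have hev : ∀ᶠ j in atTop, (parA j).ρ < 2 * p.b := by
    have h1 : Tendsto (fun j => (parA j).ρ) atTop (𝓝 0) :=
      bA_tendsto.comp (tendsto_add_atTop_nat 1)
    exact h1.eventually (gt_mem_nhds (by linarith))
  have hlim : Tendsto (fun j => 6 * p.b * ∫ ω, |X T ω| ∂P + (T - cc P X (parA j) T)) atTop
      (𝓝 (6 * p.b * ∫ ω, |X T ω| ∂P + ((T:ℝ) - T))) := (hcc.const_sub _).const_add _
  rw [sub_self, add_zero] at hlim
  refine ge_of_tendsto hlim ?_
  filter_upwards [hev] with j hj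
  have hρj := (parA j).hρ
  set q : Par := ⟨(parA j).ρ / 2, 2 * p.b, 3 * p.b, by linarith, by linarith, by linarith⟩ with hq
  have hpt : ∀ x, 1 - (p.Fp x)^2 ≤ q.mm * q.psi x + (1 - ((parA j).Fp x)^2) := by
    intro x
    have h1 := (parA j).Fp_sq_le x
    have h2 : 0 ≤ q.mm * q.psi x := mul_nonneg q.mm_pos.le (q.psi_nonneg x)
    rcases le_total p.b |x| with h3 | h3
    · rw [p.Fp_sq_of_ge h3]; linarith
    · rcases le_total |x| (parA j).ρ with h4 | h4
      · rw [(parA j).Fp_of_abs_le h4]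
        have := sq_nonneg (p.Fp x)
        linarith
      · have h5 : q.psi x = 1 / q.mm := by
          refine q.psi_one ?_ ?_
          · simp only [hq]; linarith
          · simp only [hq]; linarith
        rw [h5]
        have h6 : q.mm * (1 / q.mm) = 1 := by have := q.mm_pos; field_simp
        have := sq_nonneg (p.Fp x)
        linarith
  obtain ⟨i1, e1⟩ := one_sub_fp_int (P := P) p hXm hXc T
  obtain ⟨i2, e2⟩ := one_sub_fp_int (P := P) (parA j) hXm hXc T
  have i3 : Integrable (fun ω => tint (fun u => q.psi (X u ω)) 0 T) P := by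
    have := fp_int_bdd (P := P) (X := X) (f := q.psi) q.psi_cont (C := 1/q.mm)
      (fun x => by rw [abs_of_nonneg (q.psi_nonneg x)]; exact q.psi_le x) hXm hXc 0 T
    rwa [zero_add] at this
  rw [← e1]
  calc ∫ ω, tint (fun u => 1 - (p.Fp (X u ω))^2) 0 T ∂P
      ≤ ∫ ω, (q.mm * tint (fun u => q.psi (X u ω)) 0 T
          + tint (fun u => 1 - ((parA j).Fp (X u ω))^2) 0 T) ∂P := by
        refine integral_mono i1 ((i3.const_mul _).add i2) (fun ω => ?_)
        simp only
        have hc1 : Continuous (fun u => q.psi (X u ω)) := q.psi_cont.comp (hXc ω)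
        have hc2 : Continuous (fun u => 1 - ((parA j).Fp (X u ω))^2) :=
          continuous_const.sub (((parA j).Fp_cont.comp (hXc ω)).pow 2)
        have hc3 : Continuous (fun u => 1 - (p.Fp (X u ω))^2) :=
          continuous_const.sub ((p.Fp_cont.comp (hXc ω)).pow 2)
        rw [← tint_const_mul]
        have h7 : tint (fun u => q.mm * q.psi (X u ω)) 0 T
            + tint (fun u => 1 - ((parA j).Fp (X u ω))^2) 0 T
            = tint (fun u => q.mm * q.psi (X u ω) + (1 - ((parA j).Fp (X u ω))^2)) 0 T :=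
          (intervalIntegral.integral_add ((cont_toNN (hc1.const_mul _)).intervalIntegrable _ _)
            ((cont_toNN hc2).intervalIntegrable _ _)).symm
        rw [h7]
        exact tint_mono hc3 ((hc1.const_mul _).add hc2) zero_le (fun u _ _ => hpt _)
    _ = q.mm * ∫ ω, tint (fun u => q.psi (X u ω)) 0 T ∂P + (T - cc P X (parA j) T) := by
        rw [integral_add (i3.const_mul _) i2, integral_const_mul, e2]
    _ ≤ _ := by
        have h8 := occ_bound hB hXa hXc hAZ q T hX2 hX0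
        have h9 : q.mm ≤ 3 * p.b := q.mm_le
        have h10 : 0 ≤ ∫ ω, tint (fun u => q.psi (X u ω)) 0 T ∂P :=
          integral_nonneg (fun ω => tint_nonneg zero_le (fun u => q.psi_nonneg _))
        have h11 : q.mm * ∫ ω, tint (fun u => q.psi (X u ω)) 0 T ∂P
            ≤ (3 * p.b) * (2 * ∫ ω, |X T ω| ∂P) :=
          mul_le_mul h9 h8 h10 (by linarith)
        linarith

/-! ### the slowly decreasing family -/

noncomputable def bB (k : ℕ) : ℝ := 1 / ((k:ℝ)+1)^6

theorem bB_pos (k : ℕ) : 0 < bB k := by unfold bB; positivity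

theorem bB_anti : Antitone bB := by
  intro i j hij
  unfold bB
  gcongr

theorem bB_lt (k : ℕ) : bB (k+1) < bB k := by
  unfold bB
  push_cast
  refine one_div_lt_one_div_of_lt (by positivity) ?_
  gcongr
  linarith

theorem bB_le_one (k : ℕ) : bB k ≤ 1 := by
  unfold bB
  rw [div_le_one (by positivity)]
  have : (1:ℝ) ≤ (k:ℝ) + 1 := by have : (0:ℝ) ≤ k := Nat.cast_nonneg k; linarith
  exact one_le_pow₀ this

noncomputable def rB (k : ℕ) : ℝ := (bB (k+2))^2 / 4

theorem rB_pos (k : ℕ) : 0 < rB k := by unfold rB; have := bB_pos (k+2); positivity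

theorem rB_lt (k : ℕ) : 2 * rB k < bB (k+1) := by
  unfold rB
  have h1 := bB_pos (k+2)
  have h2 := bB_le_one (k+2)
  have h3 := bB_lt (k+1)
  nlinarith

noncomputable def parB (k : ℕ) : Par where
  ρ := rB k
  a := bB (k+1)
  b := bB k
  hρ := rB_pos k
  ha := rB_lt k
  hb := bB_lt k

noncomputable def parQ (k : ℕ) : Par where
  ρ := 2 * rB k
  a := 5 * rB k
  b := 6 * rB k
  hρ := by have := rB_pos k; linarith
  ha := by have := rB_pos k; linarith
  hb := by have := rB_pos k; linarith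

theorem bB_tendsto : Tendsto bB atTop (𝓝 0) := by
  have h1 : Tendsto (fun k : ℕ => 1 / ((k:ℝ)+1)) atTop (𝓝 0) :=
    tendsto_one_div_add_atTop_nhds_zero_nat
  have h2 := h1.pow 6
  rw [zero_pow (by norm_num)] at h2
  refine h2.congr (fun k => ?_)
  unfold bB; rw [div_pow, one_pow]

theorem bB_ratio (j : ℕ) : Tendsto (fun k => bB (k+j) / bB k) atTop (𝓝 1) := by
  have h1 : Tendsto (fun k : ℕ => ((k:ℝ)+1) / ((k:ℝ)+1+j)) atTop (𝓝 1) := by
    have h2 : Tendsto (fun k : ℕ => 1 - (j:ℝ) / ((k:ℝ)+1+j)) atTop (𝓝 (1 - 0)) := by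
      refine Tendsto.const_sub _ ?_
      have h3 : Tendsto (fun k : ℕ => (k:ℝ) + 1 + j) atTop atTop := by
        refine tendsto_atTop_add_const_right _ _ ?_
        exact tendsto_atTop_add_const_right _ _ tendsto_natCast_atTop_atTop
      exact h3.const_div_atTop _
    rw [sub_zero] at h2
    refine h2.congr (fun k => ?_)
    have : (k:ℝ) + 1 + j ≠ 0 := by positivity
    field_simp
    ring
  have h2 := h1.pow 6
  rw [one_pow] at h2
  refine h2.congr (fun k => ?_)
  unfold bB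
  push_cast
  have e1 : (k:ℝ) + 1 + j ≠ 0 := by positivity
  have e2 : (k:ℝ) + j + 1 ≠ 0 := by positivity
  have e3 : (k:ℝ) + 1 ≠ 0 := by positivity
  rw [div_pow]
  field_simp
  ring

end Pool.Agent.SkewBM
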