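import Pool.Agent.Lib.MP_e34d70_pr.Euler
import Pool.Agent.Lib.MP_e34d70_pr.Tanaka

open MeasureTheory Filter ProbabilityTheory
open scoped NNReal ENNReal Topology

namespace Pool.Agent.SkewBM

/-- dyadic sums of squares -/
noncomputable def SQ (x : ℝ≥0 → ℝ) (t : ℝ≥0) (n : ℕ) : ℝ :=
  ∑ k ∈ Finset.range ⌈t * 2^n⌉₊, (x (min t (tt n (k+1))) - x (min t (tt n k)))^2

theorem tt_ceil (t : ℝ≥0) (n : ℕ) : t ≤ tt n ⌈t * 2^n⌉₊ := by
  unfold tt
  rw [le_div_iff₀ (by positivity)]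
  exact Nat.le_ceil _

theorem tt_refine (m j d : ℕ) : tt m j = tt (m+d) (j * 2^d) := by
  unfold tt
  push_cast
  rw [pow_add]
  field_simp

theorem SQ_dyadic (x : ℝ≥0 → ℝ) (m j d : ℕ) :
    SQ x (tt m j) (m+d) = ∑ k ∈ Finset.range (j * 2^d),
      (x (tt (m+d) (k+1)) - x (tt (m+d) k))^2 := by
  unfold SQ
  have h1 : ⌈tt m j * 2^(m+d)⌉₊ = j * 2^d := by
    have : tt m j * 2^(m+d) = ((j * 2^d : ℕ) : ℝ≥0) := by
      unfold tt; push_cast; rw [pow_add]; field_simp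
    rw [this, Nat.ceil_natCast]
  rw [h1]
  refine Finset.sum_congr rfl (fun k hk => ?_)
  have hk' := Finset.mem_range.mp hk
  rw [tt_refine m j d, min_eq_right (tt_mono _ (by omega)), min_eq_right (tt_mono _ (by omega))]

/-- on an interval free of zeros the square sums of `x` and `b` agree -/
theorem SQ_diff {x b : ℝ≥0 → ℝ} {m i j : ℕ} (hij : i ≤ j)
    (hAZ : ∀ s t, s ≤ t → (∀ u, s ≤ u → u ≤ t → x u ≠ 0) → x t - x s = b t - b s)
    (hne : ∀ u, tt m i ≤ u → u ≤ tt m j → x u ≠ 0) (d : ℕ) :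
    SQ x (tt m j) (m+d) - SQ x (tt m i) (m+d) = SQ b (tt m j) (m+d) - SQ b (tt m i) (m+d) := by
  rw [SQ_dyadic, SQ_dyadic, SQ_dyadic, SQ_dyadic]
  have hle : i * 2^d ≤ j * 2^d := Nat.mul_le_mul_right _ hij
  rw [← Finset.sum_Ico_eq_sub _ hle, ← Finset.sum_Ico_eq_sub _ hle]
  refine Finset.sum_congr rfl (fun k hk => ?_)
  obtain ⟨hk1, hk2⟩ := Finset.mem_Ico.mp hk
  have h1 : tt m i ≤ tt (m+d) k := by rw [tt_refine m i d]; exact tt_mono _ hk1
  have h2 : tt (m+d) (k+1) ≤ tt m j := by rw [tt_refine m j d]; exact tt_mono _ hk2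
  rw [hAZ _ _ (tt_mono _ (Nat.le_succ k)) (fun u hu1 hu2 => hne u (h1.trans hu1) (hu2.trans h2))]

variable {Ω : Type*} {mΩ : MeasurableSpace Ω} {P : Measure Ω} {𝓕 : Filtration ℝ≥0 mΩ}
variable {B X : ℝ≥0 → Ω → ℝ}

/-- quadratic variation of Brownian motion -/
theorem qv_bm [IsProbabilityMeasure P] (hB : BMW 𝓕 P B) (t : ℝ≥0) :
    TZ P (fun n ω => SQ (fun s => B s ω) t n - t) := by
  set N : ℕ → ℕ := fun n => ⌈t * 2^n⌉₊ with hN
  set u : ℕ → ℕ → ℝ≥0 := fun n k => min t (tt n k) with hu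
  have hum : ∀ n, Monotone (u n) := fun n i j hij => min_le_min le_rfl (tt_mono n hij)
  have hu0 : ∀ n, u n 0 = 0 := fun n => by simp [hu, tt_zero]
  have huN : ∀ n, u n (N n) = t := fun n => min_eq_left (tt_ceil t n)
  have hle : ∀ n k, u n k ≤ u n (k+1) := fun n k => hum n (Nat.le_succ k)
  have hstep : ∀ n k, ((u n (k+1) : ℝ≥0):ℝ) - (u n k : ℝ≥0) ≤ (1/2:ℝ)^n := by
    intro n k
    have h1 : u n (k+1) ≤ u n k + 1/2^n := by
      simp only [hu]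
      rw [tt_succ, ← min_add_add_right]
      exact min_le_min le_self_add le_rfl
    have h2 : ((u n (k+1) : ℝ≥0):ℝ) ≤ (u n k : ℝ≥0) + 1/2^n := by exact_mod_cast h1
    have h3 : (1/2:ℝ)^n = 1/2^n := by rw [div_pow, one_pow]
    rw [h3]; linarith
  have hstep0 : ∀ n k, 0 ≤ ((u n (k+1) : ℝ≥0):ℝ) - (u n k : ℝ≥0) := by
    intro n k
    have := NNReal.coe_le_coe.mpr (hle n k)
    linarith
  have htel : ∀ n, ∑ k ∈ Finset.range (N n), (((u n (k+1) : ℝ≥0):ℝ) - (u n k : ℝ≥0)) = t := by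
    intro n
    rw [Finset.sum_range_sub (fun k => ((u n k : ℝ≥0):ℝ)), huN, hu0]
    simp
  have key : ∀ n, MemLp (fun ω => SQ (fun s => B s ω) t n - t) 2 P ∧
      ∫ ω, (SQ (fun s => B s ω) t n - t)^2 ∂P ≤ (C4 * t) * (1/2:ℝ)^n := by
    intro n
    obtain ⟨h1, h2, h3, h4⟩ := osum (𝓖 := fun k => 𝓕 (u n k)) (fun k => 𝓕.le _)
      (fun i j hij => 𝓕.mono (hum n hij))
      (D := fun k ω => (B (u n (k+1)) ω - B (u n k) ω)^2
        - ((u n (k+1) : ℝ≥0) - (u n k : ℝ≥0) : ℝ))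
      (H := fun _ _ => 1) (C := 1)
      (fun k => hB.sqinc (hle n k))
      (fun k => (((hB.adapted _).sub
        ((hB.adapted _).mono (𝓕.mono (hle n k)) le_rfl)).pow_const 2).sub_const _)
      (fun k => measurable_const) (fun k ω => by simp) (N n)
    simp only [one_mul] at h2 h4
    have e : ∀ ω, ∑ k ∈ Finset.range (N n), ((B (u n (k+1)) ω - B (u n k) ω)^2
        - ((u n (k+1) : ℝ≥0) - (u n k : ℝ≥0) : ℝ)) = SQ (fun s => B s ω) t n - t := by
      intro ω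
      rw [Finset.sum_sub_distrib, htel n]
      rfl
    simp_rw [e] at h2 h4
    refine ⟨h2, ?_⟩
    rw [h4]
    have h5 : ∀ k ∈ Finset.range (N n), ∫ ω, ((B (u n (k+1)) ω - B (u n k) ω)^2
        - ((u n (k+1) : ℝ≥0) - (u n k : ℝ≥0) : ℝ))^2 ∂P
        ≤ (C4 * (1/2:ℝ)^n) * (((u n (k+1) : ℝ≥0):ℝ) - (u n k : ℝ≥0)) := by
      intro k _
      refine (hB.sqinc (hle n k)).sq_le.trans ?_
      have h6 := hstep n k
      have h7 := hstep0 n k
      have h8 := C4_nonneg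
      rw [sq, mul_assoc]
      refine mul_le_mul_of_nonneg_left ?_ h8
      exact mul_le_mul_of_nonneg_right h6 h7
    refine (Finset.sum_le_sum h5).trans (le_of_eq ?_)
    rw [← Finset.mul_sum, htel]
    ring
  refine TZ.of_sq (fun n => (key n).1) ?_
  refine squeeze_zero (fun n => integral_nonneg (fun ω => sq_nonneg _)) (fun n => (key n).2) ?_
  have h5 := tendsto_pow_atTop_nhds_zero_of_lt_one (r := (1/2:ℝ)) (by norm_num) (by norm_num)
  simpa using h5.const_mul (C4 * (t:ℝ))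

/-- the quadratic variation of `X` is Lebesgue away from the zeros of `X` -/
theorem qv_away [IsProbabilityMeasure P] (hB : BMW 𝓕 P B) {Q : ℝ≥0 → Ω → ℝ}
    (hAZ : AZ P X B)
    (hQ : ∀ t, TZ P (fun n ω => SQ (fun s => X s ω) t n - Q t ω)) :
    ∀ᵐ ω ∂P, ∀ m i j : ℕ, i ≤ j → (∀ u, tt m i ≤ u → u ≤ tt m j → X u ω ≠ 0) →
      Q (tt m j) ω - Q (tt m i) ω = ((tt m j : ℝ≥0):ℝ) - (tt m i : ℝ≥0) := by
  have key : ∀ m i j : ℕ, ∀ᵐ ω ∂P, i ≤ j → (∀ u, tt m i ≤ u → u ≤ tt m j → X u ω ≠ 0) →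
      Q (tt m j) ω - Q (tt m i) ω = ((tt m j : ℝ≥0):ℝ) - (tt m i : ℝ≥0) := by
    intro m i j
    have h1 := ((hQ (tt m j)).sub (hQ (tt m i))).sub ((qv_bm hB (tt m j)).sub (qv_bm hB (tt m i)))
    obtain ⟨ns, hns, hae⟩ := (tz_iff.mp h1).exists_seq_tendsto_ae
    filter_upwards [hae, hAZ] with ω hω haz hij hne
    have h2 : ∀ᶠ k in atTop, m ≤ ns k := hns.tendsto_atTop.eventually_ge_atTop m
    have h3 : Tendsto (fun _ : ℕ => (((tt m j : ℝ≥0):ℝ) - (tt m i : ℝ≥0))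
        - (Q (tt m j) ω - Q (tt m i) ω)) atTop (𝓝 0) := by
      refine hω.congr' ?_
      filter_upwards [h2] with k hk
      obtain ⟨d, hd⟩ := Nat.exists_eq_add_of_le hk
      rw [hd]
      have h4 := SQ_diff (x := fun s => X s ω) (b := fun s => B s ω) hij haz hne d
      linarith
    have h5 := tendsto_nhds_unique tendsto_const_nhds h3
    linarith
  rw [ae_all_iff]
  intro m
  rw [ae_all_iff]
  intro i
  rw [ae_all_iff]
  exact fun j => key m i j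

end Pool.Agent.SkewBM
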