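import Pool.Agent.Lib.MP_e34d70_pr.Mu
import Pool.Agent.Lib.MP_e34d70_pr.Nec
import Pool.Agent.Lib.MP_e34d70_pr.Defs

open MeasureTheory Filter ProbabilityTheory
open scoped NNReal ENNReal Topology

namespace Pool.Agent.SkewBM

universe u

variable {Ω : Type u} {mΩ : MeasurableSpace Ω} {P : Measure Ω} {𝓕 : Filtration ℝ≥0 mΩ}
variable {B X : ℝ≥0 → Ω → ℝ}

/-- modification on a null set -/
noncomputable def reg (G : Set Ω) (Z : ℝ≥0 → Ω → ℝ) (t : ℝ≥0) (ω : Ω) : ℝ := G.indicator (Z t) ω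

theorem reg_of_mem {G : Set Ω} (Z : ℝ≥0 → Ω → ℝ) {ω : Ω} (h : ω ∈ G) (t : ℝ≥0) :
    reg G Z t ω = Z t ω := Set.indicator_of_mem h _

theorem reg_of_notMem {G : Set Ω} (Z : ℝ≥0 → Ω → ℝ) {ω : Ω} (h : ω ∉ G) (t : ℝ≥0) :
    reg G Z t ω = 0 := Set.indicator_of_notMem h _

theorem reg_ae {G : Set Ω} (hG : ∀ᵐ ω ∂P, ω ∈ G) (Z : ℝ≥0 → Ω → ℝ) :
    ∀ᵐ ω ∂P, ∀ t, reg G Z t ω = Z t ω := by
  filter_upwards [hG] with ω hω t using reg_of_mem Z hω t

theorem null_meas (hnull : ∀ A : Set Ω, P A = 0 → MeasurableSet[𝓕 0] A) {G : Set Ω}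
    (hG : ∀ᵐ ω ∂P, ω ∈ G) (t : ℝ≥0) : MeasurableSet[𝓕 t] G := by
  have h1 := hnull Gᶜ hG
  have h2 : MeasurableSet[𝓕 0] G := by
    have := MeasurableSet.compl h1
    rwa [compl_compl] at this
  exact 𝓕.mono zero_le _ h2

theorem reg_meas (hnull : ∀ A : Set Ω, P A = 0 → MeasurableSet[𝓕 0] A) {G : Set Ω}
    (hG : ∀ᵐ ω ∂P, ω ∈ G) {Z : ℝ≥0 → Ω → ℝ} {t : ℝ≥0} (hZ : Measurable[𝓕 t] (Z t)) :
    Measurable[𝓕 t] (reg G Z t) :=
  Measurable.indicator hZ (null_meas hnull hG t)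

/-- the everywhere continuous version of the Brownian motion -/
def gB (B : ℝ≥0 → Ω → ℝ) : Set Ω := {ω | (Continuous fun t => B t ω) ∧ B 0 ω = 0}

theorem gB_ae (hB : IsBrownianReal B P) : ∀ᵐ ω ∂P, ω ∈ gB B := by
  filter_upwards [hB.cont, hB.eval_zero_ae_eq_zero] with ω h1 h2 using ⟨h1, h2⟩

noncomputable def cB (B : ℝ≥0 → Ω → ℝ) : ℝ≥0 → Ω → ℝ := reg (gB B) B

theorem cB_ae (hB : IsBrownianReal B P) : ∀ᵐ ω ∂P, ∀ t, cB B t ω = B t ω :=
  reg_ae (gB_ae hB) B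

theorem cB_cont (B : ℝ≥0 → Ω → ℝ) (ω : Ω) : Continuous (fun t => cB B t ω) := by
  by_cases h : ω ∈ gB B
  · have e : (fun t => cB B t ω) = fun t => B t ω := by ext t; exact reg_of_mem B h t
    rw [e]; exact h.1
  · have e : (fun t => cB B t ω) = fun _ => 0 := by ext t; exact reg_of_notMem B h t
    rw [e]; exact continuous_const

theorem cB_zero (B : ℝ≥0 → Ω → ℝ) (ω : Ω) : cB B 0 ω = 0 := by
  by_cases h : ω ∈ gB B
  · exact (reg_of_mem B h 0).trans h.2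
  · exact reg_of_notMem B h 0

theorem nndist_eq {s t : ℝ≥0} (hst : s ≤ t) : nndist (t:ℝ) (s:ℝ) = t - s := by
  rw [← NNReal.coe_inj, coe_nndist, NNReal.coe_sub hst]
  have h : (s:ℝ) ≤ t := hst
  rw [Real.dist_eq]
  exact abs_of_nonneg (sub_nonneg.mpr h)

theorem map_incr (hB : IsBrownianReal B P) {s t : ℝ≥0} (hst : s ≤ t) :
    P.map (fun ω => B t ω - B s ω) = gaussianReal 0 (t - s) := by
  have h3 := (hB.hasLaw_sub t s).map_eq
  have h5 : (fun ω => B t ω - B s ω) = B t - B s := rfl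
  rw [h5, h3]
  exact congrArg _ (nndist_eq hst)

theorem bmw_of [IsProbabilityMeasure P] (hnull : ∀ A : Set Ω, P A = 0 → MeasurableSet[𝓕 0] A)
    (hB : IsFBM 𝓕 P B) : BMW 𝓕 P (cB B) where
  adapted t := reg_meas hnull (gB_ae hB.isBrownian) (hB.adapted t).measurable
  cont := cB_cont B
  zero := cB_zero B
  law s t hst := by
    have h1 : (fun ω => cB B t ω - cB B s ω) =ᵐ[P] (fun ω => B t ω - B s ω) := by
      filter_upwards [cB_ae hB.isBrownian] with ω hω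
      rw [hω, hω]
    rw [Measure.map_congr h1, map_incr hB.isBrownian hst]
  indep s t hst ξ hξ hb g hg hgi := by
    have h1 : ∀ᵐ ω ∂P, ξ ω * g (cB B t ω - cB B s ω) = ξ ω * g (B t ω - B s ω) := by
      filter_upwards [cB_ae hB.isBrownian] with ω hω
      rw [hω, hω]
    rw [integral_congr_ae h1]
    have hBm : ∀ t, Measurable (B t) := fun t => ((hB.adapted t).measurable).mono (𝓕.le t) le_rfl
    have hind : IndepFun ξ (fun ω => g (B t ω - B s ω)) P := by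
      rw [IndepFun_iff_Indep]
      refine indep_of_indep_of_le_left ?_ hξ.comap_le
      refine indep_of_indep_of_le_right (hB.indep s t hst).symm ?_
      have : (fun ω => g (B t ω - B s ω)) = g ∘ (fun ω => B t ω - B s ω) := rfl
      rw [this, ← MeasurableSpace.comap_comp]
      exact MeasurableSpace.comap_mono hg.comap_le
    have h2 := hind.integral_fun_mul_eq_mul_integral
      ((hξ.mono (𝓕.le s) le_rfl).aestronglyMeasurable)
      (hg.comp ((hBm t).sub (hBm s))).aestronglyMeasurable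
    rw [h2]
    have h3 : Measurable (fun ω => B t ω - B s ω) := (hBm t).sub (hBm s)
    rw [← map_incr hB.isBrownian hst, integral_map h3.aemeasurable hg.aestronglyMeasurable]

/-- the continuous paths -/
def gX (X : ℝ≥0 → Ω → ℝ) : Set Ω := {ω | Continuous fun t => X t ω}

theorem reg_gX_cont (X : ℝ≥0 → Ω → ℝ) (ω : Ω) : Continuous (fun t => reg (gX X) X t ω) := by
  by_cases h : ω ∈ gX X
  · have e : (fun t => reg (gX X) X t ω) = fun t => X t ω := by ext t; exact reg_of_mem X h t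
    rw [e]; exact h
  · have e : (fun t => reg (gX X) X t ω) = fun _ => 0 := by ext t; exact reg_of_notMem X h t
    rw [e]; exact continuous_const

theorem occ_flat {μ : Measure ℝ≥0} {x : ℝ≥0 → ℝ} (hx : Continuous x) {s t : ℝ≥0} (hst : s ≤ t)
    (hne : ∀ u, s ≤ u → u ≤ t → x u ≠ 0) {a b : ℝ}
    (ha : Tendsto (fun ε : ℝ => occ μ x s ε / (2 * ε)) (𝓝[>] 0) (𝓝 a))
    (hb : Tendsto (fun ε : ℝ => occ μ x t ε / (2 * ε)) (𝓝[>] 0) (𝓝 b)) : b = a := by
  obtain ⟨v, hv, hvmin⟩ := (isCompact_Icc (a := s) (b := t)).exists_isMinOn ⟨s, le_rfl, hst⟩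
    (hx.abs.continuousOn)
  have hpos : 0 < |x v| := abs_pos.mpr (hne v hv.1 hv.2)
  refine tendsto_nhds_unique hb (ha.congr' ?_)
  filter_upwards [Ioo_mem_nhdsGT hpos] with ε hε
  have e : Set.Iic s ∩ {u | |x u| < ε} = Set.Iic t ∩ {u | |x u| < ε} := by
    ext u
    simp only [Set.mem_inter_iff, Set.mem_Iic, Set.mem_ofPred_eq]
    constructor
    · rintro ⟨h1, h2⟩
      exact ⟨h1.trans hst, h2⟩
    · rintro ⟨h1, h2⟩
      refine ⟨?_, h2⟩
      by_contra h3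
      have h4 : |x v| ≤ |x u| := hvmin (show u ∈ Set.Icc s t from ⟨(not_le.mp h3).le, h1⟩)
      have h5 := hε.2
      linarith
  unfold occ
  rw [e]

theorem SQ_eq (x : ℝ≥0 → ℝ) (t : ℝ≥0) (n : ℕ) :
    ∑ k ∈ Finset.range ⌈t * 2 ^ n⌉₊,
      (x (min t (((k : ℝ≥0) + 1) / 2 ^ n)) - x (min t ((k : ℝ≥0) / 2 ^ n))) ^ 2 = SQ x t n := by
  unfold SQ
  refine Finset.sum_congr rfl (fun k _ => ?_)
  have h1 : tt n (k+1) = ((k : ℝ≥0) + 1) / 2 ^ n := by unfold tt; push_cast; rfl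
  have h2 : tt n k = (k : ℝ≥0) / 2 ^ n := rfl
  rw [h1, h2]

theorem sd_of [IsProbabilityMeasure P] (hU : UsualConditions 𝓕 P) (hB : IsFBM 𝓕 P B)
    {φ : ℝ≥0 → ℝ} (hX : IsSolution 𝓕 P B φ X) :
    ∃ K L : ℝ≥0 → Ω → ℝ, SD 𝓕 P (cB B) (fun x => φ x.toNNReal) (reg (gX X) X) K L := by
  obtain ⟨Q, L, hQ, hL, heq⟩ := hX.eqn
  set X' : ℝ≥0 → Ω → ℝ := reg (gX X) X with hX'
  have hnull := hU.null
  have hXg : ∀ᵐ ω ∂P, ω ∈ gX X := hX.cont
  have hXX : ∀ᵐ ω ∂P, ∀ t, X' t ω = X t ω := reg_ae hXg X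
  have hBB := cB_ae hB.isBrownian
  have hbmw := bmw_of hnull hB
  have hXa : ∀ t, Measurable[𝓕 t] (X' t) := fun t =>
    reg_meas hnull hXg (hX.adapted t).measurable
  have hXc : ∀ ω, Continuous (fun t => X' t ω) := reg_gX_cont X
  -- local time with respect to the regular version
  have hL' : ∀ᵐ ω ∂P, ∃ μ : Measure ℝ≥0, (∀ t, μ (Set.Iic t) = ENNReal.ofReal (Q t ω)) ∧
      ∀ t, Tendsto (fun ε : ℝ => occ μ (fun s => X' s ω) t ε / (2 * ε))
      (𝓝[>] 0) (𝓝 (L t ω : ℝ)) := by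
    filter_upwards [hL, hXX] with ω ⟨μ, h1, h2⟩ h3
    refine ⟨μ, h1, fun t => ?_⟩
    refine (h2 t).congr (fun ε => ?_)
    unfold occ
    simp_rw [h3]
  have heq' : ∀ᵐ ω ∂P, ∀ t, X' t ω = cB B t ω + φ (L t ω) := by
    filter_upwards [heq, hXX, hBB] with ω h1 h2 h3 t
    rw [h2, h3, h1]
  have hAZ : AZ P X' (cB B) := by
    filter_upwards [hL', heq'] with ω ⟨μ, h1, h2⟩ h3 s t hst hne
    have h4 : ((L t ω : ℝ≥0) : ℝ) = L s ω := occ_flat (hXc ω) hst hne (h2 s) (h2 t)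
    have h5 : L t ω = L s ω := by exact_mod_cast h4
    rw [h3 t, h3 s, h5]; ring
  have hQ' : ∀ t, TZ P (fun n ω => SQ (fun s => X' s ω) t n - Q t ω) := by
    intro t
    have h1 := tim_iff.mp (hQ.lim t)
    refine h1.congr (fun n => ?_)
    filter_upwards [hXX] with ω h2
    rw [SQ_eq (fun s => X s ω) t n]
    unfold SQ
    simp_rw [h2]
  have haway := qv_away hbmw hAZ hQ'
  obtain ⟨K, hK, hsq, ns, hns, hLU⟩ := tanaka hnull hbmw hXa hXc hAZ
  -- identification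
  have hid : ∀ᵐ ω ∂P, ∀ t, (L t ω : ℝ) = |X' t ω| - |X' 0 ω| - K t ω := by
    filter_upwards [hL', haway, hLU, hQ.path] with ω ⟨μ, h1, h2⟩ h3 h4 h5 t
    obtain ⟨h6, -, -⟩ := path_tanaka (hXc ω) hns h4
    refine local_eq (hXc ω) h1 h5.2.1 h5.2.2 h3 hns h6 ?_ h2 t
    exact (((hXc ω).abs).sub continuous_const).sub (hK.cont ω)
  have hL0 : ∀ᵐ ω ∂P, L 0 ω = 0 := by
    filter_upwards [hid] with ω h1
    have h2 := h1 0
    rw [hK.zero] at h2
    have h3 : ((L 0 ω : ℝ≥0) : ℝ) = 0 := by rw [h2]; ring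
    exact_mod_cast h3
  have hX0 : ∀ᵐ ω ∂P, |X' 0 ω| = |φ (0:ℝ).toNNReal| := by
    filter_upwards [heq', hL0] with ω h1 h2
    rw [h1 0, h2, cB_zero, zero_add, Real.toNNReal_zero]
  refine ⟨K, fun t ω => |X' t ω| - |X' 0 ω| - K t ω, ?_⟩
  exact {
    hB := hbmw
    hK := hK
    hup := fun t => by
      obtain ⟨c, -, h1, h2⟩ := hsq t
      exact h2.trans h1
    Xa := hXa
    Xc := hXc
    La := fun t => by
      have h1 : Measurable[𝓕 t] (fun ω => |X' t ω|) :=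
        continuous_abs.measurable.comp (hXa t)
      have h2 : Measurable[𝓕 t] (fun ω => |X' 0 ω|) :=
        continuous_abs.measurable.comp ((hXa 0).mono (𝓕.mono zero_le) le_rfl)
      exact (h1.sub h2).sub (hK.adapted t)
    Lc := fun ω => (((hXc ω).abs).sub continuous_const).sub (hK.cont ω)
    L0 := fun ω => by rw [hK.zero]; ring
    Lm := by
      filter_upwards [hLU] with ω h4
      exact (path_tanaka (hXc ω) hns h4).2.1
    flat := by
      filter_upwards [hLU] with ω h4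
      exact (path_tanaka (hXc ω) hns h4).2.2
    eqn := by
      filter_upwards [heq', hid] with ω h1 h2 t
      rw [← h2 t, Real.toNNReal_coe]
      exact h1 t
    habs := by
      filter_upwards [hX0] with ω h1 t
      rw [← h1]; ring }

/-- necessity: relative to any filtration satisfying the usual conditions -/
theorem lip_of_solution [IsProbabilityMeasure P] (hU : UsualConditions 𝓕 P)
    (hB : IsFBM 𝓕 P B) {φ : ℝ≥0 → ℝ} (hX : IsSolution 𝓕 P B φ X) (s t : ℝ≥0) :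
    |φ s - φ t| ≤ |(s:ℝ) - t| := by
  obtain ⟨K, L, h⟩ := sd_of hU hB hX
  have h1 := h.lip (s:ℝ) (t:ℝ) s.2 t.2
  simpa using h1

end Pool.Agent.SkewBM
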