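import Pool.Agent.Lib.MP_e34d70_pr.Mart
import Pool.Agent.Lib.MP_e34d70_pr.Grid

open MeasureTheory Filter ProbabilityTheory
open scoped NNReal ENNReal Topology

namespace Pool.Agent.SkewBM

section det

/-- last time before `T` at which `f ≤ l` -/
noncomputable def lastle (f : ℝ≥0 → ℝ) (l : ℝ) (T : ℝ≥0) : ℝ≥0 := sSup {s | s ≤ T ∧ f s ≤ l}

variable {f : ℝ≥0 → ℝ} {l : ℝ} {T : ℝ≥0}

theorem lastle_mem (hf : Continuous f) (h0 : f 0 ≤ l) :
    lastle f l T ≤ T ∧ f (lastle f l T) ≤ l := by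
  have hcl : IsClosed {s | s ≤ T ∧ f s ≤ l} :=
    isClosed_Iic.inter (isClosed_le hf continuous_const)
  have hc : IsCompact {s | s ≤ T ∧ f s ≤ l} :=
    (isCompact_Iic' T).of_isClosed_subset hcl (fun s hs => hs.1)
  exact hc.sSup_mem ⟨0, zero_le, h0⟩

theorem le_lastle {s : ℝ≥0} (hs : s ≤ T) (h : f s ≤ l) : s ≤ lastle f l T :=
  le_csSup ⟨T, fun _ hu => hu.1⟩ ⟨hs, h⟩

theorem lastle_eq_of_le (h : f T ≤ l) : lastle f l T = T :=
  le_antisymm (csSup_le ⟨T, le_rfl, h⟩ (fun _ hs => hs.1)) (le_lastle le_rfl h)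

theorem lastle_lt (hf : Continuous f) (h0 : f 0 ≤ l) (h : l < f T) : lastle f l T < T := by
  obtain ⟨h1, h2⟩ := lastle_mem (T := T) hf h0
  refine lt_of_le_of_ne h1 (fun he => ?_)
  rw [he] at h2
  linarith

theorem gt_of_lastle_lt {s : ℝ≥0} (hs : s ≤ T) (h : lastle f l T < s) : l < f s := by
  by_contra hcon
  push Not at hcon
  exact absurd (le_lastle hs hcon) (not_le.mpr h)

theorem lastle_val (hf : Continuous f) (h0 : f 0 ≤ l) (h : l < f T) : f (lastle f l T) = l := by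
  obtain ⟨h1, h2⟩ := lastle_mem (T := T) hf h0
  refine le_antisymm h2 ?_
  have hlt := lastle_lt hf h0 h
  have htend : Tendsto f (𝓝[>] (lastle f l T)) (𝓝 (f (lastle f l T))) :=
    hf.continuousAt.mono_left nhdsWithin_le_nhds
  refine ge_of_tendsto htend ?_
  filter_upwards [Ioc_mem_nhdsGT hlt] with s hs
  exact (gt_of_lastle_lt hs.2 hs.1).le

theorem lastle_mono {l' : ℝ} (hf : Continuous f) (h0 : f 0 ≤ l) (h : l ≤ l') :
    lastle f l T ≤ lastle f l' T := by
  obtain ⟨h1, h2⟩ := lastle_mem (T := T) hf h0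
  exact le_lastle h1 (h2.trans h)

/-- telescoping with an initial block -/
theorem tele_block (y : ℕ → ℝ) (c : ℕ → ℝ) (J N : ℕ) (hJ : J ≤ N)
    (h1 : ∀ i < J, c i = 1) (h2 : ∀ i, J ≤ i → i < N → c i = 0) :
    ∑ i ∈ Finset.range N, c i * (y (i+1) - y i) = y J - y 0 := by
  obtain ⟨M, rfl⟩ := Nat.exists_eq_add_of_le hJ
  rw [Finset.sum_range_add]
  have e1 : ∑ i ∈ Finset.range J, c i * (y (i+1) - y i) = y J - y 0 := by
    rw [← Finset.sum_range_sub y]
    refine Finset.sum_congr rfl (fun i hi => ?_)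
    rw [h1 i (Finset.mem_range.mp hi), one_mul]
  have e2 : ∑ i ∈ Finset.range M, c (J + i) * (y (J + i + 1) - y (J + i)) = 0 := by
    refine Finset.sum_eq_zero (fun i hi => ?_)
    have := Finset.mem_range.mp hi
    rw [h2 (J+i) (by omega) (by omega), zero_mul]
  rw [e1, e2, add_zero]

theorem stop_path {y : ℝ≥0 → ℝ} (hy : Continuous y) (hf : Continuous f) (hm : Monotone f)
    (h0 : f 0 ≤ l) :
    Tendsto (fun n => ∑ i ∈ Finset.range (2^n),
      (if f (gr 0 T n i) ≤ l then (1:ℝ) else 0) * (y (gr 0 T n (i+1)) - y (gr 0 T n i)))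
      atTop (𝓝 (y (lastle f l T) - y 0)) := by
  classical
  set σ := lastle f l T with hσ
  obtain ⟨hσ1, hσ2⟩ := lastle_mem (T := T) hf h0
  have hex : ∀ n : ℕ, ∃ J ≤ 2^n, (∀ i < J, f (gr 0 T n i) ≤ l) ∧
      (∀ i, J ≤ i → i < 2^n → ¬ f (gr 0 T n i) ≤ l) ∧ 1 ≤ J ∧ (J < 2^n → l < f (gr 0 T n J)) := by
    intro n
    have hfin : ∃ J, J = 2^n ∨ ¬ f (gr 0 T n J) ≤ l := ⟨2^n, Or.inl rfl⟩
    set J := Nat.find hfin with hJ
    have hJs := Nat.find_spec hfin
    have hJm : ∀ i < J, ¬ (i = 2^n ∨ ¬ f (gr 0 T n i) ≤ l) := fun i hi => Nat.find_min hfin hi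
    have hJle : J ≤ 2^n := Nat.find_min' hfin (Or.inl rfl)
    refine ⟨J, hJle, fun i hi => ?_, fun i hi1 hi2 => ?_, ?_, fun hlt => ?_⟩
    · have := hJm i hi
      push Not at this
      exact this.2
    · rcases hJs with h | h
      · have h3 : J = 2^n := h
        omega
      · intro hcon
        exact h ((hm (gr_mono 0 T n hi1)).trans hcon)
    · by_contra hcon
      have hJ0 : J = 0 := by omega
      rcases hJs with h | h
      · have : 0 < 2^n := Nat.two_pow_pos n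
        omega
      · have h3 : ¬ f (gr 0 T n J) ≤ l := h
        rw [hJ0, gr_zero] at h3
        exact h3 h0
    · rcases hJs with h | h
      · exact absurd hlt (by rw [hJ, h]; exact lt_irrefl _)
      · exact not_le.mp h
  choose J hJle hJ1 hJ2 hJpos hJlt using hex
  have hsum : ∀ n, ∑ i ∈ Finset.range (2^n),
      (if f (gr 0 T n i) ≤ l then (1:ℝ) else 0) * (y (gr 0 T n (i+1)) - y (gr 0 T n i))
      = y (gr 0 T n (J n)) - y 0 := by
    intro n
    have := tele_block (fun i => y (gr 0 T n i))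
      (fun i => if f (gr 0 T n i) ≤ l then (1:ℝ) else 0) (J n) (2^n) (hJle n)
      (fun i hi => if_pos (hJ1 n i hi)) (fun i h1 h2 => if_neg (hJ2 n i h1 h2))
    rw [this, gr_zero]
  simp_rw [hsum]
  refine Tendsto.sub_const ?_ _
  refine (hy.tendsto σ).comp ?_
  rw [tendsto_iff_dist_tendsto_zero]
  have hmesh : Tendsto (fun n : ℕ => ((T / 2^n : ℝ≥0) : ℝ)) atTop (𝓝 0) := by
    have := (NNReal.tendsto_coe.mpr (tendsto_mesh T))
    simpa using this
  refine squeeze_zero (fun n => dist_nonneg) (fun n => ?_) hmesh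
  obtain ⟨i, hi⟩ : ∃ i, J n = i + 1 := ⟨J n - 1, by have := hJpos n; omega⟩
  have hs : gr 0 T n (J n) = gr 0 T n i + T/2^n := by rw [hi, gr_succ]
  have hle : gr 0 T n i ≤ T := by
    have := gr_le 0 T (n := n) (i := i) (by have := hJle n; omega)
    rwa [zero_add] at this
  have h3 : gr 0 T n i ≤ σ := le_lastle hle (hJ1 n i (by omega))
  have h4 : σ ≤ gr 0 T n (J n) := by
    rcases Nat.lt_or_ge (J n) (2^n) with h5 | h5
    · by_contra hcon
      push Not at hcon
      have h6 := hJlt n h5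
      have h7 : f (gr 0 T n (J n)) ≤ l := (hm hcon.le).trans hσ2
      linarith
    · have : J n = 2^n := le_antisymm (hJle n) h5
      rw [this, gr_end, zero_add]; exact hσ1
  rw [NNReal.dist_eq, abs_le]
  have h3' : ((gr 0 T n i : ℝ≥0):ℝ) ≤ σ := by exact_mod_cast h3
  have h4' : (σ:ℝ) ≤ gr 0 T n (J n) := by exact_mod_cast h4
  have hs' : ((gr 0 T n (J n) : ℝ≥0):ℝ) = gr 0 T n i + (T/2^n : ℝ≥0) := by
    rw [hs]; push_cast; ring
  constructor <;> linarith

end det

variable {Ω : Type*} {mΩ : MeasurableSpace Ω} {P : Measure Ω} {𝓕 : Filtration ℝ≥0 mΩ}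

/-- optional stopping at the last time the increasing process is at most `l` -/
theorem stop_zero [IsProbabilityMeasure P] {Y L : ℝ≥0 → Ω → ℝ} (hY : Mart 𝓕 P Y)
    (hLa : ∀ t, Measurable[𝓕 t] (L t)) (hLc : ∀ ω, Continuous (fun t => L t ω))
    (hLm : ∀ᵐ ω ∂P, Monotone (fun t => L t ω)) (hL0 : ∀ ω, L 0 ω = 0) {l : ℝ} (hl : 0 ≤ l)
    (T : ℝ≥0) :
    Integrable (fun ω => Y (lastle (fun t => L t ω) l T) ω) P ∧
    ∫ ω, Y (lastle (fun t => L t ω) l T) ω ∂P = 0 := by
  set H : ℕ → ℕ → Ω → ℝ := fun n i ω => if L (gr 0 T n i) ω ≤ l then (1:ℝ) else 0 with hH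
  have hHm : ∀ n i, Measurable[𝓕 (gr 0 T n i)] (H n i) := by
    intro n i
    have hs : MeasurableSet[𝓕 (gr 0 T n i)] {ω | L (gr 0 T n i) ω ≤ l} :=
      (hLa (gr 0 T n i)) measurableSet_Iic
    exact Measurable.ite hs measurable_const measurable_const
  have hHb : ∀ n i ω, |H n i ω| ≤ 1 := by
    intro n i ω
    simp only [hH]
    split_ifs <;> simp
  have hinc : ∀ n, MInc (𝓕 0) P (fun ω => ∑ i ∈ Finset.range (2^n),
      H n i ω * (Y (gr 0 T n (i+1)) ω - Y (gr 0 T n i) ω)) (∫ ω, (Y T ω)^2 ∂P) := by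
    intro n
    have h1 := hY.gsum (gr_mono 0 T n) (hHm n) (hHb n) (2^n)
    rw [gr_zero, gr_end, zero_add] at h1
    refine h1.mono_c ?_
    simp [hY.zero]
  have hlim : ∀ᵐ ω ∂P, Tendsto (fun n => ∑ i ∈ Finset.range (2^n),
      H n i ω * (Y (gr 0 T n (i+1)) ω - Y (gr 0 T n i) ω)) atTop
      (𝓝 (Y (lastle (fun t => L t ω) l T) ω)) := by
    filter_upwards [hLm] with ω hω
    have h1 := stop_path (y := fun t => Y t ω) (f := fun t => L t ω) (l := l) (T := T)
      (hY.cont ω) (hLc ω) hω (by rw [hL0]; exact hl)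
    rw [hY.zero, sub_zero] at h1
    exact h1
  have hmeas : AEStronglyMeasurable (fun ω => Y (lastle (fun t => L t ω) l T) ω) P :=
    aestronglyMeasurable_of_tendsto_ae _ (fun n => (hinc n).memLp.1) hlim
  have hfin := MInc.of_tim (𝓕.le 0) hinc tendsto_const_nhds
    (D' := fun ω => Y (lastle (fun t => L t ω) l T) ω)
    (TZ.of_tendsto_ae (fun n => ((hinc n).memLp.1.sub hmeas)) (by
      filter_upwards [hlim] with ω hω
      have := hω.sub_const (Y (lastle (fun t => L t ω) l T) ω)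
      simpa using this))
  exact ⟨hfin.integrable, hfin.integral_eq_zero⟩

end Pool.Agent.SkewBM
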