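import Pool.Agent.Lib.MP_e34d70_pr.Ito

open MeasureTheory Filter ProbabilityTheory
open scoped NNReal ENNReal Topology

namespace Pool.Agent.SkewBM

/-- admissible parameters of a trapezoid with a hole -/
structure Par where
  ρ : ℝ
  a : ℝ
  b : ℝ
  hρ : 0 < ρ
  ha : 2 * ρ < a
  hb : a < b

namespace Par

variable (p q : Par)

theorem apos : 0 < p.a := by have := p.hρ; have := p.ha; linarith
theorem bpos : 0 < p.b := by have := p.apos; have := p.hb; linarith
theorem ba : 0 < p.b - p.a := by have := p.hb; linarith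
theorem ρb : p.ρ < p.b := by have := p.hρ; have := p.ha; have := p.hb; linarith

/-- trapezoid with a hole at zero -/
noncomputable def tau (x : ℝ) : ℝ :=
  max 0 (min (min ((|x| - p.ρ) / p.ρ) 1) ((p.b - |x|) / (p.b - p.a)))

theorem tau_nonneg (x : ℝ) : 0 ≤ p.tau x := le_max_left _ _

theorem tau_le_one (x : ℝ) : p.tau x ≤ 1 :=
  max_le zero_le_one ((min_le_left _ _).trans (min_le_right _ _))

theorem tau_neg (x : ℝ) : p.tau (-x) = p.tau x := by simp [tau]

theorem tau_zero_of_le {x : ℝ} (h : |x| ≤ p.ρ) : p.tau x = 0 := by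
  refine max_eq_left ((min_le_left _ _).trans ((min_le_left _ _).trans ?_))
  exact div_nonpos_of_nonpos_of_nonneg (by linarith) p.hρ.le

theorem tau_zero_of_ge {x : ℝ} (h : p.b ≤ |x|) : p.tau x = 0 := by
  refine max_eq_left ((min_le_right _ _).trans ?_)
  exact div_nonpos_of_nonpos_of_nonneg (by linarith) p.ba.le

theorem tau_one {x : ℝ} (h1 : 2 * p.ρ ≤ |x|) (h2 : |x| ≤ p.a) : p.tau x = 1 := by
  refine le_antisymm (p.tau_le_one x) (le_max_of_le_right (le_min (le_min ?_ le_rfl) ?_))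
  · rw [le_div_iff₀ p.hρ]; linarith
  · rw [le_div_iff₀ p.ba]; linarith

theorem tau_lip (x y : ℝ) : |p.tau x - p.tau y| ≤ (1 / p.ρ + 1 / (p.b - p.a)) * |x - y| := by
  have hρ := p.hρ
  have hba := p.ba
  have h0 : |(|x| - |y|)| ≤ |x - y| := abs_abs_sub_abs_le x y
  have h1 : |(|x| - p.ρ) / p.ρ - (|y| - p.ρ) / p.ρ| ≤ (1 / p.ρ + 1 / (p.b - p.a)) * |x - y| := by
    have e : (|x| - p.ρ) / p.ρ - (|y| - p.ρ) / p.ρ = (1/p.ρ) * (|x| - |y|) := by ring
    rw [e, abs_mul, abs_of_pos (by positivity : 0 < 1 / p.ρ)]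
    have h2 : (1 / p.ρ) * |(|x| - |y|)| ≤ (1/p.ρ) * |x - y| :=
      mul_le_mul_of_nonneg_left h0 (by positivity)
    have h3 : 0 ≤ 1 / (p.b - p.a) * |x - y| := by positivity
    linarith
  have h2 : |(p.b - |x|) / (p.b - p.a) - (p.b - |y|) / (p.b - p.a)|
      ≤ (1 / p.ρ + 1 / (p.b - p.a)) * |x - y| := by
    have e : (p.b - |x|) / (p.b - p.a) - (p.b - |y|) / (p.b - p.a)
        = (1/(p.b - p.a)) * (-(|x| - |y|)) := by ring
    rw [e, abs_mul, abs_neg, abs_of_pos (by positivity : 0 < 1 / (p.b - p.a))]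
    have h2 : (1 / (p.b - p.a)) * |(|x| - |y|)| ≤ (1/(p.b - p.a)) * |x - y| :=
      mul_le_mul_of_nonneg_left h0 (by positivity)
    have h3 : 0 ≤ 1 / p.ρ * |x - y| := by positivity
    linarith
  unfold tau
  refine (abs_max_sub_max_le_max _ _ _ _).trans (max_le ?_ ?_)
  · simp only [sub_self, abs_zero]; positivity
  · refine (abs_min_sub_min_le_max _ _ _ _).trans (max_le ?_ h2)
    refine (abs_min_sub_min_le_max _ _ _ _).trans (max_le h1 ?_)
    simp only [sub_self, abs_zero]; positivity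

theorem tau_cont : Continuous p.tau := by
  unfold tau
  fun_prop

/-- the primitive of the trapezoid -/
noncomputable def Phi (x : ℝ) : ℝ := ∫ t in (0:ℝ)..x, p.tau t

theorem Phi_deriv (x : ℝ) : HasDerivAt p.Phi (p.tau x) x :=
  intervalIntegral.integral_hasDerivAt_right (p.tau_cont.intervalIntegrable _ _)
    p.tau_cont.aestronglyMeasurable.stronglyMeasurableAtFilter p.tau_cont.continuousAt

theorem Phi_zero : p.Phi 0 = 0 := by simp [Phi]

theorem Phi_neg (x : ℝ) : p.Phi (-x) = - p.Phi x := by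
  unfold Phi
  have h := intervalIntegral.integral_comp_neg (a := 0) (b := x) (fun t => p.tau t)
  simp only [neg_zero, p.tau_neg] at h
  rw [intervalIntegral.integral_symm, h]

theorem Phi_sub (x y : ℝ) : p.Phi y - p.Phi x = ∫ t in x..y, p.tau t :=
  intervalIntegral.integral_interval_sub_left (p.tau_cont.intervalIntegrable _ _)
    (p.tau_cont.intervalIntegrable _ _)

theorem Phi_mono : Monotone p.Phi := by
  intro x y hxy
  have h1 := p.Phi_sub x y
  have h2 : 0 ≤ ∫ t in x..y, p.tau t :=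
    intervalIntegral.integral_nonneg hxy (fun u _ => p.tau_nonneg u)
  linarith

theorem Phi_of_ge {x : ℝ} (h : p.b ≤ x) : p.Phi x = p.Phi p.b := by
  have h1 := p.Phi_sub p.b x
  have h2 : ∫ t in p.b..x, p.tau t = ∫ t in p.b..x, (0:ℝ) := by
    refine intervalIntegral.integral_congr (fun t ht => ?_)
    rw [Set.uIcc_of_le h] at ht
    exact p.tau_zero_of_ge (ht.1.trans (le_abs_self t))
  rw [h2] at h1
  simp only [intervalIntegral.integral_zero] at h1
  linarith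

theorem Phi_of_le_pos {x : ℝ} (h0 : 0 ≤ x) (h : x ≤ p.ρ) : p.Phi x = 0 := by
  unfold Phi
  have h2 : ∫ t in (0:ℝ)..x, p.tau t = ∫ t in (0:ℝ)..x, (0:ℝ) := by
    refine intervalIntegral.integral_congr (fun t ht => ?_)
    rw [Set.uIcc_of_le h0] at ht
    exact p.tau_zero_of_le (by rw [abs_of_nonneg ht.1]; exact ht.2.trans h)
  rw [h2]; simp

theorem Phi_of_abs_le {x : ℝ} (h : |x| ≤ p.ρ) : p.Phi x = 0 := by
  rcases le_total 0 x with h0 | h0
  · exact p.Phi_of_le_pos h0 (by rwa [abs_of_nonneg h0] at h)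
  · have h1 := p.Phi_of_le_pos (x := -x) (by linarith) (by rwa [abs_of_nonpos h0] at h)
    rw [Phi_neg] at h1
    linarith

/-- normalisation -/
noncomputable def mm : ℝ := p.Phi p.b

theorem mm_le : p.mm ≤ p.b := by
  have h1 : p.Phi p.b ≤ ∫ t in (0:ℝ)..p.b, (1:ℝ) :=
    intervalIntegral.integral_mono_on p.bpos.le (p.tau_cont.intervalIntegrable _ _)
      (by simp) (fun t _ => p.tau_le_one t)
  unfold mm
  simpa using h1

theorem le_mm : p.a - 2 * p.ρ ≤ p.mm := by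
  have h1 := p.Phi_mono p.hb.le
  have h2 := p.Phi_sub (2 * p.ρ) p.a
  have h3 : ∫ t in (2 * p.ρ)..p.a, p.tau t = ∫ t in (2*p.ρ)..p.a, (1:ℝ) := by
    refine intervalIntegral.integral_congr (fun t ht => ?_)
    rw [Set.uIcc_of_le p.ha.le] at ht
    have ht0 : 0 ≤ t := by have := p.hρ; linarith [ht.1]
    exact p.tau_one (by rw [abs_of_nonneg ht0]; exact ht.1) (by rw [abs_of_nonneg ht0]; exact ht.2)
  rw [h3] at h2
  simp only [intervalIntegral.integral_const, smul_eq_mul, mul_one] at h2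
  have h4 : 0 ≤ p.Phi (2 * p.ρ) := by
    have := p.Phi_mono (show (0:ℝ) ≤ 2 * p.ρ by have := p.hρ; linarith)
    rwa [p.Phi_zero] at this
  unfold mm
  linarith

theorem mm_pos : 0 < p.mm := by have := p.le_mm; have := p.ha; linarith

noncomputable def psi (x : ℝ) : ℝ := p.tau x / p.mm
noncomputable def Fp (x : ℝ) : ℝ := p.Phi x / p.mm
noncomputable def FF (x : ℝ) : ℝ := ∫ t in (0:ℝ)..x, p.Fp t

theorem psi_nonneg (x : ℝ) : 0 ≤ p.psi x := div_nonneg (p.tau_nonneg x) p.mm_pos.le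
theorem psi_le (x : ℝ) : p.psi x ≤ 1 / p.mm := by
  unfold psi; have := p.mm_pos; gcongr; exact p.tau_le_one x
theorem psi_of_ge {x : ℝ} (h : p.b ≤ |x|) : p.psi x = 0 := by simp [psi, p.tau_zero_of_ge h]
theorem psi_one {x : ℝ} (h1 : 2 * p.ρ ≤ |x|) (h2 : |x| ≤ p.a) : p.psi x = 1 / p.mm := by
  simp [psi, p.tau_one h1 h2]
theorem psi_cont : Continuous p.psi := p.tau_cont.div_const _

theorem Fp_deriv (x : ℝ) : HasDerivAt p.Fp (p.psi x) x := (p.Phi_deriv x).div_const _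

theorem Fp_cont : Continuous p.Fp :=
  continuous_iff_continuousAt.mpr (fun x => (p.Fp_deriv x).continuousAt)

theorem FF_deriv (x : ℝ) : HasDerivAt p.FF (p.Fp x) x :=
  intervalIntegral.integral_hasDerivAt_right (p.Fp_cont.intervalIntegrable _ _)
    p.Fp_cont.aestronglyMeasurable.stronglyMeasurableAtFilter p.Fp_cont.continuousAt

theorem FF_cont : Continuous p.FF :=
  continuous_iff_continuousAt.mpr (fun x => (p.FF_deriv x).continuousAt)

theorem Fp_neg (x : ℝ) : p.Fp (-x) = - p.Fp x := by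
  unfold Fp; rw [Phi_neg]; ring

theorem Fp_mono : Monotone p.Fp := fun x y h => by
  unfold Fp; have := p.mm_pos; gcongr; exact p.Phi_mono h

theorem Fp_zero : p.Fp 0 = 0 := by simp [Fp, p.Phi_zero]

theorem Fp_nonneg {x : ℝ} (h : 0 ≤ x) : 0 ≤ p.Fp x := by
  rw [← p.Fp_zero]; exact p.Fp_mono h

theorem Fp_of_ge {x : ℝ} (h : p.b ≤ x) : p.Fp x = 1 := by
  unfold Fp; rw [p.Phi_of_ge h]; exact div_self p.mm_pos.ne'

theorem Fp_of_abs_le {x : ℝ} (h : |x| ≤ p.ρ) : p.Fp x = 0 := by simp [Fp, p.Phi_of_abs_le h]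

theorem Fp_le_one (x : ℝ) : p.Fp x ≤ 1 := by
  rcases le_total x p.b with h | h
  · have := p.Fp_mono h; rwa [p.Fp_of_ge le_rfl] at this
  · rw [p.Fp_of_ge h]

theorem abs_Fp_le (x : ℝ) : |p.Fp x| ≤ 1 := by
  rw [abs_le]
  refine ⟨?_, p.Fp_le_one x⟩
  have := p.Fp_le_one (-x)
  rw [Fp_neg] at this
  linarith

theorem Fp_abs (x : ℝ) : (p.Fp x)^2 = (p.Fp |x|)^2 := by
  rcases le_total 0 x with h | h
  · rw [abs_of_nonneg h]
  · rw [abs_of_nonpos h, Fp_neg, neg_sq]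

theorem Fp_sq_le (x : ℝ) : (p.Fp x)^2 ≤ 1 := by
  rw [sq_le_one_iff_abs_le_one]; exact p.abs_Fp_le x

theorem Fp_sq_of_ge {x : ℝ} (h : p.b ≤ |x|) : (p.Fp x)^2 = 1 := by
  rw [Fp_abs, p.Fp_of_ge h]; norm_num

theorem FF_zero : p.FF 0 = 0 := by simp [FF]

theorem FF_neg (x : ℝ) : p.FF (-x) = p.FF x := by
  unfold FF
  have h := intervalIntegral.integral_comp_neg (a := 0) (b := x) (fun t => p.Fp t)
  simp only [neg_zero, p.Fp_neg, intervalIntegral.integral_neg] at h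
  rw [intervalIntegral.integral_symm, ← h]
  ring

theorem FF_sub (x y : ℝ) : p.FF y - p.FF x = ∫ t in x..y, p.Fp t :=
  intervalIntegral.integral_interval_sub_left (p.Fp_cont.intervalIntegrable _ _)
    (p.Fp_cont.intervalIntegrable _ _)

theorem FF_nonneg' {x : ℝ} (h : 0 ≤ x) : 0 ≤ p.FF x :=
  intervalIntegral.integral_nonneg h (fun _ hu => p.Fp_nonneg hu.1)

theorem FF_le' {x : ℝ} (h : 0 ≤ x) : p.FF x ≤ x := by
  have h1 : p.FF x ≤ ∫ t in (0:ℝ)..x, (1:ℝ) :=
    intervalIntegral.integral_mono_on h (p.Fp_cont.intervalIntegrable _ _)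
      (by simp) (fun t _ => p.Fp_le_one t)
  simpa using h1

theorem le_FF' {x : ℝ} (h : 0 ≤ x) : x - p.b ≤ p.FF x := by
  rcases le_total x p.b with h1 | h1
  · have := p.FF_nonneg' h; linarith
  · have h2 := p.FF_sub p.b x
    have h3 : ∫ t in p.b..x, p.Fp t = ∫ t in p.b..x, (1:ℝ) := by
      refine intervalIntegral.integral_congr (fun t ht => ?_)
      rw [Set.uIcc_of_le h1] at ht
      exact p.Fp_of_ge ht.1
    rw [h3] at h2
    simp only [intervalIntegral.integral_const, smul_eq_mul, mul_one] at h2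
    have := p.FF_nonneg' p.bpos.le
    linarith

theorem FF_abs (x : ℝ) : p.FF |x| = p.FF x := by
  rcases le_total 0 x with h | h
  · rw [abs_of_nonneg h]
  · rw [abs_of_nonpos h, FF_neg]

theorem FF_nonneg (x : ℝ) : 0 ≤ p.FF x := by rw [← FF_abs]; exact p.FF_nonneg' (abs_nonneg x)
theorem FF_le (x : ℝ) : p.FF x ≤ |x| := by rw [← FF_abs]; exact p.FF_le' (abs_nonneg x)
theorem le_FF (x : ℝ) : |x| - p.b ≤ p.FF x := by rw [← FF_abs]; exact p.le_FF' (abs_nonneg x)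

theorem tf : TF p.FF p.Fp p.psi 1 (1 / p.mm) ((1 / p.ρ + 1 / (p.b - p.a)) / p.mm) p.ρ where
  dF := p.FF_deriv
  dF' := p.Fp_deriv
  bF' := p.abs_Fp_le
  bψ x := by rw [abs_of_nonneg (p.psi_nonneg x)]; exact p.psi_le x
  lψ x y := by
    have h1 : p.psi x - p.psi y = (p.tau x - p.tau y) / p.mm := by unfold psi; ring
    have h2 := p.mm_pos
    rw [h1, abs_div, abs_of_pos h2, div_mul_eq_mul_div]
    gcongr
    exact p.tau_lip x y
  ρpos := p.hρ
  zero x h := ⟨p.Fp_of_abs_le h.le, by simp [psi, p.tau_zero_of_le h.le]⟩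

/-- nested trapezoids -/
theorem nest (h : p.b ≤ q.ρ) (x : ℝ) : (p.Fp x - q.Fp x)^2 ≤ (p.Fp x)^2 - (q.Fp x)^2 := by
  have key : ∀ y : ℝ, 0 ≤ y → (p.Fp y - q.Fp y)^2 ≤ (p.Fp y)^2 - (q.Fp y)^2 := by
    intro y hy
    rcases le_total y q.ρ with h1 | h1
    · rw [q.Fp_of_abs_le (by rwa [abs_of_nonneg hy])]; simp
    · rw [p.Fp_of_ge (h.trans h1)]
      have h2 := q.Fp_nonneg hy
      have h3 := q.Fp_le_one y
      nlinarith
  rcases le_total 0 x with h0 | h0
  · exact key x h0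
  · have h1 := key (-x) (by linarith)
    rw [p.Fp_neg, q.Fp_neg] at h1
    nlinarith

end Par

theorem TF.sub {F F' ψ G G' χ : ℝ → ℝ} {C₁ C₂ C₃ ρ D₁ D₂ D₃ σ : ℝ} (h : TF F F' ψ C₁ C₂ C₃ ρ)
    (h' : TF G G' χ D₁ D₂ D₃ σ) :
    TF (fun x => F x - G x) (fun x => F' x - G' x) (fun x => ψ x - χ x) (C₁ + D₁) (C₂ + D₂)
      (C₃ + D₃) (min ρ σ) where
  dF x := (h.dF x).sub (h'.dF x)
  dF' x := (h.dF' x).sub (h'.dF' x)
  bF' x := (abs_sub _ _).trans (add_le_add (h.bF' x) (h'.bF' x))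
  bψ x := (abs_sub _ _).trans (add_le_add (h.bψ x) (h'.bψ x))
  lψ x y := by
    have e : ψ x - χ x - (ψ y - χ y) = (ψ x - ψ y) - (χ x - χ y) := by ring
    rw [e, add_mul]
    exact (abs_sub _ _).trans (add_le_add (h.lψ x y) (h'.lψ x y))
  ρpos := lt_min h.ρpos h'.ρpos
  zero x hx := by
    obtain ⟨h1, h2⟩ := h.zero x (lt_of_lt_of_le hx (min_le_left _ _))
    obtain ⟨h3, h4⟩ := h'.zero x (lt_of_lt_of_le hx (min_le_right _ _))
    exact ⟨by rw [h1, h3, sub_zero], by rw [h2, h4, sub_zero]⟩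

end Pool.Agent.SkewBM
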