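import Pool.Agent.Lib.MP_e34d70_pr.Red
import Pool.Agent.Lib.MP_e34d70_pr.EulerM

open MeasureTheory Filter ProbabilityTheory
open scoped NNReal ENNReal Topology

namespace Pool.Agent.SkewBM

universe u

variable {Ω : Type u} {mΩ : MeasurableSpace Ω} {P : Measure Ω} {𝓕 𝓖 : Filtration ℝ≥0 mΩ}
variable {B X Y K K' L L' : ℝ≥0 → Ω → ℝ} {φ : ℝ → ℝ}

theorem SD.eq_sk (h : SD 𝓕 P B φ X K L) :
    ∀ᵐ ω ∂P, ∀ t, L t ω = sk |φ 0| (fun u => K u ω) t := by
  filter_upwards [h.Lm, h.flat, h.habs] with ω h1 h2 h3 t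
  refine eq_sk_of_flat (h.hK.cont ω) (h.Lc ω) (h.L0 ω) h1 (fun s => ?_) (fun r s hrs hne => ?_) t
  · rw [← h3 s]; exact abs_nonneg _
  · refine h2 r s hrs (fun v hv1 hv2 h4 => hne v hv1 hv2 ?_)
    rw [← h3 v, h4, abs_zero]

theorem SD.dist_euler [IsProbabilityMeasure P] (h : SD 𝓕 P B φ X K L)
    (hφ : ∀ x y, |φ x - φ y| ≤ |x - y|) (T : ℝ≥0) {ε : ℝ} (hε : 0 < ε) :
    ∀ᶠ n in atTop, ∫ ω, |KE φ |φ 0| (fun u => B u ω) n T - K T ω| ∂P ≤ ε := by
  have hφm := (lip_measurable hφ).measurable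
  obtain ⟨γ, hγ, p, hp, hmain⟩ := lemmaA_eps T hε
  have ho : 0 < γ / 6 := by positivity
  have h1 := (badE_tendsto h.hB ho T).eventually (gt_mem_nhds hp)
  filter_upwards [h1] with n hn
  refine hmain (x₀ := |φ 0|) h.hK (KE_mart h.hB hφm n) hφ (abs_nonneg _) (h.hup T)
    (KE_sq h.hB hφm n T) (A := badE B (γ/6) T n) (badE_meas h.hB _ _ _) hn.le (B := B) ?_
  filter_upwards [h.eq_sk, h.eqn, h.habs] with ω h2 h3 h4 hω
  have e : 6 * (γ/6) = γ := by ring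
  have d1 := KE_defect n hφ rfl (h.hB.cont ω) (h.hB.zero ω) ho.le T (badE_osc h.hB hω)
  rw [e] at d1
  refine ⟨fun v hv => ?_, d1⟩
  have h5 := h3 v
  rw [h2 v] at h5
  have h6 := h4 v
  rw [h2 v] at h6
  rw [← h5, h6, sub_self, abs_zero]
  exact hγ.le

theorem SD.unique [IsProbabilityMeasure P] (h : SD 𝓕 P B φ X K L) (h' : SD 𝓖 P B φ Y K' L')
    (hφ : ∀ x y, |φ x - φ y| ≤ |x - y|) : ∀ᵐ ω ∂P, ∀ t, X t ω = Y t ω := by
  have hφm := (lip_measurable hφ).measurable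
  have hKK : ∀ᵐ ω ∂P, ∀ t, K t ω = K' t ω := by
    refine ae_all_of_cont h.hK.cont h'.hK.cont (fun T => ?_)
    have hi : Integrable (fun ω => |K T ω - K' T ω|) P :=
      (((h.hK.memLp T).sub (h'.hK.memLp T)).integrable (by norm_num)).abs
    have h0 : ∫ ω, |K T ω - K' T ω| ∂P ≤ 0 := by
      refine le_of_forall_pos_le_add (fun ε hε => ?_)
      rw [zero_add]
      obtain ⟨n, hn1, hn2⟩ := ((h.dist_euler hφ T (half_pos hε)).and
        (h'.dist_euler hφ T (half_pos hε))).exists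
      have hE := (KE_mart (x₀ := |φ 0|) h.hB hφm n).memLp T
      have i1 : Integrable (fun ω => |KE φ |φ 0| (fun u => B u ω) n T - K T ω|) P :=
        ((hE.sub (h.hK.memLp T)).integrable (by norm_num)).abs
      have i2 : Integrable (fun ω => |KE φ |φ 0| (fun u => B u ω) n T - K' T ω|) P :=
        ((hE.sub (h'.hK.memLp T)).integrable (by norm_num)).abs
      calc ∫ ω, |K T ω - K' T ω| ∂P
          ≤ ∫ ω, (|KE φ |φ 0| (fun u => B u ω) n T - K T ω|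
            + |KE φ |φ 0| (fun u => B u ω) n T - K' T ω|) ∂P := by
            refine integral_mono hi (i1.add i2) (fun ω => ?_)
            simp only
            have := abs_sub_le (K T ω) (KE φ |φ 0| (fun u => B u ω) n T) (K' T ω)
            rwa [abs_sub_comm (K T ω) (KE φ |φ 0| (fun u => B u ω) n T)] at this
        _ ≤ ε / 2 + ε / 2 := by
            rw [integral_add i1 i2]
            exact add_le_add hn1 hn2
        _ = ε := by ring
    have h1 : ∫ ω, |K T ω - K' T ω| ∂P = 0 :=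
      le_antisymm h0 (integral_nonneg fun ω => abs_nonneg _)
    rw [integral_eq_zero_iff_of_nonneg (fun ω => abs_nonneg _) hi] at h1
    filter_upwards [h1] with ω hω
    have h2 : |K T ω - K' T ω| = 0 := hω
    linarith [abs_eq_zero.mp h2]
  filter_upwards [hKK, h.eq_sk, h'.eq_sk, h.eqn, h'.eqn] with ω h1 h2 h3 h4 h5 t
  have e : (fun u => K u ω) = fun u => K' u ω := funext h1
  rw [h4, h5, h2, h3, e]

theorem lip_ext {ψ : ℝ≥0 → ℝ} (h : ∀ s t : ℝ≥0, |ψ s - ψ t| ≤ |(s:ℝ) - t|) (x y : ℝ) :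
    |ψ x.toNNReal - ψ y.toNNReal| ≤ |x - y| := by
  refine (h _ _).trans ?_
  rw [Real.coe_toNNReal', Real.coe_toNNReal']
  refine (abs_max_sub_max_le_max _ _ _ _).trans ?_
  simp

/-- pathwise uniqueness for 1-Lipschitz coefficients -/
theorem pathwiseUnique {ψ : ℝ≥0 → ℝ} (h : ∀ s t : ℝ≥0, |ψ s - ψ t| ≤ |(s:ℝ) - t|) :
    PathwiseUnique.{u} ψ := by
  intro Ω m P 𝓕 𝓖 B X Y hP hU hU' hB hB' hX hY
  obtain ⟨K, L, h1⟩ := sd_of hU hB hX
  obtain ⟨K', L', h2⟩ := sd_of hU' hB' hY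
  have h3 := h1.unique h2 (lip_ext h)
  have h4 : ∀ᵐ ω ∂P, ω ∈ gX X := hX.cont
  have h5 : ∀ᵐ ω ∂P, ω ∈ gX Y := hY.cont
  filter_upwards [h3, reg_ae h4 X, reg_ae h5 Y] with ω h6 h7 h8 t
  rw [← h7, ← h8, h6]

end Pool.Agent.SkewBM
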